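import Pool.Agent.Work.LRSHedge.GL

/-!
Block structure of composites of q-polynomials.
-/

set_option autoImplicit false

namespace Pool.Agent.Work.MP_a1538a_al.Par

open Finset MvPolynomial Hedge

section Blocks

/-- Partial sums. -/
def ps (β : ℕ → ℕ) (κ : ℕ) : ℕ := ∑ r ∈ range κ, β r

lemma ps_succ (β : ℕ → ℕ) (κ : ℕ) : ps β (κ + 1) = ps β κ + β κ := Finset.sum_range_succ _ _

@[simp] lemma ps_zero (β : ℕ → ℕ) : ps β 0 = 0 := rfl

lemma ps_mono (β : ℕ → ℕ) : Monotone (ps β) :=
  monotone_nat_of_le_succ fun κ => by rw [ps_succ]; omega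

/-- The block containing an index. -/
noncomputable def bk (β : ℕ → ℕ) (j : ℕ) : ℕ := sInf {κ | j < ps β (κ + 1)}

lemma bk_eq {β : ℕ → ℕ} {j κ : ℕ} (h1 : ps β κ ≤ j) (h2 : j < ps β (κ + 1)) : bk β j = κ := by
  refine le_antisymm (Nat.sInf_le h2) (not_lt.mp fun h => ?_)
  have h3 : j < ps β (bk β j + 1) := Nat.sInf_mem (s := {κ | j < ps β (κ + 1)}) ⟨κ, h2⟩
  have := ps_mono β (show bk β j + 1 ≤ κ from h)
  omega

lemma bk_spec {β : ℕ → ℕ} {j l : ℕ} (h : j < ps β l) :
    bk β j < l ∧ ps β (bk β j) ≤ j ∧ j < ps β (bk β j + 1) := by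
  induction l with
  | zero => simp at h
  | succ l ih =>
    by_cases h1 : j < ps β l
    · exact ⟨by have := (ih h1).1; omega, (ih h1).2⟩
    · rw [bk_eq (not_lt.mp h1) h]; exact ⟨by omega, not_lt.mp h1, h⟩

lemma bk_lt_iff {β : ℕ → ℕ} {j l : ℕ} (h : j < ps β l) (κ : ℕ) : bk β j < κ ↔ j < ps β κ := by
  obtain ⟨_, h2, h3⟩ := bk_spec h
  constructor
  · intro h4; exact h3.trans_le (ps_mono β h4)
  · intro h4; exact (bk_spec h4).1

lemma bk_add {β : ℕ → ℕ} {κ i : ℕ} (h : i < β κ) : bk β (ps β κ + i) = κ :=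
  bk_eq (by omega) (by rw [ps_succ]; omega)

lemma prod_blocks {M : Type*} [CommMonoid M] (β : ℕ → ℕ) (l : ℕ) (g : ℕ → M) :
    ∏ j ∈ range (ps β l), g j = ∏ κ ∈ range l, ∏ i ∈ range (β κ), g (ps β κ + i) := by
  induction l with
  | zero => simp
  | succ l ih => rw [ps_succ, Finset.prod_range_add, ih, Finset.prod_range_succ]

lemma sum_blocks {M : Type*} [AddCommMonoid M] (β : ℕ → ℕ) (l : ℕ) (g : ℕ → M) :
    ∑ j ∈ range (ps β l), g j = ∑ κ ∈ range l, ∑ i ∈ range (β κ), g (ps β κ + i) :=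
  prod_blocks (M := Multiplicative M) β l g

end Blocks

section Comp

variable {E : Type*} [CommRing E] {E' : Type*} [CommRing E']

/-- Shifted sequence. -/
def sft (z : ℕ → E) (B : ℕ) : ℕ → E := fun k => z (B + k)

lemma gco_add {B : Type*} [CommRing B] [Algebra E B] (q : ℕ) (z : ℕ → E) (A j : ℕ) (x : B) :
    gco q z (A + j) x = gco q (sft z A) j (gco q z A x) := by
  induction j with
  | zero => rfl
  | succ j ih => rw [← add_assoc]; simp only [gco, ih, sft]

lemma gco_zero {B : Type*} [CommRing B] [Algebra E B] {q : ℕ} (hq : 0 < q) (z : ℕ → E) (j : ℕ) :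
    gco q z j (0 : B) = 0 := by
  induction j with
  | zero => rfl
  | succ j ih => simp [gco, ih, hq.ne']

lemma gco_eq_zero_of_le {B : Type*} [CommRing B] [Algebra E B] {q : ℕ} (hq : 0 < q) (z : ℕ → E)
    {i j : ℕ} (h : i ≤ j) {x : B} (hx : gco q z i x = 0) : gco q z j x = 0 := by
  obtain ⟨c, rfl⟩ := Nat.exists_eq_add_of_le h
  rw [gco_add, hx, gco_zero hq]

lemma map_gco' (q : ℕ) (φ : E →+* E') (z : ℕ → E) (j : ℕ) (x : E) :
    φ (gco q z j x) = gco q (fun k => φ (z k)) j (φ x) := by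
  induction j with
  | zero => rfl
  | succ j ih => simp only [gco, map_sub, map_pow, ih, smul_eq_mul, map_mul]

lemma map_sub0 (q : ℕ) (φ : E →+* E') (x : ℕ → E) (j : ℕ) (y : E) :
    φ (sub0 q x j y) = sub0 q (fun k => φ (x k)) j (φ y) := by
  induction j generalizing y with
  | zero => rfl
  | succ j ih => simp only [sub0, map_sub, map_pow, ih, map_mul]

lemma map_zsub (q : ℕ) (φ : E →+* E') (x : ℕ → E) (j : ℕ) :
    φ (zsub q x j) = zsub q (fun k => φ (x k)) j := by
  simp only [zsub, map_pow, map_sub0]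

lemma sub0_add (q : ℕ) (x : ℕ → E) (A j : ℕ) (y : E) :
    sub0 q x (A + j) y = sub0 q (fun k => sub0 q x A (x (A + k))) j (sub0 q x A y) := by
  induction j generalizing y with
  | zero => rfl
  | succ j ih => rw [← add_assoc]; simp only [sub0, ih]

lemma sub0_congr (q : ℕ) {x x' : ℕ → E} {j : ℕ} (h : ∀ k < j, x k = x' k) (y : E) :
    sub0 q x j y = sub0 q x' j y := by
  induction j generalizing y with
  | zero => rfl
  | succ j ih =>
    simp only [sub0, ih (fun k hk => h k (by omega)), h j (by omega)]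

lemma cco_congr (q : ℕ) {z z' : ℕ → E} {j : ℕ} (h : ∀ k < j, z k = z' k) (l : ℕ) :
    cco q z j l = cco q z' j l := by
  induction j generalizing l with
  | zero => rfl
  | succ j ih => simp only [cco, ih (fun k hk => h k (by omega)), h j (by omega)]

lemma cco_zero (q : ℕ) (z : ℕ → E) (j : ℕ) : cco q z j 0 = ∏ k ∈ range j, (- z k) := by
  induction j with
  | zero => simp [cco]
  | succ j ih => simp [cco, ih, Finset.prod_range_succ, mul_comm]

/-- The product form of the Moore determinant. -/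
def LL (q : ℕ) (x : ℕ → E) (j : ℕ) : E := ∏ i ∈ range j, sub0 q x i (x i)

lemma map_LL (q : ℕ) (φ : E →+* E') (x : ℕ → E) (j : ℕ) :
    φ (LL q x j) = LL q (fun k => φ (x k)) j := by
  simp only [LL, map_prod, map_sub0]

lemma LL_add (q : ℕ) (x : ℕ → E) (A j : ℕ) :
    LL q x (A + j) = LL q x A * LL q (fun k => sub0 q x A (x (A + k))) j := by
  simp only [LL, Finset.prod_range_add, sub0_add]

lemma LL_congr (q : ℕ) {x x' : ℕ → E} {j : ℕ} (h : ∀ k < j, x k = x' k) :
    LL q x j = LL q x' j :=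
  Finset.prod_congr rfl fun i hi => by
    have := Finset.mem_range.mp hi
    rw [sub0_congr q (fun k hk => h k (by omega)), h i this]

lemma LL_dvd (q : ℕ) (x : ℕ → E) {i j : ℕ} (h : i ≤ j) : LL q x i ∣ LL q x j := by
  obtain ⟨c, rfl⟩ := Nat.exists_eq_add_of_le h
  exact ⟨_, LL_add q x i c⟩

lemma LL_pow (q : ℕ) (x : ℕ → E) (j : ℕ) :
    LL q x j ^ (q - 1) = ∏ i ∈ range j, zsub q x i := by
  rw [LL, ← Finset.prod_pow]; rfl

/-- Coefficients of the q-polynomials attached to the blocks. -/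
noncomputable def bc (q : ℕ) (β : ℕ → ℕ) (z : ℕ → E) (j : ℕ) : E :=
  - cco q (sft z (ps β (bk β j))) (β (bk β j)) (j - ps β (bk β j))

lemma bc_add (q : ℕ) {β : ℕ → ℕ} (z : ℕ → E) {κ i : ℕ} (h : i < β κ) :
    bc q β z (ps β κ + i) = - cco q (sft z (ps β κ)) (β κ) i := by
  rw [bc, bk_add h, Nat.add_sub_cancel_left]

lemma map_bc (q : ℕ) (β : ℕ → ℕ) (φ : E →+* E') (z : ℕ → E) (j : ℕ) :
    φ (bc q β z j) = bc q β (fun k => φ (z k)) j := by
  rw [bc, map_neg, map_cco]; rfl

lemma bc_congr (q : ℕ) (β : ℕ → ℕ) {z z' : ℕ → E} {j : ℕ}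
    (h : ∀ k, ps β (bk β j) ≤ k → k < ps β (bk β j + 1) → z k = z' k) :
    bc q β z j = bc q β z' j := by
  rw [bc, bc, cco_congr q (z' := sft z' (ps β (bk β j)))]
  intro k hk
  exact h _ (by omega) (by rw [ps_succ]; omega)

lemma bc_congr' (q : ℕ) {β : ℕ → ℕ} {z z' : ℕ → E} {j l : ℕ} (hj : j < ps β l)
    (h : ∀ k < ps β l, z k = z' k) : bc q β z j = bc q β z' j :=
  bc_congr q β fun k _ hk => h k (hk.trans_le (ps_mono β (bk_spec hj).1))

variable {F : Type*} [Field F] [Fintype F] [Algebra F E]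

lemma det_eq_LL (x : ℕ → E) (j : ℕ) :
    (Matrix.of fun i l : Fin j => x i ^ (Fintype.card F ^ (l : ℕ))).det =
      LL (Fintype.card F) x j := by
  have hq : 0 < Fintype.card F := Fintype.card_pos
  induction j with
  | zero => simp [LL]
  | succ j ih =>
    have h1 := Matrix.det_updateCol_sum
      (Matrix.of fun i l : Fin (j + 1) => x i ^ (Fintype.card F ^ (l : ℕ))) (Fin.last j)
      (fun l => cco (Fintype.card F) (zsub (Fintype.card F) x) j l)
    rw [Fin.val_last, cco_self hq, one_smul] at h1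
    have h2 : ∀ k : Fin (j + 1), ∑ l : Fin (j + 1),
        cco (Fintype.card F) (zsub (Fintype.card F) x) j l • x k ^ (Fintype.card F ^ (l : ℕ)) =
        sub0 (Fintype.card F) x j (x k) := fun k => by
      rw [← gco_zsub, gco_eq_sum, ← Fin.sum_univ_eq_sum_range (fun l =>
        cco (Fintype.card F) (zsub (Fintype.card F) x) j l • x k ^ (Fintype.card F ^ l))]
    simp only [Matrix.of_apply, h2] at h1
    rw [← h1, Matrix.det_succ_column _ (Fin.last j), Fin.sum_univ_castSucc, Finset.sum_eq_zero,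
      zero_add, LL, Finset.prod_range_succ, ← LL, ← ih]
    · simp only [Matrix.updateCol_self, Fin.val_last, Fin.succAbove_last]
      rw [Even.neg_one_pow ⟨j, rfl⟩, one_mul, mul_comm]
      congr 2
      ext i l
      simp
    · intro i _
      rw [Matrix.updateCol_self, sub0_eq_zero hq x (by simp), mul_zero, zero_mul]

lemma LL_mul_eq_zero (x : ℕ → E) {j : ℕ} (v : ℕ → E)
    (h : ∀ i < j, ∑ l ∈ range j, v l * x i ^ (Fintype.card F ^ l) = 0) {l : ℕ} (hl : l < j) :
    LL (Fintype.card F) x j * v l = 0 := by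
  rw [← det_eq_LL]
  refine det_mul_eq_zero _ (fun l : Fin j => v l) (funext fun i => ?_) ⟨l, hl⟩
  have := h i i.2
  rw [← Fin.sum_univ_eq_sum_range (fun l => v l * x i ^ (Fintype.card F ^ l))] at this
  simpa [Matrix.mulVec, dotProduct, mul_comm] using this

lemma gco_block (β : ℕ → ℕ) (z : ℕ → E) (κ : ℕ) (x : E) :
    gco (Fintype.card F) z (ps β (κ + 1)) x =
      gco (Fintype.card F) z (ps β κ) x ^ (Fintype.card F ^ β κ) - ∑ i ∈ range (β κ),
        bc (Fintype.card F) β z (ps β κ + i) *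
          gco (Fintype.card F) z (ps β κ) x ^ (Fintype.card F ^ i) := by
  rw [ps_succ, gco_add, gco_eq_sum, Finset.sum_range_succ, cco_self Fintype.card_pos, one_smul,
    add_comm, sub_eq_add_neg, ← Finset.sum_neg_distrib]
  congr 1
  refine Finset.sum_congr rfl fun i hi => ?_
  rw [bc_add _ _ (Finset.mem_range.mp hi), smul_eq_mul, neg_mul, neg_neg]

lemma gco_sum_smul {ι : Type*} (s : Finset ι) (c : ι → F) (z : ℕ → E) (j : ℕ) (x : ι → E) :
    gco (Fintype.card F) z j (∑ i ∈ s, c i • x i) =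
      ∑ i ∈ s, c i • gco (Fintype.card F) z j (x i) := by
  induction j with
  | zero => rfl
  | succ j ih =>
    simp only [gco, ih, sum_pow_q1 F, smul_pow_q1 F, smul_sub, Finset.sum_sub_distrib,
      smul_eq_mul, Finset.mul_sum, mul_smul_comm]

lemma gco_congr_bc (β : ℕ → ℕ) {z z' : ℕ → E} {k : ℕ}
    (h : ∀ j < ps β k, bc (Fintype.card F) β z j = bc (Fintype.card F) β z' j) (y : E) :
    gco (Fintype.card F) z (ps β k) y = gco (Fintype.card F) z' (ps β k) y := by
  induction k with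
  | zero => rfl
  | succ k ih =>
    rw [gco_block, gco_block, ih fun j hj => h j (hj.trans_le (ps_mono β (by omega)))]
    congr 1
    refine Finset.sum_congr rfl fun i hi => ?_
    rw [h _ (by rw [ps_succ]; have := Finset.mem_range.mp hi; omega)]

theorem kill (β : ℕ → ℕ) (z x : ℕ → E) (k : ℕ)
    (h : ∀ κ ≤ k, ∀ j < ps β κ, gco (Fintype.card F) z (ps β κ) (x j) = 0) :
    ∀ j < ps β k, LL (Fintype.card F) x (ps β k) *
      (bc (Fintype.card F) β (zsub (Fintype.card F) x) j - bc (Fintype.card F) β z j) = 0 := by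
  induction k with
  | zero => intro j hj; simp at hj
  | succ k ih =>
    have ih' := ih fun κ hκ => h κ (by omega)
    intro j hj
    by_cases hjk : j < ps β k
    · obtain ⟨c, hc⟩ := LL_dvd (Fintype.card F) x (ps_mono β (Nat.le_succ k))
      rw [hc, mul_right_comm, ih' j hjk, zero_mul]
    obtain ⟨i, rfl⟩ := Nat.exists_eq_add_of_le (not_lt.mp hjk)
    rw [ps_succ] at hj
    let I : Ideal E := LinearMap.ker (LinearMap.mulLeft E (LL (Fintype.card F) x (ps β k)))
    let π := Ideal.Quotient.mk I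
    have hπ : ∀ e, π e = 0 ↔ LL (Fintype.card F) x (ps β k) * e = 0 :=
      fun e => Ideal.Quotient.eq_zero_iff_mem
    have h1 : ∀ y, π (gco (Fintype.card F) z (ps β k) y) =
        π (sub0 (Fintype.card F) x (ps β k) y) := by
      intro y
      rw [← gco_zsub, map_gco', map_gco']
      refine gco_congr_bc (F := F) β (fun j hj => ?_) _
      rw [← map_bc, ← map_bc, eq_comm, ← sub_eq_zero, ← map_sub, hπ]
      exact ih' j hj
    have h2 := LL_mul_eq_zero (F := F)
      (fun i => π (sub0 (Fintype.card F) x (ps β k) (x (ps β k + i)))) (j := β k)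
      (fun i => π (bc (Fintype.card F) β (zsub (Fintype.card F) x) (ps β k + i) -
        bc (Fintype.card F) β z (ps β k + i))) (fun i hi => by
        have h3 := congrArg π (h (k + 1) le_rfl (ps β k + i) (by rw [ps_succ]; omega))
        have h4 := sub0_eq_zero (Fintype.card_pos (α := F)) x
          (show ps β k + i < ps β (k + 1) by rw [ps_succ]; omega)
        rw [← gco_zsub, gco_block, gco_zsub] at h4
        replace h4 := congrArg π h4
        rw [gco_block] at h3
        simp only [map_sub, map_pow, map_sum, map_mul, h1, map_zero] at h3 h4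
        simp only [map_sub, sub_mul, Finset.sum_sub_distrib]
        linear_combination h3 - h4) (l := i) (by omega)
    rw [← map_LL, ← map_mul, hπ] at h2
    rw [ps_succ, LL_add, mul_assoc]
    exact h2

lemma LL_eq_zero_of_lt (z x : ℕ → E) {i j : ℕ} (hij : i < j)
    (h : ∀ k < j, gco (Fintype.card F) z i (x k) = 0) : LL (Fintype.card F) x j = 0 := by
  have hq : 0 < Fintype.card F := Fintype.card_pos
  have := LL_mul_eq_zero (F := F) x (cco (Fintype.card F) z i) (fun k hk => by
    rw [← h k hk, gco_eq_sum]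
    exact (Finset.sum_subset (Finset.range_mono hij) fun l _ hl => by
      rw [cco_of_lt hq z (by simpa using hl), zero_mul]).symm) hij
  rwa [cco_self hq, mul_one] at this

theorem det_block (p : ℕ) [Fact p.Prime] [CharP E p] [IsDomain E] (r : ℕ) (β : ℕ → ℕ)
    (z x : ℕ → E) (k : ℕ) :
    ∏ i ∈ range (ps β k), gco (Fintype.card F) z (ps β (bk β i + 1)) (x i) ^ (p ^ r - 1) -
      LL (Fintype.card F) x (ps β k) ^ (p ^ r - 1) * ∏ j ∈ range (ps β k),
        (bc (Fintype.card F) β (zsub (Fintype.card F) x) j -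
          bc (Fintype.card F) β z j) ^ (p ^ r - 1) ∈
      Ideal.span ((fun j => (bc (Fintype.card F) β (zsub (Fintype.card F) x) j -
          bc (Fintype.card F) β z j) ^ p ^ r) '' {j | j < ps β k}) := by
  classical
  have hN : 0 < p ^ r := pow_pos (Fact.out : p.Prime).pos r
  set δ : ℕ → E := fun j => bc (Fintype.card F) β (zsub (Fintype.card F) x) j -
    bc (Fintype.card F) β z j with hδ
  induction k with
  | zero => simp [LL]
  | succ k ih =>
    set I := Ideal.span ((fun j => δ j ^ p ^ r) '' {j | j < ps β (k + 1)}) with hI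
    have hle : Ideal.span ((fun j => δ j ^ p ^ r) '' {j | j < ps β k}) ≤ I :=
      Ideal.span_mono (Set.image_mono fun j hj => lt_of_lt_of_le hj (ps_mono β (by omega)))
    let y : ℕ → E := fun i => sub0 (Fintype.card F) x (ps β k) (x (ps β k + i))
    let D := Ideal.span (δ '' {j | j < ps β k})
    have h1 : ∏ i ∈ range (β k),
        gco (Fintype.card F) z (ps β (bk β (ps β k + i) + 1)) (x (ps β k + i)) ^ (p ^ r - 1) -
        ∏ i : Fin (β k), (∑ l : Fin (β k),
          y i ^ (Fintype.card F ^ (l : ℕ)) * δ (ps β k + l)) ^ (p ^ r - 1) ∈ D := by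
      rw [← Ideal.Quotient.eq, map_prod, map_prod, ← Fin.prod_univ_eq_prod_range (fun i =>
        Ideal.Quotient.mk D (gco (Fintype.card F) z (ps β (bk β (ps β k + i) + 1))
          (x (ps β k + i)) ^ (p ^ r - 1)))]
      refine Finset.prod_congr rfl fun i _ => ?_
      have h2 : Ideal.Quotient.mk D (gco (Fintype.card F) z (ps β k) (x (ps β k + i))) =
          Ideal.Quotient.mk D (y i) := by
        simp only [y]
        rw [← gco_zsub, map_gco', map_gco']
        refine gco_congr_bc (F := F) β (fun j hj => ?_) _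
        rw [← map_bc, ← map_bc, eq_comm, Ideal.Quotient.eq]
        exact Ideal.subset_span ⟨j, hj, rfl⟩
      have h4 := sub0_eq_zero (Fintype.card_pos (α := F)) x
        (show ps β k + i < ps β (k + 1) by rw [ps_succ]; omega)
      rw [← gco_zsub, gco_block, gco_zsub] at h4
      replace h4 := congrArg (Ideal.Quotient.mk D) h4
      rw [bk_add i.2, gco_block, map_pow, map_pow,
        Fin.sum_univ_eq_sum_range (fun l => y i ^ (Fintype.card F ^ l) * δ (ps β k + l))]
      congr 1
      simp only [map_sub, map_pow, map_sum, map_mul, h2, map_zero, hδ, mul_sub,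
        Finset.sum_sub_distrib, mul_comm (Ideal.Quotient.mk D (y i) ^ _)] at h4 ⊢
      linear_combination h4
    have h2 := prod_pow_sub_det_mem p r (Matrix.of fun i l : Fin (β k) =>
      y i ^ (Fintype.card F ^ (l : ℕ))) (fun l => δ (ps β k + l))
    rw [det_eq_LL (F := F), Fin.prod_univ_eq_prod_range (fun l => δ (ps β k + l) ^ (p ^ r - 1))]
      at h2
    have h3 : Ideal.span (Set.range fun l : Fin (β k) => δ (ps β k + l) ^ p ^ r) ≤ I :=
      Ideal.span_mono (by
        rintro _ ⟨l, rfl⟩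
        exact ⟨ps β k + l, by simp only [Set.mem_ofPred_eq, ps_succ]; omega, rfl⟩)
    have h4 : ∀ e ∈ D, (∏ j ∈ range (ps β k), δ j ^ (p ^ r - 1)) * e ∈ I := by
      intro e he
      induction he using Submodule.span_induction with
      | zero => simp
      | add a b _ _ ha hb => rw [mul_add]; exact I.add_mem ha hb
      | smul c a _ ha => rw [smul_eq_mul, mul_left_comm]; exact I.mul_mem_left _ ha
      | mem a ha =>
        obtain ⟨j, hj, rfl⟩ := ha
        rw [← Finset.mul_prod_erase _ _ (Finset.mem_range.mpr hj), mul_right_comm, ← pow_succ,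
          Nat.sub_add_cancel hN]
        exact I.mul_mem_right _ (hle (Ideal.subset_span ⟨j, hj, rfl⟩))
    have h5 := I.add_mem (I.add_mem (I.mul_mem_right (∏ i ∈ range (β k),
        gco (Fintype.card F) z (ps β (bk β (ps β k + i) + 1)) (x (ps β k + i)) ^ (p ^ r - 1))
        (hle ih)) (I.mul_mem_left (LL (Fintype.card F) x (ps β k) ^ (p ^ r - 1)) (h4 _ h1)))
      (I.mul_mem_left (LL (Fintype.card F) x (ps β k) ^ (p ^ r - 1) *
        ∏ j ∈ range (ps β k), δ j ^ (p ^ r - 1)) (h3 h2))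
    refine (congrArg (· ∈ I) ?_).mp h5
    rw [ps_succ, Finset.prod_range_add, Finset.prod_range_add, LL_add, mul_pow]
    simp only [Matrix.of_apply, y]
    ring

end Comp

end Pool.Agent.Work.MP_a1538a_al.Par

/-!
Twisted augmentation submodules of subgroups and the reduction along the first variable.
-/

set_option autoImplicit false

namespace Pool.Agent.Work.MP_a1538a_al.Par

open Finset MvPolynomial Hedge

variable {F : Type*} [Field F] [Fintype F] {n : ℕ}

/-- The span of all `g u - det(g)^a u` with `g` in a set of matrices. -/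
noncomputable def IS (G : Matrix (Fin n) (Fin n) F → Prop) (a : ℕ) :
    Submodule F (MvPolynomial (Fin n) F) :=
  Submodule.span F {x | ∃ (g : Matrix.GeneralLinearGroup (Fin n) F) (u : MvPolynomial (Fin n) F),
    G g.val ∧ x = act g.val u - g.val.det ^ a • u}

omit [Fintype F] in
lemma act_sub_mem_IS {G : Matrix (Fin n) (Fin n) F → Prop} (a : ℕ)
    (g : Matrix.GeneralLinearGroup (Fin n) F) (hg : G g.val) (u : MvPolynomial (Fin n) F) :
    act g.val u - g.val.det ^ a • u ∈ IS G a :=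
  Submodule.subset_span ⟨g, u, hg, rfl⟩

omit [Fintype F] in
lemma IS_mono {G G' : Matrix (Fin n) (Fin n) F → Prop} (h : ∀ g, G g → G' g) (a : ℕ) :
    IS G a ≤ IS G' a :=
  Submodule.span_mono fun _ ⟨g, u, hg, hx⟩ => ⟨g, u, h _ hg, hx⟩

omit [Fintype F] in
lemma mul_mem_IS {G : Matrix (Fin n) (Fin n) F → Prop} {a : ℕ} {h u : MvPolynomial (Fin n) F}
    (hh : ∀ g : Matrix.GeneralLinearGroup (Fin n) F, G g.val → act g.val h = h)
    (hu : u ∈ IS G a) : u * h ∈ IS G a := by
  induction hu using Submodule.span_induction with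
  | zero => simp
  | add x y _ _ hx hy => rw [add_mul]; exact Submodule.add_mem _ hx hy
  | smul c x _ hx => rw [smul_mul_assoc]; exact Submodule.smul_mem _ _ hx
  | mem x hx =>
    obtain ⟨g, u, hg, rfl⟩ := hx
    have h2 := act_sub_mem_IS a g hg (u * h)
    rwa [map_mul, hh g hg, ← smul_mul_assoc, ← sub_mul] at h2

omit [Fintype F] in
lemma eq_zero_of_mem_IS {G : Matrix (Fin n) (Fin n) F → Prop} {a : ℕ} {V : Type*}
    [AddCommGroup V] [Module F V] (T : MvPolynomial (Fin n) F →ₗ[F] V)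
    (hT : ∀ g : Matrix.GeneralLinearGroup (Fin n) F, G g.val → ∀ u,
      T (act g.val u) = g.val.det ^ a • T u) {u : MvPolynomial (Fin n) F} (hu : u ∈ IS G a) :
    T u = 0 := by
  revert u
  change IS G a ≤ LinearMap.ker T
  rw [IS, Submodule.span_le]
  rintro _ ⟨g, u, hg, rfl⟩
  simp [hT g hg]

/-- Block triangular matrices. -/
def InP (b : Fin n → ℕ) (g : Matrix (Fin n) (Fin n) F) : Prop := ∀ i j, b i < b j → g i j = 0

/-- Block triangular matrices that fix the line through the first variable. -/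
def InP1 (b : Fin (n + 1) → ℕ) (g : Matrix (Fin (n + 1)) (Fin (n + 1)) F) : Prop :=
  InP b g ∧ ∀ j : Fin n, g 0 j.succ = 0

/-- Matrices that differ from the identity in the first column only. -/
def InH (g : Matrix (Fin (n + 1)) (Fin (n + 1)) F) : Prop :=
  ∀ (i : Fin (n + 1)) (j : Fin n), g i j.succ = if i = j.succ then 1 else 0

omit [Fintype F] in
lemma InH.inP1 {b : Fin (n + 1) → ℕ} (hb : Monotone b) {g : Matrix (Fin (n + 1)) (Fin (n + 1)) F}
    (hg : InH g) : InP1 b g := by
  refine ⟨fun i j => ?_, fun j => by rw [hg, if_neg (Fin.succ_ne_zero j).symm]⟩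
  refine Fin.cases (fun h => ?_) (fun j h => ?_) j
  · exact absurd (hb (Fin.zero_le i)) (not_le.mpr h)
  · rw [hg, if_neg]; rintro rfl; exact lt_irrefl _ h

omit [Fintype F] in
lemma IH_le {b : Fin (n + 1) → ℕ} (hb : Monotone b) (a : ℕ) :
    IS (InH (F := F)) a ≤ IS (InP1 b) a := IS_mono (fun _ h => h.inP1 hb) a

omit [Fintype F] in
lemma IP1_le (b : Fin (n + 1) → ℕ) (a : ℕ) : IS (InP1 (F := F) b) a ≤ IS (InP b) a :=
  IS_mono (fun _ h => h.1) a

omit [Fintype F] in
lemma InP.inv {b : Fin n → ℕ} {g : Matrix.GeneralLinearGroup (Fin n) F} (hg : InP b g.val) :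
    InP b (g⁻¹).val := by
  have h1 : g.val.BlockTriangular (OrderDual.toDual ∘ b) := fun i j h => hg i j h
  have := Matrix.invertibleOfIsUnitDet g.val (isUnit_iff_ne_zero.mpr g.det_ne_zero)
  have h2 := Matrix.blockTriangular_inv_of_blockTriangular h1
  rw [Matrix.coe_units_inv]
  exact fun i j h => h2 h

lemma InH.act_Yv {g : Matrix.GeneralLinearGroup (Fin (n + 1)) F} (hg : InH g.val)
    (v : MvPolynomial (Fin n) F) : act g.val (Yv F n v) = Yv F n v := by
  have h0 : g.val 0 0 ≠ 0 := by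
    intro h
    apply g.det_ne_zero
    exact Matrix.det_eq_zero_of_row_eq_zero 0 fun j => Fin.cases h
      (fun j' => by rw [hg, if_neg (Fin.succ_ne_zero j').symm]) j
  refine act_Yv_of_fix g.val _ h0 (fun l => g.val l.succ 0) ?_ (fun l => ?_) v
  · simp [act_X, Fin.sum_univ_succ, hg 0, (Fin.succ_ne_zero _).symm]
  · simp [act_X, Fin.sum_univ_succ, hg l.succ, add_comm]

omit [Fintype F] in
lemma exists_scale' {c : F} (hc : c ≠ 0) :
    ∃ g : Matrix.GeneralLinearGroup (Fin (n + 1)) F, InH g.val ∧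
      g.val.det = c ∧ act g.val (X 0) = c • X 0 ∧ ∀ l : Fin n, act g.val (X l.succ) = X l.succ := by
  classical
  obtain ⟨g, hg⟩ := exists_row_GL (0 : Fin (n + 1)) (Pi.single 0 c) (by simpa using hc)
  refine ⟨g, fun i j => ?_, by rw [hg, det_updateRow_one]; simp, ?_, fun l => ?_⟩
  · rw [hg, Matrix.updateRow_apply, Matrix.one_apply]
    split_ifs with h1 h2
    · exact absurd (h2.symm.trans h1) (Fin.succ_ne_zero j)
    all_goals simp
  · rw [hg, act_updateRow, if_pos rfl]; simp [Pi.single_apply]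
  · rw [hg, act_updateRow, if_neg (Fin.succ_ne_zero l)]

omit [Fintype F] in
lemma exists_shear' (i : Fin n) (t : F) :
    ∃ g : Matrix.GeneralLinearGroup (Fin (n + 1)) F, InH g.val ∧
      g.val.det = 1 ∧ act g.val (X 0) = X 0 ∧
      ∀ l : Fin n, act g.val (X l.succ) = X l.succ + (if l = i then t else 0) • X 0 := by
  classical
  obtain ⟨g, hg⟩ := exists_row_GL i.succ
    ((Pi.single i.succ 1 : Fin (n + 1) → F) + (Pi.single 0 t : Fin (n + 1) → F)) (by simp)
  refine ⟨g, fun k j => ?_, by rw [hg, det_updateRow_one]; simp, ?_, fun l => ?_⟩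
  · rw [hg, Matrix.updateRow_apply, Matrix.one_apply]
    by_cases h1 : k = i.succ
    · subst h1; simp [Pi.single_apply, eq_comm]
    · rw [if_neg h1]
  · rw [hg, act_updateRow, if_neg (Fin.succ_ne_zero i).symm]
  · rw [hg, act_updateRow]
    by_cases hl : l = i
    · subst hl
      simp [add_smul, Finset.sum_add_distrib, Pi.single_apply]
    · simp [hl]

lemma torAH {a c : ℕ} (h : ¬ c ≡ a [MOD Fintype.card F - 1]) (v w : MvPolynomial (Fin n) F) :
    X 0 ^ c * Yv F n v * rename Fin.succ w ∈ IS InH a := by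
  obtain ⟨x, hx, hxc⟩ := exists_pow_ne h
  obtain ⟨g, hg, hdet, h0, h1⟩ := exists_scale' (n := n) hx
  have h2 := act_Yv_of_fix g.val x hx 0 h0 (fun l => by simp [h1]) v
  have h5 : act g.val (rename Fin.succ w) = rename Fin.succ w := by
    have : (act g.val).comp (rename Fin.succ) = rename Fin.succ := by
      apply MvPolynomial.algHom_ext
      intro l
      simp [h1]
    exact DFunLike.congr_fun this w
  have h3 := act_sub_mem_IS a g hg (X 0 ^ c * Yv F n v * rename Fin.succ w)
  simp only [map_mul, map_pow, h0, h2, h5, smul_pow, smul_mul_assoc, hdet] at h3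
  rwa [← sub_smul, Submodule.smul_mem_iff _ (sub_ne_zero.mpr hxc)] at h3

lemma redAH (a : ℕ) {c : ℕ} (hc : Fintype.card F - 1 ≤ c) (v : MvPolynomial (Fin n) F)
    (α : Fin n → ℕ) (i : Fin n) (hi : α i < Fintype.card F - 1) :
    X 0 ^ c * Yv F n v * ∏ l, X l.succ ^ α l ∈ IS InH a := by
  classical
  have hq := one_lt_q F
  set h : MvPolynomial (Fin (n + 1)) F := X 0 ^ (c - (Fintype.card F - 1 - α i)) * Yv F n v *
    ∏ l ∈ univ.erase i, X l.succ ^ α l with hh
  have key : ∀ t : F, h * (X i.succ + t • X 0) ^ (Fintype.card F - 1) -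
      h * X i.succ ^ (Fintype.card F - 1) ∈ IS InH a := by
    intro t
    obtain ⟨g, hg, hdet, h0, h1⟩ := exists_shear' i t
    have h2 := act_Yv_of_fix g.val 1 one_ne_zero _ (by rw [h0, one_smul]) h1 v
    have h3 := act_sub_mem_IS a g hg (h * X i.succ ^ (Fintype.card F - 1))
    have h4 : act g.val h = h := by
      simp only [hh, map_mul, map_pow, map_prod, h0, h2]
      congr 1
      refine Finset.prod_congr rfl fun l hl => ?_
      rw [h1, if_neg (Finset.ne_of_mem_erase hl), zero_smul, add_zero]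
    rwa [map_mul, h4, map_pow, h1, if_pos rfl, hdet, one_pow, one_smul] at h3
  have key2 := Submodule.sum_mem (IS InH a) (t := univ)
    fun t _ => Submodule.smul_mem _ (t ^ α i) (key t)
  simp only [smul_sub, Finset.sum_sub_distrib, ← mul_smul_comm, ← Finset.mul_sum] at key2
  rw [sum_shift _ _ hi, ← Finset.sum_smul, FiniteField.sum_pow_lt_card_sub_one F _ hi, zero_smul,
    mul_zero, sub_zero, mul_smul_comm, Submodule.smul_mem_iff _ (by simp)] at key2
  have h6 : X 0 ^ c * Yv F n v * ∏ l, X l.succ ^ α l =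
      h * (X i.succ ^ α i * X 0 ^ (Fintype.card F - 1 - α i)) := by
    rw [hh, ← Finset.mul_prod_erase univ _ (mem_univ i)]
    have : c = c - (Fintype.card F - 1 - α i) + (Fintype.card F - 1 - α i) := by omega
    conv_lhs => rw [this, pow_add]
    ring
  rw [h6]; exact key2

lemma X_pow_mul_memH (a : ℕ) (u : MvPolynomial (Fin (n + 1)) F) :
    X 0 ^ (a + 1) * u ∈ LinearMap.range (GamA F n a) ⊔ IS InH a := by
  have hq := one_lt_q F
  have hu := mem_span_gen u
  induction hu using Submodule.span_induction with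
  | zero => simp
  | add x y _ _ hx hy => rw [mul_add]; exact Submodule.add_mem _ hx hy
  | smul a x _ hx => rw [mul_smul_comm]; exact Submodule.smul_mem _ _ hx
  | mem x hx =>
    obtain ⟨b, v, α, hα, rfl⟩ := hx
    rw [← mul_assoc, ← mul_assoc, ← pow_add]
    by_cases h1 : a + 1 + b ≡ a [MOD Fintype.card F - 1]
    · obtain ⟨k, hk⟩ := (Nat.modEq_iff_dvd' (by omega)).mp h1.symm
      obtain ⟨k, rfl⟩ : ∃ k', k = k' + 1 := ⟨k - 1, by
        rcases k with _ | k
        · simp at hk; omega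
        · simp⟩
      have hk' : a + 1 + b = a + (Fintype.card F - 1) * (k + 1) := by omega
      by_cases h2 : ∃ i, α i < Fintype.card F - 1
      · obtain ⟨i, hi⟩ := h2
        refine Submodule.mem_sup_right (redAH a ?_ v α i hi)
        rw [hk', Nat.mul_succ]; omega
      · push Not at h2
        refine Submodule.mem_sup_left ⟨Finsupp.single k v, ?_⟩
        rw [GamA, Finsupp.lsum_single, hk', gamA_apply]
        congr 1
        exact Finset.prod_congr rfl fun l _ => by rw [le_antisymm (hα l) (h2 l)]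
    · refine Submodule.mem_sup_right ?_
      have := torAH h1 v (∏ l, X l ^ α l)
      simpa using this

lemma exists_decompAH {a : ℕ} (ha : a < Fintype.card F - 1) (u : MvPolynomial (Fin (n + 1)) F) :
    ∃ (u0 : MvPolynomial (Fin n) F) (V : ℕ →₀ MvPolynomial (Fin n) F),
      u - X 0 ^ a * rename Fin.succ u0 - GamA F n a V ∈ IS InH a := by
  obtain ⟨w, u', rfl⟩ := exists_expansion (a + 1) u
  obtain ⟨y, ⟨V, rfl⟩, z, hz, h⟩ := Submodule.mem_sup.mp (X_pow_mul_memH a u')
  refine ⟨w a, V, ?_⟩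
  have h1 : ∑ c ∈ range a, X 0 ^ c * rename Fin.succ (w c) ∈ IS InH a := by
    refine Submodule.sum_mem _ fun c hc => ?_
    have hc' := Finset.mem_range.mp hc
    have := torAH (a := a) (c := c) (fun h => by
      rw [Nat.ModEq, Nat.mod_eq_of_lt (by omega), Nat.mod_eq_of_lt ha] at h; omega) 1 (w c)
    simpa using this
  rw [← h, Finset.sum_range_succ]
  refine (congrArg (· ∈ IS InH a) ?_).mp (Submodule.add_mem _ h1 hz)
  ring

omit [Fintype F] in
lemma inP1_blk {b : Fin (n + 1) → ℕ} (hb : Monotone b) {g : Matrix (Fin n) (Fin n) F}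
    (hg : InP (b ∘ Fin.succ) g) : InP1 b (blk g) := by
  refine ⟨fun i j => ?_, fun j => by simp [blk]⟩
  refine Fin.cases (fun h => ?_) (fun j h => ?_) j
  · exact absurd (hb (Fin.zero_le i)) (not_le.mpr h)
  · revert h
    refine Fin.cases (fun _ => by simp [blk]) (fun i h => ?_) i
    simpa [blk] using hg i j h

omit [Fintype F] in
lemma X_pow_mul_rename_memP {b : Fin (n + 1) → ℕ} (hb : Monotone b) (a c : ℕ)
    {v : MvPolynomial (Fin n) F} (hv : v ∈ IS (InP (b ∘ Fin.succ)) a) :
    X 0 ^ c * rename Fin.succ v ∈ IS (InP1 b) a := by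
  induction hv using Submodule.span_induction with
  | zero => simp
  | add x y _ _ hx hy => rw [map_add, mul_add]; exact Submodule.add_mem _ hx hy
  | smul a x _ hx => rw [map_smul, mul_smul_comm]; exact Submodule.smul_mem _ _ hx
  | mem x hx =>
    obtain ⟨g, u, hg, rfl⟩ := hx
    have h1 := act_sub_mem_IS (G := InP1 b) a (blkGL g) (inP1_blk hb hg)
      (X 0 ^ c * rename Fin.succ u)
    have h0 : (blkGL g).val = blk g.val := rfl
    rw [h0, map_mul, map_pow, act_blk_zero, act_blk_rename, det_blk] at h1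
    rwa [map_sub, mul_sub, map_smul, mul_smul_comm]

lemma gamA_memP {e : Fin (n + 1) → ℕ} (he : Monotone e) (a b : ℕ)
    {v : MvPolynomial (Fin n) F} (hv : v ∈ IS (InP (e ∘ Fin.succ)) a) :
    gamA F n a b v ∈ IS (InP1 e) a := by
  classical
  have hq := one_lt_q F
  induction hv using Submodule.span_induction with
  | zero => simp
  | add x y _ _ hx hy => rw [map_add]; exact Submodule.add_mem _ hx hy
  | smul a x _ hx => rw [map_smul]; exact Submodule.smul_mem _ _ hx
  | mem x hx =>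
    obtain ⟨g, u, hg, rfl⟩ := hx
    set E : MvPolynomial (Fin n) F := monomial (top n (Fintype.card F - 1)) 1 with hE
    have hE1 : rename Fin.succ E = ∏ l : Fin n, X l.succ ^ (Fintype.card F - 1) := by
      rw [hE, monomial_top]; simp
    have h0 : (blkGL g).val = blk g.val := rfl
    have h1 := act_sub_mem_IS (G := InP1 e) a (blkGL g) (inP1_blk he hg) (gamA F n a b u)
    have h2 : act (blkGL g).val (gamA F n a b u) =
        X 0 ^ (a + (Fintype.card F - 1) * (b + 1)) * Yv F n (act g.val u) *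
          rename Fin.succ (act g.val E) := by
      rw [h0, gamA_apply, ← hE1, map_mul, map_mul, map_pow, act_blk_zero, act_blk_Yv,
        act_blk_rename]
    have h3 : X 0 ^ (a + (Fintype.card F - 1) * (b + 1)) * Yv F n (act g.val u) *
          rename Fin.succ (act g.val E - E) ∈ IS (InP1 e) a := by
      set D := act g.val E - E with hD
      have hEh : E.IsWeightedHomogeneous (1 : Fin n → ℕ) (n * (Fintype.card F - 1)) :=
        isWH_monomial_top _
      have hDh : D.IsWeightedHomogeneous (1 : Fin n → ℕ) (n * (Fintype.card F - 1)) :=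
        (isWH_act _ hEh).sub hEh
      have hD0 : coeff (top n (Fintype.card F - 1)) D = 0 := by
        have := coeff_top_act 1 g E
        rw [pow_one] at this
        rw [hD, coeff_sub, this, sub_self]
      rw [D.as_sum, map_sum, Finset.mul_sum]
      refine Submodule.sum_mem _ fun α hα => ?_
      have hα' := mem_support_iff.mp hα
      obtain ⟨i, hi⟩ : ∃ i, α i < Fintype.card F - 1 := by
        by_contra hc
        push Not at hc
        have hw := hDh hα'
        rw [weight_one] at hw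
        exact hα' (eq_top_of_ge hc hw ▸ hD0)
      rw [monomial_eq, Finsupp.prod_fintype _ _ (by simp), map_mul, rename_C, map_prod,
        ← smul_eq_C_mul, mul_smul_comm]
      simp only [map_pow, rename_X]
      refine Submodule.smul_mem _ _ (IH_le he a (redAH a ?_ _ _ i hi))
      rw [Nat.mul_succ]; omega
    rw [h2, h0, det_blk] at h1
    refine (congrArg (· ∈ IS (InP1 e) a) ?_).mp (Submodule.sub_mem _ h1 h3)
    rw [gamA_apply, gamA_apply, ← hE1]
    rw [map_sub (Yv F n), map_smul (Yv F n)]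
    simp only [map_sub, smul_eq_C_mul]
    ring

section Frob

variable (p : ℕ) [Fact p.Prime] [CharP F p] (r : ℕ)

lemma bad_monomial_memH (hs : p ^ r < Fintype.card F) (α : Fin n →₀ ℕ) (i : Fin n)
    (hi : α i % p ^ r < p ^ r - 1) :
    X 0 ^ (p ^ r - 1) * rename Fin.succ (monomial α (1 : F)) ∈
      LinearMap.range (GamA F n (p ^ r - 1)) ⊔ IS InH (p ^ r - 1) := by
  classical
  set s := p ^ r with hsdef
  set k := s - 1 - α i % s with hk
  set h : MvPolynomial (Fin (n + 1)) F := X 0 ^ (α i % s) *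
    ∏ l ∈ univ.erase i, X l.succ ^ α l with hh
  have key : ∀ t : F, h * (X i.succ + t • X 0) ^ (s - 1) * (X i.succ ^ s) ^ (α i / s) -
      h * X i.succ ^ (s - 1) * (X i.succ ^ s) ^ (α i / s) ∈
      LinearMap.range (GamA F n (s - 1)) ⊔ IS InH (s - 1) := by
    intro t
    obtain ⟨g, hg, hdet, h0, h1⟩ := exists_shear' i t
    have h3 := act_sub_mem_IS (s - 1) g hg
      (h * X i.succ ^ (s - 1) * (X i.succ ^ s) ^ (α i / s))
    have h4 : act g.val h = h := by
      simp only [hh, map_mul, map_pow, map_prod, h0]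
      congr 1
      refine Finset.prod_congr rfl fun l hl => ?_
      rw [h1, if_neg (Finset.ne_of_mem_erase hl), zero_smul, add_zero]
    rw [map_mul, map_mul, h4, map_pow, map_pow, map_pow, h1, if_pos rfl, hdet, one_pow, one_smul,
      hsdef, add_pow_char_pow, ← hsdef] at h3
    obtain ⟨w, hw⟩ := sub_dvd_pow_sub_pow ((X i.succ : MvPolynomial (Fin (n + 1)) F) ^ s +
      (t • X 0) ^ s) (X i.succ ^ s) (α i / s)
    rw [add_sub_cancel_left, sub_eq_iff_eq_add] at hw
    have h5 := X_pow_mul_memH (s - 1) (t ^ s • (h * (X i.succ + t • X 0) ^ (s - 1) * w))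
    rw [Nat.sub_add_cancel (by omega)] at h5
    refine (congrArg (· ∈ LinearMap.range (GamA F n (s - 1)) ⊔ IS InH (s - 1)) ?_).mp
      (Submodule.sub_mem _ (Submodule.mem_sup_right h3) h5)
    rw [hw, smul_pow]
    simp only [smul_eq_C_mul]
    ring
  have key2 := Submodule.sum_mem (LinearMap.range (GamA F n (s - 1)) ⊔ IS InH (s - 1))
    (t := univ) fun t _ => Submodule.smul_mem _ (t ^ (Fintype.card F - 1 - k)) (key t)
  have e0 : ∀ (c : F) (x y : MvPolynomial (Fin (n + 1)) F), c • (h * x * y) = h * (c • x) * y :=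
    fun c x y => by rw [mul_smul_comm, smul_mul_assoc]
  simp only [smul_sub, Finset.sum_sub_distrib, e0, ← Finset.mul_sum, ← Finset.sum_mul] at key2
  rw [hsdef, sum_shift_pow p r hs _ _ (by omega) (by omega), ← hsdef, ← Finset.sum_smul,
    FiniteField.sum_pow_lt_card_sub_one F _ (by omega), zero_smul, mul_zero, zero_mul, sub_zero,
    mul_smul_comm, smul_mul_assoc, Submodule.smul_mem_iff _ (by simp)] at key2
  refine (congrArg (· ∈ LinearMap.range (GamA F n (s - 1)) ⊔ IS InH (s - 1)) ?_).mp key2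
  rw [monomial_eq, Finsupp.prod_fintype _ _ (by simp), C_1, one_mul, map_prod,
    ← Finset.mul_prod_erase univ _ (mem_univ i), hh, show s - 1 - k = α i % s by omega]
  simp only [map_pow, rename_X]
  have e1 : (X 0 : MvPolynomial (Fin (n + 1)) F) ^ (s - 1) = X 0 ^ (α i % s) * X 0 ^ k := by
    rw [← pow_add]; congr 1; omega
  have e2 : (X i.succ : MvPolynomial (Fin (n + 1)) F) ^ α i =
      X i.succ ^ (α i % s) * (X i.succ ^ s) ^ (α i / s) := by
    rw [← pow_mul, ← pow_add, Nat.mod_add_div]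
  rw [e1, e2]
  ring

lemma ker_Car_memH (hs : p ^ r < Fintype.card F) {v : MvPolynomial (Fin n) F}
    (hv : Car F n (p ^ r) v = 0) :
    X 0 ^ (p ^ r - 1) * rename Fin.succ v ∈
      LinearMap.range (GamA F n (p ^ r - 1)) ⊔ IS InH (p ^ r - 1) := by
  have hN : 0 < p ^ r := pow_pos (Fact.out : p.Prime).pos r
  rw [v.as_sum, map_sum, Finset.mul_sum]
  refine Submodule.sum_mem _ fun α hα => ?_
  obtain ⟨i, hi⟩ := exists_bad_of_Car_eq_zero hN hv hα
  rw [show monomial α (coeff α v) = coeff α v • monomial α (1 : F) by simp [smul_monomial],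
    map_smul, mul_smul_comm]
  exact Submodule.smul_mem _ _ (bad_monomial_memH p r hs α i hi)

omit [Fintype F] in
lemma inP_tw {b : Fin n → ℕ} (g : Matrix.GeneralLinearGroup (Fin n) F) :
    InP b (twGL p r g).val ↔ InP b g.val := by
  have hN : 0 < p ^ r := pow_pos (Fact.out : p.Prime).pos r
  simp only [InP, twGL_val, tw, Matrix.map_apply, pow_eq_zero_iff hN.ne']

omit [Fintype F] in
lemma Car_mem_IS {b : Fin n → ℕ} {v : MvPolynomial (Fin n) F}
    (hv : v ∈ IS (InP b) (p ^ r - 1)) : Car F n (p ^ r) v ∈ IS (InP b) 0 := by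
  induction hv using Submodule.span_induction with
  | zero => simp
  | add x y _ _ hx hy => rw [map_add]; exact Submodule.add_mem _ hx hy
  | smul a x _ hx => rw [map_smul]; exact Submodule.smul_mem _ _ hx
  | mem x hx =>
    obtain ⟨g, u, hg, rfl⟩ := hx
    rw [map_sub, map_smul, Car_act, ← smul_sub, ← twGL_val]
    have := act_sub_mem_IS 0 (twGL p r g) ((inP_tw p r g).mpr hg) (Car F n (p ^ r) u)
    rw [pow_zero, one_smul] at this
    exact Submodule.smul_mem _ _ this

lemma exists_lift_IS {b : Fin n → ℕ} {w : MvPolynomial (Fin n) F} (hw : w ∈ IS (InP b) 0) :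
    ∃ v ∈ IS (InP b) (p ^ r - 1), Car F n (p ^ r) v = w := by
  have hN : 0 < p ^ r := pow_pos (Fact.out : p.Prime).pos r
  induction hw using Submodule.span_induction with
  | zero => exact ⟨0, Submodule.zero_mem _, map_zero _⟩
  | add x y _ _ hx hy =>
    obtain ⟨a, ha, rfl⟩ := hx
    obtain ⟨b, hb, rfl⟩ := hy
    exact ⟨a + b, Submodule.add_mem _ ha hb, map_add _ _ _⟩
  | smul c x _ hx =>
    obtain ⟨a, ha, rfl⟩ := hx
    exact ⟨c • a, Submodule.smul_mem _ _ ha, map_smul _ _ _⟩
  | mem x hx =>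
    obtain ⟨g, u, hg, rfl⟩ := hx
    obtain ⟨g', rfl⟩ := twGL_surjective p r g
    refine ⟨(g'.val.det ^ (p ^ r - 1))⁻¹ • _, Submodule.smul_mem _ _ (act_sub_mem_IS _ g'
      ((inP_tw p r g').mp hg) (monomial (top n (p ^ r - 1)) 1 * expand (p ^ r) u)), ?_⟩
    rw [map_smul, map_sub, map_smul, Car_act, Car_top_mul_expand hN, ← smul_sub, smul_smul,
      inv_mul_cancel₀ (pow_ne_zero _ g'.det_ne_zero), one_smul, twGL_val, pow_zero, one_smul]

end Frob

section Moore

lemma moore_eq_LL (t : ℕ) : moore F n t = LL (Fintype.card F) (ext0 X) t :=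
  det_eq_LL (F := F) _ t

lemma moore_succ' (t : ℕ) : moore F (n + 1) (t + 1) = X 0 * Yv F n (moore F n t) := by
  have hq := one_lt_q F
  rw [moore_eq_LL, moore_eq_LL, add_comm t 1, LL_add]
  congr 1
  · simp [LL, sub0, ext0]
  · refine Eq.trans ?_ (map_LL _ (Yv F n).toRingHom _ _).symm
    congr 1
    funext k
    by_cases hk : k < n
    · have h1 : 1 + k < n + 1 := by omega
      have h2 : (⟨1 + k, h1⟩ : Fin (n + 1)) = Fin.succ ⟨k, hk⟩ := Fin.ext (add_comm _ _)
      simp [sub0, ext0, hk, h1, h2, Yv]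
    · have h1 : ¬ 1 + k < n + 1 := by omega
      simp [sub0, ext0, hk, h1]

lemma moore_eq_rename {t : ℕ} (h : t ≤ n) :
    moore F n t = rename (Fin.castLE h) (moore F t t) := by
  rw [moore_eq_LL, moore_eq_LL]
  refine Eq.trans (LL_congr _ fun k hk => ?_) (map_LL _ (rename (Fin.castLE h) :
    MvPolynomial (Fin t) F →ₐ[F] MvPolynomial (Fin n) F).toRingHom _ _).symm
  simp [ext0, hk, hk.trans_le h]

lemma moore_eq_zero {t : ℕ} (h : n < t) : moore F n t = 0 := by
  refine Matrix.det_eq_zero_of_row_eq_zero ⟨n, h⟩ fun l => ?_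
  simp [ext0]

lemma moore_ne_zero' {t : ℕ} (h : t ≤ n) : moore F n t ≠ 0 := by
  rw [moore_eq_rename h]
  exact fun h0 => moore_ne_zero (rename_injective _ (Fin.castLE_injective h) (by simpa using h0))

/-- The first `t` variables span an invariant subspace. -/
def IsCut {k : Type*} [Field k] (t : ℕ) (g : Matrix (Fin n) (Fin n) k) : Prop :=
  ∀ i j : Fin n, (i : ℕ) < t → t ≤ j → g i j = 0

lemma act_rename {k : Type*} [Field k] {t : ℕ} (h : t ≤ n) {g : Matrix (Fin n) (Fin n) k}
    (hg : IsCut t g) (u : MvPolynomial (Fin t) k) : act g (rename (Fin.castLE h) u) =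
      rename (Fin.castLE h) (act (g.submatrix (Fin.castLE h) (Fin.castLE h)) u) := by
  have : (act g).comp (rename (Fin.castLE h)) =
      (rename (Fin.castLE h)).comp (act (g.submatrix (Fin.castLE h) (Fin.castLE h))) := by
    apply MvPolynomial.algHom_ext
    intro i
    simp only [AlgHom.comp_apply, rename_X, act_X, map_sum, map_smul, Matrix.submatrix_apply]
    refine (Finset.sum_of_injOn (Fin.castLE h) (Fin.castLE_injective h).injOn (by simp)
      (fun j _ hj => ?_) (fun _ _ => rfl)).symm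
    rw [hg _ j i.2 (not_lt.mp fun h1 => hj ⟨⟨j, h1⟩, by simp, rfl⟩), zero_smul]
  exact DFunLike.congr_fun this u

lemma act_moore' {t : ℕ} (h : t ≤ n) {g : Matrix (Fin n) (Fin n) F} (hg : IsCut t g) :
    act g (moore F n t) = (g.submatrix (Fin.castLE h) (Fin.castLE h)).det • moore F n t := by
  rw [moore_eq_rename h, act_rename h hg, act_moore, map_smul]

lemma det_cut_ne {t : ℕ} (h : t ≤ n) {g : Matrix.GeneralLinearGroup (Fin n) F}
    (hg : IsCut t g.val) : (g.val.submatrix (Fin.castLE h) (Fin.castLE h)).det ≠ 0 := by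
  intro h0
  have h1 := congrArg (act (g⁻¹).val) (act_moore' h hg)
  rw [h0, zero_smul, map_zero, act_act, Units.mul_inv, act_one] at h1
  exact moore_ne_zero' h h1

end Moore

end Pool.Agent.Work.MP_a1538a_al.Par

/-!
Chains of finite subspaces and functionals supported near their points.
-/

set_option autoImplicit false

namespace Pool.Agent.Work.MP_a1538a_al.Par

open Finset MvPolynomial Hedge

variable {F : Type*} [Field F] [Fintype F] {n : ℕ} {K : Type*} [Field K] [Algebra F K]

variable (F) in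
/-- An increasing sequence of finite subspaces. -/
structure IsChn (U : ℕ → Finset K) : Prop where
  sub : ∀ κ, IsSub F (U κ)
  mono : Monotone U

/-- Points whose coordinates lie in the subspaces of their blocks. -/
noncomputable def pts (b : Fin n → ℕ) (U : ℕ → Finset K) : Finset (Fin n → K) :=
  Fintype.piFinset fun i => U (b i)

omit [Field K] in
lemma mem_pts {b : Fin n → ℕ} {U : ℕ → Finset K} {z : Fin n → K} :
    z ∈ pts b U ↔ ∀ i, z i ∈ U (b i) := Fintype.mem_piFinset

omit [Fintype F] in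
lemma IsChn.mv_mem {U : ℕ → Finset K} (hU : IsChn F U) {b : Fin n → ℕ}
    {g : Matrix (Fin n) (Fin n) F} (hg : InP b g) {z : Fin n → K} (hz : z ∈ pts b U) :
    mv g z ∈ pts b U := by
  rw [mem_pts] at hz ⊢
  refine fun i => (hU.sub _).sum_mem _ _ fun j _ => ?_
  by_cases h : b i < b j
  · rw [hg i j h, zero_smul]; exact (hU.sub _).zero_mem
  · exact (hU.sub _).smul_mem _ _ (hU.mono (not_lt.mp h) (hz j))

open Classical in
variable (F) in
/-- Coefficient vectors supported on the first blocks. -/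
noncomputable def Lb (b : Fin n → ℕ) (κ : ℕ) : Finset (Fin n → F) :=
  Fintype.piFinset fun j => if b j ≤ κ then univ else {0}

lemma mem_Lb {b : Fin n → ℕ} {κ : ℕ} {l : Fin n → F} :
    l ∈ Lb F b κ ↔ ∀ j, κ < b j → l j = 0 := by
  rw [Lb, Fintype.mem_piFinset]
  refine forall_congr' fun j => ?_
  by_cases h : b j ≤ κ
  · simp [h, not_lt.mpr h]
  · simp [h, not_le.mp h]

lemma card_Lb {b : Fin n → ℕ} {κ t : ℕ} (ht : ∀ i : Fin n, (i : ℕ) < t ↔ b i ≤ κ) (h : t ≤ n) :
    #(Lb F b κ) = Fintype.card F ^ t := by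
  rw [Lb, Fintype.card_piFinset]
  have := prod_dite_fin h (fun _ => Fintype.card F)
  rw [Finset.prod_const, Finset.card_univ, Fintype.card_fin] at this
  rw [← this]
  refine Finset.prod_congr rfl fun i _ => ?_
  by_cases hi : (i : ℕ) < t
  · simp [hi, (ht i).mp hi]
  · simp [hi, mt (ht i).mpr hi]

lemma cast_card_Lb (b : Fin (n + 1) → ℕ) : (#(Lb F b (b 0)) : F) = 0 := by
  rw [Lb, Fintype.card_piFinset, Nat.cast_prod]
  exact Finset.prod_eq_zero (mem_univ 0) (by simp)

open Classical in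
variable (F) in
/-- The chain spanned by a point. -/
noncomputable def spB (b : Fin n → ℕ) (y : Fin n → K) (κ : ℕ) : Finset K :=
  (Lb F b κ).image fun l => ∑ i, l i • y i

lemma mem_spB {b : Fin n → ℕ} {y : Fin n → K} {κ : ℕ} {x : K} :
    x ∈ spB F b y κ ↔ ∃ l : Fin n → F, (∀ j, κ < b j → l j = 0) ∧ ∑ i, l i • y i = x := by
  simp [spB, mem_Lb]

lemma isChn_spB (b : Fin n → ℕ) (y : Fin n → K) : IsChn F (spB F b y) := by
  refine ⟨fun κ => ⟨mem_spB.mpr ⟨0, by simp, by simp⟩, fun x hx y hy => ?_, fun a x hx => ?_⟩,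
    fun κ κ' h x hx => ?_⟩
  · obtain ⟨l, h, rfl⟩ := mem_spB.mp hx
    obtain ⟨l', h', rfl⟩ := mem_spB.mp hy
    exact mem_spB.mpr ⟨l + l', fun j hj => by simp [h j hj, h' j hj],
      by simp [add_smul, Finset.sum_add_distrib]⟩
  · obtain ⟨l, h, rfl⟩ := mem_spB.mp hx
    exact mem_spB.mpr ⟨a • l, fun j hj => by simp [h j hj], by simp [mul_smul, Finset.smul_sum]⟩
  · obtain ⟨l, h', rfl⟩ := mem_spB.mp hx
    exact mem_spB.mpr ⟨l, fun j hj => h' j (by omega), rfl⟩

lemma self_mem_pts (b : Fin n → ℕ) (y : Fin n → K) : y ∈ pts b (spB F b y) :=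
  mem_pts.mpr fun i => mem_spB.mpr ⟨Pi.single i 1, fun j hj => Pi.single_eq_of_ne
    (by rintro rfl; omega) _, by simp [Pi.single_apply]⟩

lemma spB_subset {U : ℕ → Finset K} (hU : IsChn F U) {b : Fin n → ℕ} {z : Fin n → K}
    (hz : z ∈ pts b U) (κ : ℕ) : spB F b z κ ⊆ U κ := by
  intro x hx
  obtain ⟨l, h, rfl⟩ := mem_spB.mp hx
  refine (hU.sub _).sum_mem _ _ fun j _ => ?_
  by_cases hj : κ < b j
  · rw [h j hj, zero_smul]; exact (hU.sub _).zero_mem
  · exact (hU.sub _).smul_mem _ _ (hU.mono (not_lt.mp hj) (mem_pts.mp hz j))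

lemma pts_spB_subset {U : ℕ → Finset K} (hU : IsChn F U) {b : Fin n → ℕ} {z : Fin n → K}
    (hz : z ∈ pts b U) : pts b (spB F b z) ⊆ pts b U :=
  fun _ hy => mem_pts.mpr fun i => spB_subset hU hz _ (mem_pts.mp hy i)

open Classical in
lemma orbit_zero {b : Fin n → ℕ} (G : (Fin n → K) → K) (H : (Fin n → K) → Prop)
    (hH : ∀ y z, H y → z ∈ pts b (spB F b y) → H z)
    (hG : ∀ y, H y → ∑ z ∈ pts b (spB F b y), G z = 0) (y : Fin n → K) (hy : H y) :
    ∑ z ∈ (pts b (spB F b y)).filter (fun z => spB F b z ∘ b = spB F b y ∘ b), G z = 0 := by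
  induction hN : ∑ i, #(spB F b y (b i)) using Nat.strong_induction_on generalizing y with
  | _ N ih =>
    have h1 := hG y hy
    rw [← Finset.sum_fiberwise_of_maps_to (t := (pts b (spB F b y)).image fun z => spB F b z ∘ b)
      (g := fun z => spB F b z ∘ b) (fun z hz => Finset.mem_image_of_mem _ hz),
      Finset.sum_eq_single (spB F b y ∘ b)] at h1
    · exact h1
    · intro W hW hne
      obtain ⟨y', hy', rfl⟩ := Finset.mem_image.mp hW
      have hsub := spB_subset (isChn_spB (F := F) b y) hy'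
      obtain ⟨i, hi⟩ := Function.ne_iff.mp hne
      rw [← ih _ (hN ▸ Finset.sum_lt_sum (fun i _ => Finset.card_le_card (hsub _))
        ⟨i, mem_univ _, Finset.card_lt_card (Finset.ssubset_iff_subset_ne.mpr ⟨hsub _, hi⟩)⟩)
        y' (hH y y' hy hy') rfl]
      refine Finset.sum_congr ?_ fun _ _ => rfl
      ext z
      simp only [Finset.mem_filter]
      exact ⟨fun h => ⟨mem_pts.mpr fun i => (congrFun h.2 i).le
        (mem_pts.mp (self_mem_pts (F := F) b z) i), h.2⟩,
        fun h => ⟨pts_spB_subset (isChn_spB b y) hy' h.1, h.2⟩⟩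
    · exact fun h => absurd (Finset.mem_image_of_mem _ (self_mem_pts b y)) h

lemma weighted_zero {b : Fin n → ℕ} (G : (Fin n → K) → K) (H : (Fin n → K) → Prop)
    (hH : ∀ y z, H y → z ∈ pts b (spB F b y) → H z)
    (hG : ∀ y, H y → ∑ z ∈ pts b (spB F b y), G z = 0) (T : Finset (Fin n → K))
    (hT : ∀ y ∈ T, H y ∧ pts b (spB F b y) ⊆ T) (ψ : (Fin n → K) → K)
    (hψ : ∀ y z, spB F b y ∘ b = spB F b z ∘ b → ψ y = ψ z) : ∑ z ∈ T, ψ z * G z = 0 := by
  classical
  rw [← Finset.sum_fiberwise_of_maps_to (t := T.image fun z => spB F b z ∘ b)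
    (g := fun z => spB F b z ∘ b) (fun z hz => Finset.mem_image_of_mem _ hz)]
  refine Finset.sum_eq_zero fun W hW => ?_
  obtain ⟨y, hy, rfl⟩ := Finset.mem_image.mp hW
  have h1 := congrArg (ψ y * ·) (orbit_zero G H hH hG y (hT y hy).1)
  simp only [Finset.mul_sum, mul_zero] at h1
  rw [← h1]
  refine Finset.sum_congr ?_ fun z hz => by rw [hψ z y (Finset.mem_filter.mp hz).2]
  ext z
  simp only [Finset.mem_filter]
  exact ⟨fun h => ⟨mem_pts.mpr fun i => (congrFun h.2 i).le
    (mem_pts.mp (self_mem_pts (F := F) b z) i), h.2⟩, fun h => ⟨(hT y hy).2 h.1, h.2⟩⟩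

open Classical in
lemma card_fiberB (b : Fin n → ℕ) (κ : ℕ) (y : Fin n → K) (w : K) :
    #{l ∈ Lb F b κ | ∑ i, l i • y i = w} =
      if w ∈ spB F b y κ then #(Lb F b κ) / #(spB F b y κ) else 0 := by
  have h1 : ∀ w ∈ spB F b y κ, #{l ∈ Lb F b κ | ∑ i, l i • y i = w} =
      #{l ∈ Lb F b κ | ∑ i, l i • y i = 0} := by
    intro w hw
    obtain ⟨l0, h0, rfl⟩ := mem_spB.mp hw
    refine Finset.card_nbij' (fun l => l - l0) (fun l => l + l0) ?_ ?_ ?_ ?_
    · intro l hl
      simp only [coe_filter, mem_Lb, Set.mem_ofPred_eq] at hl ⊢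
      exact ⟨fun j hj => by simp [hl.1 j hj, h0 j hj],
        by simp [sub_smul, Finset.sum_sub_distrib, hl.2]⟩
    · intro l hl
      simp only [coe_filter, mem_Lb, Set.mem_ofPred_eq] at hl ⊢
      exact ⟨fun j hj => by simp [hl.1 j hj, h0 j hj],
        by simp [add_smul, Finset.sum_add_distrib, hl.2]⟩
    · intro l _; simp
    · intro l _; simp
  split_ifs with hw
  · have h2 := Finset.card_eq_sum_card_image (fun l : Fin n → F => ∑ i, l i • y i) (Lb F b κ)
    rw [← spB, Finset.sum_congr rfl h1, Finset.sum_const, smul_eq_mul] at h2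
    rw [h1 w hw, h2, Nat.mul_div_cancel_left _ (Finset.card_pos.mpr ⟨w, hw⟩)]
  · rw [Finset.card_eq_zero, Finset.filter_eq_empty_iff]
    intro l hl h
    exact hw (mem_spB.mpr ⟨l, mem_Lb.mp hl, h⟩)

lemma exists_reps {b : Fin (n + 1) → ℕ} (hb : Monotone b) :
    ∃ g : (Fin (n + 1) → F) → Matrix.GeneralLinearGroup (Fin (n + 1)) F,
      ∀ l ∈ Lb F b (b 0), l ≠ 0 → InP b (g l).val ∧ ∀ j, ((g l)⁻¹).val 0 j = l j := by
  classical
  have hex : ∀ l : Fin (n + 1) → F, ∃ g : Matrix.GeneralLinearGroup (Fin (n + 1)) F,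
      l ∈ Lb F b (b 0) → l ≠ 0 → InP b g.val ∧ ∀ j, (g⁻¹).val 0 j = l j := by
    intro l
    by_cases h : l = 0
    · exact ⟨1, fun _ h' => absurd h h'⟩
    obtain ⟨k, hk⟩ : ∃ k, l k ≠ 0 := Function.ne_iff.mp h
    refine ⟨(Matrix.GeneralLinearGroup.mkOfDetNeZero
      ((Matrix.updateRow 1 k l).submatrix (Equiv.swap 0 k) id) ?_)⁻¹, fun hl _ =>
        ⟨InP.inv fun i j hij => ?_, fun j => ?_⟩⟩
    · rw [Matrix.det_permute, det_updateRow_one]
      refine mul_ne_zero ?_ hk
      rcases Int.units_eq_one_or (Equiv.Perm.sign (Equiv.swap 0 k)) with h | h <;> simp [h]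
    · have h1 : b k = b 0 :=
        le_antisymm (not_lt.mp fun h => hk (mem_Lb.mp hl k h)) (hb (Fin.zero_le k))
      have h2 : b (Equiv.swap 0 k i) = b i := by
        rw [Equiv.swap_apply_def]
        split_ifs with h3 h4
        · rw [h3, h1]
        · rw [h4, h1]
        · rfl
      change ((Matrix.updateRow 1 k l).submatrix (Equiv.swap 0 k) id) i j = 0
      rw [Matrix.submatrix_apply, Matrix.updateRow_apply]
      split_ifs with h3
      · exact mem_Lb.mp hl j (by rw [← h1, ← h3, h2]; exact hij)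
      · exact Matrix.one_apply_ne fun h4 => by rw [← h2, h4] at hij; exact lt_irrefl _ hij
    · rw [inv_inv]
      change ((Matrix.updateRow 1 k l).submatrix (Equiv.swap 0 k) id) 0 j = l j
      simp
  choose g hg using hex
  exact ⟨g, hg⟩

open Classical in
/-- The transfer to the stabiliser of the first line. -/
noncomputable def trf (b : Fin (n + 1) → ℕ) (a : ℕ)
    (g : (Fin (n + 1) → F) → Matrix.GeneralLinearGroup (Fin (n + 1)) F)
    (u : MvPolynomial (Fin (n + 1)) F) : MvPolynomial (Fin (n + 1)) F :=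
  ∑ l ∈ (Lb F b (b 0)).erase 0, ((g l).val.det ^ a)⁻¹ • act (g l).val u

lemma trf_add_mem {b : Fin (n + 1) → ℕ} (a : ℕ)
    {g : (Fin (n + 1) → F) → Matrix.GeneralLinearGroup (Fin (n + 1)) F}
    (hg : ∀ l ∈ Lb F b (b 0), l ≠ 0 → InP b (g l).val ∧ ∀ j, ((g l)⁻¹).val 0 j = l j)
    (u : MvPolynomial (Fin (n + 1)) F) : trf b a g u + u ∈ IS (InP b) a := by
  classical
  have h0 : (0 : Fin (n + 1) → F) ∈ Lb F b (b 0) := mem_Lb.mpr fun _ _ => rfl
  have h1 := Submodule.sum_mem (IS (InP b) a) (t := (Lb F b (b 0)).erase 0)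
    fun l hl => Submodule.smul_mem _ ((g l).val.det ^ a)⁻¹ (act_sub_mem_IS a (g l)
      (hg l (Finset.mem_of_mem_erase hl) (Finset.ne_of_mem_erase hl)).1 u)
  simp only [smul_sub, smul_smul, inv_mul_cancel₀ (pow_ne_zero _ (g _).det_ne_zero),
    one_smul] at h1
  rw [Finset.sum_sub_distrib, Finset.sum_const, Finset.card_erase_of_mem h0,
    ← Nat.cast_smul_eq_nsmul F, Nat.cast_sub (Finset.card_pos.mpr ⟨0, h0⟩), cast_card_Lb] at h1
  simpa [trf] using h1

open Classical in
lemma sum_trf {b : Fin (n + 1) → ℕ} (a : ℕ)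
    {g : (Fin (n + 1) → F) → Matrix.GeneralLinearGroup (Fin (n + 1)) F}
    (hg : ∀ l ∈ Lb F b (b 0), l ≠ 0 → InP b (g l).val ∧ ∀ j, ((g l)⁻¹).val 0 j = l j)
    (μ : (Fin (n + 1) → K) → MvPolynomial (Fin (n + 1)) F →ₗ[F] K)
    (u : MvPolynomial (Fin (n + 1)) F) (ν : (Fin (n + 1) → F) → (Fin (n + 1) → K) → K)
    (hμ : ∀ l ∈ Lb F b (b 0), l ≠ 0 → ∀ z,
      μ z (act (g l).val u) = (g l).val.det ^ a • ν l (mv (g l).val z))
    {U : ℕ → Finset K} (hU : IsChn F U) (w : K) :
    ∑ z ∈ (pts b U).filter (fun z => z 0 = w), μ z (trf b a g u) =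
      ∑ y ∈ pts b U, ∑ l ∈ ((Lb F b (b 0)).erase 0).filter (fun l => ∑ i, l i • y i = w),
        ν l y := by
  simp only [trf, map_sum, map_smul, Finset.sum_filter]
  rw [Finset.sum_comm' (t' := (Lb F b (b 0)).erase 0) (s' := fun _ => pts b U) (by tauto)]
  simp only [← Finset.sum_filter]
  rw [Finset.sum_comm]
  refine Finset.sum_congr rfl fun l hl => ?_
  have hl1 := Finset.mem_of_mem_erase hl
  have hl2 := Finset.ne_of_mem_erase hl
  rw [Finset.sum_filter, Finset.sum_filter,
    ← sum_mv (g l) _ (fun z hz => hU.mv_mem (hg l hl1 hl2).1 hz)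
      (fun y => if ∑ i, l i • y i = w then ν l y else 0)]
  refine Finset.sum_congr rfl fun z _ => ?_
  have h3 : ∑ i, l i • mv (g l).val z i = z 0 := by
    have h4 : mv ((g l)⁻¹).val (mv (g l).val z) 0 = z 0 := by
      rw [← mv_mul]; simp
    rw [← h4]
    conv_rhs => rw [mv]
    exact Finset.sum_congr rfl fun i _ => by rw [(hg l hl1 hl2).2]
  rw [h3, hμ l hl1 hl2, smul_smul, inv_mul_cancel₀ (pow_ne_zero _ (g l).det_ne_zero), one_smul]

open Classical in
variable (F) in
/-- The number of nonzero coefficient vectors with a given value. -/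
noncomputable def cnt (b : Fin (n + 1) → ℕ) (w : K) (y : Fin (n + 1) → K) : K :=
  (#(((Lb F b (b 0)).erase 0).filter (fun l => ∑ i, l i • y i = w)) : ℕ)

open Classical in
lemma card_cnt (b : Fin (n + 1) → ℕ) (w : K) (y : Fin (n + 1) → K) :
    #(((Lb F b (b 0)).erase 0).filter (fun l => ∑ i, l i • y i = w)) =
      (if w ∈ spB F b y (b 0) then #(Lb F b (b 0)) / #(spB F b y (b 0)) else 0) -
        if 0 = w then 1 else 0 := by
  rw [← card_fiberB, Finset.filter_erase]
  split_ifs with h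
  · exact Finset.card_erase_of_mem (Finset.mem_filter.mpr ⟨mem_Lb.mpr fun _ _ => rfl, by simpa⟩)
  · rw [Finset.erase_eq_of_notMem (fun h' => h (by simpa using (Finset.mem_filter.mp h').2))]
    rfl

lemma cnt_congr (b : Fin (n + 1) → ℕ) (w : K) (y z : Fin (n + 1) → K)
    (h : spB F b y ∘ b = spB F b z ∘ b) : cnt F b w y = cnt F b w z := by
  have : spB F b y (b 0) = spB F b z (b 0) := congrFun h 0
  rw [cnt, cnt, card_cnt, card_cnt, this]

section Lam

variable (K n) in
/-- The product of the powers of the first `t` variables. -/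
noncomputable def Xt (t a : ℕ) : MvPolynomial (Fin n) K :=
  ∏ i : Fin n, if (i : ℕ) < t then X i ^ a else 1

lemma Xt_eq_rename {t : ℕ} (h : t ≤ n) (a : ℕ) :
    Xt n K t a = rename (Fin.castLE h) (monomial (top t a) 1) := by
  rw [monomial_top, map_prod, ← prod_dite_fin h]
  refine Finset.prod_congr rfl fun i _ => ?_
  split_ifs <;> simp

lemma Xt_succ (t a : ℕ) : Xt (n + 1) K (t + 1) a = X 0 ^ a * rename Fin.succ (Xt n K t a) := by
  simp [Xt, Fin.prod_univ_succ, apply_ite (rename Fin.succ)]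

lemma rename_mem_JN {t N : ℕ} (f : Fin t → Fin n) {u : MvPolynomial (Fin t) K}
    (hu : u ∈ JN K t N) : rename f u ∈ JN K n N := by
  obtain ⟨v, rfl⟩ := Ideal.mem_span_range_iff_exists_fun.mp hu
  rw [map_sum]
  refine Ideal.sum_mem _ fun i _ => ?_
  rw [map_mul, map_pow, rename_X]
  exact Ideal.mul_mem_left _ _ (X_pow_mem_JN _ _)

variable (F) in
/-- The functional of value type in the first `t` variables and of residue type in the others. -/
noncomputable def lamT (a t : ℕ) (z : Fin n → K) : MvPolynomial (Fin n) F →ₗ[F] K :=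
  ((lcoeff K (top n a)).restrictScalars F).comp
    (((LinearMap.mulLeft K (Xt n K t a)).restrictScalars F).comp (sh F z).toLinearMap)

omit [Fintype F] in
lemma lamT_apply (a t : ℕ) (z : Fin n → K) (u : MvPolynomial (Fin n) F) :
    lamT F a t z u = coeff (top n a) (Xt n K t a * sh F z u) := rfl

omit [Fintype F] in
lemma lamT_mul_rename {t : ℕ} (h : t ≤ n) (a : ℕ) (z : Fin n → K) (v : MvPolynomial (Fin t) F)
    (u : MvPolynomial (Fin n) F) : lamT F a t z (rename (Fin.castLE h) v * u) =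
      aeval (z ∘ Fin.castLE h) v * lamT F a t z u := by
  have h1 : Xt n K t a * (sh F z (rename (Fin.castLE h) v) - C (aeval (z ∘ Fin.castLE h) v)) ∈
      JN K n (a + 1) := by
    induction v using MvPolynomial.induction_on with
    | C c => simp [sh, MvPolynomial.algebraMap_apply]
    | add v v' hv hv' =>
      refine (congrArg (· ∈ JN K n (a + 1)) ?_).mp (Ideal.add_mem _ hv hv')
      simp only [map_add]; ring
    | mul_X v i hv =>
      have h2 : Xt n K t a * X (Fin.castLE h i) ∈ JN K n (a + 1) := by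
        rw [Xt, ← Finset.mul_prod_erase _ _ (mem_univ (Fin.castLE h i)), if_pos (by simp),
          mul_right_comm, ← pow_succ]
        exact Ideal.mul_mem_right _ _ (X_pow_mem_JN _ _)
      refine (congrArg (· ∈ JN K n (a + 1)) ?_).mp (Ideal.add_mem _
        (Ideal.mul_mem_right (C (z (Fin.castLE h i))) _ hv)
        (Ideal.mul_mem_right (sh F z (rename (Fin.castLE h) v)) _ h2))
      simp only [map_mul, rename_X, aeval_X, Function.comp_apply, sh]
      ring
  have h2 := coeff_top_of_mem_JN (Nat.succ_pos a) (Ideal.mul_mem_right (sh F z u) _ h1)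
  rw [Nat.succ_sub_one, mul_sub, sub_mul, coeff_sub, sub_eq_zero] at h2
  rw [lamT_apply, lamT_apply, map_mul, ← mul_assoc, h2, mul_comm (Xt _ _ _ _), mul_assoc,
    coeff_C_mul]

omit [Fintype F] in
lemma lamT_cons (w : K) (z : Fin n → K) (u : MvPolynomial (Fin (n + 1)) F) (a t : ℕ) :
    lamT F a (t + 1) (Fin.cons w z) u = coeff (top n a) (Xt n K t a *
      aeval (Fin.cons (C w) fun i => C (z i) + X i : Fin (n + 1) → MvPolynomial (Fin n) K) u) := by
  obtain ⟨W0, W1, h⟩ := exists_rename_add (sh F (Fin.cons w z : Fin (n + 1) → K) u)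
  have h1 := congrArg (aeval (Fin.cons 0 X : Fin (n + 1) → MvPolynomial (Fin n) K)) h
  have h2 : aeval (Fin.cons 0 X : Fin (n + 1) → MvPolynomial (Fin n) K)
      (sh F (Fin.cons w z : Fin (n + 1) → K) u) =
      aeval (Fin.cons (C w) fun i => C (z i) + X i : Fin (n + 1) → MvPolynomial (Fin n) K) u := by
    have : ((aeval (Fin.cons 0 X : Fin (n + 1) → MvPolynomial (Fin n) K)).restrictScalars F).comp
        (sh F (Fin.cons w z : Fin (n + 1) → K)) = aeval (Fin.cons (C w) fun i => C (z i) + X i :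
          Fin (n + 1) → MvPolynomial (Fin n) K) := by
      apply MvPolynomial.algHom_ext
      intro i
      refine Fin.cases ?_ (fun i => ?_) i <;> simp [sh]
    exact DFunLike.congr_fun this u
  rw [h2, map_add, map_mul, aeval_X, Fin.cons_zero, zero_mul, add_zero, aeval_rename] at h1
  have h3 : (Fin.cons 0 X : Fin (n + 1) → MvPolynomial (Fin n) K) ∘ Fin.succ = X := rfl
  rw [h3, aeval_X_left_apply] at h1
  have h4 := coeff_top_of_mem_JN (Nat.succ_pos a) (Ideal.mul_mem_right
    (rename Fin.succ (Xt n K t a) * W1) _ (X_pow_mem_JN (R := K) (a + 1) 0))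
  rw [Nat.succ_sub_one] at h4
  rw [lamT_apply, h, h1, Xt_succ, mul_add, coeff_add, mul_assoc, ← map_mul, coeff_top_succ,
    show X 0 ^ a * rename Fin.succ (Xt n K t a) * (X 0 * W1) =
      X 0 ^ (a + 1) * (rename Fin.succ (Xt n K t a) * W1) by ring, h4, add_zero]

variable (p : ℕ) [Fact p.Prime] [CharP K p] (r : ℕ)

lemma coeff_act_Xt {t : ℕ} (h : t ≤ n) {g : Matrix (Fin n) (Fin n) K} (hg : IsCut t g)
    (W : MvPolynomial (Fin n) K) :
    (g.submatrix (Fin.castLE h) (Fin.castLE h)).det ^ (p ^ r - 1) *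
      coeff (top n (p ^ r - 1)) (Xt n K t (p ^ r - 1) * act g W) =
    g.det ^ (p ^ r - 1) * coeff (top n (p ^ r - 1)) (Xt n K t (p ^ r - 1) * W) := by
  have hN : 0 < p ^ r := pow_pos (Fact.out : p.Prime).pos r
  have h1 := rename_mem_JN (Fin.castLE h) (sub_top_mem_JN hN
    (isWH_act (g.submatrix (Fin.castLE h) (Fin.castLE h)) (isWH_monomial_top (p ^ r - 1))))
  rw [map_sub, ← act_rename h hg, coeff_top_act_det, coeff_monomial, if_pos rfl, mul_one,
    ← mul_one (_ ^ (p ^ r - 1)), ← C_mul_monomial, map_mul, rename_C, ← Xt_eq_rename] at h1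
  have h2 := coeff_top_of_mem_JN hN (Ideal.mul_mem_right (act g W) _ h1)
  rw [sub_mul, coeff_sub, sub_eq_zero, ← map_mul, coeff_top_act_det, mul_assoc, coeff_C_mul] at h2
  exact h2.symm

variable (F) in
/-- The equivariant form of `lamT`. -/
noncomputable def lamL (s t : ℕ) (z : Fin n → K) : MvPolynomial (Fin n) F →ₗ[F] K :=
  (lamT F (s - 1) t z).comp (LinearMap.mulLeft F (moore F n t ^ (Fintype.card F - s)))

omit [CharP K p] in
lemma lamL_apply (s t : ℕ) (z : Fin n → K) (u : MvPolynomial (Fin n) F) :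
    lamL F s t z u = lamT F (s - 1) t z (moore F n t ^ (Fintype.card F - s) * u) := rfl

lemma lamL_act (hs : p ^ r ≤ Fintype.card F) {t : ℕ} (h : t ≤ n)
    {g : Matrix.GeneralLinearGroup (Fin n) F} (hg : IsCut t g.val) (z : Fin n → K)
    (u : MvPolynomial (Fin n) F) : lamL F (p ^ r) t z (act g.val u) =
      g.val.det ^ (p ^ r - 1) • lamL F (p ^ r) t (mv g.val z) u := by
  have hN : 0 < p ^ r := pow_pos (Fact.out : p.Prime).pos r
  set d := (g.val.submatrix (Fin.castLE h) (Fin.castLE h)).det with hd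
  have hd0 : d ≠ 0 := det_cut_ne h hg
  have h1 := coeff_act_Xt p r h (g := g.val.map (algebraMap F K))
    (fun i j hi hj => by rw [Matrix.map_apply, hg i j hi hj, map_zero])
    (sh F (mv g.val z) (moore F n t ^ (Fintype.card F - p ^ r) * u))
  rw [← sh_act, map_mul (act g.val), map_pow (act g.val), act_moore' h hg, smul_pow,
    smul_mul_assoc, map_smul, mul_smul_comm, coeff_smul, Matrix.submatrix_map,
    ← RingHom.mapMatrix_apply, ← RingHom.mapMatrix_apply, ← RingHom.map_det, ← RingHom.map_det,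
    ← hd, ← map_pow, ← map_pow, ← Algebra.smul_def, ← Algebra.smul_def, smul_smul, ← pow_add,
    show p ^ r - 1 + (Fintype.card F - p ^ r) = Fintype.card F - 1 by omega,
    FiniteField.pow_card_sub_one_eq_one _ hd0, one_smul] at h1
  exact h1

omit [Fintype F] in
lemma lamT_monomial (t : ℕ) (z : Fin n → K) (α : Fin n →₀ ℕ) (c : F) :
    lamT F (p ^ r - 1) t z (monomial α c) = c • ∏ i : Fin n, if (i : ℕ) < t then z i ^ α i else
      if α i % p ^ r = p ^ r - 1 then (z i ^ p ^ r) ^ (α i / p ^ r) else 0 := by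
  have hN : 0 < p ^ r := pow_pos (Fact.out : p.Prime).pos r
  have h1 : Xt n K t (p ^ r - 1) * ∏ i, (C (z i) + X i) ^ α i = ∏ i : Fin n,
      Polynomial.aeval (X i) ((if (i : ℕ) < t then Polynomial.X ^ (p ^ r - 1) else 1) *
        (Polynomial.C (z i) + Polynomial.X) ^ α i) := by
    rw [Xt, ← Finset.prod_mul_distrib]
    refine Finset.prod_congr rfl fun i _ => ?_
    split_ifs <;> simp
  rw [lamT_apply, sh, aeval_monomial, Finsupp.prod_fintype _ _ (by simp), ← Algebra.smul_def,
    mul_smul_comm, coeff_smul, h1, coeff_top_prod]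
  congr 1
  refine Finset.prod_congr rfl fun i _ => ?_
  by_cases hi : (i : ℕ) < t
  · rw [if_pos hi, if_pos hi, Polynomial.coeff_X_pow_mul', if_pos le_rfl, Nat.sub_self,
      Polynomial.coeff_zero_eq_eval_zero]
    simp
  · have h2 := coeff_univ p r le_rfl (z i) (-1) (α i)
    have h3 : (Polynomial.X : Polynomial K) ^ p ^ r ∣ (Polynomial.C (z i) + (Polynomial.X ^ p ^ r -
        Polynomial.C (-1) * Polynomial.X)) ^ α i - (Polynomial.C (z i) + Polynomial.X) ^ α i :=
      Dvd.dvd.trans ⟨1, by simp⟩ (sub_dvd_pow_sub_pow _ _ _)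
    have h4 := (Polynomial.X_pow_dvd_iff.mp h3) (p ^ r - 1) (by omega)
    rw [Polynomial.coeff_sub, sub_eq_zero] at h4
    rw [if_neg hi, if_neg hi, one_mul, ← h4, h2]
    simp

omit [Fintype F] in
lemma lamT_zero (z : Fin n → K) (u : MvPolynomial (Fin n) F) :
    lamT F (p ^ r - 1) 0 z u = aeval (fun i => z i ^ p ^ r) (Car F n (p ^ r) u) := by
  induction u using MvPolynomial.induction_on' with
  | add a b ha hb => simp only [map_add, ha, hb]
  | monomial α a =>
    rw [lamT_monomial, Car_monomial]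
    simp only [not_lt_zero, if_false]
    split_ifs with h
    · rw [aeval_monomial, Finsupp.prod_fintype _ _ (by simp), Algebra.smul_def,
        Finset.prod_congr rfl fun i _ => if_pos (h i)]
      simp only [ediv_apply]
    · push Not at h
      obtain ⟨i, hi⟩ := h
      rw [Finset.prod_eq_zero (mem_univ i) (if_neg hi)]
      simp

end Lam

end Pool.Agent.Work.MP_a1538a_al.Par

/-!
Peeling off the first variable.
-/

set_option autoImplicit false

namespace Pool.Agent.Work.MP_a1538a_al.Par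

open Finset MvPolynomial Hedge

variable {F : Type*} [Field F] [Fintype F] {n : ℕ} {K : Type*} [Field K] [Algebra F K]

open Classical in
lemma exists_preimage_chn [IsAlgClosed K] {w : K} (hw : w ≠ 0) {U' : ℕ → Finset K}
    (hU' : IsChn F U') :
    ∃ U : ℕ → Finset K, IsChn F U ∧ (∀ κ, w ∈ U κ) ∧
      (∀ κ, #(U κ) = #(U' κ) * Fintype.card F) ∧ ∃ c : K, c ≠ 0 ∧
      ∀ (κ : ℕ) (G : K → MvPolynomial (Fin n) K) (e : MvPolynomial (Fin n) K),
      ∑ x ∈ U κ, G (x ^ Fintype.card F - w ^ (Fintype.card F - 1) * x) *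
        (C x + e) ^ (Fintype.card F - 1) = C c * ∑ y ∈ U' κ, G y := by
  have hq := one_lt_q F
  have hs : ∀ y : K, ∃ x : K, x ^ Fintype.card F - w ^ (Fintype.card F - 1) * x = y := by
    intro y
    have hlt : (Polynomial.C (w ^ (Fintype.card F - 1)) * Polynomial.X + Polynomial.C y).degree <
        (Polynomial.X ^ Fintype.card F : Polynomial K).degree := by
      rw [Polynomial.degree_X_pow]
      exact lt_of_le_of_lt Polynomial.degree_linear_le (by exact_mod_cast hq)
    obtain ⟨x, hx⟩ := IsAlgClosed.exists_root (Polynomial.X ^ Fintype.card F -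
      (Polynomial.C (w ^ (Fintype.card F - 1)) * Polynomial.X + Polynomial.C y)) (by
        rw [Polynomial.degree_sub_eq_left_of_degree_lt hlt, Polynomial.degree_X_pow]
        exact_mod_cast (by omega : Fintype.card F ≠ 0))
    refine ⟨x, ?_⟩
    simp only [Polynomial.IsRoot.def, Polynomial.eval_sub, Polynomial.eval_pow, Polynomial.eval_X,
      Polynomial.eval_add, Polynomial.eval_mul, Polynomial.eval_C] at hx
    linear_combination hx
  choose s hs using hs
  let ι : K × F → K := fun x => s x.1 + x.2 • w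
  have hι : Function.Injective ι := by
    rintro ⟨y, a⟩ ⟨y', a'⟩ h
    have h1 : y = y' := by
      rw [← hs y, ← hs y', ← phi_add_smul w (s y) a, ← phi_add_smul w (s y') a']
      change ι (y, a) ^ _ - _ * ι (y, a) = ι (y', a') ^ _ - _ * ι (y', a')
      rw [h]
    subst h1
    have h2 : a • w = a' • w := add_left_cancel h
    rw [smul_left_injective F hw h2]
  have hmem : ∀ κ x, x ∈ (U' κ ×ˢ univ).image ι ↔
      x ^ Fintype.card F - w ^ (Fintype.card F - 1) * x ∈ U' κ := by
    intro κ x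
    rw [Finset.mem_image]
    constructor
    · rintro ⟨⟨y, a⟩, h, rfl⟩
      change (s y + a • w) ^ _ - _ * (s y + a • w) ∈ U' κ
      rw [phi_add_smul, hs]
      exact (Finset.mem_product.mp h).1
    · intro h
      set y := x ^ Fintype.card F - w ^ (Fintype.card F - 1) * x with hy
      obtain ⟨a, ha⟩ := exists_smul_of_phi (F := F) (x := x - s y) hw (by
        rw [sub_pow_q1 F]
        linear_combination - hs y - hy)
      exact ⟨(y, a), by simpa using h, by simp only [ι]; rw [← ha]; ring⟩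
  refine ⟨fun κ => (U' κ ×ˢ univ).image ι, ⟨fun κ => ⟨?_, ?_, ?_⟩, fun κ κ' h x hx => ?_⟩,
    fun κ => ?_, fun κ => ?_,
    (-(-1 : F) ^ (Fintype.card F - 1)) • w ^ (Fintype.card F - 1), ?_, fun κ G e => ?_⟩
  · rw [hmem, zero_pow (by omega), mul_zero, sub_zero]; exact (hU'.sub κ).zero_mem
  · intro x hx y hy
    rw [hmem] at hx hy ⊢
    have := (hU'.sub κ).add_mem _ hx _ hy
    rw [add_pow_q1 F]
    refine (congrArg (· ∈ U' κ) ?_).mp this
    ring
  · intro a x hx
    rw [hmem] at hx ⊢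
    have := (hU'.sub κ).smul_mem a _ hx
    rwa [smul_pow_q1 F, mul_smul_comm, ← smul_sub]
  · exact (hmem _ _).mpr (hU'.mono h ((hmem _ _).mp hx))
  · rw [hmem, ← pow_succ, Nat.sub_add_cancel hq.le, sub_self]; exact (hU'.sub κ).zero_mem
  · rw [Finset.card_image_of_injective _ hι, Finset.card_product, Finset.card_univ]
  · exact smul_ne_zero (by simp) (pow_ne_zero _ hw)
  · rw [Finset.sum_image fun a _ b _ h => hι h, Finset.sum_product, Finset.mul_sum]
    refine Finset.sum_congr rfl fun y _ => ?_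
    simp only [ι, phi_add_smul, hs]
    have := sum_shift (F := F) (C (s y) + e) (C w) (j := 0) (by omega)
    simp only [pow_zero, one_smul, Nat.sub_zero, one_mul] at this
    have h0 : ∀ (a : F) (x : K), (C (a • x) : MvPolynomial (Fin n) K) = a • C x := fun a x => by
      rw [← algebraMap_smul K a (C x), ← algebraMap_smul K a x, smul_eq_C_mul, smul_eq_mul,
        map_mul]
    have h1 : ∀ a : F, C (s y + a • w) + e = C (s y) + e + a • C w := fun a => by
      rw [map_add, h0]; ring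
    simp only [h1]
    rw [← Finset.mul_sum, this, mul_comm, h0, map_pow]

lemma sum_phi_chn (b : Fin n → ℕ) {U U' : ℕ → Finset K} {c : K} {φ : K → K}
    (h : ∀ (κ : ℕ) (G : K → MvPolynomial (Fin n) K) (e : MvPolynomial (Fin n) K),
      ∑ x ∈ U κ, G (φ x) * (C x + e) ^ (Fintype.card F - 1) = C c * ∑ y ∈ U' κ, G y)
    (η : Fin n → MvPolynomial (Fin n) K) (v : MvPolynomial (Fin n) F) :
    ∑ z ∈ pts b U,
      aeval (fun i => C (φ (z i)) + η i) v * ∏ i, (C (z i) + X i) ^ (Fintype.card F - 1) =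
    C c ^ n * ∑ y ∈ pts b U', aeval (fun i => C (y i) + η i) v := by
  classical
  induction v using MvPolynomial.induction_on' with
  | monomial α a =>
    have h1 : ∏ i, (C c * ∑ y ∈ U' (b i), (C y + η i) ^ α i) = ∑ z ∈ pts b U,
        ∏ i, ((C (φ (z i)) + η i) ^ α i * (C (z i) + X i) ^ (Fintype.card F - 1)) := by
      rw [pts, ← Finset.prod_univ_sum (fun i => U (b i))
        (fun i x => (C (φ x) + η i) ^ α i * (C x + X i) ^ (Fintype.card F - 1))]
      exact Finset.prod_congr rfl fun i _ => (h _ (fun y => (C y + η i) ^ α i) (X i)).symm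
    rw [Finset.prod_mul_distrib, Finset.prod_const, Finset.card_univ, Fintype.card_fin,
      Finset.prod_univ_sum] at h1
    simp only [aeval_monomial, Finsupp.prod_fintype _ _ (fun _ => pow_zero _), mul_assoc,
      ← Finset.mul_sum, ← Finset.prod_mul_distrib]
    rw [← h1, mul_left_comm, pts]
  | add p r hp hr => simp only [map_add, add_mul, Finset.sum_add_distrib, hp, hr, mul_add]

omit [Fintype F] [Algebra F K] in
open Classical in
lemma sum_split_pts (b : Fin (n + 1) → ℕ) (U : ℕ → Finset K) (p : K → Prop)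
    (Φ : (Fin (n + 1) → K) → K) :
    ∑ z ∈ (pts b U).filter (fun z => p (z 0)), Φ z =
      ∑ w ∈ (U (b 0)).filter p, ∑ z' ∈ pts (b ∘ Fin.succ) U, Φ (Fin.cons w z') := by
  rw [← Finset.sum_product']
  refine Finset.sum_nbij' (fun z => (z 0, Fin.tail z)) (fun x => Fin.cons x.1 x.2) ?_ ?_ ?_ ?_ ?_
  · intro z hz
    simp only [mem_filter, mem_pts, mem_product] at hz ⊢
    exact ⟨⟨hz.1 0, hz.2⟩, fun i => hz.1 i.succ⟩
  · intro x hx
    simp only [mem_filter, mem_pts, mem_product] at hx ⊢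
    exact ⟨fun i => Fin.cases hx.1.1 (fun i' => hx.2 i') i, hx.1.2⟩
  · intro z _; simp
  · intro x _; simp
  · intro z _; simp

open Classical in
variable (F) in
/-- Points with a prescribed power of the first coordinate. -/
noncomputable def sl (b : Fin (n + 1) → ℕ) (U : ℕ → Finset K) (W : K) :
    Finset (Fin (n + 1) → K) :=
  (pts b U).filter fun z => z 0 ^ (Fintype.card F - 1) = W

omit [Field F] [Algebra F K] in
open Classical in
lemma sum_sl_of_fibers {b : Fin (n + 1) → ℕ} {U : ℕ → Finset K} {W : K}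
    {f : (Fin (n + 1) → K) → K} (h : ∀ w, w ^ (Fintype.card F - 1) = W →
      ∑ z ∈ (pts b U).filter (fun z => z 0 = w), f z = 0) : ∑ z ∈ sl F b U W, f z = 0 := by
  rw [sl, sum_split_pts b U (fun w => w ^ (Fintype.card F - 1) = W)]
  refine Finset.sum_eq_zero fun w hw => ?_
  have h3 := h w (Finset.mem_filter.mp hw).2
  rwa [sum_split_pts b U (fun x => x = w), Finset.sum_filter, Finset.sum_ite_eq',
    if_pos (Finset.mem_filter.mp hw).1] at h3

lemma sum_sl_zero {b : Fin (n + 1) → ℕ} {U : ℕ → Finset K} (hU : IsChn F U)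
    (f : (Fin (n + 1) → K) → K) :
    ∑ z ∈ sl F b U 0, f z = ∑ z ∈ pts (b ∘ Fin.succ) U, f (Fin.cons 0 z) := by
  classical
  have hq := one_lt_q F
  rw [sl, sum_split_pts b U (fun w => w ^ (Fintype.card F - 1) = 0),
    Finset.filter_congr (q := fun w => w = 0) fun w _ => pow_eq_zero_iff (by omega),
    Finset.sum_filter, Finset.sum_ite_eq', if_pos (hU.sub _).zero_mem]

lemma sum_sl_IS {b : Fin (n + 1) → ℕ} {a : ℕ}
    (μ : (Fin (n + 1) → K) → MvPolynomial (Fin (n + 1)) F →ₗ[F] K)
    (hμ : ∀ g : Matrix.GeneralLinearGroup (Fin (n + 1)) F, InP1 b g.val → ∀ z u,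
      μ z (act g.val u) = g.val.det ^ a • μ (mv g.val z) u)
    {U : ℕ → Finset K} (hU : IsChn F U) (W : K) {u : MvPolynomial (Fin (n + 1)) F}
    (hu : u ∈ IS (InP1 b) a) : ∑ z ∈ sl F b U W, μ z u = 0 := by
  classical
  rw [← LinearMap.sum_apply]
  refine eq_zero_of_mem_IS _ (fun g hg u => ?_) hu
  have h0 : g.val 0 0 ≠ 0 := by
    intro h
    apply g.det_ne_zero
    exact Matrix.det_eq_zero_of_row_eq_zero 0 fun j => Fin.cases h (fun j' => hg.2 j') j
  simp only [LinearMap.sum_apply, hμ g hg, ← Finset.smul_sum]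
  rw [sum_mv g _ _ (fun z => μ z u)]
  intro z hz
  rw [sl, Finset.mem_filter] at hz ⊢
  refine ⟨hU.mv_mem hg.1 hz.1, ?_⟩
  rw [mv, Fin.sum_univ_succ, Finset.sum_eq_zero (fun j _ => by rw [hg.2 j, zero_smul]), add_zero,
    smul_pow, FiniteField.pow_card_sub_one_eq_one _ h0, one_smul, hz.2]

open Classical in
lemma trf_fiber {b : Fin (n + 1) → ℕ} {a : ℕ}
    {g : (Fin (n + 1) → F) → Matrix.GeneralLinearGroup (Fin (n + 1)) F}
    (hg : ∀ l ∈ Lb F b (b 0), l ≠ 0 → InP b (g l).val ∧ ∀ j, ((g l)⁻¹).val 0 j = l j)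
    (μ : (Fin (n + 1) → K) → MvPolynomial (Fin (n + 1)) F →ₗ[F] K)
    (hμ : ∀ g : Matrix.GeneralLinearGroup (Fin (n + 1)) F, InP b g.val → ∀ z u,
      μ z (act g.val u) = g.val.det ^ a • μ (mv g.val z) u)
    {u : MvPolynomial (Fin (n + 1)) F} (H : (Fin (n + 1) → K) → Prop)
    (hH : ∀ y z, H y → z ∈ pts b (spB F b y) → H z)
    (hG : ∀ y, H y → ∑ z ∈ pts b (spB F b y), μ z u = 0) {U : ℕ → Finset K} (hU : IsChn F U)
    (w : K) (hT : ∀ y ∈ pts b U, ¬ H y → cnt F b w y = 0) :
    ∑ z ∈ (pts b U).filter (fun z => z 0 = w), μ z (trf b a g u) = 0 := by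
  rw [sum_trf a hg μ u (fun _ y => μ y u) (fun l hl hl' z => hμ _ (hg l hl hl').1 z u) hU w]
  simp only [Finset.sum_const, nsmul_eq_mul]
  change ∑ y ∈ pts b U, cnt F b w y * μ y u = 0
  rw [← Finset.sum_filter_add_sum_filter_not _ H, Finset.sum_eq_zero (s := Finset.filter (¬ H ·) _)
    (fun y hy => mul_eq_zero_of_left (hT y (Finset.mem_filter.mp hy).1
      (Finset.mem_filter.mp hy).2) _), add_zero]
  refine weighted_zero (fun z => μ z u) H hH hG _ (fun y hy => ?_) (cnt F b w) (cnt_congr b w)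
  have h1 := Finset.mem_filter.mp hy
  exact ⟨h1.2, fun z hz => Finset.mem_filter.mpr ⟨pts_spB_subset hU h1.1 hz, hH y z h1.2 hz⟩⟩

lemma sum_lin_pow_closed {h : Fin n → F} (h0 : h ≠ 0) (T : Finset (Fin n → F))
    (hT : ∀ l ∈ T, ∀ t : F, l + t • h ∈ T) {a : ℕ} (ha : a < Fintype.card F - 1) :
    ∑ l ∈ T, (∑ j, l j • X j : MvPolynomial (Fin n) K) ^ a = 0 := by
  classical
  let ell : (Fin n → F) → MvPolynomial (Fin n) K := fun l => ∑ j, l j • X j
  have hne : ell h ≠ 0 := by
    obtain ⟨k, hk⟩ := Function.ne_iff.mp h0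
    intro h1
    have h2 := congrArg (coeff (Finsupp.single k 1)) h1
    simp only [ell, coeff_sum, coeff_smul, coeff_X, coeff_zero] at h2
    rw [Finset.sum_eq_single k] at h2
    · simp only [if_true] at h2
      exact hk (by simpa [Algebra.smul_def] using h2)
    · intro j _ hj
      rw [if_neg (by rwa [Finsupp.single_left_inj one_ne_zero]), smul_zero]
    · simp
  have h1 : ∀ t : F, ∑ l ∈ T, (ell l + t • ell h) ^ (Fintype.card F - 1) =
      ∑ l ∈ T, ell l ^ (Fintype.card F - 1) := by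
    intro t
    refine Finset.sum_nbij' (fun l => l + t • h) (fun l => l + (-t) • h) (fun l hl => hT l hl _)
      (fun l hl => hT l hl _) ?_ ?_ ?_
    · intro l _; simp
    · intro l _; simp
    · intro l _
      simp [ell, add_smul, Finset.sum_add_distrib, mul_smul, Finset.smul_sum]
  have h2 : ∑ l ∈ T, ∑ t : F, t ^ a • (ell l + t • ell h) ^ (Fintype.card F - 1) = 0 := by
    rw [Finset.sum_comm]
    simp only [← Finset.smul_sum, h1]
    rw [← Finset.sum_smul, FiniteField.sum_pow_lt_card_sub_one F _ ha, zero_smul]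
  simp only [sum_shift _ _ ha] at h2
  rw [← Finset.smul_sum, ← Finset.sum_mul, smul_eq_zero, mul_eq_zero] at h2
  rcases h2 with h2 | h2 | h2
  · simp at h2
  · exact h2
  · exact absurd ((pow_eq_zero_iff (by omega)).mp h2) hne

lemma moore_zero : moore F n 0 = 1 := by simp [moore]

omit [Fintype F] in
lemma isCut_of_InP {b : Fin n → ℕ} {t κ : ℕ} (ht : ∀ i : Fin n, (i : ℕ) < t ↔ b i < κ)
    {g : Matrix (Fin n) (Fin n) F} (hg : InP b g) : IsCut t g := fun i j hi hj =>
  hg i j (((ht i).mp hi).trans_le (not_lt.mp fun h => absurd ((ht j).mpr h) (by omega)))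

omit [Fintype F] in
lemma isCut_one {b : Fin (n + 1) → ℕ} {g : Matrix (Fin (n + 1)) (Fin (n + 1)) F}
    (hg : InP1 b g) : IsCut 1 g := fun i j hi hj => by
  obtain rfl : i = 0 := Fin.ext (by simpa using hi)
  exact Fin.cases (motive := fun j => 1 ≤ (j : ℕ) → g 0 j = 0) (by simp) (fun j _ => hg.2 j) j hj

lemma lamL_one (s : ℕ) (z : Fin (n + 1) → K) (u : MvPolynomial (Fin (n + 1)) F) :
    lamL F s 1 z u = z 0 ^ (Fintype.card F - s) * lam F (s - 1) z u := by
  rw [lamL_apply, moore_eq_rename (Nat.le_add_left 1 n), ← map_pow, lamT_mul_rename, map_pow,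
    aeval_moore, lamT_apply, lam_apply, Xt_succ]
  simp [Xt]

variable (p : ℕ) [Fact p.Prime] [CharP F p] (r : ℕ)

omit [Fintype F] [CharP F p] in
lemma coeff_eta [CharP K p] {q : ℕ} (hq : p ^ r ≤ q) (t : ℕ) (y : Fin n → K) (W : K)
    (v : MvPolynomial (Fin n) F) :
    coeff (top n (p ^ r - 1)) (Xt n K t (p ^ r - 1) * aeval (fun i =>
      (C (y i) + (X i ^ q - C W * X i) : MvPolynomial (Fin n) K)) v) =
      (∏ i : Fin n, if (i : ℕ) < t then 1 else (-W) ^ (p ^ r - 1)) *
        lamT F (p ^ r - 1) t y v := by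
  have hN : 0 < p ^ r := pow_pos (Fact.out : p.Prime).pos r
  induction v using MvPolynomial.induction_on' with
  | add a b ha hb => simp only [map_add, coeff_add, ha, hb, mul_add]
  | monomial α a =>
    have h1 : Xt n K t (p ^ r - 1) * ∏ i, (C (y i) + (X i ^ q - C W * X i)) ^ α i = ∏ i : Fin n,
        Polynomial.aeval (X i) ((if (i : ℕ) < t then Polynomial.X ^ (p ^ r - 1) else 1) *
          (Polynomial.C (y i) + (Polynomial.X ^ q - Polynomial.C W * Polynomial.X)) ^ α i) := by
      rw [Xt, ← Finset.prod_mul_distrib]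
      refine Finset.prod_congr rfl fun i _ => ?_
      split_ifs <;> simp
    rw [lamT_monomial, aeval_monomial, Finsupp.prod_fintype _ _ (by simp), ← Algebra.smul_def,
      mul_smul_comm, coeff_smul, h1, coeff_top_prod, mul_smul_comm, ← Finset.prod_mul_distrib]
    congr 1
    refine Finset.prod_congr rfl fun i _ => ?_
    by_cases hi : (i : ℕ) < t
    · rw [if_pos hi, if_pos hi, if_pos hi, Polynomial.coeff_X_pow_mul', if_pos le_rfl,
        Nat.sub_self, Polynomial.coeff_zero_eq_eval_zero]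
      simp [show q ≠ 0 by omega]
    · rw [if_neg hi, if_neg hi, if_neg hi, one_mul, coeff_univ p r hq]

omit [Fintype F] in
lemma exists_root_chn [IsAlgClosed K] (b : Fin n → ℕ) {U' : ℕ → Finset K} (hU' : IsChn F U') :
    ∃ U : ℕ → Finset K, IsChn F U ∧ ∀ G : (Fin n → K) → K,
      ∑ y ∈ pts b U, G (fun i => y i ^ p ^ r) = ∑ y ∈ pts b U', G y := by
  classical
  have : CharP K p := charP_of_injective_algebraMap (algebraMap F K).injective p
  have hN : 0 < p ^ r := pow_pos (Fact.out : p.Prime).pos r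
  let e := iterateFrobeniusEquiv K p r
  have he : ∀ x, e x = x ^ p ^ r := fun x => rfl
  have hmem : ∀ κ x, x ∈ (U' κ).map e.symm.toEquiv.toEmbedding ↔ x ^ p ^ r ∈ U' κ :=
    fun κ x => by rw [Finset.mem_map_equiv]; rfl
  refine ⟨fun κ => (U' κ).map e.symm.toEquiv.toEmbedding, ⟨fun κ => ⟨?_, fun x hx y hy => ?_,
    fun a x hx => ?_⟩, fun κ κ' h x hx => (hmem _ _).mpr (hU'.mono h ((hmem _ _).mp hx))⟩,
    fun G => ?_⟩
  · rw [hmem, zero_pow hN.ne']; exact (hU'.sub κ).zero_mem
  · rw [hmem] at hx hy ⊢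
    rw [add_pow_char_pow]; exact (hU'.sub κ).add_mem _ hx _ hy
  · rw [hmem] at hx ⊢
    rw [smul_pow]; exact (hU'.sub κ).smul_mem _ _ hx
  · refine Finset.sum_nbij' (fun y i => y i ^ p ^ r) (fun y i => e.symm (y i)) ?_ ?_ ?_ ?_ ?_
    · intro y hy
      rw [mem_pts] at hy ⊢
      exact fun i => (hmem _ _).mp (hy i)
    · intro y hy
      rw [mem_pts] at hy ⊢
      exact fun i => (hmem _ _).mpr (by rw [← he, e.apply_symm_apply]; exact hy i)
    · intro y _; funext i; exact e.symm_apply_apply _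
    · intro y _; funext i; exact e.apply_symm_apply _
    · intro y _; rfl

lemma peel [IsAlgClosed K] (hs : p ^ r ≤ Fintype.card F) (b : Fin (n + 1) → ℕ) (t : ℕ)
    (V : ℕ →₀ MvPolynomial (Fin n) F) {U' : ℕ → Finset K} (hU' : IsChn F U')
    (hV : ∀ U : ℕ → Finset K, IsChn F U → (∀ κ, #(U κ) = #(U' κ) * Fintype.card F) →
      ∀ W : K, W ≠ 0 →
        ∑ z ∈ sl F b U W, lamL F (p ^ r) (t + 1) z (GamA F n (p ^ r - 1) V) = 0) (β : ℕ) :
    ∑ y ∈ pts (b ∘ Fin.succ) U', lamL F (p ^ r) t y (V β) = 0 := by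
  classical
  have : CharP K p := charP_of_injective_algebraMap (algebraMap F K).injective p
  have hq := one_lt_q F
  have hN : 0 < p ^ r := pow_pos (Fact.out : p.Prime).pos r
  let σ : ℕ → K := fun β => ∑ y ∈ pts (b ∘ Fin.succ) U', lamL F (p ^ r) t y (V β)
  let P : Polynomial K := ∑ β ∈ V.support, Polynomial.monomial β (σ β)
  have h0 : ∀ β v, moore F (n + 1) (t + 1) ^ (Fintype.card F - p ^ r) *
      gamA F n (p ^ r - 1) β v =
      gamA F n 0 (β + 1) (moore F n t ^ (Fintype.card F - p ^ r) * v) := by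
    intro β v
    rw [gamA_apply, gamA_apply, moore_succ', show 0 + (Fintype.card F - 1) * (β + 1 + 1) =
      (Fintype.card F - p ^ r) + (p ^ r - 1 + (Fintype.card F - 1) * (β + 1)) by
        rw [Nat.mul_succ _ (β + 1)]; omega, pow_add, map_mul, map_pow, mul_pow]
    ring
  have hP : P = 0 := by
    apply Polynomial.eq_zero_of_infinite_isRoot
    refine Set.Infinite.mono (s := ({0} : Set K)ᶜ) ?_ (Set.finite_singleton 0).infinite_compl
    intro W hW
    obtain ⟨w, rfl⟩ := IsAlgClosed.exists_pow_nat_eq W (by omega : 0 < Fintype.card F - 1)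
    have hw : w ≠ 0 := by
      rintro rfl
      exact hW (zero_pow (by omega))
    obtain ⟨U, hU, hwU, hcU, c, hc, hG⟩ := exists_preimage_chn (F := F) (n := n) hw hU'
    have h1 := hV U hU hcU _ (pow_ne_zero (Fintype.card F - 1) hw)
    set W := w ^ (Fintype.card F - 1) with hWdef
    rw [sl, sum_split_pts b U (fun x => x ^ (Fintype.card F - 1) = W)] at h1
    have h2 : ∀ x ∈ (U (b 0)).filter (fun x => x ^ (Fintype.card F - 1) = W),
        ∑ z ∈ pts (b ∘ Fin.succ) U,
          lamL F (p ^ r) (t + 1) (Fin.cons x z) (GamA F n (p ^ r - 1) V) =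
        W ^ 2 * c ^ n * (∏ i : Fin n, if (i : ℕ) < t then 1 else (-W) ^ (p ^ r - 1)) *
          P.eval W := by
      intro x hx
      have hx' := (Finset.mem_filter.mp hx).2
      simp only [GamA, Finsupp.lsum_apply, Finsupp.sum, map_sum, lamL_apply, h0, lamT_cons,
        aeval_cons_gamA, hx', mul_left_comm (Xt n K t (p ^ r - 1)) (C _), coeff_C_mul]
      rw [Finset.sum_comm]
      simp only [P, Polynomial.eval_finsetSum, Polynomial.eval_monomial, Finset.mul_sum]
      refine Finset.sum_congr rfl fun β _ => ?_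
      rw [← Finset.mul_sum, ← coeff_sum, ← Finset.mul_sum, sum_phi_chn (F := F) _ hG, ← map_pow,
        mul_left_comm (Xt n K t (p ^ r - 1)), coeff_C_mul, Finset.mul_sum, coeff_sum]
      simp only [coeff_eta p r hs]
      rw [← Finset.mul_sum, zero_add, pow_mul, hx']
      simp only [σ, lamL_apply]
      ring
    rw [Finset.sum_congr rfl h2, Finset.sum_const] at h1
    have h3 : (U (b 0)).filter (fun x => x ^ (Fintype.card F - 1) = W) =
        (univ.erase (0 : F)).image (fun a => a • w) := by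
      ext x
      simp only [mem_filter, mem_image, mem_erase, mem_univ, and_true]
      constructor
      · rintro ⟨_, h⟩
        obtain ⟨a, ha⟩ := exists_smul_of_phi (F := F) (x := x) hw (by
          rw [← hWdef, ← h, ← pow_succ, Nat.sub_add_cancel hq.le, sub_self])
        refine ⟨a, ?_, ha.symm⟩
        rintro rfl
        rw [ha, zero_smul, zero_pow (by omega)] at h
        exact pow_ne_zero _ hw h.symm
      · rintro ⟨a, ha, rfl⟩
        exact ⟨(hU.sub _).smul_mem _ _ (hwU _), by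
          rw [smul_pow, FiniteField.pow_card_sub_one_eq_one _ ha, one_smul]⟩
    have h0 : ((Fintype.card F : ℕ) : K) = 0 := by
      rw [← map_natCast (algebraMap F K), Nat.cast_card_eq_zero, map_zero]
    rw [h3, Finset.card_image_of_injective _ (smul_left_injective F hw),
      Finset.card_erase_of_mem (mem_univ _), Finset.card_univ, nsmul_eq_mul,
      Nat.cast_sub hq.le, h0, mul_eq_zero] at h1
    have hW0 : W ≠ 0 := pow_ne_zero _ hw
    refine (mul_eq_zero.mp (h1.resolve_left (by simp))).resolve_left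
      (mul_ne_zero (mul_ne_zero (pow_ne_zero _ hW0) (pow_ne_zero _ hc))
        (Finset.prod_ne_zero_iff.mpr fun i _ => ?_))
    split_ifs
    · exact one_ne_zero
    · exact pow_ne_zero _ (neg_ne_zero.mpr hW0)
  by_cases hb : β ∈ V.support
  · have := congrArg (fun p => Polynomial.coeff p β) hP
    simpa [P, σ, Polynomial.finsetSum_coeff, Polynomial.coeff_monomial, hb,
      Finsupp.mem_support_iff.mp hb] using this
  · simp [Finsupp.notMem_support_iff.mp hb]

omit [CharP F p] in
lemma lamL_zero [CharP K p] (z : Fin n → K) (u : MvPolynomial (Fin n) F) :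
    lamL F (p ^ r) 0 z u = aeval (fun i => z i ^ p ^ r) (Car F n (p ^ r) u) := by
  rw [lamL_apply, moore_zero, one_pow, one_mul, lamT_zero]

omit [CharP F p] in
lemma lamL_zero_act [CharP K p] (hs : p ^ r ≤ Fintype.card F)
    (g : Matrix.GeneralLinearGroup (Fin n) F) (z : Fin n → K) (u : MvPolynomial (Fin n) F) :
    lamL F (p ^ r) 0 z (act g.val u) =
      g.val.det ^ (p ^ r - 1) • lamL F (p ^ r) 0 (mv g.val z) u :=
  lamL_act p r hs (Nat.zero_le n) (fun _ _ h => absurd h (by omega)) z u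

omit [CharP F p] in
lemma sum_u0 [CharP K p] (hs : p ^ r ≤ Fintype.card F) {b : Fin (n + 1) → ℕ} (hb : Monotone b)
    {U : ℕ → Finset K} (hU : IsChn F U) {u' : MvPolynomial (Fin (n + 1)) F}
    {u0 : MvPolynomial (Fin n) F} {V : ℕ →₀ MvPolynomial (Fin n) F}
    (hV : u' - X 0 ^ (p ^ r - 1) * rename Fin.succ u0 - GamA F n (p ^ r - 1) V ∈
      IS InH (p ^ r - 1)) (h : ∑ z ∈ sl F b U 0, lamL F (p ^ r) 0 z u' = 0) :
    ∑ y ∈ pts (b ∘ Fin.succ) U, lamL F (p ^ r) 0 y u0 = 0 := by
  have hN : 0 < p ^ r := pow_pos (Fact.out : p.Prime).pos r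
  have hq := one_lt_q F
  have h1 := sum_sl_IS (fun z => lamL F (p ^ r) 0 z)
    (fun g _ z u => lamL_zero_act p r hs g z u) hU 0 (IH_le hb _ hV)
  simp only [map_sub, Finset.sum_sub_distrib, h] at h1
  rw [sum_sl_zero hU, sum_sl_zero hU, Finset.sum_eq_zero (f := fun z =>
    lamL F (p ^ r) 0 (Fin.cons 0 z) (GamA F n (p ^ r - 1) V)), sub_zero, zero_sub,
    neg_eq_zero] at h1
  · rw [← h1]
    refine Finset.sum_congr rfl fun y _ => ?_
    rw [lamL_zero, lamL_zero, Car_X_pow_mul_rename hN, aeval_rename]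
    rfl
  · intro z _
    rw [GamA, Finsupp.lsum_apply, Finsupp.sum, map_sum]
    refine Finset.sum_eq_zero fun β _ => ?_
    rw [lamL_zero, gamA_apply, show p ^ r - 1 + (Fintype.card F - 1) * (β + 1) =
      (p ^ r - 1 + (Fintype.card F - 1) * (β + 1) - p ^ r) + p ^ r by
        rw [Nat.mul_succ]; omega, pow_add, mul_right_comm _ (X 0 ^ p ^ r), mul_right_comm _
        (X 0 ^ p ^ r), ← expand_X (p ^ r), Car_mul_expand hN, map_mul, aeval_X, Fin.cons_zero,
      zero_pow hN.ne', mul_zero]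

omit [Fact p.Prime] [CharP F p] in
lemma lamL_pow_zero (t : ℕ) (z : Fin n → K) (u : MvPolynomial (Fin n) F) :
    lamL F (p ^ 0) t z u = aeval z (moore F n t ^ (Fintype.card F - 1) * u) := by
  have h1 : (constantCoeff : MvPolynomial (Fin n) K →+* K).comp (sh F z).toRingHom =
      (aeval z : MvPolynomial (Fin n) F →ₐ[F] K).toRingHom := by
    ext <;> simp [sh, MvPolynomial.algebraMap_apply]
  have h2 : top n 0 = 0 := by ext; simp
  rw [lamL_apply, pow_zero, lamT_apply, Nat.sub_self, h2, show Xt n K t 0 = 1 by simp [Xt],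
    one_mul]
  exact DFunLike.congr_fun h1 _

include p in
theorem null_mem_IS [IsAlgClosed K] {b : Fin n → ℕ} (hb : Monotone b)
    {u : MvPolynomial (Fin n) F}
    (hu : ∀ y : Fin n → K, ∑ z ∈ pts b (spB F b y), aeval z u = 0) : u ∈ IS (InP b) 0 := by
  classical
  have : CharP K p := charP_of_injective_algebraMap (algebraMap F K).injective p
  have hq := one_lt_q F
  have h0 : ∀ {n : ℕ} (z : Fin n → K) (u : MvPolynomial (Fin n) F),
      lamL F (p ^ 0) 0 z u = aeval z u := fun z u => by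
    rw [lamL_pow_zero, moore_zero, one_pow, one_mul]
  induction n with
  | zero =>
    have h1 := hu 0
    rw [eq_C_of_isEmpty u] at h1 ⊢
    simp only [aeval_C, Finset.sum_const, pts, Fintype.card_piFinset, Finset.univ_eq_empty,
      Finset.prod_empty, one_smul, map_eq_zero] at h1
    rw [h1]; simp
  | succ n ih =>
    have hb' : Monotone (b ∘ Fin.succ) := hb.comp Fin.strictMono_succ.monotone
    obtain ⟨g, hg⟩ := exists_reps (F := F) hb
    obtain ⟨u0, V, hV⟩ := exists_decompAH (a := 0) (by omega) (trf b 0 g u)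
    have h1 : ∀ U : ℕ → Finset K, IsChn F U → ∀ W,
        ∑ z ∈ sl F b U W, aeval z (trf b 0 g u) = 0 := fun U hU W =>
      sum_sl_of_fibers fun w _ => trf_fiber hg (fun z => (aeval z).toLinearMap)
        (fun g _ z u => by simp [aeval_act]) (fun _ => True) (fun _ _ _ _ => trivial)
        (fun y _ => hu y) hU w (fun _ _ h => absurd trivial h)
    have h2 : ∀ U : ℕ → Finset K, IsChn F U → ∑ y ∈ pts (b ∘ Fin.succ) U, aeval y u0 = 0 := by
      intro U hU
      have := sum_u0 p 0 (by simpa using hq.le) hb hU (by simpa using hV)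
        (by simpa only [h0] using h1 U hU 0)
      simpa only [h0] using this
    have h3 : ∀ β, V β ∈ IS (InP (b ∘ Fin.succ)) 0 := by
      refine fun β => ih hb' fun y => ?_
      have := peel p 0 (by simpa using hq.le) b 0 V (isChn_spB (b ∘ Fin.succ) y)
        (fun U hU _ W _ => ?_) β
      · simpa only [h0] using this
      have h4 := sum_sl_IS (fun z => (aeval z).toLinearMap)
        (fun g _ z u => by simp [aeval_act]) hU W (IH_le hb _ hV)
      have h5 : ∑ z ∈ sl F b U W, aeval z (rename Fin.succ u0) = 0 := by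
        rw [sl, sum_split_pts b U (fun w => w ^ (Fintype.card F - 1) = W)]
        exact Finset.sum_eq_zero fun w _ => by simpa only [aeval_cons_rename] using h2 U hU
      simp only [AlgHom.toLinearMap_apply, map_sub, Finset.sum_sub_distrib, h1 U hU W, pow_zero,
        one_mul, h5, sub_zero, zero_sub, neg_eq_zero] at h4
      rw [← mul_zero W, ← h4, Finset.mul_sum]
      refine Finset.sum_congr rfl fun z hz => ?_
      rw [lamL_pow_zero, moore_succ', moore_zero, map_one, mul_one, map_mul, map_pow, aeval_X,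
        (Finset.mem_filter.mp hz).2]
      rfl
    have h4 : GamA F n 0 V ∈ IS (InP1 b) 0 := by
      rw [GamA, Finsupp.lsum_apply, Finsupp.sum]
      exact Submodule.sum_mem _ fun β _ => gamA_memP hb _ _ (h3 β)
    have h5 := Submodule.add_mem _ (Submodule.add_mem _ (IH_le hb _ hV) h4)
      (X_pow_mul_rename_memP hb 0 0 (ih hb' fun y => h2 _ (isChn_spB _ y)))
    simpa using Submodule.sub_mem _ (trf_add_mem 0 hg u) (IP1_le b _ h5)

omit [CharP F p] in
open Classical in
lemma trf_fiber_one [CharP K p] (hs : p ^ r < Fintype.card F) {b : Fin (n + 1) → ℕ}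
    {g : (Fin (n + 1) → F) → Matrix.GeneralLinearGroup (Fin (n + 1)) F}
    (hg : ∀ l ∈ Lb F b (b 0), l ≠ 0 → InP b (g l).val ∧ ∀ j, ((g l)⁻¹).val 0 j = l j)
    (u : MvPolynomial (Fin (n + 1)) F) {U : ℕ → Finset K} (hU : IsChn F U)
    (hc : #(U (b 0)) < #(Lb F b (b 0))) {w : K} (hw : w ≠ 0) :
    ∑ z ∈ (pts b U).filter (fun z => z 0 = w),
      lamL F (p ^ r) 1 z (trf b (p ^ r - 1) g u) = 0 := by
  have hN : 0 < p ^ r := pow_pos (Fact.out : p.Prime).pos r
  rw [Finset.sum_congr rfl (g := fun z => w ^ (Fintype.card F - p ^ r) *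
    lam F (p ^ r - 1) z (trf b (p ^ r - 1) g u)) (fun z hz => by
      rw [lamL_one, (Finset.mem_filter.mp hz).2]), ← Finset.mul_sum,
    sum_trf _ hg (lam F (p ^ r - 1)) u (fun l y => coeff (top (n + 1) (p ^ r - 1))
      ((∑ j, l j • X j) ^ (p ^ r - 1) * sh F y u)) (fun l hl hl' z => by
        simp only [lam_act, (hg l hl hl').2]) hU w]
  refine mul_eq_zero_of_right _ (Finset.sum_eq_zero fun y hy => ?_)
  obtain ⟨a, ha, a', ha', hab, h⟩ := Finset.exists_ne_map_eq_of_card_lt_of_maps_to hc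
    (f := fun l => ∑ i, l i • y i) (fun l hl => spB_subset hU hy _
      (mem_spB.mpr ⟨l, mem_Lb.mp hl, rfl⟩))
  rw [← coeff_sum, ← Finset.sum_mul, sum_lin_pow_closed (sub_ne_zero.mpr hab) _ _ (by omega),
    zero_mul, coeff_zero]
  intro l hl t
  simp only [Finset.mem_filter, Finset.mem_erase, mem_Lb] at hl ⊢
  have h1 : ∑ i, (l + t • (a - a')) i • y i = w := by
    simp only [Pi.add_apply, Pi.smul_apply, Pi.sub_apply, add_smul, smul_assoc, sub_smul,
      Finset.sum_add_distrib, ← Finset.smul_sum, Finset.sum_sub_distrib]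
    rw [hl.2, show ∑ i, a i • y i = ∑ i, a' i • y i from h, sub_self, smul_zero, add_zero]
  refine ⟨⟨fun h0 => hw (by rw [← h1, h0]; simp), fun j hj => ?_⟩, h1⟩
  simp [hl.1.2 j hj, mem_Lb.mp ha j hj, mem_Lb.mp ha' j hj]

theorem weak [IsAlgClosed K] (hs : p ^ r < Fintype.card F) {b : Fin n → ℕ} (hb : Monotone b)
    {κ t t' : ℕ} (ht : ∀ i : Fin n, (i : ℕ) < t ↔ b i < κ)
    (ht' : ∀ i : Fin n, (i : ℕ) < t' ↔ b i ≤ κ) (htn : t ≤ n) (htt : t ≤ t')
    (h' : t' ≤ n ∨ t = n) {u : MvPolynomial (Fin n) F} (hu : moore F n t ^ p ^ r ∣ u)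
    (h0 : ∀ y : Fin n → K, #(spB F b y κ) < Fintype.card F ^ t' →
      ∑ z ∈ pts b (spB F b y), lamL F (p ^ r) t z u = 0) :
    ∃ w, u - moore F n t' ^ p ^ r * w ∈ IS (InP b) (p ^ r - 1) := by
  classical
  have : CharP K p := charP_of_injective_algebraMap (algebraMap F K).injective p
  have hq := one_lt_q F
  have hN : 0 < p ^ r := pow_pos (Fact.out : p.Prime).pos r
  induction n generalizing t t' with
  | zero =>
    obtain rfl : t = 0 := by omega
    rcases t' with _ | t'
    · exact ⟨u, by simp [moore_zero]⟩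
    have h1 := h0 0 (lt_of_le_of_lt (Finset.card_image_le.trans (card_Lb (t := 0)
      (fun i => i.elim0) le_rfl).le) (Nat.pow_lt_pow_right hq (by omega)))
    have h2 : top 0 (p ^ r - 1) = 0 := Subsingleton.elim _ _
    rw [eq_C_of_isEmpty u] at h1 ⊢
    simp only [lamL_apply, lamT_apply, moore_zero, one_pow, one_mul, Xt, pts, h2, sh, aeval_C,
      Finset.univ_eq_empty, Finset.prod_empty, Finset.sum_const, Fintype.card_piFinset,
      one_smul, MvPolynomial.algebraMap_apply, coeff_zero_C, map_eq_zero] at h1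
    exact ⟨0, by simp [h1]⟩
  | succ n ih =>
    rcases t' with _ | t'
    · exact ⟨u, by simp [moore_zero]⟩
    have hb' : Monotone (b ∘ Fin.succ) := hb.comp Fin.strictMono_succ.monotone
    obtain ⟨g, hg⟩ := exists_reps (F := F) hb
    have hH : ∀ y z : Fin (n + 1) → K, #(spB F b y κ) < Fintype.card F ^ (t' + 1) →
        z ∈ pts b (spB F b y) → #(spB F b z κ) < Fintype.card F ^ (t' + 1) := fun y z hy hz =>
      (Finset.card_le_card (spB_subset (isChn_spB b y) hz κ)).trans_lt hy
    have hμ : ∀ g : Matrix.GeneralLinearGroup (Fin (n + 1)) F, InP b g.val →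
        ∀ (z : Fin (n + 1) → K) u, lamL F (p ^ r) t z (act g.val u) =
          g.val.det ^ (p ^ r - 1) • lamL F (p ^ r) t (mv g.val z) u :=
      fun g hg z u => lamL_act p r hs.le htn (isCut_of_InP ht hg) z u
    have key : ∃ V : ℕ →₀ MvPolynomial (Fin n) F,
        trf b (p ^ r - 1) g u - GamA F n (p ^ r - 1) V ∈ IS (InP1 b) (p ^ r - 1) ∧
        (∀ β, moore F n (t - 1) ^ p ^ r ∣ V β) ∧ ∀ U : ℕ → Finset K, IsChn F U →
          #(U κ) < Fintype.card F ^ (t' + 1) → ∀ W, W ≠ 0 → ∑ z ∈ sl F b U W,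
            lamL F (p ^ r) (t - 1 + 1) z (trf b (p ^ r - 1) g u - GamA F n (p ^ r - 1) V) = 0 ∧
            ∑ z ∈ sl F b U W, lamL F (p ^ r) (t - 1 + 1) z (trf b (p ^ r - 1) g u) = 0 := by
      rcases t with _ | t
      · have hκ : b 0 = κ := le_antisymm ((ht' 0).mp (by simp))
          (not_lt.mp fun h => absurd ((ht 0).mpr h) (by simp))
        subst hκ
        have hL := card_Lb (F := F) ht' (by omega)
        obtain ⟨u0, V, hV⟩ := exists_decompAH (a := p ^ r - 1) (by omega) (trf b (p ^ r - 1) g u)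
        have h1 : Car F n (p ^ r) u0 ∈ IS (InP (b ∘ Fin.succ)) 0 := by
          refine null_mem_IS (K := K) p hb' fun y => ?_
          obtain ⟨U, hU, hG⟩ := exists_root_chn p r (b ∘ Fin.succ)
            (isChn_spB (F := F) (b ∘ Fin.succ) y)
          rw [← hG fun z => aeval z (Car F n (p ^ r) u0)]
          simp only [← lamL_zero]
          refine sum_u0 p r hs.le hb hU hV (sum_sl_of_fibers fun w hw => ?_)
          obtain rfl : w = 0 := pow_eq_zero_iff (by omega) |>.mp hw
          refine trf_fiber hg _ hμ _ hH h0 hU 0 fun y _ hy => ?_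
          have h2 : #(spB F b y (b 0)) = #(Lb F b (b 0)) :=
            le_antisymm Finset.card_image_le (by omega)
          rw [cnt, card_cnt, if_pos ((isChn_spB b y).sub _).zero_mem, if_pos rfl, h2,
            Nat.div_self (by rw [hL]; positivity)]
          simp
        obtain ⟨v0, hv0, hv0'⟩ := exists_lift_IS p r h1
        obtain ⟨y, ⟨V', rfl⟩, z, hz, hyz⟩ := Submodule.mem_sup.mp
          (ker_Car_memH p r hs (v := u0 - v0) (by rw [map_sub, hv0', sub_self]))
        have h2 : trf b (p ^ r - 1) g u - GamA F n (p ^ r - 1) (V + V') ∈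
            IS (InP1 b) (p ^ r - 1) := by
          have h3 := Submodule.add_mem _ (IH_le hb _ (Submodule.add_mem _ hV hz))
            (X_pow_mul_rename_memP hb _ (p ^ r - 1) hv0)
          rw [map_sub, mul_sub] at hyz
          refine (congrArg (· ∈ IS (InP1 b) (p ^ r - 1)) ?_).mp h3
          rw [map_add]
          linear_combination hyz
        refine ⟨V + V', h2, fun β => by simp [moore_zero], fun U hU hc W hW => ⟨sum_sl_IS _
          (fun g hg z u => lamL_act p r hs.le (by omega) (isCut_one hg) z u) hU W h2,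
          sum_sl_of_fibers fun w hw => trf_fiber_one p r hs hg u hU (by omega) ?_⟩⟩
        rintro rfl
        exact hW (hw ▸ zero_pow (by omega))
      · obtain ⟨w, hw⟩ : moore F (n + 1) (t + 1) ^ p ^ r ∣ trf b (p ^ r - 1) g u := by
          refine Finset.dvd_sum fun l hl => dvd_smul_of_dvd _ ?_
          obtain ⟨w, rfl⟩ := hu
          rw [map_mul, map_pow, act_moore' htn (isCut_of_InP ht (hg l (Finset.mem_of_mem_erase hl)
            (Finset.ne_of_mem_erase hl)).1), smul_pow, smul_mul_assoc]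
          exact dvd_smul_of_dvd _ (dvd_mul_right _ _)
        obtain ⟨y, ⟨V, rfl⟩, z, hz, hyz⟩ := Submodule.mem_sup.mp (X_pow_mul_memH (p ^ r - 1) w)
        have h1 := mul_mem_IS (fun g hg => InH.act_Yv hg (moore F n t ^ p ^ r)) hz
        have h2 : trf b (p ^ r - 1) g u - GamA F n (p ^ r - 1)
            (V.mapRange (moore F n t ^ p ^ r * ·) (mul_zero _)) ∈ IS (InP1 b) (p ^ r - 1) := by
          refine (congrArg (· ∈ IS (InP1 b) (p ^ r - 1)) ?_).mp (IH_le hb _ h1)
          have h3 : GamA F n (p ^ r - 1) (V.mapRange (moore F n t ^ p ^ r * ·) (mul_zero _)) =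
              GamA F n (p ^ r - 1) V * Yv F n (moore F n t ^ p ^ r) := by
            rw [GamA, Finsupp.lsum_apply, Finsupp.lsum_apply,
              Finsupp.sum_mapRange_index (fun _ => map_zero _), Finsupp.sum, Finsupp.sum,
              Finset.sum_mul]
            refine Finset.sum_congr rfl fun β _ => ?_
            rw [gamA_apply, gamA_apply, map_mul]; ring
          rw [Nat.sub_add_cancel hN] at hyz
          rw [h3, hw, moore_succ', mul_pow, ← map_pow]
          linear_combination (Yv F n (moore F n t ^ p ^ r)) * hyz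
        refine ⟨_, h2, fun β => dvd_mul_right _ _, fun U hU hc W hW => ⟨sum_sl_IS _
          (fun g hg z u => hμ g hg.1 z u) hU W h2, sum_sl_of_fibers fun w _ =>
            trf_fiber hg _ hμ _ hH h0 hU w fun y hy h => absurd ?_ h⟩⟩
        exact (Finset.card_le_card (spB_subset hU hy κ)).trans_lt hc
    obtain ⟨V, h2, hV, h1⟩ := key
    have h3 : ∀ β, ∃ w, V β - moore F n t' ^ p ^ r * w ∈
        IS (InP (b ∘ Fin.succ)) (p ^ r - 1) := by
      refine fun β => ih hb' (t := t - 1) (fun i => ?_) (fun i => ?_) (by omega) (by omega)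
        (by omega) (hV β) fun y hy => peel p r hs.le b _ V (isChn_spB _ y)
          (fun U hU hc W hW => ?_) β
      · rw [Function.comp_apply, ← ht, Fin.val_succ]; omega
      · rw [Function.comp_apply, ← ht', Fin.val_succ]; omega
      · have h4 := h1 U hU (by rw [hc, pow_succ]; exact Nat.mul_lt_mul_of_pos_right hy (by omega))
          W hW
        simpa only [map_sub, Finset.sum_sub_distrib, h4.2, zero_sub, neg_eq_zero] using h4.1
    choose w hw using h3
    refine ⟨- ∑ β ∈ V.support, X 0 ^ (p ^ r - 1 + (Fintype.card F - 1) * (β + 1) - p ^ r) *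
      Yv F n (w β) * ∏ l : Fin n, X l.succ ^ (Fintype.card F - 1), ?_⟩
    have h4 := Submodule.sum_mem (IS (InP1 b) (p ^ r - 1)) (t := V.support)
      fun β _ => gamA_memP hb _ β (hw β)
    have h5 := Submodule.sub_mem _ (trf_add_mem (p ^ r - 1) hg u)
      (IP1_le b _ (Submodule.add_mem _ h2 h4))
    refine (congrArg (· ∈ IS (InP b) (p ^ r - 1)) ?_).mp h5
    rw [GamA, Finsupp.lsum_apply, Finsupp.sum]
    simp only [map_sub, Finset.sum_sub_distrib, mul_neg, sub_neg_eq_add, Finset.mul_sum]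
    have h6 : ∀ β, gamA F n (p ^ r - 1) β (moore F n t' ^ p ^ r * w β) =
        moore F (n + 1) (t' + 1) ^ p ^ r *
          (X 0 ^ (p ^ r - 1 + (Fintype.card F - 1) * (β + 1) - p ^ r) *
          Yv F n (w β) * ∏ l : Fin n, X l.succ ^ (Fintype.card F - 1)) := by
      intro β
      rw [gamA_apply, moore_succ', show p ^ r - 1 + (Fintype.card F - 1) * (β + 1) =
          (p ^ r - 1 + (Fintype.card F - 1) * (β + 1) - p ^ r) + p ^ r by
            rw [Nat.mul_succ]; omega, pow_add, Nat.add_sub_cancel, map_mul, map_pow, mul_pow]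
      ring
    simp only [h6]
    ring

end Pool.Agent.Work.MP_a1538a_al.Par

/-!
Residue functionals attached to a chain of q-polynomials.
-/

set_option autoImplicit false

namespace Pool.Agent.Work.MP_a1538a_al.Par

open Finset MvPolynomial Hedge

section ProdF

variable {A : Type*} [CommRing A] {A' : Type*} [CommRing A'] {n : ℕ}

/-- The functional with given values on the powers of the variable. -/
noncomputable def lin (τ : ℕ → A) : Polynomial A →ₗ[A] A :=
  (Polynomial.basisMonomials A).constr A τ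

lemma lin_monomial (τ : ℕ → A) (k : ℕ) (a : A) : lin τ (Polynomial.monomial k a) = a * τ k := by
  have : Polynomial.monomial k a = a • Polynomial.basisMonomials A k := by
    simp [Polynomial.smul_monomial]
  rw [this, map_smul, lin, Module.Basis.constr_basis, smul_eq_mul]

lemma lin_X_pow (τ : ℕ → A) (k : ℕ) : lin τ (Polynomial.X ^ k) = τ k := by
  rw [← Polynomial.monomial_one_right_eq_X_pow, lin_monomial, one_mul]

lemma lin_apply (τ : ℕ → A) (P : Polynomial A) :
    lin τ P = ∑ k ∈ P.support, P.coeff k * τ k := by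
  conv_lhs => rw [P.as_sum_support]
  simp only [map_sum, lin_monomial]

/-- The product functional. -/
noncomputable def PF (τ : Fin n → ℕ → A) : MvPolynomial (Fin n) A →ₗ[A] A :=
  (basisMonomials (Fin n) A).constr A fun α => ∏ i, τ i (α i)

lemma PF_monomial (τ : Fin n → ℕ → A) (α : Fin n →₀ ℕ) (a : A) :
    PF τ (monomial α a) = a * ∏ i, τ i (α i) := by
  have : monomial α a = a • basisMonomials (Fin n) A α := by simp [smul_monomial]
  rw [this, map_smul, PF, Module.Basis.constr_basis, smul_eq_mul]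

lemma PF_C_mul (τ : Fin n → ℕ → A) (a : A) (W : MvPolynomial (Fin n) A) :
    PF τ (C a * W) = a * PF τ W := by
  rw [← smul_eq_C_mul, map_smul, smul_eq_mul]

lemma PF_mul (τ : Fin n → ℕ → A) (Q : Fin n → Polynomial A) (W : MvPolynomial (Fin n) A) :
    PF τ ((∏ i, Polynomial.aeval (X i) (Q i)) * W) =
      PF (fun i k => lin (τ i) (Q i * Polynomial.X ^ k)) W := by
  induction W using MvPolynomial.induction_on' with
  | add a b ha hb => simp only [mul_add, map_add, ha, hb]
  | monomial α a =>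
    have h1 : (∏ i, Polynomial.aeval (X i) (Q i)) * monomial α a = C a * ∏ i,
        Polynomial.aeval (X i : MvPolynomial (Fin n) A) (Q i * Polynomial.X ^ α i) := by
      rw [monomial_eq, Finsupp.prod_fintype _ _ (by simp)]
      simp only [map_mul, map_pow, Polynomial.aeval_X, Finset.prod_mul_distrib]
      ring
    rw [h1, PF_C_mul, prodFun (PF τ) τ (PF_monomial τ), PF_monomial]
    simp only [lin_apply]

lemma map_PF (φ : A →+* A') (τ : Fin n → ℕ → A) (W : MvPolynomial (Fin n) A) :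
    φ (PF τ W) = PF (fun i k => φ (τ i k)) (map φ W) := by
  induction W using MvPolynomial.induction_on' with
  | add a b ha hb => simp only [map_add, ha, hb]
  | monomial α a => rw [map_monomial, PF_monomial, PF_monomial, map_mul, map_prod]

lemma PF_det {B q : ℕ} (hq : 1 < q) (τ : Fin n → ℕ → A) (N : Fin n →₀ ℕ)
    (h0 : ∀ i, ∀ k < N i, τ i k = 0) (h1 : ∀ i, τ i (N i) = 1) {π : Fin B → Fin n}
    (hπ : Function.Injective π) {c : ℕ} (hc : 0 < c)
    (hN : ∑ j : Fin B, Finsupp.single (π j) (c * q ^ (j : ℕ)) ≤ N) :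
    PF τ ((Matrix.of fun i l : Fin B => (X (π i) ^ c) ^ (q ^ (l : ℕ))).det *
      monomial (N - ∑ j : Fin B, Finsupp.single (π j) (c * q ^ (j : ℕ))) 1) = 1 := by
  classical
  have h2 : ∀ σ : Equiv.Perm (Fin B), ∏ i : Fin B, ((X (π i) : MvPolynomial (Fin n) A) ^ c) ^
      (q ^ (σ i : ℕ)) = monomial (∑ j : Fin B, Finsupp.single (π j) (c * q ^ (σ j : ℕ))) 1 := by
    intro σ
    rw [monomial_sum_one]
    exact Finset.prod_congr rfl fun i _ => by rw [← pow_mul, X_pow_eq_monomial]
  have h3 : ∀ (f : Fin B → ℕ) (i : Fin B),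
      (∑ j : Fin B, Finsupp.single (π j) (f j)) (π i) = f i := by
    intro f i
    rw [Finsupp.finsetSum_apply, Finset.sum_eq_single i, Finsupp.single_eq_same]
    · exact fun j _ hj => Finsupp.single_eq_of_ne fun h => hj (hπ h).symm
    · simp
  rw [← Matrix.det_transpose, Matrix.det_apply, Finset.sum_mul, map_sum, Finset.sum_eq_single 1]
  · simp only [Matrix.transpose_apply, Matrix.of_apply, h2]
    simp only [Equiv.Perm.sign_one, one_smul, monomial_mul, Equiv.Perm.coe_one, id,
      add_tsub_cancel_of_le hN, PF_monomial, h1]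
    simp
  · intro σ _ hσ
    obtain ⟨i, hi⟩ : ∃ i, σ i < i := by
      by_contra hc
      push Not at hc
      apply hσ
      ext i
      have h1 : ∑ i : Fin B, (i : ℕ) = ∑ i : Fin B, (σ i : ℕ) :=
        (Equiv.sum_comp σ (fun i => (i : ℕ))).symm
      exact ((Finset.sum_eq_sum_iff_of_le (f := fun i : Fin B => (i : ℕ))
        (g := fun i : Fin B => (σ i : ℕ)) fun l _ => hc l).mp h1 i (mem_univ i)).symm
    simp only [Matrix.transpose_apply, Matrix.of_apply, h2]
    rw [smul_mul_assoc, Units.smul_def, map_zsmul, monomial_mul, PF_monomial,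
      Finset.prod_eq_zero (mem_univ (π i)), mul_zero, smul_zero]
    apply h0
    have h4 := hN (π i)
    have h5 : c * q ^ (σ i : ℕ) < c * q ^ (i : ℕ) :=
      Nat.mul_lt_mul_of_pos_left (Nat.pow_lt_pow_right hq hi) hc
    rw [h3] at h4
    rw [Finsupp.add_apply, Finsupp.tsub_apply, h3, h3]
    omega
  · simp

/-- Coefficients of a composite q-polynomial. -/
def cf (q : ℕ) (z : ℕ → A) (j : ℕ) (l : Fin j) : A := - cco q z j l

lemma map_cf (q : ℕ) (φ : A →+* A') (z : ℕ → A) (j : ℕ) (l : Fin j) :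
    φ (cf q z j l) = cf q (fun k => φ (z k)) j l := by
  rw [cf, map_neg, map_cco, cf]

lemma cf_congr (q : ℕ) {z z' : ℕ → A} {j : ℕ} (h : ∀ k < j, z k = z' k) :
    cf q z j = cf q z' j := funext fun l => by rw [cf, cf, cco_congr q h]

lemma a0_cf (q : ℕ) (z : ℕ → A) (j : ℕ) : a0 (cf q z j) = ∏ k ∈ range j, (- z k) := by
  unfold a0
  split_ifs with h
  · rw [cf, neg_neg, cco_zero]
  · rw [show j = 0 by omega]; simp

/-- One variable residues of mixed order. -/
noncomputable def tm (q s t : ℕ) (B : Fin n → ℕ) (z : ℕ → A) (i : Fin n) (k : ℕ) : A :=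
  if (i : ℕ) < t then tau q (cf q z (B i)) k else tauS q s (cf q z (B i)) k

lemma map_tm {q : ℕ} (hq : 1 < q) (φ : A →+* A') (s t : ℕ) (B : Fin n → ℕ) (z : ℕ → A)
    (i : Fin n) (k : ℕ) : φ (tm q s t B z i k) = tm q s t B (fun k => φ (z k)) i k := by
  simp only [tm, tauS, apply_ite φ, map_tau hq, map_pow, map_cf, map_zero]

lemma lin_tau_fpol {q j : ℕ} (hq : 1 < q) (c : Fin j → A) (k : ℕ) :
    lin (tau q c) (fpol q c * Polynomial.X ^ k) = 0 := by
  simp only [fpol, sub_mul, Finset.sum_mul, smul_mul_assoc, ← pow_add,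
    ← Polynomial.smul_eq_C_mul, map_sub, map_sum, map_smul, lin_X_pow, smul_eq_mul, add_comm _ k, tau_rec hq, sub_self]

variable (p : ℕ) [Fact p.Prime] [CharP A p] (r : ℕ)

lemma lin_tauS [Nontrivial A] {q j : ℕ} (hq : 1 < q) (c : Fin j → A) (Q : Polynomial A) :
    lin (tauS q (p ^ r) c) (fpol q c ^ (p ^ r - 1) * Q) = lin (tau q c) Q := by
  induction Q using Polynomial.induction_on' with
  | add a b ha hb => simp only [mul_add, map_add, ha, hb]
  | monomial k a =>
    rw [← Polynomial.smul_X_eq_monomial, mul_smul_comm, map_smul, map_smul, lin_X_pow, lin_apply,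
      tauS_fpol_pow p r hq]

lemma tau_pow {q j : ℕ} (hq : 1 < q) (c : Fin j → A) (k : ℕ) :
    tau q c k ^ p ^ r = tau q (fun l => c l ^ p ^ r) k :=
  map_tau hq (iterateFrobenius A p r) c k

variable {F : Type*} [Field F] [Fintype F] [Algebra F A]

variable (F) in
/-- The q-polynomial attached to a variable. -/
noncomputable def fE (B : Fin n → ℕ) (z : ℕ → A) (i : Fin n) : MvPolynomial (Fin n) A :=
  gco (Fintype.card F) (fun k => (C (z k) : MvPolynomial (Fin n) A)) (B i) (X i)

omit [Fact p.Prime] [CharP A p] [Algebra F A] in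
lemma aeval_fpol_cf {E : Type*} [CommRing E] [Algebra A E] [Algebra F E] (z : ℕ → A) (j : ℕ)
    (x : E) : Polynomial.aeval x (fpol (Fintype.card F) (cf (Fintype.card F) z j)) =
      gco (Fintype.card F) z j x := by
  rw [gco_eq_sum, Finset.sum_range_succ, cco_self Fintype.card_pos, ← Fin.sum_univ_eq_sum_range
    (fun l => cco (Fintype.card F) z j l • x ^ (Fintype.card F ^ l))]
  simp [fpol, cf, Algebra.smul_def, add_comm]

omit [Fact p.Prime] [CharP A p] in
lemma fE_eq (B : Fin n → ℕ) (z : ℕ → A) (i : Fin n) : fE F B z i =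
    Polynomial.aeval (X i) (fpol (Fintype.card F) (cf (Fintype.card F) z (B i))) := by
  rw [aeval_fpol_cf, fE, gco_eq_sum, gco_eq_sum]
  simp only [← map_cco, smul_eq_C_mul, smul_eq_mul]

lemma PF_tm_prod [Nontrivial A] (t : ℕ) (B : Fin n → ℕ) (z : ℕ → A)
    (W : MvPolynomial (Fin n) A) :
    PF (tm (Fintype.card F) (p ^ r) 0 B z)
      ((∏ i : Fin n, if (i : ℕ) < t then fE F B z i ^ (p ^ r - 1) else 1) * W) =
      PF (tm (Fintype.card F) (p ^ r) t B z) W := by
  have h1 := PF_mul (tm (Fintype.card F) (p ^ r) 0 B z) (fun i => if (i : ℕ) < t then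
    fpol (Fintype.card F) (cf (Fintype.card F) z (B i)) ^ (p ^ r - 1) else 1) W
  simp only [apply_ite (Polynomial.aeval _), map_pow, map_one, ← fE_eq] at h1
  rw [h1]
  congr 2
  funext i k
  have h2 : tm (Fintype.card F) (p ^ r) 0 B z i =
      tauS (Fintype.card F) (p ^ r) (cf (Fintype.card F) z (B i)) := funext fun k => by simp [tm]
  rw [h2, tm]
  split_ifs
  · rw [lin_tauS p r (one_lt_q F), lin_X_pow]
  · rw [one_mul, lin_X_pow]

lemma PF_tm_kill [Nontrivial A] (B : Fin n → ℕ) (z : ℕ → A) {x : MvPolynomial (Fin n) A}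
    (hx : x ∈ Ideal.span (Set.range (fE F B z))) (W : MvPolynomial (Fin n) A) :
    PF (tm (Fintype.card F) (p ^ r) 0 B z) (x ^ p ^ r * W) = 0 := by
  classical
  have hN : 0 < p ^ r := pow_pos (Fact.out : p.Prime).pos r
  obtain ⟨v, hv⟩ := Ideal.mem_span_range_iff_exists_fun.mp (pow_mem_span_pow p r _ hx)
  rw [← hv, Finset.sum_mul, map_sum]
  refine Finset.sum_eq_zero fun i _ => ?_
  have h1 := PF_mul (tm (Fintype.card F) (p ^ r) 0 B z) (fun j => if j = i then
    fpol (Fintype.card F) (cf (Fintype.card F) z (B j)) ^ p ^ r else 1) (v i * W)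
  simp only [apply_ite (Polynomial.aeval _), map_pow, map_one, ← fE_eq, Finset.prod_ite_eq',
    mem_univ, if_true] at h1
  rw [mul_right_comm, mul_comm, h1]
  generalize v i * W = W'
  induction W' using MvPolynomial.induction_on' with
  | add a b ha hb => rw [map_add, ha, hb, add_zero]
  | monomial α a =>
    have h2 : tm (Fintype.card F) (p ^ r) 0 B z i =
      tauS (Fintype.card F) (p ^ r) (cf (Fintype.card F) z (B i)) := funext fun k => by simp [tm]
    rw [PF_monomial, Finset.prod_eq_zero (mem_univ i), mul_zero]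
    rw [if_pos rfl, h2, ← Nat.sub_add_cancel hN, pow_succ, Nat.sub_add_cancel hN, mul_assoc,
      lin_tauS p r (one_lt_q F), lin_tau_fpol (one_lt_q F)]

end ProdF

section Pivot

/-- The data of a sub-composition that is full in the first `κ` blocks. -/
structure Adm (n l : ℕ) (α β : ℕ → ℕ) (κ : ℕ) : Prop where
  hn : n = ps α l
  le : ∀ r, β r ≤ α r
  zero : ∀ r, l ≤ r → β r = 0
  full : ∀ r < κ, β r = α r
  kl : κ ≤ l

/-- Position of the pivot variables. -/
noncomputable def pv (α β : ℕ → ℕ) (j : ℕ) : ℕ := ps α (bk β j) + (j - ps β (bk β j))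

/-- Order of the q-polynomial attached to a variable. -/
noncomputable def Bf (n : ℕ) (α β : ℕ → ℕ) (i : Fin n) : ℕ := ps β (bk α i + 1)

variable {F : Type*} [Field F] [Fintype F] {A : Type*} [CommRing A] [Algebra F A]
  {n l κ : ℕ} {α β : ℕ → ℕ}

lemma Adm.bk_pv (h : Adm n l α β κ) {j : ℕ} (hj : j < ps β l) : bk α (pv α β j) = bk β j := by
  obtain ⟨_, h2, h3⟩ := bk_spec hj
  rw [ps_succ] at h3
  exact bk_add (by have := h.le (bk β j); omega)

lemma Adm.pv_lt (h : Adm n l α β κ) {j : ℕ} (hj : j < ps β l) : pv α β j < n := by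
  obtain ⟨h1, h2, h3⟩ := bk_spec hj
  have h4 := ps_mono α (show bk β j + 1 ≤ l from h1)
  have := h.le (bk β j)
  rw [ps_succ] at h3 h4
  rw [h.hn, pv]; omega

lemma Adm.pv_inj (h : Adm n l α β κ) {j j' : ℕ} (hj : j < ps β l) (hj' : j' < ps β l)
    (e : pv α β j = pv α β j') : j = j' := by
  have h1 : bk β j = bk β j' := by rw [← h.bk_pv hj, e, h.bk_pv hj']
  have h2 := (bk_spec hj).2.1
  have h3 := (bk_spec hj').2.1
  simp only [pv, h1] at e h2
  omega

lemma Adm.ps_eq (h : Adm n l α β κ) {r : ℕ} (hr : r ≤ κ) : ps β r = ps α r :=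
  Finset.sum_congr rfl fun i hi => h.full i ((Finset.mem_range.mp hi).trans_le hr)

lemma Adm.pv_eq (h : Adm n l α β κ) {j : ℕ} (hj : j < ps β κ) : pv α β j = j := by
  obtain ⟨h1, h2, _⟩ := bk_spec hj
  rw [pv, ← h.ps_eq h1.le]; omega

lemma Adm.ps_le (h : Adm n l α β κ) (r : ℕ) : ps β r ≤ ps β l := by
  rcases le_total r l with h1 | h1
  · exact ps_mono β h1
  · induction r, h1 using Nat.le_induction with
    | base => rfl
    | succ r hr ih => rw [ps_succ, h.zero r hr]; exact ih

lemma Adm.t_le (h : Adm n l α β κ) : ps β κ ≤ n := by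
  rw [h.ps_eq le_rfl, h.hn]; exact ps_mono α h.kl

/-- The pivot variables. -/
noncomputable def xp (R : Type*) [CommRing R] (n : ℕ) (α β : ℕ → ℕ) (j : ℕ) :
    MvPolynomial (Fin n) R := ext0 X (pv α β j)

lemma map_xp {R R' : Type*} [CommRing R] [CommRing R'] (φ : R →+* R') (j : ℕ) :
    map φ (xp R n α β j) = xp R' n α β j := by
  unfold xp ext0
  split_ifs <;> simp

lemma Adm.xp_eq (h : Adm n l α β κ) (R : Type*) [CommRing R] {j : ℕ} (hj : j < ps β l) :
    xp R n α β j = X ⟨pv α β j, h.pv_lt hj⟩ := dif_pos _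

omit [Algebra F A] in
lemma Adm.gco_xp (h : Adm n l α β κ) (β' : ℕ → ℕ) (z : ℕ → A) {k j : ℕ} (hk : k ≤ l)
    (hj : j < ps β k) : gco (Fintype.card F)
      (fun k => Ideal.Quotient.mk (Ideal.span (Set.range (fE F (Bf n α β') z))) (C (z k)))
      (ps β' k) (Ideal.Quotient.mk (Ideal.span (Set.range (fE F (Bf n α β') z)))
        (xp A n α β j)) = 0 := by
  have hj' := hj.trans_le (ps_mono β hk)
  refine gco_eq_zero_of_le Fintype.card_pos _ (i := Bf n α β' ⟨pv α β j, h.pv_lt hj'⟩)
    (ps_mono β' ?_) ?_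
  · rw [h.bk_pv hj']; exact (bk_spec hj).1
  · rw [h.xp_eq A hj', ← map_gco', Ideal.Quotient.eq_zero_iff_mem]
    exact Ideal.subset_span ⟨_, rfl⟩

variable (F n α β) in
/-- Difference of a block invariant and the corresponding coefficient. -/
noncomputable def dl (z : ℕ → A) (j : ℕ) : MvPolynomial (Fin n) A :=
  bc (Fintype.card F) β (zsub (Fintype.card F) (xp A n α β)) j -
    bc (Fintype.card F) β (fun k => C (z k)) j

variable (F n α β) in
/-- The block invariants of the pivot variables. -/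
noncomputable def DD (j : ℕ) : MvPolynomial (Fin n) F :=
  bc (Fintype.card F) β (zsub (Fintype.card F) (xp F n α β)) j

variable (F n α β) in
/-- The Moore determinant of the pivot variables in the first `k` blocks. -/
noncomputable def LP (k : ℕ) : MvPolynomial (Fin n) F :=
  LL (Fintype.card F) (xp F n α β) (ps β k)

lemma dl_eq (z : ℕ → A) (j : ℕ) : dl F n α β z j =
    map (algebraMap F A) (DD F n α β j) - C (bc (Fintype.card F) β z j) := by
  rw [dl, DD, map_bc, map_bc]
  simp only [map_zsub, map_xp]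

lemma map_LP (k : ℕ) : map (algebraMap F A) (LP F n α β k) =
    LL (Fintype.card F) (xp A n α β) (ps β k) := by
  rw [LP, map_LL]; simp only [map_xp]

lemma Adm.LP_eq (h : Adm n l α β κ) : LP F n α β κ = moore F n (ps β κ) := by
  rw [moore_eq_LL]
  exact LL_congr _ fun k hk => by rw [xp, h.pv_eq hk]

lemma Adm.LP_dl_mem (h : Adm n l α β κ) (z : ℕ → A) {k j : ℕ} (hk : k ≤ l) (hj : j < ps β k) :
    map (algebraMap F A) (LP F n α β k) * dl F n α β z j ∈
      Ideal.span (Set.range (fE F (Bf n α β) z)) := by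
  have h1 := kill (F := F) β _ _ k (fun r hr j hj => h.gco_xp β z (hr.trans hk) hj) j hj
  rw [← Ideal.Quotient.eq_zero_iff_mem, ← h1, map_LP, dl, map_mul, map_sub, map_LL, map_bc, map_bc]
  simp only [map_zsub]

lemma Adm.LP_mem (h : Adm n l α β κ) (β' : ℕ → ℕ) (z : ℕ → A) {k : ℕ} (hk : k ≤ l)
    (hlt : ps β' k < ps β k) : map (algebraMap F A) (LP F n α β l) ∈
      Ideal.span (Set.range (fE F (Bf n α β') z)) := by
  have h1 := LL_eq_zero_of_lt (F := F) _ _ hlt (fun j hj => h.gco_xp β' z hk hj)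
  rw [← map_LL, Ideal.Quotient.eq_zero_iff_mem] at h1
  rw [map_LP]
  exact Ideal.mem_of_dvd _ (LL_dvd _ _ (ps_mono β hk)) h1

lemma Adm.act_DD (h : Adm n l α β κ) {g : Matrix.GeneralLinearGroup (Fin n) F}
    (hg : InP (fun i => bk α i) g.val) {j : ℕ} (hj : j < ps β κ) :
    act g.val (DD F n α β j) = DD F n α β j := by
  have h1 := kill (F := F) β (zsub (Fintype.card F) (xp F n α β))
    (fun k => (act g.val).toRingHom (xp F n α β k)) κ (fun r hr j hj => by
      have hj' := hj.trans_le (ps_mono β (hr.trans h.kl))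
      rw [h.xp_eq F hj', AlgHom.toRingHom_eq_coe, RingHom.coe_coe, act_X, gco_sum_smul]
      refine Finset.sum_eq_zero fun i _ => ?_
      by_cases hi : (i : ℕ) < ps β r
      · have h2 : (X i : MvPolynomial (Fin n) F) = xp F n α β i := by
          rw [xp, h.pv_eq (hi.trans_le (ps_mono β hr)), ext0_coe]
        rw [h2, gco_zsub, sub0_eq_zero Fintype.card_pos _ hi, smul_zero]
      · rw [hg _ i, zero_smul]
        have h2 := (bk_spec hj).1
        have h3 := (bk_lt_iff (h.hn ▸ i.2 : (i : ℕ) < ps α l) r).not.mpr (h.ps_eq hr ▸ hi)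
        simp only [h.bk_pv hj']
        omega) j hj
  rw [← map_LL, ← funext (map_zsub _ (act g.val).toRingHom _), ← map_bc, ← LP, h.LP_eq] at h1
  refine sub_eq_zero.mp ((mul_eq_zero.mp h1).resolve_left fun h2 => ?_)
  have h3 := congrArg (act (g⁻¹).val) h2
  rw [AlgHom.toRingHom_eq_coe, RingHom.coe_coe, act_act, Units.mul_inv, act_one, map_zero] at h3
  exact moore_ne_zero' h.t_le h3

variable (F n α β) in
/-- The residue map attached to a sub-composition. -/
noncomputable def Ps (s t : ℕ) (z : ℕ → A) : MvPolynomial (Fin n) F →ₗ[F] A :=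
  ((PF (tm (Fintype.card F) s 0 (Bf n α β) z)).restrictScalars F).comp
    (((LinearMap.mulRight A (∏ j ∈ range t, dl F n α β z j ^ (s - 1))).restrictScalars F).comp
      (mapAlgHom (Algebra.ofId F A)).toLinearMap)

lemma Ps_apply (s t : ℕ) (z : ℕ → A) (u : MvPolynomial (Fin n) F) :
    Ps F n α β s t z u = PF (tm (Fintype.card F) s 0 (Bf n α β) z)
      (map (algebraMap F A) u * ∏ j ∈ range t, dl F n α β z j ^ (s - 1)) := rfl

/-- The exponent `1` or `s`. -/
def cw (s t j : ℕ) : ℕ := if j < t then 1 else s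

variable (p : ℕ) [Fact p.Prime] [CharP A p] [IsDomain A] (r : ℕ)

lemma Ps_eq_sum (t : ℕ) (z : ℕ → A) (u : MvPolynomial (Fin n) F) :
    Ps F n α β (p ^ r) t z u = ∑ ρ ∈ Fintype.piFinset (fun _ : Fin t => range (p ^ r)),
      (∏ j : Fin t, bc (Fintype.card F) β z j ^ (p ^ r - 1 - ρ j)) *
        Ps F n α β (p ^ r) 0 z (u * ∏ j : Fin t, DD F n α β j ^ ρ j) := by
  rw [Ps_apply, ← Fin.prod_univ_eq_prod_range (fun j => dl F n α β z j ^ (p ^ r - 1))]
  simp only [dl_eq, sub_pow_char_pow_pred]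
  rw [Finset.prod_univ_sum, Finset.mul_sum, map_sum]
  refine Finset.sum_congr rfl fun ρ _ => ?_
  rw [Ps_apply, ← PF_C_mul, Finset.prod_mul_distrib]
  congr 1
  simp only [map_mul, map_prod, map_pow, range_zero, Finset.prod_empty]
  ring

lemma Adm.Ps_mul_DD (h : Adm n l α β κ) (z : ℕ → A) (t : ℕ) {k j : ℕ} (hk : k ≤ l)
    (hj : j < ps β k) (w : MvPolynomial (Fin n) F) :
    Ps F n α β (p ^ r) t z (LP F n α β k ^ p ^ r * (w * DD F n α β j ^ cw (p ^ r) t j)) =
      bc (Fintype.card F) β z j ^ cw (p ^ r) t j *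
        Ps F n α β (p ^ r) t z (LP F n α β k ^ p ^ r * w) := by
  classical
  have hN : 0 < p ^ r := pow_pos (Fact.out : p.Prime).pos r
  obtain ⟨R, hR⟩ : dl F n α β z j ^ p ^ r ∣ (map (algebraMap F A) (DD F n α β j) ^
      cw (p ^ r) t j - C (bc (Fintype.card F) β z j) ^ cw (p ^ r) t j) *
      ∏ j ∈ range t, dl F n α β z j ^ (p ^ r - 1) := by
    unfold cw
    split_ifs with hjt
    · rw [pow_one, pow_one, ← dl_eq, ← Finset.mul_prod_erase _ _ (Finset.mem_range.mpr hjt),
        ← mul_assoc, ← pow_succ', Nat.sub_add_cancel hN]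
      exact dvd_mul_right _ _
    · rw [← sub_pow_char_pow, ← dl_eq]
      exact dvd_mul_right _ _
  rw [Ps_apply, Ps_apply, ← PF_C_mul, ← sub_eq_zero, ← map_sub,
    ← PF_tm_kill p r _ z (h.LP_dl_mem (F := F) z hk hj) (map (algebraMap F A) w * R)]
  congr 1
  simp only [map_mul, map_pow, mul_pow]
  linear_combination (map (algebraMap F A) (LP F n α β k) ^ p ^ r * map (algebraMap F A) w) * hR

lemma Adm.Ps_mul_aeval (h : Adm n l α β κ) (z : ℕ → A) (t : ℕ) (w : MvPolynomial (Fin n) F)
    (P : MvPolynomial (Fin (ps β l)) F) :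
    Ps F n α β (p ^ r) t z (LP F n α β l ^ p ^ r *
      (w * aeval (fun j : Fin (ps β l) => DD F n α β j ^ cw (p ^ r) t j) P)) =
      aeval (fun j : Fin (ps β l) => bc (Fintype.card F) β z j ^ cw (p ^ r) t j) P *
        Ps F n α β (p ^ r) t z (LP F n α β l ^ p ^ r * w) := by
  induction P using MvPolynomial.induction_on with
  | C a =>
    rw [aeval_C, aeval_C, mul_comm w, ← Algebra.smul_def, mul_smul_comm, map_smul,
      Algebra.smul_def]
  | add a b ha hb => simp only [map_add, mul_add, ha, hb, add_mul]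
  | mul_X P j hP =>
    rw [map_mul (aeval _), map_mul (aeval _), aeval_X, aeval_X, ← mul_assoc w,
      h.Ps_mul_DD p r z t le_rfl j.2, hP]
    ring

lemma Adm.Ps_mixed (h : Adm n l α β κ) (z : ℕ → A) (w : MvPolynomial (Fin n) F) :
    Ps F n α β (p ^ r) (ps β κ) z (LP F n α β κ ^ (p ^ r - 1) * (LP F n α β κ ^ p ^ r * w)) =
      PF (tm (Fintype.card F) (p ^ r) (ps β κ) (Bf n α β) z)
        (map (algebraMap F A) (LP F n α β κ ^ p ^ r * w)) := by
  have h1 := det_block (F := F) p r β (fun k => C (z k)) (xp A n α β) κ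
  have h2 : ∏ i ∈ range (ps β κ), gco (Fintype.card F) (fun k => (C (z k) :
      MvPolynomial (Fin n) A)) (ps β (bk β i + 1)) (xp A n α β i) ^ (p ^ r - 1) =
      ∏ i : Fin n, if (i : ℕ) < ps β κ then fE F (Bf n α β) z i ^ (p ^ r - 1) else 1 := by
    rw [← Fin.prod_univ_eq_prod_range (fun i => gco (Fintype.card F) (fun k => (C (z k) :
      MvPolynomial (Fin n) A)) (ps β (bk β i + 1)) (xp A n α β i) ^ (p ^ r - 1)),
      ← prod_dite_fin h.t_le]
    refine Finset.prod_congr rfl fun i _ => ?_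
    split_ifs with hi
    · have h3 := h.bk_pv (hi.trans_le (h.ps_le κ))
      rw [h.pv_eq hi] at h3
      simp only [xp, h.pv_eq hi, ext0_coe, fE, Bf, h3]
    · rfl
  have h3 : ∀ x ∈ Ideal.span ((fun j => dl F n α β z j ^ p ^ r) '' {j | j < ps β κ}), ∀ W,
      PF (tm (Fintype.card F) (p ^ r) 0 (Bf n α β) z)
        (x * map (algebraMap F A) (LP F n α β κ) ^ p ^ r * W) = 0 := by
    intro x hx
    induction hx using Submodule.span_induction with
    | zero => simp
    | add a b _ _ ha hb => intro W; rw [add_mul, add_mul, map_add, ha, hb, add_zero]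
    | smul c a _ ha => intro W; rw [← ha (c * W), smul_eq_mul]; congr 1; ring
    | mem a ha =>
      obtain ⟨j, hj, rfl⟩ := ha
      intro W
      rw [← mul_pow, mul_comm (dl _ _ _ _ _ _)]
      exact PF_tm_kill p r _ z (h.LP_dl_mem z h.kl hj) W
  rw [h2, ← map_LP] at h1
  rw [← PF_tm_prod p r, Ps_apply, eq_comm, ← sub_eq_zero, ← map_sub,
    ← h3 _ h1 (map (algebraMap F A) w)]
  congr 1
  simp only [map_mul, map_pow, dl]
  ring

lemma Adm.Ps_pow_mul (h : Adm n l α β κ) (z : ℕ → A) {w : MvPolynomial (Fin n) F}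
    (hw : Ps F n α β (p ^ r) (ps β κ) z (LP F n α β κ ^ p ^ r * w) = 0) :
    Ps F n α β (p ^ r) (ps β κ) z
      (LP F n α β κ ^ p ^ r * (w * LP F n α β κ ^ (Fintype.card F - 1))) = 0 := by
  have h1 : LP F n α β κ ^ (Fintype.card F - 1) = (-1 : F) ^ ps β κ • ∏ k ∈ range κ,
      ∏ i ∈ range (β k), (- zsub (Fintype.card F) (xp F n α β) (ps β k + i)) := by
    rw [← prod_blocks β κ (fun j => - zsub (Fintype.card F) (xp F n α β) j), Finset.prod_neg,
      Finset.card_range, LP, LL_pow, Algebra.smul_def, map_pow, map_neg, map_one, ← mul_assoc,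
      ← mul_pow]
    simp
  rw [h1, mul_smul_comm, mul_smul_comm, map_smul]
  refine smul_eq_zero_of_right _ ?_
  revert w
  refine Finset.prod_induction _ (fun x => ∀ {w}, Ps F n α β (p ^ r) (ps β κ) z
    (LP F n α β κ ^ p ^ r * w) = 0 → Ps F n α β (p ^ r) (ps β κ) z
      (LP F n α β κ ^ p ^ r * (w * x)) = 0) (fun a b ha hb w hw => ?_)
    (fun hw => by rwa [mul_one]) fun k hk w hw => ?_
  · rw [← mul_assoc w]; exact hb (ha hw)
  rcases Nat.eq_zero_or_pos (β k) with h0 | h0
  · rwa [h0, Finset.prod_range_zero, mul_one]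
  have h2 : ps β k < ps β κ := lt_of_lt_of_le (by rw [ps_succ]; omega)
    (ps_mono β (Finset.mem_range.mp hk))
  have h3 := h.Ps_mul_DD p r z (ps β κ) h.kl h2 w
  have h4 := bc_add (Fintype.card F) (zsub (Fintype.card F) (xp F n α β)) h0
  rw [cw, if_pos h2, pow_one, hw, mul_zero, DD, ← Nat.add_zero (ps β k), h4, cco_zero, mul_neg,
    mul_neg, map_neg, neg_eq_zero] at h3
  exact h3

lemma Adm.Ps_of_lt (h : Adm n l α β κ) (β' : ℕ → ℕ) (t : ℕ) (z : ℕ → A) {k : ℕ} (hk : k ≤ l)
    (hlt : ps β' k < ps β k) (w : MvPolynomial (Fin n) F) :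
    Ps F n α β' (p ^ r) t z (LP F n α β l ^ p ^ r * w) = 0 := by
  rw [Ps_apply, map_mul (MvPolynomial.map _), map_pow, mul_assoc]
  exact PF_tm_kill p r _ z (h.LP_mem β' z hk hlt) _

lemma Adm.Ps_JN (h : Adm n l α β κ) (t m : ℕ) (z : ℕ → A) {u : MvPolynomial (Fin n) F}
    (hu : u ∈ JN F n (p ^ r * Fintype.card F ^ m)) :
    Ps F n α β (p ^ r) t z u ∈ Ideal.span (Set.range fun j : Fin (ps β l) =>
      rem (Fintype.card F) (cf (Fintype.card F) z (ps β l)) m j ^ p ^ r) := by
  obtain ⟨v, rfl⟩ := Ideal.mem_span_range_iff_exists_fun.mp hu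
  rw [map_sum]
  refine Ideal.sum_mem _ fun i _ => ?_
  let π := Ideal.Quotient.mk (Ideal.span (Set.range (fE F (Bf n α β) z)))
  have h1 : X i ^ Fintype.card F ^ m - ∑ j : Fin (ps β l), C (rem (Fintype.card F)
      (cf (Fintype.card F) z (ps β l)) m j) * X i ^ Fintype.card F ^ (j : ℕ) ∈
      Ideal.span (Set.range (fE F (Bf n α β) z)) := by
    have h2 := pow_eq_sum_rem (F := F) _ _ (pow_eq_of_gco (F := F) (fun k => π (C (z k))) (ps β l)
      (π (X i)) (gco_eq_zero_of_le Fintype.card_pos _ (h.ps_le (bk α i + 1)) (by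
        rw [← map_gco', Ideal.Quotient.eq_zero_iff_mem]; exact Ideal.subset_span ⟨i, rfl⟩))) m
    rw [← Ideal.Quotient.eq_zero_iff_mem, map_sub, map_pow, h2, sub_eq_zero]
    simp only [map_sum, map_mul, map_pow, map_rem, map_cf, smul_eq_mul]
    rfl
  have h2 := PF_tm_kill p r _ z h1
    (map (algebraMap F A) (v i) * ∏ j ∈ range t, dl F n α β z j ^ (p ^ r - 1))
  simp only [sub_pow_char_pow, sum_pow_char_pow, mul_pow, sub_mul, Finset.sum_mul, map_sub,
    map_sum, ← map_pow (C : A →+* _), mul_assoc, PF_C_mul, sub_eq_zero] at h2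
  rw [Ps_apply, map_mul (MvPolynomial.map _), map_pow, map_X, mul_comm (p ^ r), pow_mul,
    mul_comm (MvPolynomial.map _ (v i)), mul_assoc, h2]
  exact Ideal.sum_mem _ fun j _ => Ideal.mul_mem_right _ _ (Ideal.subset_span ⟨j, rfl⟩)

end Pivot

end Pool.Agent.Work.MP_a1538a_al.Par

/-!
Degrees, images and Hilbert series attached to a sub-composition.
-/

set_option autoImplicit false

namespace Pool.Agent.Work.MP_a1538a_al.Par

open Finset MvPolynomial Hedge

section Deg

variable {R : Type*} [CommRing R] {σ : Type*} {w : σ → ℕ} {q : ℕ}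

lemma isWH_cco_sft (hq : 1 < q) {z : ℕ → MvPolynomial σ R}
    (hz : ∀ k, (z k).IsWeightedHomogeneous w (q ^ (k + 1) - q ^ k)) (A i l : ℕ) :
    (cco q (sft z A) i l).IsWeightedHomogeneous w (q ^ (A + i) - q ^ (A + l)) := by
  induction i generalizing l with
  | zero =>
    simp only [cco]
    split_ifs with h
    · subst h; simpa using isWeightedHomogeneous_one _ _
    · exact isWeightedHomogeneous_zero _ _ _
  | succ i ih =>
    simp only [cco]
    rw [← add_assoc]
    apply IsWeightedHomogeneous.sub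
    · split_ifs with h0
      · exact isWeightedHomogeneous_zero _ _ _
      · refine isWH_congr ((ih (l - 1)).pow q) ?_
        simp only [smul_eq_mul, Nat.mul_sub, ← pow_succ']
        rw [show A + (l - 1) + 1 = A + l by omega]
    · by_cases h : i < l
      · rw [cco_of_lt (by omega) _ h, mul_zero]; exact isWeightedHomogeneous_zero _ _ _
      · have h1 : q ^ (A + l) ≤ q ^ (A + i) := Nat.pow_le_pow_right (by omega) (by omega)
        have h3 : q ^ (A + i) ≤ q ^ (A + i + 1) := Nat.pow_le_pow_right (by omega) (by omega)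
        exact isWH_congr ((hz (A + i)).mul (ih l)) (by omega)

/-- Degrees of the block coefficients. -/
noncomputable def wT (q : ℕ) (β : ℕ → ℕ) (j : ℕ) : ℕ := q ^ ps β (bk β j + 1) - q ^ j

lemma isWH_bc (hq : 1 < q) {z : ℕ → MvPolynomial σ R}
    (hz : ∀ k, (z k).IsWeightedHomogeneous w (q ^ (k + 1) - q ^ k)) {β : ℕ → ℕ} {j l : ℕ}
    (hj : j < ps β l) : (bc q β z j).IsWeightedHomogeneous w (wT q β j) := by
  refine isWH_congr (isWH_cco_sft hq hz _ _ _).neg ?_
  rw [wT, ps_succ, Nat.add_sub_cancel' (bk_spec hj).2.1]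

lemma isWH_zsub (hq : 1 < q) {x : ℕ → MvPolynomial σ R}
    (hx : ∀ k, (x k).IsWeightedHomogeneous w 1) (k : ℕ) :
    (zsub q x k).IsWeightedHomogeneous w (q ^ (k + 1) - q ^ k) := by
  refine isWH_congr ((isWH_sub0 hq hx k (hx k)).pow (q - 1)) ?_
  simp only [smul_eq_mul, Nat.sub_mul, one_mul, ← pow_succ']

lemma isWH_LL (hq : 1 < q) {x : ℕ → MvPolynomial σ R}
    (hx : ∀ k, (x k).IsWeightedHomogeneous w 1) (j : ℕ) :
    (LL q x j).IsWeightedHomogeneous w (∑ i ∈ range j, q ^ i) :=
  IsWeightedHomogeneous.prod _ _ _ fun i _ => isWH_sub0 hq hx i (hx i)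

lemma isWH_tauS (p : ℕ) [Fact p.Prime] [CharP R p] (r : ℕ) (hq : 1 < q) {j : ℕ}
    {c : Fin j → MvPolynomial σ R}
    (hc : ∀ l, (c l).IsWeightedHomogeneous w (q ^ j - q ^ (l : ℕ))) (k : ℕ) :
    (tauS q (p ^ r) c k).IsWeightedHomogeneous w (k + 1 - p ^ r * q ^ j) := by
  have hN : 0 < p ^ r := pow_pos (Fact.out : p.Prime).pos r
  rw [tauS]
  split_ifs with h
  · rw [← tau_pow p r hq]
    refine isWH_congr ((isWH_tau hq hc _).pow _) ?_
    have := Nat.mod_add_div k (p ^ r)
    rw [smul_eq_mul, Nat.mul_sub, Nat.mul_succ]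
    omega
  · exact isWeightedHomogeneous_zero _ _ _

lemma sum_ite_fin {t n : ℕ} (h : t ≤ n) (f : ℕ → ℕ) :
    ∑ i : Fin n, (if (i : ℕ) < t then f i else 0) = ∑ j ∈ range t, f j := by
  rw [← Fin.sum_univ_eq_sum_range f, ← sum_dite_fin h]
  exact Finset.sum_congr rfl fun i _ => by split_ifs <;> rfl

end Deg

variable {F : Type*} [Field F] [Fintype F] {n l κ : ℕ} {α β : ℕ → ℕ}

section Range

variable {A : Type*} [CommRing A] [Algebra F A]

/-- Generators of the coefficient ring. -/
noncomputable def th (q s t : ℕ) (β : ℕ → ℕ) (z : ℕ → A) (B : ℕ) (j : Fin B) : A :=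
  bc q β z j ^ cw s t j

lemma cf_mem (z : ℕ → A) (k : ℕ) (S : Subalgebra F A)
    (hS : ∀ j < ps β k, bc (Fintype.card F) β z j ∈ S) (i : Fin (ps β k)) :
    cf (Fintype.card F) z (ps β k) i ∈ S := by
  have h1 : ∀ k' ≤ k, gco (Fintype.card F) (fun j => Polynomial.C (z j)) (ps β k') Polynomial.X ∈
      Polynomial.liftsRing S.val.toRingHom := by
    intro k'
    induction k' with
    | zero => exact fun _ => (Polynomial.lifts_iff_liftsRing _ _).mp (Polynomial.X_mem_lifts _)
    | succ k' ih =>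
      intro hk
      rw [gco_block]
      refine sub_mem (pow_mem (ih (by omega)) _) (sum_mem fun i hi => mul_mem ?_
        (pow_mem (ih (by omega)) _))
      rw [← map_bc]
      refine (Polynomial.lifts_iff_liftsRing _ _).mp (Polynomial.C'_mem_lifts ⟨⟨_, hS _ ?_⟩, rfl⟩)
      have := Finset.mem_range.mp hi
      have := ps_mono β hk
      rw [ps_succ] at this
      omega
  obtain ⟨y, hy⟩ := (Polynomial.lifts_iff_coeff_lifts _).mp
    ((Polynomial.lifts_iff_liftsRing _ _).mpr (h1 k le_rfl)) (Fintype.card F ^ (i : ℕ))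
  rw [gco_eq_sum] at hy
  simp only [← map_cco, smul_eq_mul, Polynomial.finsetSum_coeff, Polynomial.coeff_C_mul,
    Polynomial.coeff_X_pow, (Nat.pow_right_injective (one_lt_q F)).eq_iff, mul_ite, mul_one,
    mul_zero, Finset.sum_ite_eq, Finset.mem_range, show (i : ℕ) < ps β k + 1 by omega,
    if_true] at hy
  rw [cf, ← hy]
  exact neg_mem y.2

variable (p : ℕ) [Fact p.Prime] [CharP A p] (r : ℕ)

omit [Fintype F] in
lemma pow_mem_range {q t B : ℕ} {z : ℕ → A} {a : A}
    (ha : a ∈ Algebra.adjoin F (bc q β z '' {j | j < B})) :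
    a ^ p ^ r ∈ (aeval (th q (p ^ r) t β z B) : MvPolynomial (Fin B) F →ₐ[F] A).range := by
  induction ha using Algebra.adjoin_induction with
  | mem a ha =>
    obtain ⟨j, hj, rfl⟩ := ha
    refine ⟨X ⟨j, hj⟩ ^ (if j < t then p ^ r else 1), ?_⟩
    simp only [AlgHom.toRingHom_eq_coe, RingHom.coe_coe, map_pow, aeval_X, th, cw]
    split_ifs <;> simp
  | algebraMap a => rw [← map_pow]; exact Subalgebra.algebraMap_mem _ _
  | add a b _ _ ha hb => rw [add_pow_char_pow]; exact add_mem ha hb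
  | mul a b _ _ ha hb => rw [mul_pow]; exact mul_mem ha hb

lemma rem_pow_mem_range (t m : ℕ) (z : ℕ → A) (j : ℕ) :
    rem (Fintype.card F) (cf (Fintype.card F) z (ps β l)) m j ^ p ^ r ∈
      (aeval (th (Fintype.card F) (p ^ r) t β z (ps β l)) :
        MvPolynomial (Fin (ps β l)) F →ₐ[F] A).range := by
  refine pow_mem_range p r ?_
  set S := Algebra.adjoin F (bc (Fintype.card F) β z '' {j | j < ps β l})
  exact (congrArg (· ∈ S) (map_rem (Fintype.card F) S.val.toRingHom (fun i => ⟨_, cf_mem z l S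
    (fun j hj => Algebra.subset_adjoin (Set.mem_image_of_mem _ hj)) i⟩) m j)).mp (Subtype.prop _)

lemma Adm.Ps_mem_range [IsDomain A] (h : Adm n l α β κ) (z : ℕ → A)
    (u : MvPolynomial (Fin n) F) : Ps F n α β (p ^ r) (ps β κ) z u ∈
      (aeval (th (Fintype.card F) (p ^ r) (ps β κ) β z (ps β l)) :
        MvPolynomial (Fin (ps β l)) F →ₐ[F] A).range := by
  rw [Ps_eq_sum]
  refine sum_mem fun ρ _ => mul_mem (prod_mem fun j _ => pow_mem ((AlgHom.mem_range _).mpr
    ⟨X ⟨j, j.2.trans_le (h.ps_le κ)⟩, by simp [th, cw]⟩) _) ?_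
  generalize u * ∏ j : Fin (ps β κ), DD F n α β j ^ ρ j = v
  induction v using MvPolynomial.induction_on' with
  | add a b ha hb => rw [map_add]; exact add_mem ha hb
  | monomial γ a =>
    rw [Ps_apply, range_zero, Finset.prod_empty, mul_one, map_monomial, PF_monomial]
    refine mul_mem (Subalgebra.algebraMap_mem _ _) (prod_mem fun i _ => ?_)
    rw [tm, if_neg (Nat.not_lt_zero _), tauS]
    split_ifs
    · rw [← tau_pow p r (one_lt_q F)]
      refine pow_mem_range p r ?_
      set S := Algebra.adjoin F (bc (Fintype.card F) β z '' {j | j < ps β l})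
      exact (congrArg (· ∈ S) (map_tau (one_lt_q F) S.val.toRingHom (fun k => ⟨_, cf_mem z
        (bk α i + 1) S (fun j hj => Algebra.subset_adjoin (Set.mem_image_of_mem _
          (hj.trans_le (h.ps_le _)))) k⟩) (γ i / p ^ r))).mp (Subtype.prop _)
    · exact zero_mem _

end Range

section Split

lemma isWH_zZ (B k : ℕ) : (ext0 X k : MvPolynomial (Fin B) F).IsWeightedHomogeneous (wZ F B)
    (Fintype.card F ^ (k + 1) - Fintype.card F ^ k) := by
  unfold ext0
  split_ifs
  · exact isWeightedHomogeneous_X F _ _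
  · exact isWeightedHomogeneous_zero _ _ _

lemma isWH_DD {j : ℕ} (hj : j < ps β l) : (DD F n α β j).IsWeightedHomogeneous (1 : Fin n → ℕ)
    (wT (Fintype.card F) β j) :=
  isWH_bc (one_lt_q F) (isWH_zsub (one_lt_q F) fun _ => isWH_ext0 _) hj

/-- Exponents of the socle of the mixed residue. -/
noncomputable def NN (q s t n : ℕ) (α β : ℕ → ℕ) : Fin n →₀ ℕ :=
  Finsupp.equivFunOnFinite.symm fun i => cw s t i * q ^ Bf n α β i - 1

/-- The degree shift. -/
noncomputable def sg (q s t n : ℕ) (α β : ℕ → ℕ) : ℕ :=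
  ∑ i, NN q s t n α β i + (s - 1) * ∑ j ∈ range t, q ^ j

lemma Adm.sg_add (h : Adm n l α β κ) {q s : ℕ} (hq : 0 < q) (hs : 0 < s) :
    sg q s (ps β κ) n α β + (s - 1) * ∑ j ∈ range (ps β κ), wT q β j =
      ∑ i, (s * q ^ Bf n α β i - 1) := by
  rw [sg, add_assoc, ← mul_add, ← Finset.sum_add_distrib, Finset.mul_sum, ← sum_ite_fin h.t_le,
    ← Finset.sum_add_distrib]
  refine Finset.sum_congr rfl fun i _ => ?_
  simp only [NN, Finsupp.equivFunOnFinite_symm_apply_apply, cw]
  split_ifs with hi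
  · have h3 := h.bk_pv (hi.trans_le (h.ps_le κ))
    rw [h.pv_eq hi] at h3
    have h4 : q ^ (i : ℕ) ≤ q ^ ps β (bk β i + 1) := Nat.pow_le_pow_right hq (bk_spec hi).2.2.le
    obtain ⟨c, rfl⟩ : ∃ c, s = c + 1 := ⟨s - 1, by omega⟩
    have h5 := pow_pos hq (ps β (bk β i + 1))
    rw [wT, Bf, h3, Nat.add_sub_cancel' h4, Nat.add_sub_cancel, add_mul]
    omega
  · rfl

variable (p : ℕ) [Fact p.Prime] [CharP F p] (r : ℕ)

lemma Ps_zero_mem (B : ℕ) {e : ℕ} {u : MvPolynomial (Fin n) F}
    (hu : u.IsWeightedHomogeneous (1 : Fin n → ℕ) e) :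
    Ps F n α β (p ^ r) 0 (ext0 (X : Fin B → MvPolynomial (Fin B) F)) u ∈
      Csh F (wZ F B) (∑ i, (p ^ r * Fintype.card F ^ Bf n α β i - 1)) e := by
  have hN : 0 < p ^ r := pow_pos (Fact.out : p.Prime).pos r
  induction hu using IsWeightedHomogeneous.induction_on with
  | zero => simp
  | add p r _ _ hp hr => rw [map_add]; exact Submodule.add_mem _ hp hr
  | monomial γ a hγ =>
    rw [Ps_apply, range_zero, Finset.prod_empty, mul_one, map_monomial, PF_monomial,
      ← Algebra.smul_def]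
    simp only [tm, Nat.not_lt_zero, if_false]
    refine Submodule.smul_mem _ _ (mem_Csh.mpr ?_)
    by_cases h : ∃ i, γ i + 1 < p ^ r * Fintype.card F ^ Bf n α β i
    · obtain ⟨i, hi⟩ := h
      exact Or.inr (Finset.prod_eq_zero (mem_univ i) (tauS_of_lt hN _ hi))
    · push Not at h
      rw [weight_one] at hγ
      have h1 : ∑ i, (γ i + 1 - p ^ r * Fintype.card F ^ Bf n α β i) +
          ∑ i, (p ^ r * Fintype.card F ^ Bf n α β i - 1) = e := by
        rw [← hγ, ← Finset.sum_add_distrib]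
        refine Finset.sum_congr rfl fun i _ => ?_
        have := h i
        have := Nat.mul_pos hN (pow_pos (Fintype.card_pos (α := F)) (Bf n α β i))
        omega
      exact Or.inl ⟨by omega, isWH_congr (IsWeightedHomogeneous.prod _ _ _ fun i _ =>
        isWH_tauS p r (one_lt_q F) (fun k => (isWH_cco (one_lt_q F) (fun k _ => isWH_zZ B k)
          k).neg) _) (by omega)⟩

lemma Adm.Ps_mem_Csh (h : Adm n l α β κ) (B : ℕ) {e : ℕ} {u : MvPolynomial (Fin n) F}
    (hu : u.IsWeightedHomogeneous (1 : Fin n → ℕ) e) :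
    Ps F n α β (p ^ r) (ps β κ) (ext0 (X : Fin B → MvPolynomial (Fin B) F)) u ∈
      Csh F (wZ F B) (sg (Fintype.card F) (p ^ r) (ps β κ) n α β) e := by
  have hN : 0 < p ^ r := pow_pos (Fact.out : p.Prime).pos r
  rw [Ps_eq_sum]
  refine Submodule.sum_mem _ fun ρ hρ => ?_
  have h1 : (u * ∏ j : Fin (ps β κ), DD F n α β j ^ ρ j).IsWeightedHomogeneous (1 : Fin n → ℕ)
      (e + ∑ j : Fin (ps β κ), ρ j * wT (Fintype.card F) β j) :=
    hu.mul (IsWeightedHomogeneous.prod _ _ _ fun j _ => (isWH_DD j.2).pow _)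
  rcases mem_Csh.mp (Ps_zero_mem (α := α) (β := β) p r B h1) with ⟨h2, h3⟩ | h0
  · have h4 : (∏ j : Fin (ps β κ), bc (Fintype.card F) β (ext0 (X : Fin B →
        MvPolynomial (Fin B) F)) j ^ (p ^ r - 1 - ρ j)).IsWeightedHomogeneous (wZ F B)
        (∑ j : Fin (ps β κ), (p ^ r - 1 - ρ j) * wT (Fintype.card F) β j) :=
      IsWeightedHomogeneous.prod _ _ _ fun j _ => (isWH_bc (one_lt_q F) (isWH_zZ B) j.2).pow _
    have h5 : ∑ j : Fin (ps β κ), (p ^ r - 1 - ρ j) * wT (Fintype.card F) β j +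
        ∑ j : Fin (ps β κ), ρ j * wT (Fintype.card F) β j =
        (p ^ r - 1) * ∑ j ∈ range (ps β κ), wT (Fintype.card F) β j := by
      rw [← Finset.sum_add_distrib, ← Fin.sum_univ_eq_sum_range, Finset.mul_sum]
      refine Finset.sum_congr rfl fun j _ => ?_
      have := Finset.mem_range.mp (Fintype.mem_piFinset.mp hρ j)
      rw [← add_mul]; congr 1; omega
    have h6 := h.sg_add (Fintype.card_pos (α := F)) hN
    exact mem_Csh.mpr (Or.inl ⟨by omega, isWH_congr (h4.mul h3) (by omega)⟩)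
  · rw [h0]; simp

omit [Fact p.Prime] [CharP F p] in
lemma tri_pow {Q : Type*} [CommRing Q] [Algebra F Q] (z : ℕ → Q) {c : ℕ} (hc : 0 < c) (A : ℕ)
    {j m : ℕ} (hjm : j ≤ m) (h : ∀ k : Fin j, rem (Fintype.card F)
      (cf (Fintype.card F) (sft (fun k => z k ^ c) A) j) m k = 0) {i : ℕ} (hi : i < j) :
    z (A + i) ^ (c * qint (Fintype.card F) (m - i)) ∈ Submodule.span F
      {x | ∃ g ∈ Algebra.adjoin F (z '' {k | k < A + i}),
        ∃ a < c * qint (Fintype.card F) (m - i), x = g * z (A + i) ^ a} := by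
  obtain ⟨g, hg, hz⟩ := tri (F := F) (sft (fun k => z k ^ c) A) hjm h hi
  simp only [sft, ← pow_mul] at hz
  have h1 : Algebra.adjoin F (sft (fun k => z k ^ c) A '' {k | k < i}) ≤
      Algebra.adjoin F (z '' {k | k < A + i}) := by
    refine Algebra.adjoin_le ?_
    rintro _ ⟨k, hk, rfl⟩
    have h2 : z (A + k) ∈ Algebra.adjoin F (z '' {k | k < A + i}) :=
      Algebra.subset_adjoin ⟨A + k, Nat.add_lt_add_left hk A, rfl⟩
    exact pow_mem h2 c
  rw [hz]
  exact Submodule.sum_mem _ fun k hk => Submodule.subset_span ⟨g k, h1 (hg k), _,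
    Nat.mul_lt_mul_of_pos_left (qint_strictMono Fintype.card_pos (Finset.mem_range.mp hk)) hc, rfl⟩

omit [Fintype F] [Fact p.Prime] [CharP F p] in
lemma spans_of {B : ℕ} (e : ℕ → ℕ) (θ : Fin B → MvPolynomial (Fin B) F) (he : ∀ i < B, 0 < e i)
    (h : ∀ i < B, Ideal.Quotient.mk (Ideal.span (Set.range θ)) (ext0 X i) ^ e i ∈
      Submodule.span F {x | ∃ g ∈ Algebra.adjoin F
        ((fun k => Ideal.Quotient.mk (Ideal.span (Set.range θ)) (ext0 X k)) '' {k | k < i}),
        ∃ a < e i, x = g * Ideal.Quotient.mk (Ideal.span (Set.range θ)) (ext0 X i) ^ a}) :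
    Spans (fun i => e i) θ := by
  intro u
  let π := Ideal.Quotient.mkₐ F (Ideal.span (Set.range θ))
  have h1 := adjoin_le_box (F := F) _ e B he h (π u) (by
    induction u using MvPolynomial.induction_on with
    | C a => exact Subalgebra.algebraMap_mem _ a
    | add p r hp hr => rw [map_add]; exact Subalgebra.add_mem _ hp hr
    | mul_X p k hp =>
      rw [map_mul]
      exact Subalgebra.mul_mem _ hp (Algebra.subset_adjoin ⟨k, k.2, by simp [π]⟩))
  have h2 : π u ∈ (Submodule.span F (Set.range (bmon F (e := fun i : Fin B => e i)))).map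
      π.toLinearMap := by
    rw [Submodule.map_span]
    refine Submodule.span_mono ?_ h1
    rintro _ ⟨a, ha, rfl⟩
    refine ⟨_, ⟨fun i => ⟨a i, ha i i.2⟩, rfl⟩, ?_⟩
    rw [← Fin.prod_univ_eq_prod_range (fun k => Ideal.Quotient.mk (Ideal.span (Set.range θ))
      (ext0 X k) ^ a k)]
    simp [bmon, π]
  obtain ⟨b, hb, hb'⟩ := h2
  exact ⟨b, hb, Ideal.Quotient.eq.mp hb'.symm⟩

variable (F) in
/-- Powers of the remainders in the splitting ring. -/
noncomputable def rS (s B m : ℕ) (j : Fin B) : MvPolynomial (Fin B) F :=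
  rem (Fintype.card F) (cf (Fintype.card F) (ext0 X) B) m j ^ s

lemma spans_rS {B m : ℕ} (h : B ≤ m) :
    Spans (fun i : Fin B => p ^ r * qint (Fintype.card F) (m - i)) (rS F (p ^ r) B m) := by
  have hN : 0 < p ^ r := pow_pos (Fact.out : p.Prime).pos r
  refine spans_of (fun i => p ^ r * qint (Fintype.card F) (m - i)) _ (fun i hi => Nat.mul_pos hN
    (Nat.pos_of_ne_zero (eB_ne F h ⟨i, hi⟩))) fun i hi => ?_
  have h1 := tri_pow (F := F) (fun k => Ideal.Quotient.mk (Ideal.span
    (Set.range (rS F (p ^ r) B m))) (ext0 X k)) hN 0 h (fun k => ?_) hi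
  · simpa only [zero_add] using h1
  have h2 := map_rem (Fintype.card F) ((Ideal.Quotient.mk (Ideal.span
    (Set.range (rS F (p ^ r) B m)))).comp (iterateFrobenius _ p r))
    (cf (Fintype.card F) (ext0 X) B) m k
  simp only [map_cf] at h2
  refine Eq.trans ?_ (h2.symm.trans (Ideal.Quotient.eq_zero_iff_mem.mpr
    (Ideal.subset_span ⟨k, rfl⟩)))
  congr 2
  funext i
  simp [sft, iterateFrobenius_def]

lemma spans_th (β : ℕ → ℕ) (κ l : ℕ) :
    Spans (fun j : Fin (ps β l) => cw (p ^ r) (ps β κ) j *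
      qint (Fintype.card F) (ps β (bk β j + 1) - j))
      (th (Fintype.card F) (p ^ r) (ps β κ) β (ext0 X) (ps β l) :
        Fin (ps β l) → MvPolynomial (Fin (ps β l)) F) := by
  have hN : 0 < p ^ r := pow_pos (Fact.out : p.Prime).pos r
  have hc : ∀ j, 0 < cw (p ^ r) (ps β κ) j := fun j => by unfold cw; split_ifs <;> omega
  refine spans_of (fun j => cw (p ^ r) (ps β κ) j *
    qint (Fintype.card F) (ps β (bk β j + 1) - j)) _ (fun i hi => Nat.mul_pos (hc i)
    (qint_strictMono Fintype.card_pos (a := 0) (by have := (bk_spec hi).2.2; omega)))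
    fun j hj => ?_
  obtain ⟨h1, h2, h3⟩ := bk_spec hj
  set π := Ideal.Quotient.mk (Ideal.span (Set.range (th (Fintype.card F) (p ^ r) (ps β κ) β
    (ext0 X) (ps β l) : Fin (ps β l) → MvPolynomial (Fin (ps β l)) F))) with hπ
  have h4 := tri_pow (F := F) (fun k => π (ext0 X k)) (hc j) (ps β (bk β j)) (j := β (bk β j))
    le_rfl (fun k => ?_) (i := j - ps β (bk β j)) (by rw [ps_succ] at h3; omega)
  · rwa [Nat.add_sub_cancel' h2, show β (bk β j) - (j - ps β (bk β j)) =
      ps β (bk β j + 1) - j by rw [ps_succ]; omega] at h4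
  have h5 : ps β (bk β j) + k < ps β l :=
    lt_of_lt_of_le (by rw [ps_succ]; omega) (ps_mono β (show bk β j + 1 ≤ l from h1))
  have h6 : cw (p ^ r) (ps β κ) (ps β (bk β j) + k) = cw (p ^ r) (ps β κ) j := by
    simp only [cw, ← bk_lt_iff h5, ← bk_lt_iff hj, bk_add k.2]
  have h7 : π (th (Fintype.card F) (p ^ r) (ps β κ) β (ext0 X) (ps β l) ⟨_, h5⟩) = 0 :=
    Ideal.Quotient.eq_zero_iff_mem.mpr (Ideal.subset_span ⟨_, rfl⟩)
  rw [rem_self Fintype.card_pos, cf, ← bc_add _ _ k.2, ← h7, th, h6, cw]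
  split_ifs
  · simp only [pow_one, map_bc]
  · exact (map_bc _ β (π.comp (iterateFrobenius _ p r)) _ _).symm

variable (F) in
/-- The ideal of relations in the coefficient ring. -/
noncomputable def RI (s t : ℕ) (β : ℕ → ℕ) (B m : ℕ) : Ideal (MvPolynomial (Fin B) F) :=
  (Ideal.span (Set.range (rS F s B m))).comap
    (aeval (th (Fintype.card F) s t β (ext0 X) B) : MvPolynomial (Fin B) F →ₐ[F] _)

lemma exists_polyP (β : ℕ → ℕ) (κ l : ℕ) {m : ℕ} (h : ps β l ≤ m) : ∃ H : Polynomial ℚ,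
    (∀ d, H.coeff d = hf (fun j : Fin (ps β l) => cw (p ^ r) (ps β κ) j *
      wT (Fintype.card F) β j) (RI F (p ^ r) (ps β κ) β (ps β l) m) d) ∧
    H * pd (fun j : Fin (ps β l) => cw (p ^ r) (ps β κ) j * wT (Fintype.card F) β j) =
      pd (fun j => p ^ r * wC F (ps β l) m j) := by
  have hN : 0 < p ^ r := pow_pos (Fact.out : p.Prime).pos r
  have hq := one_lt_q F
  set e : Fin (ps β l) → ℕ := fun j => cw (p ^ r) (ps β κ) j *
    qint (Fintype.card F) (ps β (bk β j + 1) - j) with he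
  set e' : Fin (ps β l) → ℕ := fun j => p ^ r * qint (Fintype.card F) (m - j) with he'
  have h1 : ∀ j, e j * wZ F _ j = cw (p ^ r) (ps β κ) j * wT (Fintype.card F) β j := fun j => by
    rw [he, mul_assoc, wZ, qint_mul hq, Nat.sub_add_cancel (bk_spec j.2).2.2.le, wT]
  have h2 : ∀ j, e' j * wZ F _ j = p ^ r * wC F (ps β l) m j := fun j => by
    rw [he', mul_assoc, ← eB_mul F h, eB]
  have h0 : ∀ j, e j ≠ 0 := fun j => Nat.mul_ne_zero (by unfold cw; split_ifs <;> omega)
    (qint_strictMono Fintype.card_pos (a := 0) (by have := (bk_spec j.2).2.2; omega)).ne'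
  have h3 := HS_map (wZ_ne F _) h0 (fun j => by
    rw [h1]; exact (isWH_bc hq (isWH_zZ _) j.2).pow _) (spans_th p r β κ l)
    (RI F (p ^ r) (ps β κ) β (ps β l) m)
  have h4 := HS_span (e := e') (wZ_ne F _) (fun j => Nat.mul_ne_zero hN.ne' (eB_ne F h j))
    (fun j => by rw [h2]; exact (isWH_rem hq (isWH_psi F _) h j).pow _) (spans_rS p r h)
  have h5 : (RI F (p ^ r) (ps β κ) β (ps β l) m).map
      (aeval (th (Fintype.card F) (p ^ r) (ps β κ) β (ext0 X) (ps β l))) =
      Ideal.span (Set.range (rS F (p ^ r) (ps β l) m)) := by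
    refine le_antisymm Ideal.map_comap_le (Ideal.span_le.mpr ?_)
    rintro _ ⟨j, rfl⟩
    obtain ⟨P, hP⟩ := rem_pow_mem_range (F := F) (β := β) (l := l) p r (ps β κ) m
      (ext0 (X : Fin (ps β l) → MvPolynomial (Fin (ps β l)) F)) j
    have hP' : aeval (th (Fintype.card F) (p ^ r) (ps β κ) β (ext0 X) (ps β l)) P =
      rS F (p ^ r) (ps β l) m j := hP
    rw [← hP']
    exact Ideal.mem_map_of_mem _ (Ideal.mem_comap.mpr (hP' ▸ Ideal.subset_span ⟨j, rfl⟩))
  rw [h5, h4, funext h1] at h3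
  set I := RI F (p ^ r) (ps β κ) β (ps β l) m
  set w : Fin (ps β l) → ℕ := fun j => cw (p ^ r) (ps β κ) j * wT (Fintype.card F) β j
  have h6 : ∀ d, (bgen (wZ F _) e').natDegree < d → hf w I d = 0 := by
    intro d hd
    have h7 := congrArg (PowerSeries.coeff d) h3
    have h8 : (bgen (wZ F _) e : PowerSeries ℚ) =
        ∑ a : Box e, PowerSeries.X ^ bdeg (wZ F _) a := by
      rw [bgen, ← Polynomial.coeToPowerSeries.ringHom_apply, map_sum]
      simp
    rw [Polynomial.coeff_coe, Polynomial.coeff_eq_zero_of_natDegree_lt hd, h8, Finset.sum_mul,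
      map_sum, eq_comm, Finset.sum_eq_zero_iff_of_nonneg] at h7
    · have h9 := h7 (fun i => ⟨0, Nat.pos_of_ne_zero (h0 i)⟩) (mem_univ _)
      simpa [bdeg, HS] using h9
    · intro a _
      rw [PowerSeries.coeff_X_pow_mul']
      split_ifs
      · simp [HS]
      · rfl
  obtain ⟨H, hH⟩ : ∃ H : Polynomial ℚ, (H : PowerSeries ℚ) = HS w I := by
    refine ⟨PowerSeries.trunc ((bgen (wZ F _) e').natDegree + 1) (HS w I), ?_⟩
    ext d
    rw [Polynomial.coeff_coe, PowerSeries.coeff_trunc]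
    split_ifs with hd
    · rfl
    · simp [HS, h6 d (by omega)]
  refine ⟨H, fun d => by rw [← Polynomial.coeff_coe, hH, HS, PowerSeries.coeff_mk], ?_⟩
  have h7 := bgen_mul (wZ F _) e
  have h8 := bgen_mul (wZ F _) e'
  simp only [h1, h2] at h7 h8
  rw [← hH, ← Polynomial.coe_mul] at h3
  rw [pd, pd, ← h7, ← h8, Polynomial.coe_injective ℚ h3]
  ring

end Split

section Sect

variable (F n α β) in
/-- The complementary monomial of the section. -/
noncomputable def om (s t B : ℕ) : MvPolynomial (Fin n) F :=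
  monomial (NN (Fintype.card F) s t n α β - ∑ j ∈ range B,
    if h : pv α β j < n then Finsupp.single ⟨pv α β j, h⟩ (s * Fintype.card F ^ j) else 0) 1

variable (F n α β) in
/-- The section attached to a sub-composition. -/
noncomputable def Sc (s κ l : ℕ) (P : MvPolynomial (Fin (ps β l)) F) : MvPolynomial (Fin n) F :=
  LP F n α β l ^ s * (LP F n α β κ ^ (s - 1) * om F n α β s (ps β κ) (ps β l) *
    aeval (fun j : Fin (ps β l) => DD F n α β j ^ cw s (ps β κ) j) P)

lemma Adm.sum_single (h : Adm n l α β κ) (f : ℕ → ℕ) : (∑ j ∈ range (ps β l),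
    if h : pv α β j < n then Finsupp.single (⟨pv α β j, h⟩ : Fin n) (f j) else 0) =
    ∑ j : Fin (ps β l), Finsupp.single ⟨pv α β j, h.pv_lt j.2⟩ (f j) := by
  rw [← Fin.sum_univ_eq_sum_range (fun j =>
    if h : pv α β j < n then Finsupp.single (⟨pv α β j, h⟩ : Fin n) (f j) else 0)]
  exact Finset.sum_congr rfl fun j _ => dif_pos _

lemma Adm.single_le (h : Adm n l α β κ) {q s : ℕ} (hs : 0 < s) (hq : s < q) (t : ℕ) :
    ∑ j : Fin (ps β l), Finsupp.single ⟨pv α β j, h.pv_lt j.2⟩ (s * q ^ (j : ℕ)) ≤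
      NN q s t n α β := by
  classical
  intro i
  rw [Finsupp.finsetSum_apply]
  by_cases hi : ∃ j : Fin (ps β l), (⟨pv α β j, h.pv_lt j.2⟩ : Fin n) = i
  · obtain ⟨j, rfl⟩ := hi
    rw [Finset.sum_eq_single j, Finsupp.single_eq_same]
    · have h1 : q ^ ((j : ℕ) + 1) ≤ q ^ ps β (bk β j + 1) :=
        Nat.pow_le_pow_right (by omega) (bk_spec j.2).2.2
      have h2 : s * q ^ (j : ℕ) < q * q ^ (j : ℕ) :=
        Nat.mul_lt_mul_of_pos_right hq (pow_pos (by omega) _)
      have h3 := Nat.le_mul_of_pos_left (q ^ ps β (bk β j + 1))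
        (show 0 < cw s t (pv α β j) by unfold cw; split_ifs <;> omega)
      rw [pow_succ'] at h1
      simp only [NN, Finsupp.equivFunOnFinite_symm_apply_apply, Bf, h.bk_pv j.2]
      omega
    · exact fun j' _ hj => Finsupp.single_eq_of_ne fun e =>
        hj (Fin.ext (h.pv_inj j'.2 j.2 (congrArg Fin.val e).symm))
    · simp
  · rw [Finset.sum_eq_zero fun j _ => Finsupp.single_eq_of_ne fun e => hi ⟨j, e.symm⟩]
    exact Nat.zero_le _

lemma Adm.Sc_mem (h : Adm n l α β κ) {s : ℕ} (hs : 0 < s) (hq : s < Fintype.card F) {e : ℕ}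
    {P : MvPolynomial (Fin (ps β l)) F} (hP : P ∈ Csh F (fun j : Fin (ps β l) =>
      cw s (ps β κ) j * wT (Fintype.card F) β j) (sg (Fintype.card F) s (ps β κ) n α β) e) :
    (Sc F n α β s κ l P).IsWeightedHomogeneous (1 : Fin n → ℕ) e := by
  rcases mem_Csh.mp hP with ⟨h1, h2⟩ | h0
  · have h3 : ∀ k, (LP F n α β k).IsWeightedHomogeneous (1 : Fin n → ℕ) _ :=
      fun k => isWH_LL (one_lt_q F) (fun _ => isWH_ext0 _) _
    refine isWH_congr (((h3 l).pow s).mul ((((h3 κ).pow (s - 1)).mul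
      (isWeightedHomogeneous_monomial _ _ _ rfl)).mul
      (isWH_aeval (fun j => (isWH_DD j.2).pow _) h2))) ?_
    have h4 := congrArg (Finsupp.weight (1 : Fin n → ℕ))
      (tsub_add_cancel_of_le (h.single_le hs hq (ps β κ)))
    rw [map_add, map_sum, weight_one (NN _ _ _ _ _ _)] at h4
    simp only [Finsupp.weight_single, Pi.one_apply, smul_eq_mul, mul_one, ← Finset.mul_sum,
      Fin.sum_univ_eq_sum_range (fun j => Fintype.card F ^ j)] at h4
    rw [h.sum_single (fun j => s * Fintype.card F ^ j), smul_eq_mul, smul_eq_mul]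
    rw [sg] at h1 ⊢
    omega
  · rw [h0, Sc, map_zero, mul_zero, mul_zero]
    exact isWeightedHomogeneous_zero _ _ _

variable (p : ℕ) [Fact p.Prime] (r : ℕ)

lemma Adm.Ps_Sc {A : Type*} [CommRing A] [Algebra F A] [CharP A p] [IsDomain A]
    (h : Adm n l α β κ) (hq : p ^ r < Fintype.card F) (z : ℕ → A)
    (P : MvPolynomial (Fin (ps β l)) F) :
    Ps F n α β (p ^ r) (ps β κ) z (Sc F n α β (p ^ r) κ l P) =
      aeval (th (Fintype.card F) (p ^ r) (ps β κ) β z (ps β l)) P := by
  have hN : 0 < p ^ r := pow_pos (Fact.out : p.Prime).pos r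
  obtain ⟨c, hc⟩ : LP F n α β κ ∣ LP F n α β l := LL_dvd _ _ (h.ps_le κ)
  have h1 := h.Ps_mixed p r z (c ^ p ^ r * om F n α β (p ^ r) (ps β κ) (ps β l))
  rw [← mul_assoc (LP F n α β κ ^ p ^ r), ← mul_pow, ← hc, mul_left_comm] at h1
  rw [Sc, h.Ps_mul_aeval p r, h1, map_mul (MvPolynomial.map _), map_pow, map_LP, om, map_monomial,
    map_one, h.sum_single (fun j => p ^ r * Fintype.card F ^ j)]
  refine mul_right_eq_self₀.mpr (Or.inl ?_)
  have h2 := map_LL (Fintype.card F) (iterateFrobenius _ p r) (xp A n α β) (ps β l)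
  simp only [iterateFrobenius_def] at h2
  rw [h2, ← det_eq_LL (F := F)]
  simp only [fun j : Fin (ps β l) => h.xp_eq A j.2]
  refine PF_det (one_lt_q F) _ _ (fun i k hk => ?_) (fun i => ?_)
    (fun j j' e => Fin.ext (h.pv_inj j.2 j'.2 (congrArg Fin.val e))) hN (h.single_le hN hq _)
  · simp only [NN, Finsupp.equivFunOnFinite_symm_apply_apply, cw] at hk
    rw [tm]
    split_ifs at hk ⊢
    · exact tau_of_lt _ (by omega)
    · exact tauS_of_lt hN _ (by omega)
  · have := pow_pos (Fintype.card_pos (α := F)) (Bf n α β i)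
    have := Nat.mul_pos hN this
    simp only [NN, Finsupp.equivFunOnFinite_symm_apply_apply, cw, tm]
    split_ifs
    · exact tau_top _ (by omega)
    · exact tauS_top hN _ (by omega)

lemma Sc_mem_JN [CharP F p] {m : ℕ} {P : MvPolynomial (Fin (ps β l)) F}
    (hP : P ∈ RI F (p ^ r) (ps β κ) β (ps β l) m) :
    Sc F n α β (p ^ r) κ l P ∈ JN F n (p ^ r * Fintype.card F ^ m) := by
  let ev : MvPolynomial (Fin (ps β l)) F →ₐ[F] MvPolynomial (Fin n) F :=
    aeval fun k => zsub (Fintype.card F) (xp F n α β) k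
  have h0 : ∀ k < ps β l, ev.toRingHom (ext0 X k) = zsub (Fintype.card F) (xp F n α β) k :=
    fun k hk => by simp [ev, ext0, hk]
  obtain ⟨v, hv⟩ := Ideal.mem_span_range_iff_exists_fun.mp (Ideal.mem_comap.mp hP)
  have h1 : aeval (fun j : Fin (ps β l) => DD F n α β j ^ cw (p ^ r) (ps β κ) j) P =
      ∑ j, ev (v j) * rem (Fintype.card F) (dick (Fintype.card F) (xp F n α β) (ps β l)) m j ^
        p ^ r := by
    have h2 := congrArg ev hv
    rw [comp_aeval_apply, map_sum] at h2
    refine Eq.trans ?_ (h2.symm.trans (Finset.sum_congr rfl fun j _ => ?_))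
    · congr 2
      funext j
      rw [th, map_pow]
      exact congrArg (· ^ _) ((map_bc _ β ev.toRingHom _ _).trans (bc_congr' _ j.2 h0)).symm
    · rw [map_mul, rS, map_pow]
      refine congrArg (fun x => _ * x ^ _) ((map_rem _ ev.toRingHom _ _ _).trans ?_)
      simp only [map_cf, cf_congr _ h0]
      rfl
  rw [Sc, h1, Finset.mul_sum, Finset.mul_sum]
  refine Ideal.sum_mem _ fun j _ => ?_
  have h2 := LL_mul_eq_zero (F := F) (fun i => Ideal.Quotient.mk (JN F n (Fintype.card F ^ m))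
    (xp F n α β i)) (fun k => Ideal.Quotient.mk (JN F n (Fintype.card F ^ m))
      (rem (Fintype.card F) (dick (Fintype.card F) (xp F n α β) (ps β l)) m k)) (fun i hi => by
      have h3 := pow_eq_sum_rem (F := F) _ _ (pow_eq_dick (F := F) (xp F n α β) hi) m
      have h4 : xp F n α β i ^ Fintype.card F ^ m ∈ JN F n (Fintype.card F ^ m) := by
        unfold xp ext0
        split_ifs
        · exact X_pow_mem_JN _ _
        · rw [zero_pow (by positivity)]; exact Ideal.zero_mem _
      rw [← Ideal.Quotient.eq_zero_iff_mem, h3, Fin.sum_univ_eq_sum_range (fun k =>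
        rem (Fintype.card F) (dick (Fintype.card F) (xp F n α β) (ps β l)) m k •
          xp F n α β i ^ Fintype.card F ^ k)] at h4
      simpa only [map_sum, smul_eq_mul, map_mul, map_pow] using h4) j.2
  rw [← map_LL, ← map_mul, Ideal.Quotient.eq_zero_iff_mem] at h2
  have h3 := pow_mem_span_pow p r _ h2
  simp only [← pow_mul, mul_comm (Fintype.card F ^ m)] at h3
  rw [show ∀ a b c d : MvPolynomial (Fin n) F, a ^ p ^ r * (b * (c * d ^ p ^ r)) =
      b * c * (a * d) ^ p ^ r from fun a b c d => by ring]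
  exact Ideal.mul_mem_left _ _ h3

end Sect

end Pool.Agent.Work.MP_a1538a_al.Par

/-!
The residue maps detect the twisted augmentation submodule.
-/

set_option autoImplicit false

namespace Pool.Agent.Work.MP_a1538a_al.Par

open Finset MvPolynomial Hedge

variable {F : Type*} [Field F] [Fintype F] {n l κ : ℕ} {α β : ℕ → ℕ}

section Link

variable {K : Type*} [Field K] [Algebra F K]

lemma exists_roots [IsAlgClosed K] (z : ℕ → K) (j : ℕ) (hz : ∀ k < j, z k ≠ 0) :
    ∃ U : Finset K, IsSub F U ∧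
      fpol (Fintype.card F) (cf (Fintype.card F) z j) = Lagrange.nodal U id ∧
      ∀ x, x ∈ U ↔ gco (Fintype.card F) z j x = 0 := by
  obtain ⟨U, hU, hf⟩ := exists_sub_of_a0_ne (F := F) (cf (Fintype.card F) z j) (by
    rw [a0_cf]
    exact Finset.prod_ne_zero_iff.mpr fun k hk => neg_ne_zero.mpr (hz k (Finset.mem_range.mp hk)))
  refine ⟨U, hU, hf, fun x => ?_⟩
  rw [← aeval_fpol_cf (F := F), Polynomial.coe_aeval_eq_eval, hf, Lagrange.eval_nodal,
    Finset.prod_eq_zero_iff]
  simp [sub_eq_zero]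

lemma aeval_PF {B : ℕ} (c : Fin B → K) (s t : ℕ) (J : Fin n → ℕ) (v : MvPolynomial (Fin n) F) :
    aeval c (PF (tm (Fintype.card F) s t J (ext0 (X : Fin B → MvPolynomial (Fin B) F)))
      (map (algebraMap F (MvPolynomial (Fin B) F)) v)) =
    PF (tm (Fintype.card F) s t J (ext0 c)) (map (algebraMap F K) v) := by
  have h1 := map_PF (aeval c : MvPolynomial (Fin B) F →ₐ[F] K).toRingHom
    (tm (Fintype.card F) s t J (ext0 X)) (map (algebraMap F (MvPolynomial (Fin B) F)) v)
  have h2 : (fun k => (aeval c : MvPolynomial (Fin B) F →ₐ[F] K).toRingHom (ext0 X k)) =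
      ext0 c := by
    funext k
    unfold ext0
    split_ifs <;> simp
  simp only [map_tm (one_lt_q F), h2, MvPolynomial.map_map] at h1
  rw [← (aeval c : MvPolynomial (Fin B) F →ₐ[F] K).comp_algebraMap]
  exact h1

omit [Algebra F K] in
lemma gco_congr (q : ℕ) {z z' : ℕ → K} {j : ℕ} (h : ∀ k < j, z k = z' k) (x : K) :
    gco q z j x = gco q z' j x := by
  induction j with
  | zero => rfl
  | succ j ih => simp only [gco, ih (fun k hk => h k (by omega)), h j (by omega)]

lemma gco_sub_smul (z : ℕ → K) (j : ℕ) (x y : K) (a : F) :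
    gco (Fintype.card F) z j (x - a • y) =
      gco (Fintype.card F) z j x - a • gco (Fintype.card F) z j y := by
  induction j with
  | zero => rfl
  | succ j ih =>
    simp only [gco, ih, sub_pow_q1 F, smul_pow_q1 F, smul_eq_mul, smul_sub, mul_sub,
      mul_smul_comm]
    ring

lemma exists_adapted (y : ℕ → K) (N : ℕ) : ∃ (z : ℕ → K) (j : ℕ → ℕ), j 0 = 0 ∧
    (∀ i i', i ≤ i' → i' ≤ N → j i ≤ j i' ∧ j i' + i ≤ j i + i') ∧ (∀ k, z k ≠ 0) ∧
    ∀ i ≤ N, ∀ x, gco (Fintype.card F) z (j i) x = 0 ↔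
      x ∈ Submodule.span F (y '' {k | k < i}) := by
  have hq := one_lt_q F
  induction N with
  | zero =>
    refine ⟨1, 0, rfl, fun i i' h h' => by simp; omega, by simp, fun i hi x => ?_⟩
    obtain rfl : i = 0 := by omega
    simp [gco]
  | succ N ih =>
    obtain ⟨z, j, h0, h1, h2, h3⟩ := ih
    have h4 : y '' {k | k < N + 1} = insert (y N) (y '' {k | k < N}) := by
      rw [← Set.image_insert_eq]
      congr 1
      ext k
      simp only [Set.mem_ofPred_eq, Set.mem_insert_iff]
      omega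
    have h5 : ∀ e ≤ 1, ∀ i i', i ≤ i' → i' ≤ N + 1 →
        (if i ≤ N then j i else j N + e) ≤ (if i' ≤ N then j i' else j N + e) ∧
        (if i' ≤ N then j i' else j N + e) + i ≤ (if i ≤ N then j i else j N + e) + i' := by
      intro e he i i' h h'
      have := h1 i i' h
      have := h1 i N
      split_ifs <;> omega
    by_cases hy : gco (Fintype.card F) z (j N) (y N) = 0
    · refine ⟨z, fun i => if i ≤ N then j i else j N + 0, by simp [h0], h5 0 (by omega), h2,
        fun i hi x => ?_⟩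
      dsimp only
      split_ifs with h
      · exact h3 i h x
      · rw [show i = N + 1 by omega, h4, Submodule.span_insert_eq_span ((h3 N le_rfl _).mp hy)]
        exact h3 N le_rfl x
    · set w := gco (Fintype.card F) z (j N) (y N) with hw
      have h6 : ∀ i ≤ j N, ∀ x, gco (Fintype.card F)
          (Function.update z (j N) (w ^ (Fintype.card F - 1))) i x =
          gco (Fintype.card F) z i x := fun i hi x =>
        gco_congr _ (fun k hk => Function.update_of_ne (hk.trans_le hi).ne _ _) x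
      refine ⟨Function.update z (j N) (w ^ (Fintype.card F - 1)),
        fun i => if i ≤ N then j i else j N + 1, by simp [h0], h5 1 le_rfl, fun k => ?_,
        fun i hi x => ?_⟩
      · rw [Function.update_apply]
        split_ifs
        · exact pow_ne_zero _ hy
        · exact h2 k
      dsimp only
      split_ifs with h
      · rw [h6 _ (h1 i N h le_rfl).1]; exact h3 i h x
      rw [show i = N + 1 by omega, h4, Submodule.mem_span_insert', gco, h6 _ le_rfl,
        Function.update_self, smul_eq_mul]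
      constructor
      · intro h7
        obtain ⟨a, ha⟩ := exists_smul_of_phi (F := F) hy h7
        refine ⟨-a, (h3 N le_rfl _).mp ?_⟩
        rw [neg_smul, ← sub_eq_add_neg, gco_sub_smul, ha, sub_self]
      · rintro ⟨a, ha⟩
        have h7 := (h3 N le_rfl _).mpr ha
        rw [← sub_neg_eq_add, ← neg_smul, gco_sub_smul, sub_eq_zero] at h7
        rw [h7, smul_pow_q1 F, mul_smul_comm, ← pow_succ, Nat.sub_add_cancel hq.le, sub_self]

lemma mem_spB_iff {b : Fin n → ℕ} {N : ℕ} (hN : ∀ i : Fin n, (i : ℕ) < N ↔ b i ≤ κ)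
    (y : Fin n → K) (x : K) :
    x ∈ spB F b y κ ↔ x ∈ Submodule.span F (ext0 y '' {k | k < N}) := by
  have hU := isChn_spB (F := F) b y
  constructor
  · intro hx
    obtain ⟨c, hc, rfl⟩ := mem_spB.mp hx
    refine Submodule.sum_mem _ fun i _ => ?_
    by_cases hi : κ < b i
    · rw [hc i hi, zero_smul]; exact Submodule.zero_mem _
    · exact Submodule.smul_mem _ _ (Submodule.subset_span ⟨i, (hN i).mpr (not_lt.mp hi), by simp⟩)
  · intro hx
    induction hx using Submodule.span_induction with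
    | zero => exact (hU.sub κ).zero_mem
    | add a b _ _ ha hb => exact (hU.sub κ).add_mem _ ha _ hb
    | smul c a _ ha => exact (hU.sub κ).smul_mem _ _ ha
    | mem a ha =>
      obtain ⟨k, hk, rfl⟩ := ha
      unfold ext0
      split_ifs with h
      · exact hU.mono ((hN ⟨k, h⟩).mp hk) (mem_pts.mp (self_mem_pts b y) _)
      · exact (hU.sub κ).zero_mem

variable (p : ℕ) [Fact p.Prime] (r : ℕ)

lemma sum_lamT [CharP K p] (b : Fin n → ℕ) (U : ℕ → Finset K) (t : ℕ) (J : Fin n → ℕ)
    (z : ℕ → K) (hU : ∀ i, fpol (Fintype.card F) (cf (Fintype.card F) z (J i)) =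
      Lagrange.nodal (U (b i)) id) (v : MvPolynomial (Fin n) F) :
    ∑ y ∈ pts b U, lamT F (p ^ r - 1) t y v =
      (∏ i, a0 (cf (Fintype.card F) z (J i)) ^ cw (p ^ r) t i) *
        PF (tm (Fintype.card F) (p ^ r) t J z) (map (algebraMap F K) v) := by
  induction v using MvPolynomial.induction_on' with
  | add a b ha hb => simp only [map_add, Finset.sum_add_distrib, ha, hb, mul_add]
  | monomial γ a =>
    simp only [lamT_monomial]
    rw [← Finset.smul_sum, pts, ← Finset.prod_univ_sum (fun i => U (b i)) (fun i x =>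
      if (i : ℕ) < t then x ^ γ i else if γ i % p ^ r = p ^ r - 1 then
        (x ^ p ^ r) ^ (γ i / p ^ r) else 0), map_monomial, PF_monomial, mul_left_comm,
      ← Algebra.smul_def, ← Finset.prod_mul_distrib]
    congr 1
    refine Finset.prod_congr rfl fun i _ => ?_
    simp only [cw, tm, tauS]
    split_ifs
    · rw [sum_pow_eq_tau _ _ (hU i), pow_one]
    · rw [← tau_pow p r (one_lt_q F), ← mul_pow, ← sum_pow_eq_tau _ _ (hU i), sum_pow_char_pow]
      exact Finset.sum_congr rfl fun x _ => pow_right_comm _ _ _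
    · simp

variable [CharP F p]

lemma Adm.Ps_zero_act (h : Adm n l α β κ) (hs : p ^ r ≤ Fintype.card F)
    (g : Matrix.GeneralLinearGroup (Fin n) F) (hg : InP (fun i => bk α i) g.val)
    (u : MvPolynomial (Fin n) F) :
    Ps F n α β (p ^ r) 0 (ext0 (X : Fin (ps β l) → MvPolynomial (Fin (ps β l)) F))
      (act g.val u) = g.val.det ^ (p ^ r - 1) • Ps F n α β (p ^ r) 0 (ext0 X) u := by
  let K := AlgebraicClosure F
  have : CharP K p := charP_of_injective_algebraMap (algebraMap F K).injective p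
  rw [← sub_eq_zero]
  refine (mul_eq_zero.mp ?_).resolve_left
    (Finset.prod_ne_zero_iff.mpr fun k (_ : k ∈ univ) => X_ne_zero k)
  apply map_injective (algebraMap F K) (algebraMap F K).injective
  apply MvPolynomial.funext
  intro c
  rw [eval_map, ← aeval_def, map_zero, map_zero, map_mul]
  by_cases hc : ∃ k, c k = 0
  · obtain ⟨k, hk⟩ := hc
    rw [map_prod, Finset.prod_eq_zero (mem_univ k) (by rw [aeval_X, hk]), zero_mul]
  push Not at hc
  have hz : ∀ k, ∀ j < ps β k, ext0 c j ≠ 0 := fun k j hj => by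
    rw [ext0, dif_pos (hj.trans_le (h.ps_le _))]; exact hc _
  choose U hU hf hm using fun k => exists_roots (F := F) (ext0 c) (ps β (k + 1)) (hz _)
  have hch : IsChn F U := ⟨hU, fun k k' hk x hx => (hm _ _).mpr (gco_eq_zero_of_le
    Fintype.card_pos _ (ps_mono β (Nat.succ_le_succ hk)) ((hm _ _).mp hx))⟩
  have h1 := sum_lamT p r (fun i => bk α i) U 0 (Bf n α β) (ext0 c) (fun i => hf _)
  have h2 := sum_mv g _ (fun z hz => hch.mv_mem hg hz) (fun z => lamT F (p ^ r - 1) 0 z u)
  have h3 : ∀ z : Fin n → K, lamT F (p ^ r - 1) 0 z (act g.val u) =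
      g.val.det ^ (p ^ r - 1) • lamT F (p ^ r - 1) 0 (mv g.val z) u := fun z => by
    simpa only [lamL_apply, moore_zero, one_pow, one_mul] using lamL_zero_act p r hs g z u
  refine mul_eq_zero_of_right _ ((mul_eq_zero.mp ?_).resolve_left (Finset.prod_ne_zero_iff.mpr
    fun i (_ : i ∈ univ) => pow_ne_zero (cw (p ^ r) 0 i) (a := a0 (cf (Fintype.card F) (ext0 c)
      (Bf n α β i))) ?_))
  · simp only [Ps_apply, range_zero, Finset.prod_empty, mul_one, map_sub, map_smul, aeval_PF,
      mul_sub, mul_smul_comm, ← h1, h3, ← Finset.smul_sum, h2, sub_self]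
  · rw [a0_cf]
    exact Finset.prod_ne_zero_iff.mpr fun k hk => neg_ne_zero.mpr (hz _ k (Finset.mem_range.mp hk))

lemma Adm.Ps_IS (h : Adm n l α β κ) (hs : p ^ r ≤ Fintype.card F) {u : MvPolynomial (Fin n) F}
    (hu : u ∈ IS (InP fun i => bk α i) (p ^ r - 1)) :
    Ps F n α β (p ^ r) (ps β κ) (ext0 (X : Fin (ps β l) → MvPolynomial (Fin (ps β l)) F)) u =
      0 := by
  rw [Ps_eq_sum]
  refine Finset.sum_eq_zero fun ρ _ => mul_eq_zero_of_right _ (eq_zero_of_mem_IS _
    (h.Ps_zero_act p r hs) (mul_mem_IS (fun g hg => ?_) hu))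
  simp only [map_prod, map_pow, fun j : Fin (ps β κ) => h.act_DD hg j.2]

lemma link [IsAlgClosed K] (hn : n = ps α l) (hκ : κ ≤ l) (hs : p ^ r ≤ Fintype.card F)
    {w : MvPolynomial (Fin n) F} (hw : ∀ β, Adm n l α β κ → (κ = l ∨ β κ ≠ α κ) →
      Ps F n α β (p ^ r) (ps β κ) (ext0 (X : Fin (ps β l) → MvPolynomial (Fin (ps β l)) F))
        (moore F n (ps α κ) ^ p ^ r * w) = 0) (y : Fin n → K)
    (hy : κ < l → #(spB F (fun i => bk α i) y κ) < Fintype.card F ^ ps α (κ + 1)) :
    ∑ z ∈ pts (fun i => bk α i) (spB F (fun i => bk α i) y),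
      lamL F (p ^ r) (ps α κ) z (moore F n (ps α κ) ^ p ^ r * w) = 0 := by
  have : CharP K p := charP_of_injective_algebraMap (algebraMap F K).injective p
  have hq := one_lt_q F
  have hN : 0 < p ^ r := pow_pos (Fact.out : p.Prime).pos r
  obtain ⟨z, j, h0, h1, h2, h3⟩ := exists_adapted (F := F) (ext0 y) n
  have h4 : ∀ k ≤ l, ps α k ≤ n := fun k hk => hn ▸ ps_mono α hk
  have h5 : ∀ k < l, ∀ x, x ∈ spB F (fun i => bk α i) y k ↔
      gco (Fintype.card F) z (j (ps α (k + 1))) x = 0 := fun k hk x => by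
    rw [h3 _ (h4 _ hk), mem_spB_iff fun i => by
      rw [← bk_lt_iff (hn ▸ i.2 : (i : ℕ) < ps α l), Nat.lt_succ_iff]]
  by_cases hfull : j (ps α κ) < ps α κ
  · refine Finset.sum_eq_zero fun x hx => ?_
    have h6 := LL_eq_zero_of_lt (F := F) z (ext0 x) hfull fun k hk => by
      have hk' := hk.trans_le (h4 κ hκ)
      have h7 := (bk_spec hk).1
      rw [ext0, dif_pos hk']
      exact gco_eq_zero_of_le Fintype.card_pos _ (h1 _ _ (ps_mono α h7) (h4 κ hκ)).1
        ((h5 _ (by omega) _).mp (mem_pts.mp hx ⟨k, hk'⟩))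
    have h7 : aeval x (moore F n (ps α κ)) = 0 := by
      rw [moore_eq_LL, ← h6]
      refine (map_LL _ (aeval x : MvPolynomial (Fin n) F →ₐ[F] K).toRingHom _ _).trans ?_
      congr 1
      funext k
      unfold ext0
      split_ifs <;> simp
    rw [moore_eq_rename (h4 κ hκ), aeval_rename] at h7
    rw [lamL_apply, ← mul_assoc, ← pow_add, moore_eq_rename (h4 κ hκ), ← map_pow, lamT_mul_rename,
      map_pow, h7, zero_pow (by omega), zero_mul]
  let β : ℕ → ℕ := fun k => if k < l then j (ps α (k + 1)) - j (ps α k) else 0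
  have h6 : ∀ k ≤ l, ps β k = j (ps α k) := by
    intro k
    induction k with
    | zero => exact fun _ => h0.symm
    | succ k ih =>
      intro hk
      have := (h1 _ _ (ps_mono α (Nat.le_add_right k 1)) (h4 _ hk)).1
      rw [ps_succ, ih (by omega)]
      simp only [β, if_pos (show k < l from hk)]
      omega
  have h7 : ∀ k ≤ κ, j (ps α k) = ps α k := fun k hk => by
    have := h1 _ _ (ps_mono α hk) (h4 κ hκ)
    have := h1 0 _ (Nat.zero_le _) (h4 k (hk.trans hκ))
    omega
  have hA : Adm n l α β κ := by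
    refine ⟨hn, fun k => ?_, fun k hk => if_neg (by omega), fun k hk => ?_, hκ⟩
    · simp only [β]
      split_ifs with hk
      · have := (h1 _ _ (ps_mono α (Nat.le_add_right k 1)) (h4 _ hk)).2
        rw [ps_succ] at this ⊢
        omega
      · exact Nat.zero_le _
    · simp only [β, if_pos (hk.trans_le hκ), h7 k hk.le, h7 (k + 1) hk]
      rw [ps_succ, Nat.add_sub_cancel_left]
  have h8 : ∀ k < l, fpol (Fintype.card F) (cf (Fintype.card F)
      (ext0 fun i : Fin (ps β l) => z i) (ps β (k + 1))) =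
      Lagrange.nodal (spB F (fun i => bk α i) y k) id := by
    intro k hk
    obtain ⟨U, _, hf, hm⟩ := exists_roots (F := F) z (ps β (k + 1)) fun i _ => h2 i
    rw [cf_congr (z' := z) _ fun i hi => dif_pos (hi.trans_le (hA.ps_le _)), hf]
    congr 1
    ext x
    rw [hm, h5 k hk, h6 _ hk]
  have h9 := hw β hA (hκ.eq_or_lt.imp_right fun hlt e => ?_)
  · rw [← hA.ps_eq le_rfl, ← hA.LP_eq] at h9 ⊢
    have h10 := hA.Ps_pow_mul p r _ h9
    simp only [lamL_apply]
    rw [sum_lamT p r _ _ _ (Bf n α β) _ (fun i => h8 _ (bk_spec (hn ▸ i.2)).1), ← aeval_PF,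
      ← hA.LP_eq, mul_left_comm (LP F n α β κ ^ _), ← hA.Ps_mixed p r, mul_left_comm (LP F n α β κ ^ _),
      ← mul_assoc (LP F n α β κ ^ (p ^ r - 1)), ← pow_add, show p ^ r - 1 +
        (Fintype.card F - p ^ r) = Fintype.card F - 1 by omega, mul_comm _ w, h10, map_zero,
      mul_zero]
  · have h10 := congrArg Polynomial.natDegree (h8 κ hlt)
    rw [fpol_natDegree hq, Lagrange.natDegree_nodal, ps_succ, e, hA.ps_eq le_rfl,
      ← ps_succ] at h10
    exact (hy hlt).ne' h10

end Link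

lemma bk_mono (hn : n = ps α l) : Monotone fun i : Fin n => bk α i := fun i j hij =>
  not_lt.mp fun h => by
    have h1 := (bk_lt_iff (hn ▸ j.2 : (j : ℕ) < ps α l) (bk α i)).mp h
    have h2 := (bk_spec (hn ▸ i.2 : (i : ℕ) < ps α l)).2.1
    have : (i : ℕ) ≤ j := hij
    omega

variable (p : ℕ) [Fact p.Prime] [CharP F p] (r : ℕ)

theorem mem_IS_of_Ps (hn : n = ps α l) (hs : p ^ r < Fintype.card F)
    {u : MvPolynomial (Fin n) F} (hu : ∀ β κ, Adm n l α β κ → (κ = l ∨ β κ ≠ α κ) →
      Ps F n α β (p ^ r) (ps β κ) (ext0 (X : Fin (ps β l) → MvPolynomial (Fin (ps β l)) F)) u =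
        0) : u ∈ IS (InP fun i => bk α i) (p ^ r - 1) := by
  have hN : 0 < p ^ r := pow_pos (Fact.out : p.Prime).pos r
  have step : ∀ κ ≤ l, ∀ t', (∀ i : Fin n, (i : ℕ) < t' ↔ bk α i ≤ κ) → ps α κ ≤ t' →
      (t' ≤ n ∨ ps α κ = n) → (κ < l → t' = ps α (κ + 1)) →
      (∃ w, u - moore F n (ps α κ) ^ p ^ r * w ∈ IS (InP fun i => bk α i) (p ^ r - 1)) →
      ∃ w, u - moore F n t' ^ p ^ r * w ∈ IS (InP fun i => bk α i) (p ^ r - 1) := by
    rintro κ hκ t' h1 h2 h3 h4 ⟨w, hw⟩
    obtain ⟨w', hw'⟩ := weak (K := AlgebraicClosure F) p r hs (bk_mono hn)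
      (fun i => (bk_lt_iff (hn ▸ i.2 : (i : ℕ) < ps α l) κ).symm) h1 (hn ▸ ps_mono α hκ) h2 h3
      (dvd_mul_right _ w) fun y hy => link p r hn hκ hs.le (fun β hA hβ => by
        have := hA.Ps_IS p r hs.le hw
        rwa [map_sub, hu β κ hA hβ, zero_sub, neg_eq_zero] at this) y fun h => h4 h ▸ hy
    exact ⟨w', by simpa using Submodule.add_mem _ hw hw'⟩
  have key : ∀ κ ≤ l, ∃ w, u - moore F n (ps α κ) ^ p ^ r * w ∈
      IS (InP fun i => bk α i) (p ^ r - 1) := by
    intro κ
    induction κ with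
    | zero => exact fun _ => ⟨u, by simp [moore_zero]⟩
    | succ κ ih =>
      intro hκ
      exact step κ (by omega) _ (fun i => by
        rw [← bk_lt_iff (hn ▸ i.2 : (i : ℕ) < ps α l), Nat.lt_succ_iff])
        (ps_mono α (Nat.le_succ κ)) (Or.inl (hn ▸ ps_mono α hκ)) (fun _ => rfl) (ih (by omega))
  obtain ⟨w, hw⟩ := step l le_rfl (n + 1) (fun i => iff_of_true (by omega)
    (bk_spec (hn ▸ i.2 : (i : ℕ) < ps α l)).1.le) (by omega) (Or.inr hn.symm)
    (fun h => absurd h (lt_irrefl _)) (key l le_rfl)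
  rwa [moore_eq_zero (Nat.lt_succ_self n), zero_pow hN.ne', zero_mul, sub_zero] at hw

end Pool.Agent.Work.MP_a1538a_al.Par

/-!
Hilbert series of parabolic invariants modulo an arbitrary Frobenius power.
-/

set_option autoImplicit false

namespace Pool.Agent.Work.MP_a1538a_al.Par

open Finset MvPolynomial Hedge Module

lemma tri_abs {F S ι : Type*} [Field F] [AddCommGroup S] [Module F S] [Fintype ι]
    {T Z : ι → Type*} [∀ β, AddCommGroup (T β)] [∀ β, Module F (T β)] [∀ β, AddCommGroup (Z β)]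
    [∀ β, Module F (Z β)] (rk : ι → ℕ) (Ψ : ∀ β, S →ₗ[F] Z β) (θ : ∀ β, T β →ₗ[F] Z β)
    (Λ : ∀ β, T β → S) (h1 : ∀ β P, Ψ β (Λ β P) = θ β P)
    (h2 : ∀ β β', β ≠ β' → ¬ rk β < rk β' → ∀ P, Ψ β' (Λ β P) = 0) (A : Submodule F S)
    (C : ∀ β, Submodule F (T β)) (hA : ∀ u ∈ A, ∀ β, ∃ P ∈ C β, θ β P = Ψ β u)
    (hC : ∀ β, ∀ P ∈ C β, Λ β P ∈ A) (y : ∀ β, T β) (hy : ∀ β, y β ∈ C β) :
    ∃ u ∈ A, ∀ β, Ψ β u = θ β (y β) := by
  classical
  have key : ∀ k, ∃ u ∈ A, ∀ β, rk β < k → Ψ β u = θ β (y β) := by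
    intro k
    induction k with
    | zero => exact ⟨0, A.zero_mem, fun β h => absurd h (by omega)⟩
    | succ k ih =>
      obtain ⟨u, hu, hu'⟩ := ih
      choose P hP hP' using hA u hu
      refine ⟨u + ∑ β ∈ univ.filter (fun β => rk β = k), Λ β (y β - P β), A.add_mem hu
        (A.sum_mem fun β _ => hC β _ ((C β).sub_mem (hy β) (hP β))), fun β hβ => ?_⟩
      rw [map_add, map_sum]
      by_cases hk : rk β = k
      · rw [Finset.sum_eq_single β, h1, map_sub, hP', add_sub_cancel]
        · exact fun β' h h' => h2 _ _ h' (by have := (Finset.mem_filter.mp h).2; omega) _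
        · simp [hk]
      · rw [hu' β (by omega), Finset.sum_eq_zero, add_zero]
        intro β' h
        have := (Finset.mem_filter.mp h).2
        exact h2 _ _ (by rintro rfl; omega) (by omega) _
  obtain ⟨u, hu, hu'⟩ := key (univ.sup rk + 1)
  exact ⟨u, hu, fun β => hu' β (Nat.lt_succ_of_le (Finset.le_sup (mem_univ β)))⟩

section Comb

variable {n l κ : ℕ} {α β : ℕ → ℕ}

/-- Extension by zero. -/
def exN (β : Fin l → ℕ) (k : ℕ) : ℕ := if h : k < l then β ⟨k, h⟩ else 0

lemma exN_coe (β : Fin l → ℕ) (k : Fin l) : exN β k = β k := dif_pos k.2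

lemma ps_exN (β : Fin l → ℕ) (k : ℕ) :
    ps (exN β) k = ∑ i ∈ univ.filter (fun i : Fin l => (i : ℕ) < k), β i := by
  have h1 : ∀ j, exN β j = ∑ i : Fin l, if (i : ℕ) = j then β i else 0 := by
    intro j
    unfold exN
    split_ifs with h
    · rw [Finset.sum_eq_single ⟨j, h⟩, if_pos rfl]
      · exact fun i _ hi => if_neg fun e => hi (Fin.ext e)
      · simp
    · exact (Finset.sum_eq_zero fun i _ => if_neg (by omega)).symm
  simp only [ps, h1]
  rw [Finset.sum_comm, Finset.sum_filter]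
  simp

/-- The number of initial full blocks. -/
noncomputable def kap (l : ℕ) (α β : ℕ → ℕ) : ℕ := sInf {k | l ≤ k ∨ β k ≠ α k}

lemma lt_kap_iff (k : ℕ) : k < kap l α β ↔ k < l ∧ ∀ j ≤ k, β j = α j := by
  constructor
  · intro h
    have h1 := fun j (hj : j ≤ k) => Nat.notMem_of_lt_sInf (hj.trans_lt h)
    simp only [Set.mem_ofPred_eq, not_or, not_le, not_not] at h1
    exact ⟨(h1 k le_rfl).1, fun j hj => (h1 j hj).2⟩
  · rintro ⟨h1, h2⟩
    by_contra h
    rcases Nat.sInf_mem (s := {k | l ≤ k ∨ β k ≠ α k}) ⟨l, Or.inl le_rfl⟩ with h3 | h3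
    · exact absurd h3 (by unfold kap at h; omega)
    · exact h3 (h2 _ (not_lt.mp h))

lemma Adm.kap_eq (h : Adm n l α β κ) (h' : κ = l ∨ β κ ≠ α κ) : kap l α β = κ := by
  refine le_antisymm (Nat.sInf_le (h'.imp_left Eq.ge)) (not_lt.mp fun h1 => ?_)
  exact lt_irrefl _ ((lt_kap_iff _).mpr ⟨h1.trans_le h.kl, fun j hj => h.full j (by omega)⟩)

lemma sum_bk (γ : ℕ → ℕ) (l : ℕ) (f : ℕ → ℕ) :
    ∑ j ∈ range (ps γ l), f (bk γ j) = ∑ k ∈ range l, γ k * f k := by
  rw [sum_blocks]
  refine Finset.sum_congr rfl fun k _ => ?_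
  rw [Finset.sum_congr rfl fun i hi => by rw [bk_add (Finset.mem_range.mp hi)]]
  simp

lemma Adm.degree (h : Adm n l α β κ) {q s m : ℕ} (hq : 0 < q) (hs : 0 < s) (hm : ps β l ≤ m) :
    n * (s * q ^ m - 1) + ∑ j : Fin (ps β l), cw s (ps β κ) j * wT q β j =
      sg q s (ps β κ) n α β + s * ∑ k ∈ range l, (α k - β k) * (q ^ m - q ^ ps β (k + 1)) +
        ∑ j : Fin (ps β l), s * (q ^ m - q ^ (j : ℕ)) := by
  have h0 : ∀ k, q ^ ps β k ≤ q ^ m := fun k => Nat.pow_le_pow_right hq ((h.ps_le k).trans hm)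
  have h1 := h.sg_add hq hs
  have h2 : ∑ j : Fin (ps β l), cw s (ps β κ) j * wT q β j +
      (s - 1) * ∑ j ∈ range (ps β κ), wT q β j = s * ∑ j : Fin (ps β l), wT q β j := by
    rw [Finset.mul_sum, ← sum_ite_fin (h.ps_le κ), ← Finset.sum_add_distrib, Finset.mul_sum]
    refine Finset.sum_congr rfl fun j _ => ?_
    unfold cw
    split_ifs
    · rw [← add_mul]; congr 1; omega
    · rfl
  have h3 : ∑ j : Fin (ps β l), (q ^ m - q ^ (j : ℕ)) = ∑ j : Fin (ps β l), wT q β j +
      ∑ k ∈ range l, β k * (q ^ m - q ^ ps β (k + 1)) := by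
    rw [← sum_bk β l (fun k => q ^ m - q ^ ps β (k + 1)), ← Fin.sum_univ_eq_sum_range
      (fun j => q ^ m - q ^ ps β (bk β j + 1)), ← Finset.sum_add_distrib]
    refine Finset.sum_congr rfl fun j _ => ?_
    have := h0 (bk β j + 1)
    have := Nat.pow_le_pow_right hq (bk_spec j.2).2.2.le
    unfold wT
    omega
  have h4 : n * (s * q ^ m - 1) = ∑ i, (s * q ^ Bf n α β i - 1) +
      s * ∑ k ∈ range l, α k * (q ^ m - q ^ ps β (k + 1)) := by
    rw [← sum_bk α l (fun k => q ^ m - q ^ ps β (k + 1)), ← h.hn, ← Fin.sum_univ_eq_sum_range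
      (fun j => q ^ m - q ^ ps β (bk α j + 1)), Finset.mul_sum, ← Finset.sum_add_distrib,
      show n * (s * q ^ m - 1) = ∑ _i : Fin n, (s * q ^ m - 1) by simp]
    refine Finset.sum_congr rfl fun i _ => ?_
    have := Nat.mul_le_mul_left s (h0 (bk α i + 1))
    have := Nat.mul_pos hs (pow_pos hq (ps β (bk α i + 1)))
    rw [Nat.mul_sub, Bf]
    omega
  have h5 : ∑ k ∈ range l, α k * (q ^ m - q ^ ps β (k + 1)) =
      ∑ k ∈ range l, (α k - β k) * (q ^ m - q ^ ps β (k + 1)) +
        ∑ k ∈ range l, β k * (q ^ m - q ^ ps β (k + 1)) := by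
    rw [← Finset.sum_add_distrib]
    exact Finset.sum_congr rfl fun k _ => by rw [← add_mul, Nat.sub_add_cancel (h.le k)]
  rw [← Finset.mul_sum, h3, h4, h5, mul_add, mul_add]
  omega

end Comb

variable {F : Type*} [Field F] [Fintype F] {n l : ℕ}

section Dual

variable (F) in
/-- Homogeneous polynomials that are invariant modulo the `N`-th powers of the variables. -/
noncomputable def WG (G : Matrix (Fin n) (Fin n) F → Prop) (N d : ℕ) :
    Submodule F (MvPolynomial (Fin n) F) where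
  carrier := {u | u.IsWeightedHomogeneous (1 : Fin n → ℕ) d ∧
    ∀ g : Matrix.GeneralLinearGroup (Fin n) F, G g.val → act g.val u - u ∈ JN F n N}
  zero_mem' := ⟨isWeightedHomogeneous_zero _ _ _, by simp⟩
  add_mem' := fun ha hb => ⟨ha.1.add hb.1, fun g hg => by
    rw [map_add, add_sub_add_comm]; exact Ideal.add_mem _ (ha.2 g hg) (hb.2 g hg)⟩
  smul_mem' := fun c u hu => ⟨(weightedHomogeneousSubmodule F _ _).smul_mem c hu.1, fun g hg => by
    rw [map_smul, ← smul_sub, smul_eq_C_mul]; exact Ideal.mul_mem_left _ _ (hu.2 g hg)⟩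

omit [Fintype F] in
lemma finrank_WG_of_lt {G : Matrix (Fin n) (Fin n) F → Prop} {N d : ℕ} (h : n * (N - 1) < d) :
    finrank F ((WG F G N d).map (Ideal.Quotient.mkₐ F (JN F n N)).toLinearMap) = 0 := by
  have : (WG F G N d).map (Ideal.Quotient.mkₐ F (JN F n N)).toLinearMap = ⊥ := by
    rw [eq_bot_iff]
    rintro _ ⟨u, hu, rfl⟩
    exact Ideal.Quotient.eq_zero_iff_mem.mpr
      (mem_JN_of_pairing hu.1 fun _ _ h' => absurd h' (by omega))
  rw [this]; simp

omit [Fintype F] in
lemma finrank_WG_of_le {G : Matrix (Fin n) (Fin n) F → Prop} {N a d : ℕ} (hN : 0 < N)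
    (h : d ≤ n * (N - 1))
    (hdet : ∀ (g : Matrix.GeneralLinearGroup (Fin n) F) (W : MvPolynomial (Fin n) F),
      coeff (top n (N - 1)) (act g.val W) = g.val.det ^ a * coeff (top n (N - 1)) W)
    {V : Type*} [AddCommGroup V] [Module F V] (T : MvPolynomial (Fin n) F →ₗ[F] V)
    (hT : ∀ u, T u = 0 ↔ u ∈ (JN F n N).restrictScalars F ⊔ IS G a) :
    finrank F ((WG F G N d).map (Ideal.Quotient.mkₐ F (JN F n N)).toLinearMap) =
      finrank F ((weightedHomogeneousSubmodule F (1 : Fin n → ℕ) (n * (N - 1) - d)).map T) := by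
  set e := n * (N - 1) - d with he
  set Sd := weightedHomogeneousSubmodule F (1 : Fin n → ℕ) d with hSd
  set Se := weightedHomogeneousSubmodule F (1 : Fin n → ℕ) e with hSe
  have : FiniteDimensional F Sd := finite_WH (by simp) _
  have : FiniteDimensional F Se := finite_WH (by simp) _
  let B : Se →ₗ[F] Sd →ₗ[F] F :=
    ((LinearMap.mul F (MvPolynomial (Fin n) F)).compr₂
      (lcoeff F (top n (N - 1)))).compl₁₂ Se.subtype Sd.subtype
  have hB : ∀ (v : Se) (u : Sd),
      B v u = coeff (top n (N - 1)) (u.1 * v.1) := fun v u => by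
    simp [B, mul_comm]
  have hkey : ∀ (g : Matrix.GeneralLinearGroup (Fin n) F) (u v : MvPolynomial (Fin n) F),
      coeff (top n (N - 1)) (u * (act g.val v - g.val.det ^ a • v)) =
        - coeff (top n (N - 1)) ((act g.val u - u) * act g.val v) := by
    intro g u v
    rw [mul_sub, sub_mul, ← map_mul, coeff_sub, coeff_sub, hdet, mul_smul_comm, coeff_smul,
      smul_eq_mul, neg_sub]
  let K : Submodule F Se := LinearMap.ker (T.domRestrict Se)
  have hK : ∀ v : Se, v ∈ K ↔ v.1 ∈ (JN F n N).restrictScalars F ⊔ IS G a := fun v => hT v.1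
  have h1 : WG F G N d = ((WG F G N d).comap Sd.subtype).map Sd.subtype := by
    rw [Submodule.map_comap_subtype, eq_comm, inf_eq_right]
    exact fun u hu => hu.1
  have h2 : ((WG F G N d).comap Sd.subtype).map B.flip = K.dualAnnihilator := by
    apply le_antisymm
    · rintro _ ⟨u, hu, rfl⟩
      rw [Submodule.mem_dualAnnihilator]
      intro v hv
      obtain ⟨x, hx, b, hb, hab⟩ := Submodule.mem_sup.mp ((hK v).mp hv)
      rw [LinearMap.flip_apply, hB, ← hab, mul_add, coeff_add,
        coeff_top_of_mem_JN hN (Ideal.mul_mem_left _ _ hx), zero_add]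
      clear hab
      induction hb using Submodule.span_induction with
      | zero => simp
      | add x y _ _ hx hy => rw [mul_add, coeff_add, hx, hy, add_zero]
      | smul a x _ hx => rw [mul_smul_comm, coeff_smul, hx, smul_zero]
      | mem x hx =>
        obtain ⟨g, w, hg, rfl⟩ := hx
        rw [hkey, neg_eq_zero]
        exact coeff_top_of_mem_JN hN (Ideal.mul_mem_right _ _ (hu.2 g hg))
    · intro φ hφ
      have h3 : φ ∈ (LinearMap.ker B).dualAnnihilator := by
        refine Submodule.dualAnnihilator_anti (fun v hv => ?_) hφ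
        rw [hK]
        refine Submodule.mem_sup_left (mem_JN_of_pairing v.2 fun u hu _ => ?_)
        have h4 : n * (N - 1) - e = d := by omega
        rw [h4] at hu
        have := hB v ⟨u, hu⟩
        rw [LinearMap.mem_ker.mp hv] at this
        rw [mul_comm]
        exact this.symm
      rw [LinearMap.dualAnnihilator_ker_eq_range_flip] at h3
      obtain ⟨u, rfl⟩ := h3
      refine ⟨u, ⟨u.2, fun g hg => ?_⟩, rfl⟩
      refine mem_JN_of_pairing ((isWH_act _ u.2).sub u.2) fun v hv _ => ?_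
      rw [Submodule.mem_dualAnnihilator] at hφ
      have hv' := isWH_act (g⁻¹).val hv
      have h4 := hφ ⟨act g.val (act (g⁻¹).val v) - g.val.det ^ a • act (g⁻¹).val v,
        Se.sub_mem (isWH_act _ hv') (Se.smul_mem _ hv')⟩
        ((hK _).mpr (Submodule.mem_sup_right (act_sub_mem_IS _ _ hg _)))
      rw [LinearMap.flip_apply, hB, hkey, neg_eq_zero, act_act] at h4
      simpa using h4
  have h3 := Subspace.finrank_add_finrank_dualAnnihilator_eq K
  have h4 := LinearMap.finrank_range_add_finrank_ker (T.domRestrict Se)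
  rw [LinearMap.range_domRestrict] at h4
  rw [h1, ← Submodule.map_comp, finrank_map_eq_of_ker _ B.flip, h2]
  · change _ + finrank F K = _ at h4
    rw [← h3, add_comm] at h4
    exact (Nat.add_left_cancel h4).symm
  · intro u _
    simp only [LinearMap.comp_apply, AlgHom.toLinearMap_apply, Ideal.Quotient.mkₐ_eq_mk,
      Ideal.Quotient.eq_zero_iff_mem, Submodule.subtype_apply]
    constructor
    · intro hu
      ext v
      rw [LinearMap.flip_apply, hB]
      exact coeff_top_of_mem_JN hN (Ideal.mul_mem_right _ _ hu)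
    · intro hu
      refine mem_JN_of_pairing u.2 fun v hv _ => ?_
      rw [← hB ⟨v, hv⟩ u, ← LinearMap.flip_apply, hu]
      rfl

end Dual

/-- Sub-compositions. -/
abbrev Sub (α : Fin l → ℕ) : Type := Fintype.piFinset fun i : Fin l => range (α i + 1)

lemma adm_sub {α : Fin l → ℕ} (hn : n = ps (exN α) l) (β : Sub α) :
    Adm n l (exN α) (exN β.1) (kap l (exN α) (exN β.1)) := by
  refine ⟨hn, fun k => ?_, fun k hk => dif_neg (by omega),
    fun k hk => ((lt_kap_iff k).mp hk).2 k le_rfl, Nat.sInf_le (Or.inl le_rfl)⟩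
  unfold exN
  split_ifs with h
  · exact Nat.lt_succ_iff.mp (Finset.mem_range.mp (Fintype.mem_piFinset.mp β.2 _))
  · rfl

variable (F n) in
/-- The residue map of a sub-composition, in the splitting ring. -/
noncomputable def PsB (s : ℕ) {α : Fin l → ℕ} (β : Sub α) :
    MvPolynomial (Fin n) F →ₗ[F] MvPolynomial (Fin (ps (exN β.1) l)) F :=
  Ps F n (exN α) (exN β.1) s (ps (exN β.1) (kap l (exN α) (exN β.1))) (ext0 X)

variable (F) in
/-- The embedding of the coefficient ring into the splitting ring. -/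
noncomputable def thB (s : ℕ) {α : Fin l → ℕ} (β : Sub α) :
    MvPolynomial (Fin (ps (exN β.1) l)) F →ₗ[F] MvPolynomial (Fin (ps (exN β.1) l)) F :=
  (aeval (th (Fintype.card F) s (ps (exN β.1) (kap l (exN α) (exN β.1))) (exN β.1) (ext0 X)
    (ps (exN β.1) l))).toLinearMap

variable (F n) in
/-- All residue maps together, modulo the remainders. -/
noncomputable def TT (s m : ℕ) (α : Fin l → ℕ) : MvPolynomial (Fin n) F →ₗ[F]
    ∀ β : Sub α, MvPolynomial (Fin (ps (exN β.1) l)) F ⧸
      Ideal.span (Set.range (rS F s (ps (exN β.1) l) m)) :=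
  LinearMap.pi fun β => (Ideal.Quotient.mkₐ F _).toLinearMap.comp (PsB F n s β)

variable (p : ℕ) [Fact p.Prime] [CharP F p] (r : ℕ) {α : Fin l → ℕ}

lemma exists_lift (hn : n = ps (exN α) l) (hs : p ^ r < Fintype.card F)
    (A : Submodule F (MvPolynomial (Fin n) F))
    (C : ∀ β : Sub α, Submodule F (MvPolynomial (Fin (ps (exN β.1) l)) F))
    (hA : ∀ u ∈ A, ∀ β, ∃ P ∈ C β, thB F (p ^ r) β P = PsB F n (p ^ r) β u)
    (hC : ∀ β, ∀ P ∈ C β, Sc F n (exN α) (exN β.1) (p ^ r) (kap l (exN α) (exN β.1)) l P ∈ A)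
    (y : ∀ β : Sub α, MvPolynomial (Fin (ps (exN β.1) l)) F) (hy : ∀ β, y β ∈ C β) :
    ∃ u ∈ A, ∀ β, PsB F n (p ^ r) β u = thB F (p ^ r) β (y β) := by
  refine tri_abs (fun β : Sub α => ∑ k ∈ range (l + 1), ps (exN β.1) k) _ _ _
    (fun β P => (adm_sub hn β).Ps_Sc p r hs _ P) (fun β β' hne hlt P => ?_) A C hA hC y hy
  by_contra hc
  have h1 : ∀ k ∈ range (l + 1), ps (exN β.1) k ≤ ps (exN β'.1) k := fun k hk =>
    not_lt.mp fun h => hc ((adm_sub hn β).Ps_of_lt p r _ _ _
      (Nat.lt_succ_iff.mp (Finset.mem_range.mp hk)) h _)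
  have h2 := (Finset.sum_eq_sum_iff_of_le h1).mp
    (le_antisymm (Finset.sum_le_sum h1) (not_lt.mp hlt))
  refine hne (Subtype.ext (funext fun i => ?_))
  have h3 := h2 i (Finset.mem_range.mpr (by omega))
  have h4 := h2 (i + 1) (Finset.mem_range.mpr (by omega))
  rw [ps_succ, ps_succ, exN_coe, exN_coe] at h4
  omega

theorem TT_eq_zero_iff (hn : n = ps (exN α) l) (hs : p ^ r < Fintype.card F) (m : ℕ)
    (u : MvPolynomial (Fin n) F) : TT F n (p ^ r) m α u = 0 ↔
      u ∈ (JN F n (p ^ r * Fintype.card F ^ m)).restrictScalars F ⊔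
        IS (InP fun i => bk (exN α) i) (p ^ r - 1) := by
  have h0 : TT F n (p ^ r) m α u = 0 ↔ ∀ β : Sub α, PsB F n (p ^ r) β u ∈
      Ideal.span (Set.range (rS F (p ^ r) (ps (exN β.1) l) m)) := by
    simp only [TT, funext_iff, LinearMap.pi_apply, LinearMap.comp_apply,
      AlgHom.toLinearMap_apply, Ideal.Quotient.mkₐ_eq_mk, Pi.zero_apply,
      Ideal.Quotient.eq_zero_iff_mem]
  have h1 : ∀ (β : Sub α) u, ∃ P, thB F (p ^ r) β P = PsB F n (p ^ r) β u :=
    fun β u => (adm_sub hn β).Ps_mem_range p r _ u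
  have h2 : ∀ (β : Sub α), ∀ v ∈ JN F n (p ^ r * Fintype.card F ^ m), PsB F n (p ^ r) β v ∈
      Ideal.span (Set.range (rS F (p ^ r) (ps (exN β.1) l) m)) :=
    fun β v hv => (adm_sub hn β).Ps_JN p r _ m _ hv
  have h4 : ∀ (β : Sub α) P, thB F (p ^ r) β P ∈ Ideal.span (Set.range (rS F (p ^ r)
      (ps (exN β.1) l) m)) → P ∈ RI F (p ^ r) (ps (exN β.1) (kap l (exN α) (exN β.1))) (exN β.1)
        (ps (exN β.1) l) m := fun β P h => h
  rw [h0]
  constructor
  · intro h
    choose y hy using fun β => h1 β u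
    obtain ⟨v, hv, hv'⟩ := exists_lift p r hn hs
      ((JN F n (p ^ r * Fintype.card F ^ m)).restrictScalars F)
      (fun β => (RI F (p ^ r) (ps (exN β.1) (kap l (exN α) (exN β.1))) (exN β.1) _
        m).restrictScalars F) (fun v hv β => by
        obtain ⟨P, hP⟩ := h1 β v
        exact ⟨P, h4 β P (hP ▸ h2 β v hv), hP⟩)
      (fun β P hP => Sc_mem_JN p r hP) y
      (fun β => h4 β _ (hy β ▸ h β))
    have h3 := mem_IS_of_Ps p r hn hs (u := u - v) fun β κ hA hβ => by
      obtain ⟨β', rfl⟩ : ∃ β' : Sub α, exN β'.1 = β := ⟨⟨fun i => β i,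
        Fintype.mem_piFinset.mpr fun i => Finset.mem_range.mpr
          (Nat.lt_succ_of_le (exN_coe α i ▸ hA.le i))⟩, funext fun k => by
        unfold exN
        split_ifs with hk
        · rfl
        · exact (hA.zero k (by omega)).symm⟩
      rw [← hA.kap_eq hβ, map_sub]
      exact sub_eq_zero.mpr ((hy β').symm.trans (hv' β').symm)
    simpa using Submodule.add_mem_sup hv h3
  · intro h β
    obtain ⟨v, hv, w, hw, rfl⟩ := Submodule.mem_sup.mp h
    rw [map_add, show PsB F n (p ^ r) β w = 0 from (adm_sub hn β).Ps_IS p r hs.le hw, add_zero]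
    exact h2 β v hv

variable (F) in
/-- Weights of the coefficient ring. -/
noncomputable def wB (s : ℕ) (β : Sub α) (j : Fin (ps (exN β.1) l)) : ℕ :=
  cw s (ps (exN β.1) (kap l (exN α) (exN β.1))) j * wT (Fintype.card F) (exN β.1) j

lemma wB_ne {s : ℕ} (hs : 0 < s) (β : Sub α) (j : Fin (ps (exN β.1) l)) : wB F s β j ≠ 0 :=
  Nat.mul_ne_zero (by unfold cw; split_ifs <;> omega)
    (Nat.sub_ne_zero_of_lt (Nat.pow_lt_pow_right (one_lt_q F) (bk_spec j.2).2.2))

theorem finrank_map_TT (hn : n = ps (exN α) l) (hs : p ^ r < Fintype.card F) (m e : ℕ) :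
    finrank F ((weightedHomogeneousSubmodule F (1 : Fin n → ℕ) e).map (TT F n (p ^ r) m α)) =
      ∑ β : Sub α, if sg (Fintype.card F) (p ^ r) (ps (exN β.1) (kap l (exN α) (exN β.1))) n
          (exN α) (exN β.1) ≤ e then
        hf (wB F (p ^ r) β) (RI F (p ^ r) (ps (exN β.1) (kap l (exN α) (exN β.1))) (exN β.1) _ m)
          (e - sg (Fintype.card F) (p ^ r) (ps (exN β.1) (kap l (exN α) (exN β.1))) n
            (exN α) (exN β.1)) else 0 := by
  have hN : 0 < p ^ r := pow_pos (Fact.out : p.Prime).pos r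
  let C := fun β : Sub α => Csh F (wB F (p ^ r) β) (sg (Fintype.card F) (p ^ r)
    (ps (exN β.1) (kap l (exN α) (exN β.1))) n (exN α) (exN β.1)) e
  have hA : ∀ u ∈ weightedHomogeneousSubmodule F (1 : Fin n → ℕ) e, ∀ β : Sub α,
      ∃ P ∈ C β, thB F (p ^ r) β P = PsB F n (p ^ r) β u := by
    intro u hu β
    rcases mem_Csh.mp ((adm_sub hn β).Ps_mem_Csh p r (ps (exN β.1) l) hu) with ⟨h1, h2⟩ | h0
    · obtain ⟨P, hP⟩ := (adm_sub hn β).Ps_mem_range p r
        (ext0 (X : Fin (ps (exN β.1) l) → MvPolynomial _ F)) u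
      refine ⟨_, mem_Csh.mpr (Or.inl ⟨h1, weightedHomogeneousComponent_mem _ P _⟩), ?_⟩
      refine (comp_aeval (w' := wZ F _) (fun j =>
        (isWH_bc (one_lt_q F) (isWH_zZ _) j.2).pow _) P _).symm.trans ?_
      exact (congrArg _ hP).trans (weightedHomogeneousComponent_eq_self h2)
    · exact ⟨0, Submodule.zero_mem _, (map_zero _).trans h0.symm⟩
  have h1 : (weightedHomogeneousSubmodule F (1 : Fin n → ℕ) e).map (TT F n (p ^ r) m α) =
      Submodule.pi Set.univ fun β : Sub α => (C β).map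
        ((Ideal.Quotient.mkₐ F _).toLinearMap.comp (thB F (p ^ r) β)) := by
    apply le_antisymm
    · rintro _ ⟨u, hu, rfl⟩ β _
      obtain ⟨P, hP, hP'⟩ := hA u hu β
      exact ⟨P, hP, congrArg (Ideal.Quotient.mk _) hP'⟩
    · intro y hy
      choose P hP hP' using fun β => hy β trivial
      obtain ⟨u, hu, hu'⟩ := exists_lift p r hn hs _ C hA
        (fun β P hP => (adm_sub hn β).Sc_mem hN hs hP) P hP
      exact ⟨u, hu, funext fun β => (congrArg (Ideal.Quotient.mk _) (hu' β)).trans (hP' β)⟩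
  have : ∀ β, FiniteDimensional F (C β) := fun β => finite_Csh (wB_ne hN β) _ e
  rw [h1, finrank_pi_sub]
  refine Finset.sum_congr rfl fun β _ => ?_
  rw [← finrank_map_Csh]
  refine finrank_map_eq_of_ker _ _ _ fun x _ => ?_
  simp only [LinearMap.comp_apply, AlgHom.toLinearMap_apply, Ideal.Quotient.mkₐ_eq_mk,
    Ideal.Quotient.eq_zero_iff_mem]
  rfl

omit [Fact p.Prime] [CharP F p] in
theorem hilbert_series_par (hn : n = ps (exN α) l) {s : ℕ} (hs : s ∣ Fintype.card F)
    (hs' : s < Fintype.card F) (m : ℕ) :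
    PowerSeries.mk (fun d : ℕ =>
      ((finrank F ((WG F (InP fun i : Fin n => bk (exN α) i) (s * Fintype.card F ^ m) d).map
        (Ideal.Quotient.mkₐ F (JN F n (s * Fintype.card F ^ m))).toLinearMap) : ℕ) : ℚ)) =
    ∑ β ∈ (Fintype.piFinset (fun i : Fin l => range (α i + 1))).filter (fun β => ∑ i, β i ≤ m),
      (PowerSeries.X : PowerSeries ℚ) ^ (s * ∑ i : Fin l, (α i - β i) *
          (Fintype.card F ^ m - Fintype.card F ^ ps (exN β) (i + 1))) *
        ((∏ j ∈ range (∑ i, β i), (1 - (PowerSeries.X : PowerSeries ℚ) ^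
            (s * (Fintype.card F ^ m - Fintype.card F ^ j)))) *
          ∏ i : Fin l, ∏ j ∈ range (β i), (1 - (PowerSeries.X : PowerSeries ℚ) ^
            ((if ∀ k ≤ i, β k = α k then 1 else s) * (Fintype.card F ^ ps (exN β) (i + 1) -
              Fintype.card F ^ (ps (exN β) i + j))))⁻¹) := by
  obtain ⟨p, hp, f, hp', hq⟩ := FiniteField.card' F
  have : Fact p.Prime := ⟨hp'⟩
  obtain ⟨r, -, rfl⟩ := (Nat.dvd_prime_pow hp').mp (hq ▸ hs)
  have hN : 0 < p ^ r := pow_pos hp'.pos r
  have hN' : 0 < p ^ r * Fintype.card F ^ m := Nat.mul_pos hN (pow_pos Fintype.card_pos _)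
  have hdet : ∀ (g : Matrix.GeneralLinearGroup (Fin n) F) (W : MvPolynomial (Fin n) F),
      coeff (top n (p ^ r * Fintype.card F ^ m - 1)) (act g.val W) =
        g.val.det ^ (p ^ r - 1) * coeff (top n (p ^ r * Fintype.card F ^ m - 1)) W := by
    intro g W
    rw [← det_pow_mul_pow hN m g.det_ne_zero,
      show p ^ r * Fintype.card F ^ m = p ^ (r + f * m) by rw [hq, pow_add, pow_mul]]
    exact coeff_top_act_det p _ _ _
  set T := n * (p ^ r * Fintype.card F ^ m - 1) with hT
  ext d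
  have h1 : ((finrank F ((WG F (InP fun i : Fin n => bk (exN α) i)
      (p ^ r * Fintype.card F ^ m) d).map
      (Ideal.Quotient.mkₐ F (JN F n (p ^ r * Fintype.card F ^ m))).toLinearMap) : ℕ) : ℚ) =
      ∑ β : Sub α, if d ≤ T then (if sg (Fintype.card F) (p ^ r)
        (ps (exN β.1) (kap l (exN α) (exN β.1))) n (exN α) (exN β.1) ≤ T - d then
        (hf (wB F (p ^ r) β) (RI F (p ^ r) (ps (exN β.1) (kap l (exN α) (exN β.1))) (exN β.1) _ m)
          (T - d - sg (Fintype.card F) (p ^ r) (ps (exN β.1) (kap l (exN α) (exN β.1))) n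
            (exN α) (exN β.1)) : ℚ) else 0) else 0 := by
    by_cases h : d ≤ T
    · rw [finrank_WG_of_le hN' h hdet _ (TT_eq_zero_iff p r hn hs' m), finrank_map_TT p r hn hs']
      simp only [if_pos h]
      push_cast
      rfl
    · rw [finrank_WG_of_lt (by omega)]
      simp [if_neg h]
  rw [PowerSeries.coeff_mk, h1, map_sum, Finset.sum_filter, ← Finset.sum_coe_sort
    (Fintype.piFinset (fun i : Fin l => range (α i + 1)))]
  refine Finset.sum_congr rfl fun β _ => ?_
  have h2 : ps (exN β.1) l = ∑ i, β.1 i := by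
    rw [ps_exN, Finset.filter_true_of_mem fun i _ => i.2]
  rw [← h2]
  by_cases hm : ps (exN β.1) l ≤ m
  · obtain ⟨H, h3, h4⟩ := exists_polyP (F := F) p r (exN β.1) (kap l (exN α) (exN β.1)) l hm
    rw [if_pos hm]
    refine Eq.trans ?_ ((flip_coeff (wB_ne hN β) (fun i => Nat.mul_ne_zero hN.ne' (wC_ne F hm i))
      h4 ((adm_sub hn β).degree Fintype.card_pos hN hm) d).trans ?_)
    · rw [h3]; rfl
    · rw [Finset.prod_mul_distrib, ← Fin.sum_univ_eq_sum_range (fun k => (exN α k - exN β.1 k) *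
        (Fintype.card F ^ m - Fintype.card F ^ ps (exN β.1) (k + 1)))]
      simp only [exN_coe]
      congr 3
      · exact Fin.prod_univ_eq_prod_range (fun j => 1 - (PowerSeries.X : PowerSeries ℚ) ^
          (p ^ r * (Fintype.card F ^ m - Fintype.card F ^ j))) _
      · refine (Fin.prod_univ_eq_prod_range (fun j => (1 - (PowerSeries.X : PowerSeries ℚ) ^
          (cw (p ^ r) (ps (exN β.1) (kap l (exN α) (exN β.1))) j *
            wT (Fintype.card F) (exN β.1) j))⁻¹) _).trans ?_
        rw [prod_blocks, Finset.prod_range]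
        refine Finset.prod_congr rfl fun i _ => Finset.prod_congr (by rw [exN_coe])
          fun j hj => ?_
        have h5 : j < exN β.1 i := by rw [exN_coe]; exact Finset.mem_range.mp hj
        have h6 : ps (exN β.1) i + j < ps (exN β.1) l :=
          lt_of_lt_of_le (by rw [ps_succ]; omega) (ps_mono _ (show (i : ℕ) + 1 ≤ l from i.2))
        have h7 : (ps (exN β.1) i + j < ps (exN β.1) (kap l (exN α) (exN β.1))) ↔
            ∀ k ≤ i, β.1 k = α k := by
          rw [← bk_lt_iff h6, bk_add h5, lt_kap_iff]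
          refine ⟨fun h k hk => by simpa only [exN_coe] using h.2 k hk, fun h => ⟨i.2,
            fun k hk => ?_⟩⟩
          simpa only [← exN_coe] using h ⟨k, hk.trans_lt i.2⟩ hk
        simp only [cw, h7, wT, bk_add h5]
  · have h3 : RI F (p ^ r) (ps (exN β.1) (kap l (exN α) (exN β.1))) (exN β.1)
        (ps (exN β.1) l) m = ⊤ := by
      have h4 : Ideal.span (Set.range (rS F (p ^ r) (ps (exN β.1) l) m)) = ⊤ :=
        (Ideal.eq_top_iff_one _).mpr (Ideal.subset_span ⟨⟨m, not_le.mp hm⟩, by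
          simp [rS, rem_of_lt Fintype.card_pos _ (not_le.mp hm)]⟩)
      rw [RI, h4, Ideal.comap_top]
    rw [if_neg hm, h3, hf_top]
    simp

lemma ps_exN_self (hn : ∑ i, α i = n) : n = ps (exN α) l := by
  rw [ps_exN, Finset.filter_true_of_mem fun i _ => i.2, hn]

omit [Fintype F] [Fact p.Prime] [CharP F p] in
lemma span_eq_WG (hn : ∑ i, α i = n) (N : ℕ) : (fun d => Submodule.span F
    {f : MvPolynomial (Fin n) F | f ∈ homogeneousSubmodule (Fin n) F d ∧
      ∀ M : Matrix (Fin n) (Fin n) F, IsUnit M.det → (∀ (i j : Fin n) (k : ℕ),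
        j.val < ∑ r ∈ univ.filter (fun r : Fin l => r.val < k), α r →
        ∑ r ∈ univ.filter (fun r : Fin l => r.val < k), α r ≤ i.val → M i j = 0) →
      aeval (fun j : Fin n => ∑ i : Fin n, (C (M i j) : MvPolynomial (Fin n) F) * X i) f - f ∈
        Ideal.span (Set.range fun i : Fin n => (X i : MvPolynomial (Fin n) F) ^ N)}) =
    WG F (InP fun i : Fin n => bk (exN α) i) N := by
  funext d
  refine Eq.trans (congrArg _ (Set.ext fun f => ?_)) (Submodule.span_eq _)
  refine and_congr Iff.rfl ?_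
  have h0 : ∀ (i : Fin n) k, bk (exN α) i < k ↔ _ := fun i k =>
    (bk_lt_iff (ps_exN_self hn ▸ i.2 : (i : ℕ) < ps (exN α) l) k).trans (by rw [ps_exN])
  have h1 : ∀ M : Matrix (Fin n) (Fin n) F, aeval (fun j : Fin n => ∑ i : Fin n,
      (C (M i j) : MvPolynomial (Fin n) F) * X i) f = act M.transpose f := fun M => by
    simp only [act, Matrix.transpose_apply, smul_eq_C_mul]
  simp only [h1, ← h0, ← not_lt]
  constructor
  · intro h g hg
    exact h g.val.transpose (by simpa using g.det_ne_zero) fun i j k h2 h3 =>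
      hg j i (h2.trans_le (not_lt.mp h3))
  · intro h M hM hM'
    exact h (Matrix.GeneralLinearGroup.mkOfDetNeZero M.transpose (by simpa using hM))
      fun i j hij => hM' j i _ hij (lt_irrefl _)

end Pool.Agent.Work.MP_a1538a_al.Par
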