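import Pool.Agent.Work.MP_a1538a_al.Dual


/-!
The ideal of `N`-th powers of the variables and the coefficient of the top monomial.
-/

set_option autoImplicit false

namespace Pool.Agent.Work.MP_a1538a_al.Hedge

open Finset MvPolynomial

section JN

variable {R : Type*} [CommRing R] {n : ℕ}

variable (R n) in
/-- The ideal generated by the `N`-th powers of the variables. -/
noncomputable def JN (N : ℕ) : Ideal (MvPolynomial (Fin n) R) :=
  Ideal.span (Set.range fun i : Fin n => (X i : MvPolynomial (Fin n) R) ^ N)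

lemma X_pow_mem_JN (N : ℕ) (i : Fin n) : (X i : MvPolynomial (Fin n) R) ^ N ∈ JN R n N :=
  Ideal.subset_span ⟨i, rfl⟩

lemma mem_JN_iff (N : ℕ) (u : MvPolynomial (Fin n) R) :
    u ∈ JN R n N ↔ ∀ α ∈ u.support, ∃ i, N ≤ α i := by
  have : (Set.range fun i : Fin n => (X i : MvPolynomial (Fin n) R) ^ N) =
      (fun s => monomial s (1 : R)) '' (Set.range fun i : Fin n => Finsupp.single i N) := by
    rw [← Set.range_comp]
    congr 1
    funext i
    simp [X_pow_eq_monomial]
  rw [JN, this, mem_ideal_span_monomial_image]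
  simp [Finsupp.single_le_iff]

lemma coeff_top_of_mem_JN {N : ℕ} (hN : 0 < N) {u : MvPolynomial (Fin n) R}
    (hu : u ∈ JN R n N) : coeff (top n (N - 1)) u = 0 := by
  by_contra h
  obtain ⟨i, hi⟩ := (mem_JN_iff N u).mp hu _ (mem_support_iff.mpr h)
  rw [top_apply] at hi
  omega

lemma monomial_mem_JN {N : ℕ} {α : Fin n →₀ ℕ} (a : R) {i : Fin n} (h : N ≤ α i) :
    monomial α a ∈ JN R n N := by
  classical
  rw [mem_JN_iff]
  intro β hβ
  have := support_monomial_subset hβ
  rw [Finset.mem_singleton] at this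
  exact ⟨i, this ▸ h⟩

lemma weight_top (N : ℕ) : Finsupp.weight (1 : Fin n → ℕ) (top n N) = n * N := by
  rw [weight_one]; simp

lemma eq_top_of_le {N : ℕ} {α : Fin n →₀ ℕ} (h : ∀ i, α i ≤ N) (hw : ∑ i, α i = n * N) :
    α = top n N := by
  ext i
  rw [top_apply]
  have h5 : ∑ l, α l = ∑ _l : Fin n, N := by rw [hw]; simp
  exact (Finset.sum_eq_sum_iff_of_le fun l _ => h l).mp h5 i (mem_univ i)

lemma eq_top_of_ge {N : ℕ} {α : Fin n →₀ ℕ} (h : ∀ i, N ≤ α i) (hw : ∑ i, α i = n * N) :
    α = top n N := by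
  ext i
  rw [top_apply]
  have h5 : ∑ _l : Fin n, N = ∑ l, α l := by rw [hw]; simp
  exact ((Finset.sum_eq_sum_iff_of_le fun l _ => h l).mp h5 i (mem_univ i)).symm

lemma monomial_top (N : ℕ) :
    (monomial (top n N) 1 : MvPolynomial (Fin n) R) = ∏ i, X i ^ N := by
  rw [monomial_eq, Finsupp.prod_fintype _ _ (by simp)]
  simp

lemma isWH_monomial_top (N : ℕ) :
    (monomial (top n N) 1 : MvPolynomial (Fin n) R).IsWeightedHomogeneous (1 : Fin n → ℕ)
      (n * N) :=
  isWeightedHomogeneous_monomial _ _ _ (weight_top N)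

/-- A homogeneous polynomial of the top degree is its top term modulo the ideal. -/
lemma sub_top_mem_JN {N : ℕ} (hN : 0 < N) {u : MvPolynomial (Fin n) R}
    (hu : u.IsWeightedHomogeneous (1 : Fin n → ℕ) (n * (N - 1))) :
    u - monomial (top n (N - 1)) (coeff (top n (N - 1)) u) ∈ JN R n N := by
  classical
  rw [mem_JN_iff]
  intro α hα
  by_contra hc
  push Not at hc
  have h1 := mem_support_iff.mp hα
  rw [coeff_sub, coeff_monomial] at h1
  by_cases h : top n (N - 1) = α
  · rw [if_pos h, h, sub_self] at h1; exact h1 rfl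
  · rw [if_neg h, sub_zero] at h1
    have h2 := hu h1
    rw [weight_one] at h2
    exact h (eq_top_of_le (fun i => by have := hc i; omega) h2).symm

variable (p : ℕ) [Fact p.Prime] (r : ℕ)

lemma pow_mem_span_pow {A : Type*} [CommRing A] [CharP A p] {ι : Type*} [Fintype ι] (f : ι → A)
    {x : A} (hx : x ∈ Ideal.span (Set.range f)) :
    x ^ p ^ r ∈ Ideal.span (Set.range fun i => f i ^ p ^ r) := by
  obtain ⟨v, rfl⟩ := Ideal.mem_span_range_iff_exists_fun.mp hx
  rw [sum_pow_char_pow]
  exact Ideal.sum_mem _ fun i _ => by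
    rw [mul_pow]; exact Ideal.mul_mem_left _ _ (Ideal.subset_span ⟨i, rfl⟩)

end JN

section Top

variable {k : Type*} [Field k] {n : ℕ} (p : ℕ) [Fact p.Prime] [CharP k p] (r : ℕ)

lemma act_X_pow (g : Matrix (Fin n) (Fin n) k) (i : Fin n) :
    act g (X i) ^ p ^ r = ∑ j, (g i j ^ p ^ r) • X j ^ p ^ r := by
  rw [act_X, sum_pow_char_pow]
  simp only [smul_pow]

lemma act_mem_JN (g : Matrix (Fin n) (Fin n) k) {u : MvPolynomial (Fin n) k}
    (hu : u ∈ JN k n (p ^ r)) : act g u ∈ JN k n (p ^ r) := by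
  obtain ⟨v, rfl⟩ := Ideal.mem_span_range_iff_exists_fun.mp hu
  rw [map_sum]
  refine Ideal.sum_mem _ fun i _ => ?_
  rw [map_mul, map_pow, act_X_pow]
  refine Ideal.mul_mem_left _ _ (Ideal.sum_mem _ fun j _ => ?_)
  rw [smul_eq_C_mul]
  exact Ideal.mul_mem_left _ _ (X_pow_mem_JN _ j)

lemma coeff_top_act_eq (g : Matrix (Fin n) (Fin n) k) (W : MvPolynomial (Fin n) k) :
    coeff (top n (p ^ r - 1)) (act g W) =
      coeff (top n (p ^ r - 1)) (act g (monomial (top n (p ^ r - 1)) 1)) *
        coeff (top n (p ^ r - 1)) W := by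
  classical
  have hN : 0 < p ^ r := pow_pos (Fact.out : p.Prime).pos r
  induction W using MvPolynomial.induction_on' with
  | add a b ha hb => simp only [map_add, coeff_add, ha, hb, mul_add]
  | monomial α a =>
    rw [coeff_monomial]
    by_cases h : α = top n (p ^ r - 1)
    · rw [if_pos h, h, show monomial (top n (p ^ r - 1)) a =
        a • monomial (top n (p ^ r - 1)) (1 : k) by simp [smul_monomial], map_smul, coeff_smul,
        smul_eq_mul, mul_comm]
    · rw [if_neg h, mul_zero]
      by_cases h1 : ∃ i, p ^ r ≤ α i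
      · obtain ⟨i, hi⟩ := h1
        exact coeff_top_of_mem_JN hN (act_mem_JN p r g (monomial_mem_JN a hi))
      · push Not at h1
        have h2 := isWH_act g (isWeightedHomogeneous_monomial (1 : Fin n → ℕ) α a rfl)
        refine h2.coeff_eq_zero _ fun h3 => h ?_
        rw [weight_top, weight_one] at h3
        exact eq_top_of_le (fun i => by have := h1 i; omega) h3.symm

theorem coeff_top_act_det (g : Matrix (Fin n) (Fin n) k) (W : MvPolynomial (Fin n) k) :
    coeff (top n (p ^ r - 1)) (act g W) = g.det ^ (p ^ r - 1) * coeff (top n (p ^ r - 1)) W := by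
  classical
  have hN : 0 < p ^ r := pow_pos (Fact.out : p.Prime).pos r
  rw [coeff_top_act_eq]
  congr 1
  refine Matrix.diagonal_transvection_induction (fun g => coeff (top n (p ^ r - 1))
    (act g (monomial (top n (p ^ r - 1)) 1)) = g.det ^ (p ^ r - 1)) g ?_ ?_ ?_
  · intro D _
    have h1 : ∀ i, act (Matrix.diagonal D) (X i) = D i • (X i : MvPolynomial (Fin n) k) := by
      intro i
      rw [act_X, Finset.sum_eq_single i]
      · simp
      · intro j _ hj
        rw [Matrix.diagonal_apply_ne _ hj.symm, zero_smul]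
      · simp
    rw [monomial_top, map_prod]
    simp only [map_pow, h1, smul_pow]
    rw [Finset.prod_smul, ← monomial_top, coeff_smul, coeff_monomial, if_pos rfl,
      Matrix.det_diagonal, Finset.prod_pow]
    simp
  · rintro ⟨i, j, hij, c⟩
    simp only [Matrix.TransvectionStruct.toMatrix_mk, Matrix.det_transvection_of_ne i j hij,
      one_pow]
    have h1 : ∀ l, act (Matrix.transvection i j c) (X l) =
        (X l : MvPolynomial (Fin n) k) + (if l = i then c else 0) • X j := by
      intro l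
      rw [act_X]
      simp only [Matrix.transvection, Matrix.add_apply, add_smul, Finset.sum_add_distrib,
        Matrix.one_apply, ite_smul, one_smul, zero_smul, Finset.sum_ite_eq, mem_univ, if_true,
        Matrix.single_apply]
      congr 1
      by_cases hl : l = i
      · subst hl; simp
      · simp [hl, Ne.symm hl]
    have h2 : act (Matrix.transvection i j c) (monomial (top n (p ^ r - 1)) 1) -
        monomial (top n (p ^ r - 1)) 1 ∈ JN k n (p ^ r) := by
      rw [monomial_top, map_prod, ← Finset.mul_prod_erase univ _ (mem_univ i),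
        ← Finset.mul_prod_erase univ (fun l => (X l : MvPolynomial (Fin n) k) ^ (p ^ r - 1))
          (mem_univ i),
        Finset.prod_congr rfl (g := fun l => (X l : MvPolynomial (Fin n) k) ^ (p ^ r - 1))
          (fun l hl => by
            rw [map_pow, h1, if_neg (Finset.ne_of_mem_erase hl), zero_smul, add_zero]),
        ← sub_mul, map_pow, h1, if_pos rfl,
        ← Finset.mul_prod_erase _ _ (Finset.mem_erase.mpr ⟨hij.symm, mem_univ j⟩)]
      obtain ⟨w, hw⟩ := sub_dvd_pow_sub_pow ((X i : MvPolynomial (Fin n) k) + c • X j) (X i)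
        (p ^ r - 1)
      rw [hw, add_sub_cancel_left]
      have h3 : (X j : MvPolynomial (Fin n) k) ^ p ^ r = X j * X j ^ (p ^ r - 1) := by
        rw [← pow_succ', Nat.sub_add_cancel hN]
      have h4 := Ideal.mul_mem_left (JN k n (p ^ r)) (C c * w *
        ∏ l ∈ (univ.erase i).erase j, X l ^ (p ^ r - 1)) (X_pow_mem_JN (R := k) (p ^ r) j)
      rw [h3] at h4
      rw [smul_eq_C_mul]
      refine (congrArg (· ∈ JN k n (p ^ r)) ?_).mp h4
      ring
    have h3 := coeff_top_of_mem_JN hN h2
    rw [coeff_sub, coeff_monomial, if_pos rfl, sub_eq_zero] at h3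
    exact h3
  · intro A B hA hB
    rw [← act_act, coeff_top_act_eq, hA, hB, Matrix.det_mul, mul_pow, mul_comm]

end Top

section Transform

variable (p : ℕ) [Fact p.Prime] (r : ℕ) {n : ℕ}

/-- The transformation law for the socle of the ring truncated at a power of `p`. -/
theorem prod_pow_sub_det_mem {A : Type*} [CommRing A] [IsDomain A] [CharP A p]
    (M : Matrix (Fin n) (Fin n) A) (y : Fin n → A) :
    ∏ i, (∑ l, M i l * y l) ^ (p ^ r - 1) - M.det ^ (p ^ r - 1) * ∏ l, y l ^ (p ^ r - 1) ∈
      Ideal.span (Set.range fun l => y l ^ p ^ r) := by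
  classical
  have hN : 0 < p ^ r := pow_pos (Fact.out : p.Prime).pos r
  let K := FractionRing A
  have : CharP K p := charP_of_injective_algebraMap (IsFractionRing.injective A K) p
  set W : MvPolynomial (Fin n) A := ∏ i, (∑ l, C (M i l) * X l) ^ (p ^ r - 1) with hW
  have h1 : W.IsWeightedHomogeneous (1 : Fin n → ℕ) (n * (p ^ r - 1)) := by
    refine isWH_congr (IsWeightedHomogeneous.prod _ _ (fun _ => p ^ r - 1) fun i _ => ?_)
      (by simp)
    have h0 : (∑ l, C (M i l) * X l : MvPolynomial (Fin n) A).IsWeightedHomogeneous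
        (1 : Fin n → ℕ) 1 :=
      IsWeightedHomogeneous.sum _ _ _ fun l _ => (isWeightedHomogeneous_X A _ l).C_mul _
    exact isWH_congr (h0.pow _) (by simp)
  have h2 : coeff (top n (p ^ r - 1)) W = M.det ^ (p ^ r - 1) := by
    apply IsFractionRing.injective A K
    have h3 := coeff_top_act_det p r (M.map (algebraMap A K)) (monomial (top n (p ^ r - 1)) 1)
    rw [coeff_monomial, if_pos rfl, mul_one] at h3
    rw [← coeff_map, map_pow, RingHom.map_det, RingHom.mapMatrix_apply, ← h3, monomial_top, hW]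
    simp only [map_prod, map_pow, map_sum, map_mul, map_C, map_X, act_X, smul_eq_C_mul,
      Matrix.map_apply]
  have h3 := sub_top_mem_JN hN h1
  rw [h2] at h3
  have h4 := Ideal.mem_map_of_mem (aeval y : MvPolynomial (Fin n) A →ₐ[A] A) h3
  rw [JN, Ideal.map_span, ← Set.range_comp] at h4
  have h5 : (⇑(aeval y : MvPolynomial (Fin n) A →ₐ[A] A) ∘
      fun i : Fin n => (X i : MvPolynomial (Fin n) A) ^ p ^ r) = fun l => y l ^ p ^ r := by
    funext l; simp
  rw [h5, map_sub, aeval_monomial, Finsupp.prod_fintype _ _ (by simp)] at h4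
  simpa [hW] using h4

end Transform

end Pool.Agent.Work.MP_a1538a_al.Hedge


/-!
The Cartier operator on polynomial rings.
-/

set_option autoImplicit false

namespace Pool.Agent.Work.MP_a1538a_al.Hedge

open Finset MvPolynomial

section Car

variable {R : Type*} [CommRing R] {n : ℕ}

/-- Quotients of the exponents. -/
noncomputable def ediv (s : ℕ) (α : Fin n →₀ ℕ) : Fin n →₀ ℕ :=
  Finsupp.equivFunOnFinite.symm fun i => α i / s

/-- Remainders of the exponents. -/
noncomputable def emod (s : ℕ) (α : Fin n →₀ ℕ) : Fin n →₀ ℕ :=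
  Finsupp.equivFunOnFinite.symm fun i => α i % s

@[simp] lemma ediv_apply (s : ℕ) (α : Fin n →₀ ℕ) (i : Fin n) : ediv s α i = α i / s := by
  simp [ediv]

@[simp] lemma emod_apply (s : ℕ) (α : Fin n →₀ ℕ) (i : Fin n) : emod s α i = α i % s := by
  simp [emod]

lemma emod_add_ediv (s : ℕ) (α : Fin n →₀ ℕ) : emod s α + s • ediv s α = α := by
  ext i; simp [Nat.mod_add_div]

lemma monomial_eq_mul_expand (s : ℕ) (α : Fin n →₀ ℕ) (a : R) :
    monomial α a = monomial (emod s α) 1 * expand s (monomial (ediv s α) a) := by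
  rw [expand_monomial, monomial_mul, one_mul, emod_add_ediv]

variable (R n) in
/-- The Cartier operator: keep the monomials with all exponents `-1` modulo `s`. -/
noncomputable def Car (s : ℕ) : MvPolynomial (Fin n) R →ₗ[R] MvPolynomial (Fin n) R :=
  (basisMonomials (Fin n) R).constr R fun α =>
    if ∀ i, α i % s = s - 1 then monomial (ediv s α) 1 else 0

lemma Car_monomial (s : ℕ) (α : Fin n →₀ ℕ) (a : R) :
    Car R n s (monomial α a) = if ∀ i, α i % s = s - 1 then monomial (ediv s α) a else 0 := by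
  have : monomial α a = a • basisMonomials (Fin n) R α := by simp [smul_monomial]
  rw [this, map_smul, Car, Module.Basis.constr_basis]
  split_ifs <;> simp [smul_monomial]

lemma coeff_Car {s : ℕ} (hs : 0 < s) (β : Fin n →₀ ℕ) (u : MvPolynomial (Fin n) R) :
    coeff β (Car R n s u) = coeff (top n (s - 1) + s • β) u := by
  classical
  induction u using MvPolynomial.induction_on' with
  | add a b ha hb => simp only [map_add, coeff_add, ha, hb]
  | monomial α a =>
    rw [Car_monomial, coeff_monomial]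
    by_cases h : α = top n (s - 1) + s • β
    · have h1 : ∀ i, α i % s = s - 1 := fun i => by
        rw [h, Finsupp.add_apply, top_apply, Finsupp.smul_apply, smul_eq_mul,
          Nat.add_mul_mod_self_left, Nat.mod_eq_of_lt (by omega)]
      rw [if_pos h1, if_pos h, coeff_monomial, if_pos]
      ext i
      rw [ediv_apply, h, Finsupp.add_apply, top_apply, Finsupp.smul_apply, smul_eq_mul,
        Nat.add_mul_div_left _ _ hs, Nat.div_eq_of_lt (by omega), zero_add]
    · rw [if_neg h]
      split_ifs with h1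
      · rw [coeff_monomial, if_neg]
        intro h2
        apply h
        rw [← h2, ← emod_add_ediv s α]
        congr 1
        · ext i; simp [h1 i]
        · rw [emod_add_ediv]
      · simp

lemma Car_mul_expand {s : ℕ} (hs : 0 < s) (u w : MvPolynomial (Fin n) R) :
    Car R n s (u * expand s w) = Car R n s u * w := by
  induction u using MvPolynomial.induction_on' with
  | add a b ha hb => simp only [add_mul, map_add, ha, hb]
  | monomial α a =>
    induction w using MvPolynomial.induction_on' with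
    | add a b ha hb => simp only [mul_add, map_add, ha, hb]
    | monomial β b =>
      rw [expand_monomial, monomial_mul, Car_monomial, Car_monomial]
      simp only [Finsupp.add_apply, Finsupp.smul_apply, smul_eq_mul, Nat.add_mul_mod_self_left]
      split_ifs with h
      · rw [monomial_mul]
        congr 2
        ext i
        simp [Nat.add_mul_div_left _ _ hs]
      · simp

lemma Car_top {s : ℕ} (hs : 0 < s) : Car R n s (monomial (top n (s - 1)) 1) = 1 := by
  rw [Car_monomial, if_pos fun i => by rw [top_apply, Nat.mod_eq_of_lt (by omega)]]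
  have : ediv s (top n (s - 1)) = 0 := by
    ext i; simp [Nat.div_eq_of_lt (show s - 1 < s by omega)]
  rw [this]; rfl

lemma Car_top_mul_expand {s : ℕ} (hs : 0 < s) (w : MvPolynomial (Fin n) R) :
    Car R n s (monomial (top n (s - 1)) 1 * expand s w) = w := by
  rw [Car_mul_expand hs, Car_top hs, one_mul]

lemma Car_of_low {s : ℕ} (hs : 0 < s) {v : MvPolynomial (Fin n) R} {d : ℕ}
    (hv : v.IsWeightedHomogeneous (1 : Fin n → ℕ) d) (hd : d ≤ n * (s - 1)) :
    Car R n s v = C (coeff (top n (s - 1)) v) := by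
  classical
  ext β
  rw [coeff_Car hs, coeff_C]
  split_ifs with h
  · rw [← h]; simp
  · refine hv.coeff_eq_zero _ fun h1 => h ?_
    rw [map_add, weight_top, map_nsmul, weight_one, smul_eq_mul] at h1
    have h2 : ∑ i, β i = 0 := by
      by_contra h3
      have := Nat.mul_pos hs (Nat.pos_of_ne_zero h3)
      omega
    ext i
    simpa using ((Finset.sum_eq_zero_iff.mp h2) i (mem_univ i)).symm

lemma Car_map {A : Type*} [CommRing A] (φ : R →+* A) (s : ℕ) (u : MvPolynomial (Fin n) R) :
    Car A n s (map φ u) = map φ (Car R n s u) := by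
  induction u using MvPolynomial.induction_on' with
  | add a b ha hb => simp only [map_add, ha, hb]
  | monomial α a =>
    rw [map_monomial, Car_monomial, Car_monomial]
    split_ifs <;> simp

lemma exists_bad_of_Car_eq_zero {s : ℕ} (hs : 0 < s) {u : MvPolynomial (Fin n) R}
    (hu : Car R n s u = 0) {α : Fin n →₀ ℕ} (hα : α ∈ u.support) : ∃ i, α i % s < s - 1 := by
  by_contra hc
  push Not at hc
  have h1 := coeff_Car hs (ediv s α) u
  rw [hu, coeff_zero] at h1
  have h2 : top n (s - 1) + s • ediv s α = α := by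
    conv_rhs => rw [← emod_add_ediv s α]
    congr 1
    ext i
    have := Nat.mod_lt (α i) hs
    have := hc i
    simp only [top_apply, emod_apply]; omega
  rw [h2] at h1
  exact mem_support_iff.mp hα h1.symm

lemma Car_mem_JN {s M : ℕ} (hs : 0 < s) {u : MvPolynomial (Fin n) R} (hu : u ∈ JN R n (s * M)) :
    Car R n s u ∈ JN R n M := by
  obtain ⟨v, rfl⟩ := Ideal.mem_span_range_iff_exists_fun.mp hu
  rw [map_sum]
  refine Ideal.sum_mem _ fun i _ => ?_
  rw [pow_mul, ← expand_X, ← map_pow, Car_mul_expand hs]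
  exact Ideal.mul_mem_left _ _ (X_pow_mem_JN M i)

lemma expand_mem_JN (s : ℕ) {M : ℕ} {u : MvPolynomial (Fin n) R} (hu : u ∈ JN R n M) :
    expand s u ∈ JN R n (s * M) := by
  obtain ⟨v, rfl⟩ := Ideal.mem_span_range_iff_exists_fun.mp hu
  rw [map_sum]
  refine Ideal.sum_mem _ fun i _ => ?_
  rw [map_mul, map_pow, expand_X, ← pow_mul]
  exact Ideal.mul_mem_left _ _ (X_pow_mem_JN _ i)

lemma Car_X_pow_mul_rename {s : ℕ} (hs : 0 < s) (u : MvPolynomial (Fin n) R) :
    Car R (n + 1) s (X 0 ^ (s - 1) * rename Fin.succ u) = rename Fin.succ (Car R n s u) := by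
  induction u using MvPolynomial.induction_on' with
  | add a b ha hb => simp only [mul_add, map_add, ha, hb]
  | monomial α a =>
    rw [rename_monomial, X_pow_eq_monomial, monomial_mul, one_mul, Car_monomial, Car_monomial]
    have h0 : (Finsupp.single (0 : Fin (n + 1)) (s - 1) + Finsupp.mapDomain Fin.succ α :
        Fin (n + 1) →₀ ℕ) 0 = s - 1 := by
      rw [Finsupp.add_apply, Finsupp.single_eq_same, Finsupp.mapDomain_of_notMem_range _ _ (by simp),
        add_zero]
    have h1 : ∀ i : Fin n, (Finsupp.single (0 : Fin (n + 1)) (s - 1) +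
        Finsupp.mapDomain Fin.succ α : Fin (n + 1) →₀ ℕ) i.succ = α i := by
      intro i
      rw [Finsupp.add_apply, Finsupp.single_eq_of_ne (Fin.succ_ne_zero i),
        Finsupp.mapDomain_apply (Fin.succ_injective n), zero_add]
    simp only [Fin.forall_fin_succ, h0, h1, Nat.mod_eq_of_lt (show s - 1 < s by omega), true_and]
    split_ifs with h
    · rw [rename_monomial]
      congr 2
      ext i
      refine Fin.cases ?_ (fun i => ?_) i
      · rw [ediv_apply, h0, Finsupp.mapDomain_of_notMem_range _ _ (by simp),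
          Nat.div_eq_of_lt (by omega)]
      · rw [ediv_apply, h1, Finsupp.mapDomain_apply (Fin.succ_injective n), ediv_apply]
    · simp

end Car

section Equiv

variable {k : Type*} [Field k] {n : ℕ} (p : ℕ) [Fact p.Prime] [CharP k p] (r : ℕ)

/-- Entrywise Frobenius twist of a matrix. -/
def tw (s : ℕ) (g : Matrix (Fin n) (Fin n) k) : Matrix (Fin n) (Fin n) k := g.map (· ^ s)

lemma act_expand (g : Matrix (Fin n) (Fin n) k) (w : MvPolynomial (Fin n) k) :
    act g (expand (p ^ r) w) = expand (p ^ r) (act (tw (p ^ r) g) w) := by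
  have : (act g).comp (expand (p ^ r)) = (expand (p ^ r)).comp (act (tw (p ^ r) g)) := by
    apply MvPolynomial.algHom_ext
    intro i
    simp only [AlgHom.comp_apply, expand_X, map_pow, act_X_pow]
    simp [act_X, tw]
  exact DFunLike.congr_fun this w

theorem Car_act (g : Matrix (Fin n) (Fin n) k) (u : MvPolynomial (Fin n) k) :
    Car k n (p ^ r) (act g u) = g.det ^ (p ^ r - 1) • act (tw (p ^ r) g) (Car k n (p ^ r) u) := by
  classical
  have hN : 0 < p ^ r := pow_pos (Fact.out : p.Prime).pos r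
  induction u using MvPolynomial.induction_on' with
  | add a b ha hb => simp only [map_add, ha, hb, smul_add]
  | monomial α a =>
    have h1 := isWeightedHomogeneous_monomial (1 : Fin n → ℕ) (emod (p ^ r) α) (1 : k) rfl
    have h2 : Finsupp.weight (1 : Fin n → ℕ) (emod (p ^ r) α) ≤ n * (p ^ r - 1) := by
      rw [weight_one, show n * (p ^ r - 1) = ∑ _i : Fin n, (p ^ r - 1) by simp]
      refine Finset.sum_le_sum fun i _ => ?_
      have := Nat.mod_lt (α i) hN
      rw [emod_apply]; omega
    rw [monomial_eq_mul_expand (p ^ r) α a, map_mul, act_expand, Car_mul_expand hN,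
      Car_mul_expand hN, Car_of_low hN (isWH_act g h1) h2, Car_of_low hN h1 h2,
      coeff_top_act_det, map_mul, map_mul, smul_eq_C_mul, mul_assoc]
    congr 2
    exact (act (tw (p ^ r) g)).commutes _ |>.symm

lemma tw_eq_map (g : Matrix (Fin n) (Fin n) k) :
    tw (p ^ r) g = (iterateFrobenius k p r).mapMatrix g := by
  ext i j; simp [tw, iterateFrobenius_def]

/-- The twist of an invertible matrix. -/
noncomputable def twGL (g : Matrix.GeneralLinearGroup (Fin n) k) :
    Matrix.GeneralLinearGroup (Fin n) k :=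
  Matrix.GeneralLinearGroup.map (iterateFrobenius k p r) g

lemma twGL_val (g : Matrix.GeneralLinearGroup (Fin n) k) :
    (twGL p r g).val = tw (p ^ r) g.val := by
  rw [tw_eq_map]; rfl

lemma twGL_inv (g : Matrix.GeneralLinearGroup (Fin n) k) :
    (twGL p r g)⁻¹ = twGL p r g⁻¹ := by
  simp only [twGL, map_inv]

lemma twGL_surjective [PerfectRing k p] (g : Matrix.GeneralLinearGroup (Fin n) k) :
    ∃ g', twGL p r g' = g := by
  refine ⟨Matrix.GeneralLinearGroup.map (iterateFrobeniusEquiv k p r).symm.toRingHom g, ?_⟩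
  ext i j
  change iterateFrobenius k p r ((iterateFrobeniusEquiv k p r).symm (g i j)) = g i j
  exact (iterateFrobeniusEquiv k p r).apply_symm_apply _

end Equiv

end Pool.Agent.Work.MP_a1538a_al.Hedge


/-!
Reduction modulo the twisted augmentation submodule of the stabiliser of a line.
-/

set_option autoImplicit false

namespace Pool.Agent.Work.MP_a1538a_al.Hedge

open Finset MvPolynomial

variable {F : Type*} [Field F] [Fintype F] {n : ℕ}

variable (F n) in
/-- The span of all `g u - det(g)^a u`. -/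
noncomputable def Ia (a : ℕ) : Submodule F (MvPolynomial (Fin n) F) :=
  Submodule.span F {x | ∃ (g : Matrix.GeneralLinearGroup (Fin n) F) (u : MvPolynomial (Fin n) F),
    x = act g.val u - g.val.det ^ a • u}

omit [Fintype F] in
lemma act_sub_mem_Ia (a : ℕ) (g : Matrix.GeneralLinearGroup (Fin n) F)
    (u : MvPolynomial (Fin n) F) : act g.val u - g.val.det ^ a • u ∈ Ia F n a :=
  Submodule.subset_span ⟨g, u, rfl⟩

variable (F n) in
/-- The same span for the stabiliser of the line through `X 0`. -/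
noncomputable def IPa (a : ℕ) : Submodule F (MvPolynomial (Fin (n + 1)) F) :=
  Submodule.span F {x | ∃ (g : Matrix.GeneralLinearGroup (Fin (n + 1)) F)
    (u : MvPolynomial (Fin (n + 1)) F), (∀ j : Fin n, g 0 j.succ = 0) ∧
    x = act g.val u - g.val.det ^ a • u}

omit [Fintype F] in
lemma act_sub_mem_IPa (a : ℕ) (g : Matrix.GeneralLinearGroup (Fin (n + 1)) F)
    (hg : ∀ j : Fin n, g 0 j.succ = 0) (u : MvPolynomial (Fin (n + 1)) F) :
    act g.val u - g.val.det ^ a • u ∈ IPa F n a :=
  Submodule.subset_span ⟨g, u, hg, rfl⟩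

omit [Fintype F] in
lemma IPa_le_Ia (a : ℕ) : IPa F n a ≤ Ia F (n + 1) a :=
  Submodule.span_mono fun _ ⟨g, u, _, h⟩ => ⟨g, u, h⟩

lemma act_Yv_of_fix (g : Matrix (Fin (n + 1)) (Fin (n + 1)) F) (c : F) (hc : c ≠ 0)
    (t : Fin n → F) (h0 : act g (X 0) = c • X 0)
    (h1 : ∀ l : Fin n, act g (X l.succ) = X l.succ + t l • X 0) (v : MvPolynomial (Fin n) F) :
    act g (Yv F n v) = Yv F n v := by
  have hq := one_lt_q F
  have : (act g).comp (Yv F n) = Yv F n := by
    apply MvPolynomial.algHom_ext
    intro l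
    simp only [Yv, AlgHom.comp_apply, aeval_X, map_sub, map_mul, map_pow, h0, h1, smul_pow,
      FiniteField.pow_card_sub_one_eq_one c hc, one_smul, add_pow_q1 F, FiniteField.pow_card,
      mul_add, mul_smul_comm, ← pow_succ, Nat.sub_add_cancel hq.le]
    ring
  exact DFunLike.congr_fun this v

omit [Fintype F] in
lemma exists_scale {c : F} (hc : c ≠ 0) :
    ∃ g : Matrix.GeneralLinearGroup (Fin (n + 1)) F, (∀ j : Fin n, g 0 j.succ = 0) ∧
      g.val.det = c ∧ act g.val (X 0) = c • X 0 ∧ ∀ l : Fin n, act g.val (X l.succ) = X l.succ := by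
  classical
  obtain ⟨g, hg⟩ := exists_row_GL (0 : Fin (n + 1)) (Pi.single 0 c) (by simpa using hc)
  refine ⟨g, fun j => by rw [hg]; simp, by rw [hg, det_updateRow_one]; simp, ?_, fun l => ?_⟩
  · rw [hg, act_updateRow, if_pos rfl]; simp [Pi.single_apply]
  · rw [hg, act_updateRow, if_neg (Fin.succ_ne_zero l)]

omit [Fintype F] in
lemma exists_shear (i : Fin n) (t : F) :
    ∃ g : Matrix.GeneralLinearGroup (Fin (n + 1)) F, (∀ j : Fin n, g 0 j.succ = 0) ∧
      g.val.det = 1 ∧ act g.val (X 0) = X 0 ∧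
      ∀ l : Fin n, act g.val (X l.succ) = X l.succ + (if l = i then t else 0) • X 0 := by
  classical
  obtain ⟨g, hg⟩ := exists_row_GL i.succ
    ((Pi.single i.succ 1 : Fin (n + 1) → F) + (Pi.single 0 t : Fin (n + 1) → F)) (by simp)
  refine ⟨g, fun j => ?_, by rw [hg, det_updateRow_one]; simp, ?_, fun l => ?_⟩
  · rw [hg, Matrix.updateRow_ne (Fin.succ_ne_zero i).symm,
      Matrix.one_apply_ne (Fin.succ_ne_zero j).symm]
  · rw [hg, act_updateRow, if_neg (Fin.succ_ne_zero i).symm]
  · rw [hg, act_updateRow]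
    by_cases hl : l = i
    · subst hl
      simp [add_smul, Finset.sum_add_distrib, Pi.single_apply]
    · simp [hl]

lemma exists_pow_ne {a c : ℕ} (h : ¬ c ≡ a [MOD Fintype.card F - 1]) :
    ∃ x : F, x ≠ 0 ∧ x ^ c ≠ x ^ a := by
  by_contra hc
  push Not at hc
  apply h
  have key : ∀ {d e : ℕ}, e ≤ d → (∀ x : F, x ≠ 0 → x ^ d = x ^ e) →
      e ≡ d [MOD Fintype.card F - 1] := by
    intro d e hed h1
    rw [Nat.modEq_iff_dvd' hed, ← FiniteField.forall_pow_eq_one_iff]
    intro x
    apply Units.ext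
    have h2 := h1 x x.ne_zero
    rw [← Nat.sub_add_cancel hed, pow_add] at h2
    simpa using mul_right_cancel₀ (pow_ne_zero e x.ne_zero) (h2.trans (one_mul _).symm)
  rcases le_total a c with h1 | h1
  · exact (key h1 hc).symm
  · exact key h1 fun x hx => (hc x hx).symm

lemma torA {a c : ℕ} (h : ¬ c ≡ a [MOD Fintype.card F - 1]) (v w : MvPolynomial (Fin n) F) :
    X 0 ^ c * Yv F n v * rename Fin.succ w ∈ IPa F n a := by
  obtain ⟨x, hx, hxc⟩ := exists_pow_ne h
  obtain ⟨g, hg, hdet, h0, h1⟩ := exists_scale (n := n) hx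
  have h2 := act_Yv_of_fix g.val x hx 0 h0 (fun l => by simp [h1]) v
  have h5 : act g.val (rename Fin.succ w) = rename Fin.succ w := by
    have : (act g.val).comp (rename Fin.succ) = rename Fin.succ := by
      apply MvPolynomial.algHom_ext
      intro l
      simp [h1]
    exact DFunLike.congr_fun this w
  have h3 := act_sub_mem_IPa a g hg (X 0 ^ c * Yv F n v * rename Fin.succ w)
  simp only [map_mul, map_pow, h0, h2, h5, smul_pow, smul_mul_assoc, hdet] at h3
  rwa [← sub_smul, Submodule.smul_mem_iff _ (sub_ne_zero.mpr hxc)] at h3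

lemma redA (a : ℕ) {c : ℕ} (hc : Fintype.card F - 1 ≤ c) (v : MvPolynomial (Fin n) F)
    (α : Fin n → ℕ) (i : Fin n) (hi : α i < Fintype.card F - 1) :
    X 0 ^ c * Yv F n v * ∏ l, X l.succ ^ α l ∈ IPa F n a := by
  classical
  have hq := one_lt_q F
  set h : MvPolynomial (Fin (n + 1)) F := X 0 ^ (c - (Fintype.card F - 1 - α i)) * Yv F n v *
    ∏ l ∈ univ.erase i, X l.succ ^ α l with hh
  have key : ∀ t : F, h * (X i.succ + t • X 0) ^ (Fintype.card F - 1) -
      h * X i.succ ^ (Fintype.card F - 1) ∈ IPa F n a := by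
    intro t
    obtain ⟨g, hg, hdet, h0, h1⟩ := exists_shear i t
    have h2 := act_Yv_of_fix g.val 1 one_ne_zero _ (by rw [h0, one_smul]) h1 v
    have h3 := act_sub_mem_IPa a g hg (h * X i.succ ^ (Fintype.card F - 1))
    have h4 : act g.val h = h := by
      simp only [hh, map_mul, map_pow, map_prod, h0, h2]
      congr 1
      refine Finset.prod_congr rfl fun l hl => ?_
      rw [h1, if_neg (Finset.ne_of_mem_erase hl), zero_smul, add_zero]
    rwa [map_mul, h4, map_pow, h1, if_pos rfl, hdet, one_pow, one_smul] at h3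
  have key2 := Submodule.sum_mem (IPa F n a) (t := univ)
    fun t _ => Submodule.smul_mem _ (t ^ α i) (key t)
  simp only [smul_sub, Finset.sum_sub_distrib, ← mul_smul_comm, ← Finset.mul_sum] at key2
  rw [sum_shift _ _ hi, ← Finset.sum_smul, FiniteField.sum_pow_lt_card_sub_one F _ hi, zero_smul,
    mul_zero, sub_zero, mul_smul_comm, Submodule.smul_mem_iff _ (by simp)] at key2
  have h6 : X 0 ^ c * Yv F n v * ∏ l, X l.succ ^ α l =
      h * (X i.succ ^ α i * X 0 ^ (Fintype.card F - 1 - α i)) := by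
    rw [hh, ← Finset.mul_prod_erase univ _ (mem_univ i)]
    have : c = c - (Fintype.card F - 1 - α i) + (Fintype.card F - 1 - α i) := by omega
    conv_lhs => rw [this, pow_add]
    ring
  rw [h6]; exact key2

variable (F n) in
/-- One graded piece of the surviving part. -/
noncomputable def gamA (a b : ℕ) :
    MvPolynomial (Fin n) F →ₗ[F] MvPolynomial (Fin (n + 1)) F where
  toFun v := X 0 ^ (a + (Fintype.card F - 1) * (b + 1)) * Yv F n v *
    ∏ l : Fin n, X l.succ ^ (Fintype.card F - 1)
  map_add' v w := by simp only [map_add]; ring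
  map_smul' a v := by simp

lemma gamA_apply (a b : ℕ) (v : MvPolynomial (Fin n) F) :
    gamA F n a b v = X 0 ^ (a + (Fintype.card F - 1) * (b + 1)) * Yv F n v *
      ∏ l : Fin n, X l.succ ^ (Fintype.card F - 1) := rfl

variable (F n) in
/-- The surviving part. -/
noncomputable def GamA (a : ℕ) :
    (ℕ →₀ MvPolynomial (Fin n) F) →ₗ[F] MvPolynomial (Fin (n + 1)) F :=
  Finsupp.lsum F (gamA F n a)

lemma X_pow_mul_mem (a : ℕ) (u : MvPolynomial (Fin (n + 1)) F) :
    X 0 ^ (a + 1) * u ∈ LinearMap.range (GamA F n a) ⊔ IPa F n a := by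
  have hq := one_lt_q F
  have hu := mem_span_gen u
  induction hu using Submodule.span_induction with
  | zero => simp
  | add x y _ _ hx hy => rw [mul_add]; exact Submodule.add_mem _ hx hy
  | smul a x _ hx => rw [mul_smul_comm]; exact Submodule.smul_mem _ _ hx
  | mem x hx =>
    obtain ⟨b, v, α, hα, rfl⟩ := hx
    rw [← mul_assoc, ← mul_assoc, ← pow_add]
    by_cases h1 : a + 1 + b ≡ a [MOD Fintype.card F - 1]
    · obtain ⟨k, hk⟩ := (Nat.modEq_iff_dvd' (by omega)).mp h1.symm
      obtain ⟨k, rfl⟩ : ∃ k', k = k' + 1 := ⟨k - 1, by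
        rcases k with _ | k
        · simp at hk; omega
        · simp⟩
      have hk' : a + 1 + b = a + (Fintype.card F - 1) * (k + 1) := by omega
      by_cases h2 : ∃ i, α i < Fintype.card F - 1
      · obtain ⟨i, hi⟩ := h2
        refine Submodule.mem_sup_right (redA a ?_ v α i hi)
        rw [hk', Nat.mul_succ]; omega
      · push Not at h2
        refine Submodule.mem_sup_left ⟨Finsupp.single k v, ?_⟩
        rw [GamA, Finsupp.lsum_single, hk', gamA_apply]
        congr 1
        exact Finset.prod_congr rfl fun l _ => by rw [le_antisymm (hα l) (h2 l)]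
    · refine Submodule.mem_sup_right ?_
      have := torA h1 v (∏ l, X l ^ α l)
      simpa using this

omit [Fintype F] in
lemma exists_expansion (k : ℕ) (u : MvPolynomial (Fin (n + 1)) F) :
    ∃ (w : ℕ → MvPolynomial (Fin n) F) (u' : MvPolynomial (Fin (n + 1)) F),
      u = ∑ c ∈ range k, X 0 ^ c * rename Fin.succ (w c) + X 0 ^ k * u' := by
  induction k with
  | zero => exact ⟨0, u, by simp⟩
  | succ k ih =>
    obtain ⟨w, u', rfl⟩ := ih
    obtain ⟨u0, u'', rfl⟩ := exists_rename_add u'
    refine ⟨Function.update w k u0, u'', ?_⟩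
    rw [Finset.sum_range_succ, Function.update_self, Finset.sum_congr rfl
      (g := fun c => X 0 ^ c * rename Fin.succ (Function.update w k u0 c)) fun c hc => by
        rw [Function.update_of_ne (Finset.mem_range.mp hc).ne]]
    ring

lemma exists_decompA {a : ℕ} (ha : a < Fintype.card F - 1) (u : MvPolynomial (Fin (n + 1)) F) :
    ∃ (u0 : MvPolynomial (Fin n) F) (V : ℕ →₀ MvPolynomial (Fin n) F),
      u - X 0 ^ a * rename Fin.succ u0 - GamA F n a V ∈ IPa F n a := by
  obtain ⟨w, u', rfl⟩ := exists_expansion (a + 1) u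
  obtain ⟨y, ⟨V, rfl⟩, z, hz, h⟩ := Submodule.mem_sup.mp (X_pow_mul_mem a u')
  refine ⟨w a, V, ?_⟩
  have h1 : ∑ c ∈ range a, X 0 ^ c * rename Fin.succ (w c) ∈ IPa F n a := by
    refine Submodule.sum_mem _ fun c hc => ?_
    have hc' := Finset.mem_range.mp hc
    have := torA (a := a) (c := c) (fun h => by
      rw [Nat.ModEq, Nat.mod_eq_of_lt (by omega), Nat.mod_eq_of_lt ha] at h; omega) 1 (w c)
    simpa using this
  rw [← h, Finset.sum_range_succ]
  refine (congrArg (· ∈ IPa F n a) ?_).mp (Submodule.add_mem _ h1 hz)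
  ring

omit [Fintype F] in
lemma det_blk (g : Matrix (Fin n) (Fin n) F) : (blk g).det = g.det := by
  rw [Matrix.det_succ_row_zero, Fin.sum_univ_succ, Finset.sum_eq_zero fun j _ => by simp [blk]]
  simp only [Fin.val_zero, pow_zero, one_mul, add_zero, Fin.succAbove_zero]
  have : (blk g).submatrix Fin.succ Fin.succ = g := by ext i j; simp [blk]
  rw [this]; simp [blk]

omit [Fintype F] in
lemma X_pow_mul_rename_mem (a c : ℕ) {v : MvPolynomial (Fin n) F} (hv : v ∈ Ia F n a) :
    X 0 ^ c * rename Fin.succ v ∈ IPa F n a := by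
  induction hv using Submodule.span_induction with
  | zero => simp
  | add x y _ _ hx hy => rw [map_add, mul_add]; exact Submodule.add_mem _ hx hy
  | smul a x _ hx => rw [map_smul, mul_smul_comm]; exact Submodule.smul_mem _ _ hx
  | mem x hx =>
    obtain ⟨g, u, rfl⟩ := hx
    have h1 := act_sub_mem_IPa a (blkGL g) (fun j => by simp [blkGL, blk])
      (X 0 ^ c * rename Fin.succ u)
    have h0 : (blkGL g).val = blk g.val := rfl
    rw [h0, map_mul, map_pow, act_blk_zero, act_blk_rename, det_blk] at h1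
    rwa [map_sub, mul_sub, map_smul, mul_smul_comm]

lemma gamA_mem_IPa (a b : ℕ) {v : MvPolynomial (Fin n) F} (hv : v ∈ Ia F n a) :
    gamA F n a b v ∈ IPa F n a := by
  classical
  have hq := one_lt_q F
  induction hv using Submodule.span_induction with
  | zero => simp
  | add x y _ _ hx hy => rw [map_add]; exact Submodule.add_mem _ hx hy
  | smul a x _ hx => rw [map_smul]; exact Submodule.smul_mem _ _ hx
  | mem x hx =>
    obtain ⟨g, u, rfl⟩ := hx
    set E : MvPolynomial (Fin n) F := monomial (top n (Fintype.card F - 1)) 1 with hE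
    have hE1 : rename Fin.succ E = ∏ l : Fin n, X l.succ ^ (Fintype.card F - 1) := by
      rw [hE, monomial_top]; simp
    have h0 : (blkGL g).val = blk g.val := rfl
    have h1 := act_sub_mem_IPa a (blkGL g) (fun j => by simp [blkGL, blk]) (gamA F n a b u)
    have h2 : act (blkGL g).val (gamA F n a b u) =
        X 0 ^ (a + (Fintype.card F - 1) * (b + 1)) * Yv F n (act g.val u) *
          rename Fin.succ (act g.val E) := by
      rw [h0, gamA_apply, ← hE1, map_mul, map_mul, map_pow, act_blk_zero, act_blk_Yv,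
        act_blk_rename]
    have h3 : X 0 ^ (a + (Fintype.card F - 1) * (b + 1)) * Yv F n (act g.val u) *
          rename Fin.succ (act g.val E - E) ∈ IPa F n a := by
      set D := act g.val E - E with hD
      have hEh : E.IsWeightedHomogeneous (1 : Fin n → ℕ) (n * (Fintype.card F - 1)) :=
        isWH_monomial_top _
      have hDh : D.IsWeightedHomogeneous (1 : Fin n → ℕ) (n * (Fintype.card F - 1)) :=
        (isWH_act _ hEh).sub hEh
      have hD0 : coeff (top n (Fintype.card F - 1)) D = 0 := by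
        have := coeff_top_act 1 g E
        rw [pow_one] at this
        rw [hD, coeff_sub, this, sub_self]
      rw [D.as_sum, map_sum, Finset.mul_sum]
      refine Submodule.sum_mem _ fun α hα => ?_
      have hα' := mem_support_iff.mp hα
      obtain ⟨i, hi⟩ : ∃ i, α i < Fintype.card F - 1 := by
        by_contra hc
        push Not at hc
        have hw := hDh hα'
        rw [weight_one] at hw
        exact hα' (eq_top_of_ge hc hw ▸ hD0)
      rw [monomial_eq, Finsupp.prod_fintype _ _ (by simp), map_mul, rename_C, map_prod,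
        ← smul_eq_C_mul, mul_smul_comm]
      simp only [map_pow, rename_X]
      refine Submodule.smul_mem _ _ (redA a ?_ _ _ i hi)
      rw [Nat.mul_succ]; omega
    rw [h2, h0, det_blk] at h1
    refine (congrArg (· ∈ IPa F n a) ?_).mp (Submodule.sub_mem _ h1 h3)
    rw [gamA_apply, gamA_apply, ← hE1]
    rw [map_sub (Yv F n), map_smul (Yv F n)]
    simp only [map_sub, smul_eq_C_mul]
    ring

section Frob

variable (p : ℕ) [Fact p.Prime] [CharP F p] (r : ℕ)

lemma sub_pow_char_pow_pred {A : Type*} [CommRing A] [IsDomain A] [CharP A p] (x y : A) :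
    (x - y) ^ (p ^ r - 1) = ∑ i ∈ range (p ^ r), x ^ i * y ^ (p ^ r - 1 - i) := by
  have hN : 0 < p ^ r := pow_pos (Fact.out : p.Prime).pos r
  by_cases h : x - y = 0
  · rcases Nat.eq_zero_or_pos r with rfl | hr
    · simp
    · have h0 : ((p ^ r : ℕ) : A) = 0 := by
        rw [Nat.cast_pow, CharP.cast_eq_zero, zero_pow hr.ne']
      have h1 : 1 < p ^ r := Nat.one_lt_pow hr.ne' (Fact.out : p.Prime).one_lt
      rw [h, zero_pow (by omega), sub_eq_zero.mp h, geom_sum₂_self, h0, zero_mul]
  · apply mul_left_cancel₀ h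
    rw [(Commute.all x y).mul_geom_sum₂, ← pow_succ', Nat.sub_add_cancel hN, sub_pow_char_pow]

omit [CharP F p] in
lemma sum_shift_pow {A : Type*} [CommRing A] [IsDomain A] [CharP A p] [Algebra F A]
    (hs : p ^ r < Fintype.card F) (x y : A) {k : ℕ} (hk0 : 0 < k) (hk : k < p ^ r) :
    ∑ t : F, t ^ (Fintype.card F - 1 - k) • (x + t • y) ^ (p ^ r - 1) =
      (-(-1 : F) ^ k) • (x ^ (p ^ r - 1 - k) * y ^ k) := by
  have h1 : ∀ t : F, t ^ (Fintype.card F - 1 - k) • (x + t • y) ^ (p ^ r - 1) =
      ∑ i ∈ range (p ^ r), ((-1 : F) ^ (p ^ r - 1 - i) *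
        t ^ (Fintype.card F - 1 - k + (p ^ r - 1 - i))) • (x ^ i * y ^ (p ^ r - 1 - i)) := by
    intro t
    have : x + t • y = x - (-t) • y := by simp
    rw [this, sub_pow_char_pow_pred, Finset.smul_sum]
    refine Finset.sum_congr rfl fun i _ => ?_
    rw [smul_pow, mul_smul_comm, smul_smul, neg_pow t, pow_add]
    congr 1; ring
  rw [Finset.sum_congr rfl fun t _ => h1 t, Finset.sum_comm]
  rw [Finset.sum_eq_single (p ^ r - 1 - k)]
  · rw [← Finset.sum_smul, ← Finset.mul_sum, sum_pow_of_lt F (by omega), if_pos (by omega),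
      show p ^ r - 1 - (p ^ r - 1 - k) = k by omega]
    simp
  · intro i hi hij
    rw [Finset.mem_range] at hi
    rw [← Finset.sum_smul, ← Finset.mul_sum, sum_pow_of_lt F (by omega), if_neg (by omega)]
    simp
  · intro h
    rw [Finset.mem_range] at h
    omega

lemma bad_monomial_mem (hs : p ^ r < Fintype.card F) (α : Fin n →₀ ℕ) (i : Fin n)
    (hi : α i % p ^ r < p ^ r - 1) :
    X 0 ^ (p ^ r - 1) * rename Fin.succ (monomial α (1 : F)) ∈
      LinearMap.range (GamA F n (p ^ r - 1)) ⊔ IPa F n (p ^ r - 1) := by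
  classical
  set s := p ^ r with hsdef
  set k := s - 1 - α i % s with hk
  set h : MvPolynomial (Fin (n + 1)) F := X 0 ^ (α i % s) *
    ∏ l ∈ univ.erase i, X l.succ ^ α l with hh
  have key : ∀ t : F, h * (X i.succ + t • X 0) ^ (s - 1) * (X i.succ ^ s) ^ (α i / s) -
      h * X i.succ ^ (s - 1) * (X i.succ ^ s) ^ (α i / s) ∈
      LinearMap.range (GamA F n (s - 1)) ⊔ IPa F n (s - 1) := by
    intro t
    obtain ⟨g, hg, hdet, h0, h1⟩ := exists_shear i t
    have h3 := act_sub_mem_IPa (s - 1) g hg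
      (h * X i.succ ^ (s - 1) * (X i.succ ^ s) ^ (α i / s))
    have h4 : act g.val h = h := by
      simp only [hh, map_mul, map_pow, map_prod, h0]
      congr 1
      refine Finset.prod_congr rfl fun l hl => ?_
      rw [h1, if_neg (Finset.ne_of_mem_erase hl), zero_smul, add_zero]
    rw [map_mul, map_mul, h4, map_pow, map_pow, map_pow, h1, if_pos rfl, hdet, one_pow, one_smul,
      hsdef, add_pow_char_pow, ← hsdef] at h3
    obtain ⟨w, hw⟩ := sub_dvd_pow_sub_pow ((X i.succ : MvPolynomial (Fin (n + 1)) F) ^ s +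
      (t • X 0) ^ s) (X i.succ ^ s) (α i / s)
    rw [add_sub_cancel_left, sub_eq_iff_eq_add] at hw
    have h5 := X_pow_mul_mem (s - 1) (t ^ s • (h * (X i.succ + t • X 0) ^ (s - 1) * w))
    rw [Nat.sub_add_cancel (by omega)] at h5
    refine (congrArg (· ∈ LinearMap.range (GamA F n (s - 1)) ⊔ IPa F n (s - 1)) ?_).mp
      (Submodule.sub_mem _ (Submodule.mem_sup_right h3) h5)
    rw [hw, smul_pow]
    simp only [smul_eq_C_mul]
    ring
  have key2 := Submodule.sum_mem (LinearMap.range (GamA F n (s - 1)) ⊔ IPa F n (s - 1))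
    (t := univ) fun t _ => Submodule.smul_mem _ (t ^ (Fintype.card F - 1 - k)) (key t)
  have e0 : ∀ (c : F) (x y : MvPolynomial (Fin (n + 1)) F), c • (h * x * y) = h * (c • x) * y :=
    fun c x y => by rw [mul_smul_comm, smul_mul_assoc]
  simp only [smul_sub, Finset.sum_sub_distrib, e0, ← Finset.mul_sum, ← Finset.sum_mul] at key2
  rw [hsdef, sum_shift_pow p r hs _ _ (by omega) (by omega), ← hsdef, ← Finset.sum_smul,
    FiniteField.sum_pow_lt_card_sub_one F _ (by omega), zero_smul, mul_zero, zero_mul, sub_zero,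
    mul_smul_comm, smul_mul_assoc, Submodule.smul_mem_iff _ (by simp)] at key2
  refine (congrArg (· ∈ LinearMap.range (GamA F n (s - 1)) ⊔ IPa F n (s - 1)) ?_).mp key2
  rw [monomial_eq, Finsupp.prod_fintype _ _ (by simp), C_1, one_mul, map_prod,
    ← Finset.mul_prod_erase univ _ (mem_univ i), hh, show s - 1 - k = α i % s by omega]
  simp only [map_pow, rename_X]
  have e1 : (X 0 : MvPolynomial (Fin (n + 1)) F) ^ (s - 1) = X 0 ^ (α i % s) * X 0 ^ k := by
    rw [← pow_add]; congr 1; omega
  have e2 : (X i.succ : MvPolynomial (Fin (n + 1)) F) ^ α i =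
      X i.succ ^ (α i % s) * (X i.succ ^ s) ^ (α i / s) := by
    rw [← pow_mul, ← pow_add, Nat.mod_add_div]
  rw [e1, e2]
  ring

lemma ker_Car_mem (hs : p ^ r < Fintype.card F) {v : MvPolynomial (Fin n) F}
    (hv : Car F n (p ^ r) v = 0) :
    X 0 ^ (p ^ r - 1) * rename Fin.succ v ∈
      LinearMap.range (GamA F n (p ^ r - 1)) ⊔ IPa F n (p ^ r - 1) := by
  have hN : 0 < p ^ r := pow_pos (Fact.out : p.Prime).pos r
  rw [v.as_sum, map_sum, Finset.mul_sum]
  refine Submodule.sum_mem _ fun α hα => ?_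
  obtain ⟨i, hi⟩ := exists_bad_of_Car_eq_zero hN hv hα
  rw [show monomial α (coeff α v) = coeff α v • monomial α (1 : F) by simp [smul_monomial],
    map_smul, mul_smul_comm]
  exact Submodule.smul_mem _ _ (bad_monomial_mem p r hs α i hi)

omit [Fintype F] in
lemma Car_mem_IG {v : MvPolynomial (Fin n) F} (hv : v ∈ Ia F n (p ^ r - 1)) :
    Car F n (p ^ r) v ∈ IG F n := by
  induction hv using Submodule.span_induction with
  | zero => simp
  | add x y _ _ hx hy => rw [map_add]; exact Submodule.add_mem _ hx hy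
  | smul a x _ hx => rw [map_smul]; exact Submodule.smul_mem _ _ hx
  | mem x hx =>
    obtain ⟨g, u, rfl⟩ := hx
    rw [map_sub, map_smul, Car_act, ← smul_sub, ← twGL_val]
    exact Submodule.smul_mem _ _ (act_sub_mem_IG _ _)

omit [Fintype F] in
lemma Car_mem_IP {v : MvPolynomial (Fin (n + 1)) F} (hv : v ∈ IPa F n (p ^ r - 1)) :
    Car F (n + 1) (p ^ r) v ∈ IP F n := by
  have hN : 0 < p ^ r := pow_pos (Fact.out : p.Prime).pos r
  induction hv using Submodule.span_induction with
  | zero => simp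
  | add x y _ _ hx hy => rw [map_add]; exact Submodule.add_mem _ hx hy
  | smul a x _ hx => rw [map_smul]; exact Submodule.smul_mem _ _ hx
  | mem x hx =>
    obtain ⟨g, u, hg, rfl⟩ := hx
    rw [map_sub, map_smul, Car_act, ← smul_sub, ← twGL_val]
    refine Submodule.smul_mem _ _ (act_sub_mem_IP _ (fun j => ?_) _)
    rw [twGL_val, tw, Matrix.map_apply]
    exact (congrArg (· ^ p ^ r) (hg j)).trans (zero_pow hN.ne')

lemma exists_lift_IG {w : MvPolynomial (Fin n) F} (hw : w ∈ IG F n) :
    ∃ v ∈ Ia F n (p ^ r - 1), Car F n (p ^ r) v = w := by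
  have hN : 0 < p ^ r := pow_pos (Fact.out : p.Prime).pos r
  induction hw using Submodule.span_induction with
  | zero => exact ⟨0, Submodule.zero_mem _, map_zero _⟩
  | add x y _ _ hx hy =>
    obtain ⟨a, ha, rfl⟩ := hx
    obtain ⟨b, hb, rfl⟩ := hy
    exact ⟨a + b, Submodule.add_mem _ ha hb, map_add _ _ _⟩
  | smul c x _ hx =>
    obtain ⟨a, ha, rfl⟩ := hx
    exact ⟨c • a, Submodule.smul_mem _ _ ha, map_smul _ _ _⟩
  | mem x hx =>
    obtain ⟨g, u, rfl⟩ := hx
    obtain ⟨g', rfl⟩ := twGL_surjective p r g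
    refine ⟨(g'.val.det ^ (p ^ r - 1))⁻¹ • _, Submodule.smul_mem _ _ (act_sub_mem_Ia _ g'
      (monomial (top n (p ^ r - 1)) 1 * expand (p ^ r) u)), ?_⟩
    rw [map_smul, map_sub, map_smul, Car_act, Car_top_mul_expand hN, ← smul_sub, smul_smul,
      inv_mul_cancel₀ (pow_ne_zero _ g'.det_ne_zero), one_smul, twGL_val]

end Frob

end Pool.Agent.Work.MP_a1538a_al.Hedge


/-!
The Moore determinant and the Dickson invariants.
-/

set_option autoImplicit false

namespace Pool.Agent.Work.MP_a1538a_al.Hedge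

open Finset MvPolynomial

variable {F : Type*} [Field F] [Fintype F] {n : ℕ}

variable (F n) in
/-- The Dickson invariants of all variables. -/
noncomputable def Dk : Fin n → MvPolynomial (Fin n) F :=
  dick (Fintype.card F) (ext0 (X : Fin n → MvPolynomial (Fin n) F)) n

lemma moore_eq : moore F n n = (Matrix.of fun i l : Fin n =>
    (X i : MvPolynomial (Fin n) F) ^ (Fintype.card F ^ (l : ℕ))).det := by
  simp only [moore, ext0_coe]

lemma map_moore {B : Type*} [CommRing B] (φ : MvPolynomial (Fin n) F →+* B) :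
    φ (moore F n n) = (Matrix.of fun i l : Fin n => φ (X i) ^ (Fintype.card F ^ (l : ℕ))).det := by
  rw [moore_eq, RingHom.map_det]
  congr 1
  ext i l
  simp

lemma aeval_moore {B : Type*} [CommRing B] [Algebra F B] (z : Fin n → B) :
    aeval z (moore F n n) = (Matrix.of fun i l : Fin n => z i ^ (Fintype.card F ^ (l : ℕ))).det := by
  have := map_moore (aeval z : MvPolynomial (Fin n) F →ₐ[F] B).toRingHom
  simpa using this

lemma aeval_mv_moore {B : Type*} [CommRing B] [Algebra F B] (g : Matrix (Fin n) (Fin n) F)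
    (z : Fin n → B) : aeval (mv g z) (moore F n n) = g.det • aeval z (moore F n n) := by
  rw [aeval_moore, aeval_moore, Algebra.smul_def, RingHom.map_det, ← Matrix.det_mul]
  congr 1
  ext i l
  simp only [mv, Matrix.of_apply, sum_pow_q F, smul_pow_q F]
  simp [Matrix.mul_apply, Algebra.smul_def]

lemma act_moore (g : Matrix (Fin n) (Fin n) F) : act g (moore F n n) = g.det • moore F n n := by
  have := aeval_mv_moore g (X : Fin n → MvPolynomial (Fin n) F)
  rw [aeval_X_left_apply] at this
  exact this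

lemma aeval_moore_eq_zero {K : Type*} [Field K] [Algebra F K] {y : Fin n → K} {h : Fin n → F}
    (h0 : h ≠ 0) (hy : ∑ i, h i • y i = 0) : aeval y (moore F n n) = 0 := by
  classical
  rw [aeval_moore, ← Matrix.exists_vecMul_eq_zero_iff]
  refine ⟨fun i => algebraMap F K (h i), fun h1 => h0 (funext fun i => ?_), funext fun l => ?_⟩
  · simpa using congrFun h1 i
  · have := congrArg (· ^ (Fintype.card F ^ (l : ℕ))) hy
    simp only [sum_pow_q F, smul_pow_q F] at this
    rw [zero_pow (pow_pos Fintype.card_pos _).ne'] at this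
    simpa [Matrix.vecMul, dotProduct, Algebra.smul_def] using this

lemma moore_succ : moore F (n + 1) (n + 1) = X 0 * Yv F n (moore F n n) := by
  have hq := one_lt_q F
  let B : Matrix (Fin (n + 1)) (Fin (n + 1)) (MvPolynomial (Fin (n + 1)) F) :=
    Matrix.of fun i l => Fin.cases (X i) (fun l' : Fin n =>
      (X i ^ Fintype.card F - X 0 ^ (Fintype.card F - 1) * X i) ^ (Fintype.card F ^ (l' : ℕ))) l
  rw [moore_eq, Matrix.det_eq_of_forall_col_eq_smul_add_pred (B := B)
    (fun l => (X 0 ^ (Fintype.card F - 1)) ^ (Fintype.card F ^ (l : ℕ))) (fun i => by simp [B])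
    (fun i l => by
      simp only [B, Matrix.of_apply, Fin.cases_succ, sub_pow_q F, mul_pow, Fin.val_succ,
        Fin.val_castSucc, ← pow_mul, ← pow_succ']
      ring),
    Matrix.det_succ_row_zero, Fin.sum_univ_succ, Finset.sum_eq_zero, add_zero]
  · rw [Yv, aeval_moore]
    simp only [Fin.val_zero, pow_zero, one_mul, Fin.succAbove_zero, B, Matrix.of_apply,
      Fin.cases_zero]
    rfl
  · intro l _
    simp only [B, Matrix.of_apply, Fin.cases_succ]
    rw [← pow_succ, Nat.sub_add_cancel hq.le, sub_self,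
      zero_pow (pow_pos Fintype.card_pos _).ne', mul_zero, zero_mul]

lemma moore_ne_zero : moore F n n ≠ 0 := by
  intro h
  have := Theta_LU (F := F) (A := F) (le_refl n) (fun _ => 0)
  rw [LU, h, zero_mul, map_zero] at this
  exact zero_ne_one this

lemma X_pow_eq_Dk (i : Fin n) : (X i : MvPolynomial (Fin n) F) ^ (Fintype.card F ^ n) =
    ∑ l : Fin n, Dk F n l * X i ^ (Fintype.card F ^ (l : ℕ)) := by
  have := pow_eq_dick (F := F) (ext0 (X : Fin n → MvPolynomial (Fin n) F)) i.2
  simpa [Dk] using this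

lemma act_Dk (g : Matrix.GeneralLinearGroup (Fin n) F) (l : Fin n) :
    act g.val (Dk F n l) = Dk F n l := by
  have h1 := moore_mul_eq_zero (act g.val).toRingHom (j := n)
    (fun l => act g.val (Dk F n l) - Dk F n l) (fun i => by
      have h2 := congrArg (act g.val) (X_pow_eq_Dk (F := F) i)
      simp only [map_pow, map_sum, map_mul] at h2
      have h3 : act g.val (X i) ^ (Fintype.card F ^ n) =
          ∑ l : Fin n, Dk F n l * act g.val (X i) ^ (Fintype.card F ^ (l : ℕ)) := by
        simp only [act_X, sum_pow_q F, smul_pow_q F, X_pow_eq_Dk, Finset.mul_sum,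
          Finset.smul_sum, mul_smul_comm]
        exact Finset.sum_comm
      simp only [ext0_coe, AlgHom.toRingHom_eq_coe, RingHom.coe_coe, sub_mul,
        Finset.sum_sub_distrib, mul_comm (act g.val (X i) ^ _)]
      rw [← h2, ← h3, sub_self]) l
  simp only [AlgHom.toRingHom_eq_coe, RingHom.coe_coe, act_moore] at h1
  exact sub_eq_zero.mp ((mul_eq_zero.mp h1).resolve_left
    (smul_ne_zero g.det_ne_zero moore_ne_zero))

lemma act_aeval_Dk (g : Matrix.GeneralLinearGroup (Fin n) F) (P : MvPolynomial (Fin n) F) :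
    act g.val (aeval (Dk F n) P) = aeval (Dk F n) P := by
  rw [comp_aeval_apply]; simp only [act_Dk]

lemma Theta_moore_mul_of_lt {A : Type*} [CommRing A] [Algebra F A] {j : ℕ} (h : j < n)
    (c : Fin j → A) (w : MvPolynomial (Fin n) F) :
    Theta F n (Fintype.card F) c (moore F n n * w) = 0 := by
  have hq := one_lt_q F
  have h1 := moore_mul_eq_zero (piT F n (Fintype.card F) c)
    (fun l : Fin n => (if (l : ℕ) = j then 1 else 0) -
      if h : (l : ℕ) < j then c ⟨l, h⟩ • 1 else 0)
    (fun i => by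
      simp only [mul_sub, Finset.sum_sub_distrib, mul_ite, mul_one, mul_zero, mul_dite,
        mul_smul_comm]
      rw [sum_dite_fin h.le (fun l : Fin j => c l • piT F n (Fintype.card F) c (ext0 X i) ^
        (Fintype.card F ^ (l : ℕ))), Finset.sum_eq_single ⟨j, h⟩, if_pos rfl, piT_rel hq,
        sub_self]
      · intro l _ hl
        exact if_neg fun h' => hl (Fin.ext h')
      · simp) ⟨j, h⟩
  simp only [if_true, lt_irrefl, dif_neg, not_false_iff, sub_zero, mul_one] at h1
  have := Theta_of_piT hq c (∅ : Finset Unit) (moore F n n * w) 0 0 (by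
    rw [map_mul, h1]; simp)
  simpa using this

lemma piT_moore_mul_sub {A : Type*} [CommRing A] [Algebra F A] (c : Fin n → A) (l : Fin n) :
    piT F n (Fintype.card F) c (moore F n n) *
      (piT F n (Fintype.card F) c (Dk F n l) - c l • 1) = 0 := by
  have hq := one_lt_q F
  refine moore_mul_eq_zero (piT F n (Fintype.card F) c)
    (fun l : Fin n => piT F n (Fintype.card F) c (Dk F n l) - c l • 1) (fun i => ?_) l
  have h2 := congrArg (piT F n (Fintype.card F) c) (X_pow_eq_Dk (F := F) i)
  simp only [map_pow, map_sum, map_mul] at h2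
  simp only [mul_sub, Finset.sum_sub_distrib, mul_smul_comm, mul_one]
  rw [← piT_rel hq, ext0_coe, h2, sub_eq_zero]
  exact Finset.sum_congr rfl fun l _ => mul_comm _ _

lemma Theta_moore_mul_aeval (w P : MvPolynomial (Fin n) F) :
    Theta F n (Fintype.card F) (X : Fin n → MvPolynomial (Fin n) F)
      (moore F n n * w * aeval (Dk F n) P) =
    P * Theta F n (Fintype.card F) (X : Fin n → MvPolynomial (Fin n) F) (moore F n n * w) := by
  have hq := one_lt_q F
  set π := piT F n (Fintype.card F) (X : Fin n → MvPolynomial (Fin n) F) with hπ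
  have h2 : ∀ P : MvPolynomial (Fin n) F,
      π (moore F n n) * π (aeval (Dk F n) P) = P • π (moore F n n) := by
    intro P
    induction P using MvPolynomial.induction_on with
    | C a =>
      rw [aeval_C, algebraMap_eq, ← map_mul, mul_comm]
      simp only [hπ, piT, RingHom.comp_apply]
      rw [map_mul (MvPolynomial.map _), map_C, ← smul_eq_C_mul]
      exact map_smul (Ideal.Quotient.mkₐ (MvPolynomial (Fin n) F) _) _ _
    | add p r hp hr => rw [map_add, map_add, mul_add, hp, hr, add_smul]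
    | mul_X p l hp =>
      have h3 := piT_moore_mul_sub (F := F) (X : Fin n → MvPolynomial (Fin n) F) l
      rw [mul_sub, sub_eq_zero, mul_smul_comm, mul_one, ← hπ] at h3
      rw [map_mul, map_mul, aeval_X, ← mul_assoc, hp, smul_mul_assoc, h3, smul_smul]
  have := Theta_of_piT hq (X : Fin n → MvPolynomial (Fin n) F) ({()} : Finset Unit)
    (moore F n n * w * aeval (Dk F n) P) (fun _ => P) (fun _ => moore F n n * w) (by
    rw [Finset.sum_singleton, map_mul, map_mul, ← hπ, mul_right_comm, h2, smul_mul_assoc])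
  rw [this, Finset.sum_singleton]

lemma exists_kappa : ∃ κ : MvPolynomial (Fin n) F, κ ≠ 0 ∧
    aeval (Dk F n) κ = moore F n n ^ (Fintype.card F - 1) := by
  classical
  have hq := one_lt_q F
  let Cp : Matrix (Fin n) (Fin n) (MvPolynomial (Fin n) F) :=
    Matrix.of fun k l => if (l : ℕ) + 1 < n then (if (k : ℕ) = l + 1 then 1 else 0) else X k
  have h1 : moore F n n ^ Fintype.card F = moore F n n * aeval (Dk F n) Cp.det := by
    have h2 := map_moore (frob F (MvPolynomial (Fin n) F) 1).toRingHom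
    simp only [AlgHom.toRingHom_eq_coe, RingHom.coe_coe, frob_apply, pow_one] at h2
    rw [h2, AlgHom.map_det, moore_eq, ← Matrix.det_mul]
    congr 1
    ext1 i l
    simp only [Matrix.of_apply, Matrix.mul_apply, AlgHom.mapMatrix_apply, Matrix.map_apply, Cp,
      ← pow_mul, ← pow_succ']
    split_ifs with h
    · rw [Finset.sum_eq_single ⟨l + 1, h⟩]
      · simp
      · intro k _ hk
        rw [if_neg fun h' => hk (Fin.ext h'), map_zero, mul_zero]
      · simp
    · rw [show (l : ℕ) + 1 = n by omega, X_pow_eq_Dk]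
      exact Finset.sum_congr rfl fun k _ => by rw [aeval_X, mul_comm]
  have h3 : aeval (Dk F n) Cp.det = moore F n n ^ (Fintype.card F - 1) := by
    apply mul_left_cancel₀ (moore_ne_zero (F := F) (n := n))
    rw [← h1, ← pow_succ', Nat.sub_add_cancel hq.le]
  refine ⟨Cp.det, fun h => ?_, h3⟩
  rw [h, map_zero] at h3
  exact pow_ne_zero _ moore_ne_zero h3.symm

lemma moore_mul_rem_mem (m : ℕ) (l : Fin n) :
    moore F n n * rem (Fintype.card F) (Dk F n) m l ∈ JN F n (Fintype.card F ^ m) := by
  have h1 := moore_mul_eq_zero (Ideal.Quotient.mk (JN F n (Fintype.card F ^ m)))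
    (fun l : Fin n => Ideal.Quotient.mk (JN F n (Fintype.card F ^ m))
      (rem (Fintype.card F) (Dk F n) m l))
    (fun i => by
      have h2 := pow_eq_sum_rem (F := F) (Dk F n) (X i : MvPolynomial (Fin n) F)
        (by simpa using X_pow_eq_Dk (F := F) i) m
      have h3 := X_pow_mem_JN (R := F) (Fintype.card F ^ m) i
      rw [← Ideal.Quotient.eq_zero_iff_mem, h2] at h3
      simp only [map_sum, smul_eq_mul, map_mul, map_pow] at h3
      rw [← h3, ext0_coe]
      exact Finset.sum_congr rfl fun l _ => mul_comm _ _) l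
  rwa [← map_mul, Ideal.Quotient.eq_zero_iff_mem] at h1

lemma null_sub_Lam {K : Type*} [Field K] [Algebra F K] {w : MvPolynomial (Fin n) F}
    (h : ∀ j < n, Theta F n (Fintype.card F) (X : Fin j → MvPolynomial (Fin j) F) w = 0) :
    Null K (w - Lam F n n (Theta F n (Fintype.card F) X w)) := by
  refine null_of_Theta fun j hj => ?_
  rw [map_sub]
  rcases hj.lt_or_eq with hj | rfl
  · rw [h j hj, Theta_Lam_of_lt hj, sub_self]
  · rw [Theta_Lam le_rfl, sub_self]

lemma Lam_eq (P : MvPolynomial (Fin n) F) : Lam F n n P =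
    moore F n n * (∏ i : Fin n, X i ^ bexp (Fintype.card F) n i) * aeval (Dk F n) P := rfl

lemma moore_pow_mul_mem_Ia (a : ℕ) {w : MvPolynomial (Fin n) F} (hw : w ∈ IG F n) :
    moore F n n ^ a * w ∈ Ia F n a := by
  induction hw using Submodule.span_induction with
  | zero => simp
  | add x y _ _ hx hy => rw [mul_add]; exact Submodule.add_mem _ hx hy
  | smul c x _ hx => rw [mul_smul_comm]; exact Submodule.smul_mem _ _ hx
  | mem x hx =>
    obtain ⟨g, u, rfl⟩ := hx
    have h1 := act_sub_mem_Ia a g (moore F n n ^ a * u)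
    rw [map_mul, map_pow, act_moore, smul_pow, smul_mul_assoc, ← smul_sub, ← mul_sub,
      Submodule.smul_mem_iff _ (pow_ne_zero _ g.det_ne_zero)] at h1
    exact h1

section Expand

variable (p : ℕ) [Fact p.Prime] [CharP F p] (r : ℕ)

lemma expand_moore : expand (p ^ r) (moore F n n) = moore F n n ^ p ^ r := by
  have h1 := map_moore (expand (p ^ r) : MvPolynomial (Fin n) F →ₐ[F] _).toRingHom
  have h2 := map_moore (iterateFrobenius (MvPolynomial (Fin n) F) p r)
  simp only [AlgHom.toRingHom_eq_coe, RingHom.coe_coe, expand_X, iterateFrobenius_def] at h1 h2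
  rw [h1, h2]

lemma expand_Dk (l : Fin n) : expand (p ^ r) (Dk F n l) = Dk F n l ^ p ^ r := by
  have h1 := moore_mul_eq_zero (iterateFrobenius (MvPolynomial (Fin n) F) p r) (j := n)
    (fun l => expand (p ^ r) (Dk F n l) - Dk F n l ^ p ^ r) (fun i => by
      have h2 := congrArg (expand (p ^ r)) (X_pow_eq_Dk (F := F) i)
      have h3 := congrArg (iterateFrobenius (MvPolynomial (Fin n) F) p r) (X_pow_eq_Dk (F := F) i)
      simp only [map_pow, map_sum, map_mul, expand_X] at h2 h3
      simp only [iterateFrobenius_def] at h3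
      simp only [ext0_coe, iterateFrobenius_def, sub_mul, Finset.sum_sub_distrib,
        mul_comm ((X i ^ p ^ r) ^ _)]
      rw [← h2, ← h3, sub_self]) l
  rw [iterateFrobenius_def] at h1
  exact sub_eq_zero.mp ((mul_eq_zero.mp h1).resolve_left (pow_ne_zero _ moore_ne_zero))

lemma expand_rem (j m l : ℕ) :
    expand (p ^ r) (rem (Fintype.card F) (X : Fin j → MvPolynomial (Fin j) F) m l) =
      rem (Fintype.card F) (X : Fin j → MvPolynomial (Fin j) F) m l ^ p ^ r := by
  have h1 := map_rem (Fintype.card F) (expand (p ^ r) : MvPolynomial (Fin j) F →ₐ[F] _).toRingHom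
    X m l
  have h2 := map_rem (Fintype.card F) (iterateFrobenius (MvPolynomial (Fin j) F) p r) X m l
  simp only [AlgHom.toRingHom_eq_coe, RingHom.coe_coe, expand_X, iterateFrobenius_def] at h1 h2
  rw [h1, h2]

lemma Car_moore_pow_mul (w : MvPolynomial (Fin n) F) :
    Car F n (p ^ r) (moore F n n ^ p ^ r * w) = moore F n n * Car F n (p ^ r) w := by
  rw [← expand_moore, mul_comm, Car_mul_expand (pow_pos (Fact.out : p.Prime).pos r), mul_comm]

end Expand

end Pool.Agent.Work.MP_a1538a_al.Hedge


/-!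
Functionals supported on infinitesimal neighbourhoods of points.
-/

set_option autoImplicit false

namespace Pool.Agent.Work.MP_a1538a_al.Hedge

open Finset MvPolynomial

section ProdFun

variable {A : Type*} [CommRing A] {n : ℕ}

lemma prodFun (T : MvPolynomial (Fin n) A →ₗ[A] A) (τ : Fin n → ℕ → A)
    (hT : ∀ (α : Fin n →₀ ℕ) (a : A), T (monomial α a) = a * ∏ i, τ i (α i))
    (P : Fin n → Polynomial A) :
    T (∏ i, Polynomial.aeval (X i : MvPolynomial (Fin n) A) (P i)) =
      ∏ i, ∑ k ∈ (P i).support, (P i).coeff k * τ i k := by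
  classical
  simp only [Polynomial.aeval_def, Polynomial.eval₂_eq_sum, Polynomial.sum_def]
  rw [Finset.prod_univ_sum, Finset.prod_univ_sum, map_sum]
  refine Finset.sum_congr rfl fun f _ => ?_
  have h1 : ∏ i, (algebraMap A (MvPolynomial (Fin n) A) ((P i).coeff (f i)) * X i ^ f i) =
      monomial (Finsupp.equivFunOnFinite.symm f) (∏ i, (P i).coeff (f i)) := by
    rw [monomial_eq, Finsupp.prod_fintype _ _ (by simp), Finset.prod_mul_distrib, map_prod]
    simp
  rw [h1, hT, Finset.prod_mul_distrib]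
  simp

lemma coeff_top_prod (N : ℕ) (P : Fin n → Polynomial A) :
    coeff (top n N) (∏ i, Polynomial.aeval (X i : MvPolynomial (Fin n) A) (P i)) =
      ∏ i, (P i).coeff N := by
  classical
  have := prodFun (lcoeff A (top n N)) (fun _ k => if k = N then 1 else 0) (fun α a => by
    rw [lcoeff_apply, coeff_monomial]
    by_cases h : α = top n N
    · simp [h]
    · obtain ⟨i, hi⟩ : ∃ i, α i ≠ N := by
        by_contra hc
        push Not at hc
        exact h (Finsupp.ext fun i => by simp [hc i])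
      rw [if_neg h, Finset.prod_eq_zero (mem_univ i) (if_neg hi), mul_zero]) P
  rw [lcoeff_apply] at this
  rw [this]
  refine Finset.prod_congr rfl fun i _ => ?_
  simp only [mul_ite, mul_one, mul_zero, Finset.sum_ite_eq', Polynomial.mem_support_iff]
  split_ifs with h
  · rfl
  · exact (not_not.mp h).symm

lemma coeff_top_succ (a : ℕ) (W : MvPolynomial (Fin n) A) :
    coeff (top (n + 1) a) (X 0 ^ a * rename Fin.succ W) = coeff (top n a) W := by
  have h1 : top (n + 1) a = Finsupp.single 0 a + Finsupp.mapDomain Fin.succ (top n a) := by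
    ext i
    refine Fin.cases ?_ (fun i => ?_) i
    · simp [Finsupp.mapDomain_of_notMem_range]
    · simp [Finsupp.mapDomain_apply (Fin.succ_injective n)]
  rw [h1, X_pow_eq_monomial, coeff_monomial_mul, one_mul,
    coeff_rename_mapDomain _ (Fin.succ_injective n)]

lemma coeff_univ (p : ℕ) [Fact p.Prime] [CharP A p] (r : ℕ) {q : ℕ} (hq : p ^ r ≤ q)
    (y W : A) (k : ℕ) :
    ((Polynomial.C y + (Polynomial.X ^ q - Polynomial.C W * Polynomial.X)) ^ k).coeff (p ^ r - 1) =
      (-W) ^ (p ^ r - 1) * if k % p ^ r = p ^ r - 1 then (y ^ p ^ r) ^ (k / p ^ r) else 0 := by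
  have hN : 0 < p ^ r := pow_pos (Fact.out : p.Prime).pos r
  set s := p ^ r with hs
  set Z : Polynomial A := Polynomial.C y + (Polynomial.X ^ q - Polynomial.C W * Polynomial.X)
  set Z' : Polynomial A := Polynomial.C (-W) * Polynomial.X + Polynomial.C y
  have h1 : Polynomial.X ^ s ∣ Z - Z' :=
    ⟨Polynomial.X ^ (q - s), by
      rw [← pow_add, Nat.add_sub_cancel' hq]; simp only [Z, Z', map_neg]; ring⟩
  have h2 : Polynomial.X ^ s ∣ Z' ^ s - Polynomial.C (y ^ s) :=
    ⟨Polynomial.C (-W) ^ s, by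
      simp only [Z']
      rw [hs, add_pow_char_pow, ← hs, mul_pow, map_pow]; ring⟩
  have h3 : Polynomial.X ^ s ∣ Z ^ k - Z' ^ (k % s) * Polynomial.C ((y ^ s) ^ (k / s)) := by
    have h4 := h1.trans (sub_dvd_pow_sub_pow Z Z' k)
    have h5 := (h2.trans (sub_dvd_pow_sub_pow _ _ (k / s))).mul_left (Z' ^ (k % s))
    have h6 := h4.add h5
    rw [mul_sub, ← pow_mul, ← pow_add, Nat.mod_add_div, ← map_pow] at h6
    simpa using h6
  have h4 := (Polynomial.X_pow_dvd_iff.mp h3) (s - 1) (by omega)
  rw [Polynomial.coeff_sub, sub_eq_zero] at h4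
  rw [h4, Polynomial.coeff_mul_C]
  have hd : Z'.natDegree ≤ 1 := Polynomial.natDegree_linear_le
  split_ifs with h
  · rw [h]
    have := Polynomial.coeff_pow_of_natDegree_le (m := s - 1) hd
    rw [mul_one] at this
    rw [this]
    simp [Z']
  · rw [Polynomial.coeff_eq_zero_of_natDegree_lt, zero_mul, mul_zero]
    have := Nat.mod_lt k hN
    refine lt_of_le_of_lt Polynomial.natDegree_pow_le ?_
    calc k % s * Z'.natDegree ≤ k % s * 1 := Nat.mul_le_mul_left _ hd
      _ < s - 1 := by omega

end ProdFun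

variable {F : Type*} [Field F] [Fintype F] {n : ℕ} {K : Type*} [Field K] [Algebra F K]

omit [Fintype F] in
lemma coeff_top_eta (p : ℕ) [Fact p.Prime] [CharP K p] (r : ℕ) {q : ℕ} (hq : p ^ r ≤ q)
    (y : Fin n → K) (W : K) (V : MvPolynomial (Fin n) F) :
    coeff (top n (p ^ r - 1)) (aeval (fun i => (C (y i) + (X i ^ q - C W * X i) :
      MvPolynomial (Fin n) K)) V) =
      ((-W) ^ (p ^ r - 1)) ^ n * aeval (fun i => y i ^ p ^ r) (Car F n (p ^ r) V) := by
  induction V using MvPolynomial.induction_on' with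
  | add a b ha hb => simp only [map_add, coeff_add, ha, hb, mul_add]
  | monomial α a =>
    have h1 : ∀ i, (C (y i) + (X i ^ q - C W * X i) : MvPolynomial (Fin n) K) ^ α i =
        Polynomial.aeval (X i) ((Polynomial.C (y i) +
          (Polynomial.X ^ q - Polynomial.C W * Polynomial.X)) ^ α i) := fun i => by simp
    rw [aeval_monomial, Finsupp.prod_fintype _ _ (by simp), ← Algebra.smul_def, coeff_smul]
    simp only [h1]
    rw [coeff_top_prod]
    simp only [coeff_univ p r hq]
    rw [Finset.prod_mul_distrib, Finset.prod_const, Finset.card_univ, Fintype.card_fin,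
      Car_monomial]
    split_ifs with h
    · rw [aeval_monomial, Finsupp.prod_fintype _ _ (by simp), Algebra.smul_def,
        Finset.prod_congr rfl fun i _ => if_pos (h i)]
      simp only [ediv_apply]
      ring
    · push Not at h
      obtain ⟨i, hi⟩ := h
      rw [Finset.prod_eq_zero (mem_univ i) (if_neg hi)]
      simp

variable (F) in
/-- Expansion of a polynomial at a point. -/
noncomputable def sh (z : Fin n → K) : MvPolynomial (Fin n) F →ₐ[F] MvPolynomial (Fin n) K :=
  aeval fun i => C (z i) + X i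

omit [Fintype F] in
lemma sh_act (g : Matrix (Fin n) (Fin n) F) (z : Fin n → K) (u : MvPolynomial (Fin n) F) :
    sh F z (act g u) = act (g.map (algebraMap F K)) (sh F (mv g z) u) := by
  have : (sh F z).comp (act g) =
      ((act (g.map (algebraMap F K))).restrictScalars F).comp (sh F (mv g z)) := by
    apply MvPolynomial.algHom_ext
    intro i
    have h0 : ∀ x : K, act (g.map (algebraMap F K)) (C x) = C x :=
      fun x => (act (g.map (algebraMap F K))).commutes x
    simp only [AlgHom.comp_apply, sh, aeval_X, AlgHom.restrictScalars_apply, map_add, h0]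
    simp only [act_X, map_sum, map_smul, aeval_X, mv, smul_add, Finset.sum_add_distrib,
      Matrix.map_apply, algebraMap_smul]
    congr 1
    refine Finset.sum_congr rfl fun j _ => ?_
    rw [Algebra.smul_def, Algebra.smul_def, map_mul]
    rfl
  exact DFunLike.congr_fun this u

variable (F) in
/-- The functional of value type in the first variable and of residue type in the others. -/
noncomputable def lam (a : ℕ) (z : Fin (n + 1) → K) : MvPolynomial (Fin (n + 1)) F →ₗ[F] K :=
  ((lcoeff K (top (n + 1) a)).restrictScalars F).comp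
    (((LinearMap.mulLeft K (X 0 ^ a)).restrictScalars F).comp (sh F z).toLinearMap)

omit [Fintype F] in
lemma lam_apply (a : ℕ) (z : Fin (n + 1) → K) (u : MvPolynomial (Fin (n + 1)) F) :
    lam F a z u = coeff (top (n + 1) a) (X 0 ^ a * sh F z u) := rfl

variable (p : ℕ) [Fact p.Prime] [CharP K p] (r : ℕ)

omit [Fintype F] in
lemma lam_act (g : Matrix.GeneralLinearGroup (Fin (n + 1)) F) (z : Fin (n + 1) → K)
    (u : MvPolynomial (Fin (n + 1)) F) :
    lam F (p ^ r - 1) z (act g.val u) = g.val.det ^ (p ^ r - 1) •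
      coeff (top (n + 1) (p ^ r - 1)) ((∑ j, (g⁻¹).val 0 j • X j) ^ (p ^ r - 1) *
        sh F (mv g.val z) u) := by
  have h1 : act (g.val.map (algebraMap F K)) (∑ j, (g⁻¹).val 0 j • X j) = X 0 := by
    have h2 : (∑ j, (g⁻¹).val 0 j • X j : MvPolynomial (Fin (n + 1)) K) =
        act ((g⁻¹).val.map (algebraMap F K)) (X 0) := by
      simp only [act_X, Matrix.map_apply, algebraMap_smul]
    rw [h2, act_act, ← Matrix.map_mul]
    simp
  rw [lam_apply, sh_act, ← h1, ← map_pow, ← map_mul, coeff_top_act_det, Algebra.smul_def,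
    map_pow, RingHom.map_det]
  rfl

omit [Fintype F] [Fact p.Prime] [CharP K p] in
lemma lam_cons (w : K) (z : Fin n → K) (u : MvPolynomial (Fin (n + 1)) F) {s : ℕ} (hs : 0 < s) :
    lam F (s - 1) (Fin.cons w z) u = coeff (top n (s - 1))
      (aeval (Fin.cons (C w) fun i => C (z i) + X i : Fin (n + 1) → MvPolynomial (Fin n) K) u) := by
  obtain ⟨W0, W1, h⟩ := exists_rename_add (sh F (Fin.cons w z : Fin (n + 1) → K) u)
  have h1 := congrArg (aeval (Fin.cons 0 X : Fin (n + 1) → MvPolynomial (Fin n) K)) h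
  have h2 : aeval (Fin.cons 0 X : Fin (n + 1) → MvPolynomial (Fin n) K)
      (sh F (Fin.cons w z : Fin (n + 1) → K) u) =
      aeval (Fin.cons (C w) fun i => C (z i) + X i : Fin (n + 1) → MvPolynomial (Fin n) K) u := by
    have : ((aeval (Fin.cons 0 X : Fin (n + 1) → MvPolynomial (Fin n) K)).restrictScalars F).comp
        (sh F (Fin.cons w z : Fin (n + 1) → K)) = aeval (Fin.cons (C w) fun i => C (z i) + X i :
          Fin (n + 1) → MvPolynomial (Fin n) K) := by
      apply MvPolynomial.algHom_ext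
      intro i
      refine Fin.cases ?_ (fun i => ?_) i <;> simp [sh]
    exact DFunLike.congr_fun this u
  rw [h2, map_add, map_mul, aeval_X, Fin.cons_zero, zero_mul, add_zero, aeval_rename] at h1
  have h3 : (Fin.cons 0 X : Fin (n + 1) → MvPolynomial (Fin n) K) ∘ Fin.succ = X := rfl
  rw [h3, aeval_X_left_apply] at h1
  rw [lam_apply, h, h1, mul_add, coeff_add, coeff_top_succ, ← mul_assoc, ← pow_succ,
    Nat.sub_add_cancel hs, coeff_top_of_mem_JN hs (Ideal.mul_mem_right _ _ (X_pow_mem_JN s 0)),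
    add_zero]

open Classical in
variable (F) in
/-- The weighted sum of the functionals over a slice. -/
noncomputable def LamS (a : ℕ) (U : Finset K) (W : K) : MvPolynomial (Fin (n + 1)) F →ₗ[F] K :=
  ∑ z ∈ (Fintype.piFinset (fun _ : Fin (n + 1) => U)).filter
    (fun z => z 0 ^ (Fintype.card F - 1) = W),
    (LinearMap.mulLeft F (z 0 ^ (Fintype.card F - 1 - a))).comp (lam F a z)

open Classical in
lemma LamS_apply (a : ℕ) (U : Finset K) (W : K) (u : MvPolynomial (Fin (n + 1)) F) :
    LamS F a U W u = ∑ z ∈ (Fintype.piFinset (fun _ : Fin (n + 1) => U)).filter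
      (fun z => z 0 ^ (Fintype.card F - 1) = W),
      z 0 ^ (Fintype.card F - 1 - a) * lam F a z u := by
  simp [LamS, LinearMap.sum_apply]

lemma LamS_IPa (hs : p ^ r ≤ Fintype.card F) {U : Finset K} (hU : IsSub F U) (W : K)
    {u : MvPolynomial (Fin (n + 1)) F} (hu : u ∈ IPa F n (p ^ r - 1)) :
    LamS F (p ^ r - 1) U W u = 0 := by
  classical
  revert u
  change IPa F n (p ^ r - 1) ≤ LinearMap.ker _
  rw [IPa, Submodule.span_le]
  rintro _ ⟨g, u, hg, rfl⟩
  have h0 : g.val 0 0 ≠ 0 := by
    intro h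
    apply g.det_ne_zero
    exact Matrix.det_eq_zero_of_row_eq_zero 0 fun j => Fin.cases h (fun j' => hg j') j
  have h1 : ∀ z : Fin (n + 1) → K, mv g.val z 0 = g.val 0 0 • z 0 := by
    intro z
    rw [mv, Fin.sum_univ_succ, Finset.sum_eq_zero, add_zero]
    intro j _
    rw [hg j, zero_smul]
  have h2 : g.val 0 0 • (∑ j, (g⁻¹).val 0 j • X j : MvPolynomial (Fin (n + 1)) K) = X 0 := by
    have h3 := congrFun (mv_mul g.val (g⁻¹).val (X : Fin (n + 1) → MvPolynomial (Fin (n + 1)) K)) 0
    rw [Units.mul_inv, mv_one, mv, Fin.sum_univ_succ, Finset.sum_eq_zero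
      (fun j _ => by rw [hg j, zero_smul]), add_zero] at h3
    exact h3.symm
  have h4 : ∀ z : Fin (n + 1) → K,
      z 0 ^ (Fintype.card F - 1 - (p ^ r - 1)) * lam F (p ^ r - 1) z (act g.val u) =
      g.val.det ^ (p ^ r - 1) • (mv g.val z 0 ^ (Fintype.card F - 1 - (p ^ r - 1)) *
        lam F (p ^ r - 1) (mv g.val z) u) := by
    intro z
    rw [lam_act, lam_apply, ← h2, h1, smul_pow, smul_pow, smul_mul_assoc, smul_mul_assoc,
      coeff_smul, mul_smul_comm, mul_smul_comm, smul_smul (g.val 0 0 ^ _), ← pow_add,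
      Nat.sub_add_cancel (by omega), FiniteField.pow_card_sub_one_eq_one _ h0, one_smul]
  simp only [SetLike.mem_coe, LinearMap.mem_ker, map_sub, map_smul]
  rw [LamS_apply, LamS_apply, Finset.sum_congr rfl fun z _ => h4 z, ← Finset.smul_sum,
    sum_mv g _ _ (fun z => z 0 ^ (Fintype.card F - 1 - (p ^ r - 1)) * lam F (p ^ r - 1) z u),
    sub_self]
  intro z hz
  rw [Finset.mem_filter] at hz ⊢
  refine ⟨hU.mv_mem _ hz.1, ?_⟩
  rw [h1, smul_pow, FiniteField.pow_card_sub_one_eq_one _ h0, one_smul, hz.2]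

omit [Fact p.Prime] [CharP K p] in
open Classical in
lemma sum_lin_pow_eq_zero {y : Fin n → K} {h : Fin n → F} (h0 : h ≠ 0)
    (hy : ∑ i, h i • y i = 0) (w : K) {a : ℕ} (ha : a < Fintype.card F - 1) :
    ∑ l ∈ univ.filter (fun l : Fin n → F => ∑ i, l i • y i = w),
      (∑ j, l j • X j : MvPolynomial (Fin n) K) ^ a = 0 := by
  set T := univ.filter (fun l : Fin n → F => ∑ i, l i • y i = w) with hT
  let ell : (Fin n → F) → MvPolynomial (Fin n) K := fun l => ∑ j, l j • X j
  have hne : ell h ≠ 0 := by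
    obtain ⟨k, hk⟩ := Function.ne_iff.mp h0
    intro h1
    have h2 := congrArg (coeff (Finsupp.single k 1)) h1
    simp only [ell, coeff_sum, coeff_smul, coeff_X, coeff_zero] at h2
    rw [Finset.sum_eq_single k] at h2
    · simp only [if_true] at h2
      exact hk (by simpa [Algebra.smul_def] using h2)
    · intro j _ hj
      rw [if_neg (by rwa [Finsupp.single_left_inj one_ne_zero]), smul_zero]
    · simp
  have h1 : ∀ t : F, ∑ l ∈ T, (ell l + t • ell h) ^ (Fintype.card F - 1) =
      ∑ l ∈ T, ell l ^ (Fintype.card F - 1) := by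
    intro t
    refine Finset.sum_nbij' (fun l => l + t • h) (fun l => l - t • h) ?_ ?_ ?_ ?_ ?_
    · intro l hl
      simp only [hT, mem_filter, mem_univ, true_and] at hl ⊢
      simp [add_smul, Finset.sum_add_distrib, hl, mul_smul, ← Finset.smul_sum, hy]
    · intro l hl
      simp only [hT, mem_filter, mem_univ, true_and] at hl ⊢
      simp [sub_smul, Finset.sum_sub_distrib, hl, mul_smul, ← Finset.smul_sum, hy]
    · intro l _; simp
    · intro l _; simp
    · intro l _
      simp [ell, add_smul, Finset.sum_add_distrib, mul_smul, Finset.smul_sum]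
  have h2 : ∑ l ∈ T, ∑ t : F, t ^ a • (ell l + t • ell h) ^ (Fintype.card F - 1) = 0 := by
    rw [Finset.sum_comm]
    simp only [← Finset.smul_sum, h1]
    rw [← Finset.sum_smul, FiniteField.sum_pow_lt_card_sub_one F _ ha, zero_smul]
  simp only [sum_shift _ _ ha] at h2
  rw [← Finset.smul_sum, ← Finset.sum_mul, smul_eq_zero, mul_eq_zero] at h2
  rcases h2 with h2 | h2 | h2
  · simp at h2
  · exact h2
  · exact absurd ((pow_eq_zero_iff (by omega)).mp h2) hne

omit [Fact p.Prime] [CharP K p] in
lemma exists_dep {U : Finset K} (hU : IsSub F U) (hc : #U < Fintype.card F ^ n) {y : Fin n → K}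
    (hy : y ∈ Fintype.piFinset fun _ : Fin n => U) :
    ∃ h : Fin n → F, h ≠ 0 ∧ ∑ i, h i • y i = 0 := by
  obtain ⟨a, _, b, _, hab, h⟩ := Finset.exists_ne_map_eq_of_card_lt_of_maps_to
    (s := (univ : Finset (Fin n → F))) (t := U) (by simpa using hc)
    (f := fun l => ∑ i, l i • y i) (fun l _ => hU.sum_mem _ _ fun i _ =>
      hU.smul_mem _ _ (Fintype.mem_piFinset.mp hy i))
  exact ⟨a - b, sub_ne_zero.mpr hab, by simp [sub_smul, Finset.sum_sub_distrib, h]⟩

open Classical in
lemma LamS_transfer (hs : p ^ r < Fintype.card F) {U : Finset K} (hU : IsSub F U)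
    (hc : #U < Fintype.card F ^ (n + 1)) {W : K} (hW : W ≠ 0)
    (g : (Fin (n + 1) → F) → Matrix.GeneralLinearGroup (Fin (n + 1)) F)
    (hg : ∀ l, l ≠ 0 → ∀ j, ((g l)⁻¹).val 0 j = l j) (u : MvPolynomial (Fin (n + 1)) F) :
    LamS F (p ^ r - 1) U W (∑ l ∈ univ.erase 0,
      ((g l).val.det ^ (p ^ r - 1))⁻¹ • act (g l).val u) = 0 := by
  have hN : 0 < p ^ r := pow_pos (Fact.out : p.Prime).pos r
  rw [LamS_apply, ← Finset.sum_fiberwise_of_maps_to (t := U) (g := fun z => z 0)
    (fun z hz => Fintype.mem_piFinset.mp (Finset.mem_filter.mp hz).1 0)]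
  refine Finset.sum_eq_zero fun w _ => ?_
  by_cases hw : w ^ (Fintype.card F - 1) = W
  swap
  · refine Finset.sum_eq_zero fun z hz => ?_
    simp only [Finset.mem_filter] at hz
    exact absurd (hz.2 ▸ hz.1.2) hw
  have hw0 : w ≠ 0 := by
    rintro rfl
    exact hW (hw ▸ zero_pow (by omega))
  rw [Finset.filter_filter, Finset.sum_congr (s₂ := (Fintype.piFinset
    (fun _ : Fin (n + 1) => U)).filter (fun z => z 0 = w)) (Finset.filter_congr fun z _ =>
      ⟨fun h => h.2, fun h => ⟨h ▸ hw, h⟩⟩) (g := fun z => w ^ (Fintype.card F - 1 - (p ^ r - 1)) *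
      lam F (p ^ r - 1) z (∑ l ∈ univ.erase 0, ((g l).val.det ^ (p ^ r - 1))⁻¹ • act (g l).val u))
      (fun z hz => by rw [(Finset.mem_filter.mp hz).2]), ← Finset.mul_sum]
  refine mul_eq_zero_of_right _ ?_
  simp only [map_sum, map_smul]
  rw [Finset.sum_comm]
  have h2 : ∀ l ∈ (univ : Finset (Fin (n + 1) → F)).erase 0,
      ∑ z ∈ (Fintype.piFinset (fun _ : Fin (n + 1) => U)).filter (fun z => z 0 = w),
        ((g l).val.det ^ (p ^ r - 1))⁻¹ • lam F (p ^ r - 1) z (act (g l).val u) =
      ∑ y ∈ Fintype.piFinset (fun _ : Fin (n + 1) => U),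
        if ∑ i, l i • y i = w then coeff (top (n + 1) (p ^ r - 1))
          ((∑ j, l j • X j) ^ (p ^ r - 1) * sh F y u) else 0 := by
    intro l hl
    rw [← sum_mv (g l) _ (fun z hz => hU.mv_mem _ hz), Finset.sum_filter]
    refine Finset.sum_congr rfl fun z _ => ?_
    have h3 : ∑ i, l i • mv (g l).val z i = z 0 := by
      have h4 : mv ((g l)⁻¹).val (mv (g l).val z) 0 = z 0 := by
        rw [← mv_mul]; simp
      rw [← h4]
      conv_rhs => rw [mv]
      exact Finset.sum_congr rfl fun i _ => by rw [hg l (Finset.ne_of_mem_erase hl)]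
    rw [h3, lam_act, smul_smul, inv_mul_cancel₀ (pow_ne_zero _ (g l).det_ne_zero), one_smul]
    simp only [hg l (Finset.ne_of_mem_erase hl)]
  rw [Finset.sum_congr rfl h2, Finset.sum_comm]
  refine Finset.sum_eq_zero fun y hy => ?_
  obtain ⟨h, h0, hh⟩ := exists_dep hU hc hy
  rw [Finset.sum_erase_eq_sub (mem_univ _), if_neg (by simpa using hw0.symm), sub_zero,
    ← Finset.sum_filter, ← coeff_sum, ← Finset.sum_mul, sum_lin_pow_eq_zero h0 hh w (by omega),
    zero_mul, coeff_zero]

end Pool.Agent.Work.MP_a1538a_al.Hedge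


/-!
A polynomial whose Cartier image has no low residues is, modulo the twisted augmentation
submodule, a multiple of a power of the Moore determinant.
-/

set_option autoImplicit false

namespace Pool.Agent.Work.MP_a1538a_al.Hedge

open Finset MvPolynomial

variable {F : Type*} [Field F] [Fintype F] {n : ℕ} {K : Type*} [Field K] [Algebra F K]

open Classical in
lemma exists_preimage' [IsAlgClosed K] {R : Type*} [CommRing R] [IsDomain R] [Algebra K R]
    [Algebra F R] [IsScalarTower F K R] {w : K} (hw : w ≠ 0) {U' : Finset K} (hU' : IsSub F U') :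
    ∃ U : Finset K, IsSub F U ∧ w ∈ U ∧ #U = #U' * Fintype.card F ∧ ∃ κ : K, κ ≠ 0 ∧
      ∀ (G : K → R) (e : R),
      ∑ x ∈ U, G (x ^ Fintype.card F - w ^ (Fintype.card F - 1) * x) *
        (algebraMap K R x + e) ^ (Fintype.card F - 1) = algebraMap K R κ * ∑ y ∈ U', G y := by
  have hq := one_lt_q F
  have hs : ∀ y : K, ∃ x : K, x ^ Fintype.card F - w ^ (Fintype.card F - 1) * x = y := by
    intro y
    have hlt : (Polynomial.C (w ^ (Fintype.card F - 1)) * Polynomial.X + Polynomial.C y).degree <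
        (Polynomial.X ^ Fintype.card F : Polynomial K).degree := by
      rw [Polynomial.degree_X_pow]
      exact lt_of_le_of_lt Polynomial.degree_linear_le (by exact_mod_cast hq)
    obtain ⟨x, hx⟩ := IsAlgClosed.exists_root (Polynomial.X ^ Fintype.card F -
      (Polynomial.C (w ^ (Fintype.card F - 1)) * Polynomial.X + Polynomial.C y)) (by
        rw [Polynomial.degree_sub_eq_left_of_degree_lt hlt, Polynomial.degree_X_pow]
        exact_mod_cast (by omega : Fintype.card F ≠ 0))
    refine ⟨x, ?_⟩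
    simp only [Polynomial.IsRoot.def, Polynomial.eval_sub, Polynomial.eval_pow, Polynomial.eval_X,
      Polynomial.eval_add, Polynomial.eval_mul, Polynomial.eval_C] at hx
    linear_combination hx
  choose s hs using hs
  let ι : K × F → K := fun x => s x.1 + x.2 • w
  have hι : Function.Injective ι := by
    rintro ⟨y, a⟩ ⟨y', a'⟩ h
    have h1 : y = y' := by
      rw [← hs y, ← hs y', ← phi_add_smul w (s y) a, ← phi_add_smul w (s y') a']
      change ι (y, a) ^ _ - _ * ι (y, a) = ι (y', a') ^ _ - _ * ι (y', a')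
      rw [h]
    subst h1
    have h2 : a • w = a' • w := add_left_cancel h
    rw [smul_left_injective F hw h2]
  have hmem : ∀ x, x ∈ (U' ×ˢ univ).image ι ↔
      x ^ Fintype.card F - w ^ (Fintype.card F - 1) * x ∈ U' := by
    intro x
    rw [Finset.mem_image]
    constructor
    · rintro ⟨⟨y, a⟩, h, rfl⟩
      change (s y + a • w) ^ _ - _ * (s y + a • w) ∈ U'
      rw [phi_add_smul, hs]
      exact (Finset.mem_product.mp h).1
    · intro h
      set y := x ^ Fintype.card F - w ^ (Fintype.card F - 1) * x with hy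
      obtain ⟨a, ha⟩ := exists_smul_of_phi (F := F) (x := x - s y) hw (by
        rw [sub_pow_q1 F]
        linear_combination - hs y - hy)
      exact ⟨(y, a), by simpa using h, by simp only [ι]; rw [← ha]; ring⟩
  refine ⟨(U' ×ˢ univ).image ι, ⟨?_, ?_, ?_⟩, ?_, ?_,
    (-(-1 : F) ^ (Fintype.card F - 1)) • w ^ (Fintype.card F - 1), ?_, fun G e => ?_⟩
  · rw [hmem, zero_pow (by omega), mul_zero, sub_zero]; exact hU'.zero_mem
  · intro x hx y hy
    rw [hmem] at hx hy ⊢
    have := hU'.add_mem _ hx _ hy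
    rw [add_pow_q1 F]
    refine (congrArg (· ∈ U') ?_).mp this
    ring
  · intro a x hx
    rw [hmem] at hx ⊢
    have := hU'.smul_mem a _ hx
    rwa [smul_pow_q1 F, mul_smul_comm, ← smul_sub]
  · rw [hmem, ← pow_succ, Nat.sub_add_cancel hq.le, sub_self]; exact hU'.zero_mem
  · rw [Finset.card_image_of_injective _ hι, Finset.card_product, Finset.card_univ]
  · exact smul_ne_zero (by simp) (pow_ne_zero _ hw)
  · rw [Finset.sum_image fun a _ b _ h => hι h, Finset.sum_product, Finset.mul_sum]
    refine Finset.sum_congr rfl fun y _ => ?_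
    simp only [ι, phi_add_smul, hs]
    have := sum_shift (F := F) (algebraMap K R (s y) + e) (algebraMap K R w) (j := 0) (by omega)
    simp only [pow_zero, one_smul, Nat.sub_zero, one_mul] at this
    have h1 : ∀ a : F, algebraMap K R (s y + a • w) + e =
        algebraMap K R (s y) + e + a • algebraMap K R w := fun a => by
      rw [map_add, Algebra.smul_def, Algebra.smul_def, map_mul,
        ← IsScalarTower.algebraMap_apply]
      ring
    simp only [h1]
    rw [← Finset.mul_sum, this, mul_comm, Algebra.smul_def, Algebra.smul_def, map_mul, map_pow,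
      ← IsScalarTower.algebraMap_apply]

lemma sum_phi' {U U' : Finset K} {κ : K} {φ : K → K}
    (h : ∀ (G : K → MvPolynomial (Fin n) K) (e : MvPolynomial (Fin n) K),
      ∑ x ∈ U, G (φ x) * (C x + e) ^ (Fintype.card F - 1) = C κ * ∑ y ∈ U', G y)
    (η : Fin n → MvPolynomial (Fin n) K) (v : MvPolynomial (Fin n) F) :
    ∑ z ∈ Fintype.piFinset (fun _ : Fin n => U),
      aeval (fun i => C (φ (z i)) + η i) v * ∏ i, (C (z i) + X i) ^ (Fintype.card F - 1) =
    C κ ^ n * ∑ y ∈ Fintype.piFinset (fun _ : Fin n => U'), aeval (fun i => C (y i) + η i) v := by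
  classical
  induction v using MvPolynomial.induction_on' with
  | monomial α a =>
    have h1 : ∏ i, (C κ * ∑ y ∈ U', (C y + η i) ^ α i) =
        ∑ z ∈ Fintype.piFinset (fun _ : Fin n => U),
        ∏ i, ((C (φ (z i)) + η i) ^ α i * (C (z i) + X i) ^ (Fintype.card F - 1)) := by
      rw [← Finset.prod_univ_sum (fun _ => U)
        (fun i x => (C (φ x) + η i) ^ α i * (C x + X i) ^ (Fintype.card F - 1))]
      exact Finset.prod_congr rfl fun i _ => (h (fun y => (C y + η i) ^ α i) (X i)).symm
    rw [Finset.prod_mul_distrib, Finset.prod_const, Finset.card_univ, Fintype.card_fin,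
      Finset.prod_univ_sum] at h1
    simp only [aeval_monomial, Finsupp.prod_fintype _ _ (fun _ => pow_zero _), mul_assoc,
      ← Finset.mul_sum, ← Finset.prod_mul_distrib]
    rw [← h1, mul_left_comm]
  | add p r hp hr => simp only [map_add, add_mul, Finset.sum_add_distrib, hp, hr, mul_add]

lemma aeval_cons_gamA (w : K) (z : Fin n → K) (a b : ℕ) (v : MvPolynomial (Fin n) F) :
    aeval (Fin.cons (C w) fun i => C (z i) + X i : Fin (n + 1) → MvPolynomial (Fin n) K)
      (gamA F n a b v) = C (w ^ (a + (Fintype.card F - 1) * (b + 1))) *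
        (aeval (fun i => C (z i ^ Fintype.card F - w ^ (Fintype.card F - 1) * z i) +
          (X i ^ Fintype.card F - C (w ^ (Fintype.card F - 1)) * X i)) v *
          ∏ i, (C (z i) + X i) ^ (Fintype.card F - 1)) := by
  rw [gamA_apply, map_mul, map_mul, Yv, comp_aeval_apply]
  simp only [map_pow, aeval_X, Fin.cons_zero, map_prod, Fin.cons_succ, map_sub, map_mul,
    mul_assoc, add_pow_q1 F]
  congr 4
  funext i
  ring

lemma Theta_eq_zero_of_sums [IsAlgClosed K] {j : ℕ} {w : MvPolynomial (Fin n) F}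
    (h : ∀ U : Finset K, IsSub F U → #U = Fintype.card F ^ j →
      ∑ z ∈ Fintype.piFinset (fun _ : Fin n => U), aeval z w = 0) :
    Theta F n (Fintype.card F) (X : Fin j → MvPolynomial (Fin j) F) w = 0 := by
  classical
  have hq := one_lt_q F
  have hne : a0 (X : Fin j → MvPolynomial (Fin j) F) ≠ 0 := by
    unfold a0
    split_ifs
    · exact neg_ne_zero.mpr (X_ne_zero _)
    · exact one_ne_zero
  have key : a0 (X : Fin j → MvPolynomial (Fin j) F) ^ (n + 1) *
      Theta F n (Fintype.card F) (X : Fin j → MvPolynomial (Fin j) F) w = 0 := by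
    apply map_injective (algebraMap F K) (algebraMap F K).injective
    apply MvPolynomial.funext
    intro c
    rw [eval_map, ← aeval_def, map_zero, map_zero, map_mul, map_pow]
    have h1 : aeval c (a0 (X : Fin j → MvPolynomial (Fin j) F)) = a0 c := by
      unfold a0
      split_ifs <;> simp
    rw [h1]
    by_cases hc : a0 c = 0
    · simp [hc]
    obtain ⟨U, hU, hf⟩ := exists_sub_of_a0_ne (F := F) c hc
    have hcard : #U = Fintype.card F ^ j := by
      rw [← fpol_natDegree hq c, hf, Lagrange.natDegree_nodal]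
    rw [map_Theta hq]
    simp only [aeval_X]
    rw [pow_succ', mul_assoc, ← sum_aeval_eq_Theta c U hf, h U hU hcard, mul_zero]
  exact (mul_eq_zero.mp key).resolve_left (pow_ne_zero _ hne)

open Classical in
lemma transfer_null {u : MvPolynomial (Fin (n + 1)) F} (hu : Null K u)
    (g : (Fin (n + 1) → F) → Matrix.GeneralLinearGroup (Fin (n + 1)) F)
    (hg : ∀ l, l ≠ 0 → ∀ j, ((g l)⁻¹).val 0 j = l j) {U : Finset K} (hU : IsSub F U) (w : K) :
    ∑ z ∈ (Fintype.piFinset (fun _ : Fin (n + 1) => U)).filter (fun z => z 0 = w),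
      aeval z (∑ l ∈ univ.erase 0, act (g l).val u) = 0 := by
  simp only [map_sum]
  rw [Finset.sum_comm]
  have h2 : ∀ l ∈ (univ : Finset (Fin (n + 1) → F)).erase 0,
      ∑ z ∈ (Fintype.piFinset (fun _ : Fin (n + 1) => U)).filter (fun z => z 0 = w),
        aeval z (act (g l).val u) =
      ∑ y ∈ Fintype.piFinset (fun _ : Fin (n + 1) => U),
        if ∑ i, l i • y i = w then aeval y u else 0 := by
    intro l hl
    rw [← sum_mv (g l) _ (fun z hz => hU.mv_mem _ hz), Finset.sum_filter]
    refine Finset.sum_congr rfl fun z _ => ?_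
    have h3 : ∑ i, l i • mv (g l).val z i = z 0 := by
      have h4 : mv ((g l)⁻¹).val (mv (g l).val z) 0 = z 0 := by
        rw [← mv_mul]; simp
      rw [← h4]
      conv_rhs => rw [mv]
      exact Finset.sum_congr rfl fun i _ => by rw [hg l (Finset.ne_of_mem_erase hl)]
    rw [h3, aeval_act]
  rw [Finset.sum_congr rfl h2, Finset.sum_comm]
  refine Eq.trans (Finset.sum_congr rfl fun y _ => ?_) (hu.weighted hU
    (fun V => ((if w ∈ V then Fintype.card F ^ (n + 1) / #V else 0 : ℕ) : K) -
    if 0 = w then 1 else 0))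
  rw [Finset.sum_erase_eq_sub (mem_univ _), ← card_fiber, ← Finset.sum_filter,
    Finset.sum_const, sub_mul, nsmul_eq_mul]
  simp

variable (p : ℕ) [Fact p.Prime] [CharP F p] (r : ℕ)

omit [Fintype F] in
lemma exists_root_sub [IsAlgClosed K] {U' : Finset K} (hU' : IsSub F U') :
    ∃ U : Finset K, IsSub F U ∧ #U = #U' ∧ ∀ G : (Fin n → K) → K,
      ∑ y ∈ Fintype.piFinset (fun _ : Fin n => U), G (fun i => y i ^ p ^ r) =
        ∑ y ∈ Fintype.piFinset (fun _ : Fin n => U'), G y := by
  classical
  have : CharP K p := charP_of_injective_algebraMap (algebraMap F K).injective p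
  have hN : 0 < p ^ r := pow_pos (Fact.out : p.Prime).pos r
  let e := iterateFrobeniusEquiv K p r
  have he : ∀ x, e x = x ^ p ^ r := fun x => rfl
  have hmem : ∀ x, x ∈ U'.map e.symm.toEquiv.toEmbedding ↔ x ^ p ^ r ∈ U' := fun x => by
    rw [Finset.mem_map_equiv]; rfl
  refine ⟨U'.map e.symm.toEquiv.toEmbedding, ⟨?_, fun x hx y hy => ?_, fun a x hx => ?_⟩,
    Finset.card_map _, fun G => ?_⟩
  · rw [hmem, zero_pow hN.ne']; exact hU'.zero_mem
  · rw [hmem] at hx hy ⊢
    rw [add_pow_char_pow]; exact hU'.add_mem _ hx _ hy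
  · rw [hmem] at hx ⊢
    rw [smul_pow]; exact hU'.smul_mem _ _ hx
  · refine Finset.sum_nbij' (fun y i => y i ^ p ^ r) (fun y i => e.symm (y i)) ?_ ?_ ?_ ?_ ?_
    · intro y hy
      rw [Fintype.mem_piFinset] at hy ⊢
      exact fun i => (hmem _).mp (hy i)
    · intro y hy
      rw [Fintype.mem_piFinset] at hy ⊢
      exact fun i => (hmem _).mpr (by rw [← he, e.apply_symm_apply]; exact hy i)
    · intro y _; funext i; exact e.symm_apply_apply _
    · intro y _; funext i; exact e.apply_symm_apply _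
    · intro y _; rfl

lemma low_of_LamS [IsAlgClosed K] (hs : p ^ r < Fintype.card F)
    (V : ℕ →₀ MvPolynomial (Fin n) F)
    (hV : ∀ U : Finset K, IsSub F U → #U < Fintype.card F ^ (n + 1) → ∀ W : K, W ≠ 0 →
      LamS F (p ^ r - 1) U W (GamA F n (p ^ r - 1) V) = 0) (b : ℕ) {j : ℕ} (hj : j < n) :
    Theta F n (Fintype.card F) (X : Fin j → MvPolynomial (Fin j) F)
      (Car F n (p ^ r) (V b)) = 0 := by
  classical
  have : CharP K p := charP_of_injective_algebraMap (algebraMap F K).injective p
  have hq := one_lt_q F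
  have hN : 0 < p ^ r := pow_pos (Fact.out : p.Prime).pos r
  refine Theta_eq_zero_of_sums (K := K) fun U' hU' hc' => ?_
  obtain ⟨U'', hU'', hc'', hG''⟩ := exists_root_sub (n := n) p r hU'
  let σ : ℕ → K := fun b => ∑ z ∈ Fintype.piFinset (fun _ : Fin n => U'),
    aeval z (Car F n (p ^ r) (V b))
  let P : Polynomial K := ∑ b ∈ V.support, Polynomial.monomial b (σ b)
  have hP : P = 0 := by
    apply Polynomial.eq_zero_of_infinite_isRoot
    refine Set.Infinite.mono (s := ({0} : Set K)ᶜ) ?_ (Set.finite_singleton 0).infinite_compl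
    intro W hW
    obtain ⟨w, rfl⟩ := IsAlgClosed.exists_pow_nat_eq W (by omega : 0 < Fintype.card F - 1)
    have hw : w ≠ 0 := by
      rintro rfl
      exact hW (zero_pow (by omega))
    obtain ⟨U, hU, hwU, hcU, κ, hκ, hG⟩ :=
      exists_preimage' (F := F) (R := MvPolynomial (Fin n) K) hw hU''
    have h1 := hV U hU (by
      rw [hcU, hc'', hc', ← pow_succ]
      exact Nat.pow_lt_pow_right hq (by omega)) _ (pow_ne_zero (Fintype.card F - 1) hw)
    set W := w ^ (Fintype.card F - 1) with hWdef
    rw [LamS_apply, sum_split U (fun x => x ^ (Fintype.card F - 1) = W)] at h1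
    have h2 : ∀ x ∈ U.filter (fun x => x ^ (Fintype.card F - 1) = W),
        ∑ z ∈ Fintype.piFinset (fun _ : Fin n => U),
          (Fin.cons x z : Fin (n + 1) → K) 0 ^ (Fintype.card F - 1 - (p ^ r - 1)) *
            lam F (p ^ r - 1) (Fin.cons x z) (GamA F n (p ^ r - 1) V) =
        W ^ 2 * κ ^ n * ((-W) ^ (p ^ r - 1)) ^ n * P.eval W := by
      intro x hx
      have hx' := (Finset.mem_filter.mp hx).2
      simp only [Fin.cons_zero, lam_cons _ _ _ hN, GamA, Finsupp.lsum_apply, Finsupp.sum, map_sum,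
        aeval_cons_gamA, hx', coeff_sum, coeff_C_mul, Finset.mul_sum]
      rw [Finset.sum_comm]
      simp only [P, Polynomial.eval_finsetSum, Polynomial.eval_monomial, Finset.mul_sum]
      refine Finset.sum_congr rfl fun b _ => ?_
      rw [← Finset.mul_sum, ← Finset.mul_sum, ← coeff_sum, sum_phi' (F := F) hG, ← map_pow,
        coeff_C_mul, coeff_sum]
      simp only [coeff_top_eta p r hs.le]
      rw [← Finset.mul_sum, hG'' (fun y => aeval y (Car F n (p ^ r) (V b))), ← mul_assoc,
        ← pow_add, show Fintype.card F - 1 - (p ^ r - 1) + (p ^ r - 1 +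
          (Fintype.card F - 1) * (b + 1)) = (Fintype.card F - 1) * (b + 2) by
            rw [Nat.mul_succ _ (b + 1)]; omega, pow_mul, hx']
      simp only [σ]
      ring
    rw [Finset.sum_congr rfl h2, Finset.sum_const] at h1
    have h3 : U.filter (fun x => x ^ (Fintype.card F - 1) = W) =
        (univ.erase (0 : F)).image (fun a => a • w) := by
      ext x
      simp only [mem_filter, mem_image, mem_erase, mem_univ, and_true]
      constructor
      · rintro ⟨_, h⟩
        obtain ⟨a, ha⟩ := exists_smul_of_phi (F := F) (x := x) hw (by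
          rw [← hWdef, ← h, ← pow_succ, Nat.sub_add_cancel hq.le, sub_self])
        refine ⟨a, ?_, ha.symm⟩
        rintro rfl
        rw [ha, zero_smul, zero_pow (by omega)] at h
        exact pow_ne_zero _ hw h.symm
      · rintro ⟨a, ha, rfl⟩
        exact ⟨hU.smul_mem _ _ hwU, by
          rw [smul_pow, FiniteField.pow_card_sub_one_eq_one _ ha, one_smul]⟩
    have h0 : ((Fintype.card F : ℕ) : K) = 0 := by
      rw [← map_natCast (algebraMap F K), Nat.cast_card_eq_zero, map_zero]
    rw [h3, Finset.card_image_of_injective _ (smul_left_injective F hw),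
      Finset.card_erase_of_mem (mem_univ _), Finset.card_univ, nsmul_eq_mul,
      Nat.cast_sub hq.le, h0, mul_eq_zero] at h1
    have hW0 : W ≠ 0 := pow_ne_zero _ hw
    exact (mul_eq_zero.mp (h1.resolve_left (by simp))).resolve_left
      (mul_ne_zero (mul_ne_zero (pow_ne_zero _ hW0) (pow_ne_zero _ hκ))
        (pow_ne_zero _ (pow_ne_zero _ (neg_ne_zero.mpr hW0))))
  by_cases hb : b ∈ V.support
  · have := congrArg (fun p => Polynomial.coeff p b) hP
    simpa [P, σ, Polynomial.finsetSum_coeff, Polynomial.coeff_monomial, hb,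
      Finsupp.mem_support_iff.mp hb] using this
  · simp [Finsupp.notMem_support_iff.mp hb]

theorem mem_Ia_sup_of_low (hs : p ^ r < Fintype.card F) {u : MvPolynomial (Fin n) F}
    (hu : ∀ j < n, Theta F n (Fintype.card F) (X : Fin j → MvPolynomial (Fin j) F)
      (Car F n (p ^ r) u) = 0) :
    ∃ w, u - moore F n n ^ p ^ r * w ∈ Ia F n (p ^ r - 1) := by
  classical
  let K := AlgebraicClosure F
  have : CharP K p := charP_of_injective_algebraMap (algebraMap F K).injective p
  have hq := one_lt_q F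
  have hN : 0 < p ^ r := pow_pos (Fact.out : p.Prime).pos r
  induction n with
  | zero => exact ⟨u, by simp [moore]⟩
  | succ n ih =>
    have hex : ∀ l : Fin (n + 1) → F, ∃ g : Matrix.GeneralLinearGroup (Fin (n + 1)) F,
        l ≠ 0 → ∀ j, (g⁻¹).val 0 j = l j := by
      intro l
      by_cases h : l = 0
      · exact ⟨1, fun h' => absurd h h'⟩
      · obtain ⟨g, hg⟩ := exists_GL_inv_row l h
        exact ⟨g, fun _ => hg⟩
    choose g hg using hex
    set u' := ∑ l ∈ univ.erase 0, ((g l).val.det ^ (p ^ r - 1))⁻¹ • act (g l).val u with hu'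
    have h1 : u' + u ∈ Ia F (n + 1) (p ^ r - 1) := by
      have h1 := Submodule.sum_mem (Ia F (n + 1) (p ^ r - 1)) (t := univ.erase 0)
        fun l _ => Submodule.smul_mem _ ((g l).val.det ^ (p ^ r - 1))⁻¹
          (act_sub_mem_Ia (p ^ r - 1) (g l) u)
      simp only [smul_sub, smul_smul, inv_mul_cancel₀ (pow_ne_zero _ (g _).det_ne_zero),
        one_smul] at h1
      rw [Finset.sum_sub_distrib, Finset.sum_const, Finset.card_erase_of_mem (mem_univ _),
        Finset.card_univ, Fintype.card_fun, Fintype.card_fin, ← Nat.cast_smul_eq_nsmul F,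
        Nat.cast_sub (Nat.one_le_pow _ _ Fintype.card_pos), Nat.cast_pow,
        Nat.cast_card_eq_zero, ← hu'] at h1
      simpa using h1
    obtain ⟨u0, V, hV⟩ := exists_decompA (a := p ^ r - 1) (by omega) u'
    have hCu' : Car F (n + 1) (p ^ r) u' =
        ∑ l ∈ univ.erase 0, act (twGL p r (g l)).val (Car F (n + 1) (p ^ r) u) := by
      rw [hu', map_sum]
      refine Finset.sum_congr rfl fun l _ => ?_
      rw [map_smul, Car_act, smul_smul, inv_mul_cancel₀ (pow_ne_zero _ (g _).det_ne_zero),
        one_smul, twGL_val]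
    let e : (Fin (n + 1) → F) ≃ (Fin (n + 1) → F) :=
      Equiv.piCongrRight fun _ => (iterateFrobeniusEquiv F p r).toEquiv
    have he : ∀ l j, e l j = l j ^ p ^ r := fun l j => rfl
    have he0 : ∀ l, e l = 0 ↔ l = 0 := fun l => by
      simp only [_root_.funext_iff, he, Pi.zero_apply, pow_eq_zero_iff hN.ne']
    have hu0 : Null K (Car F n (p ^ r) u0) := by
      intro y
      have hU := isSub_spanF (F := F) y
      have h2 := sumL_IP hU 0 (Car_mem_IP p r hV)
      have h3 : (Fintype.piFinset (fun _ : Fin (n + 1) => spanF F y)).filter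
          (fun z => z 0 ^ (Fintype.card F - 1) = 0) =
          (Fintype.piFinset (fun _ : Fin (n + 1) => spanF F y)).filter (fun z => z 0 = 0) :=
        Finset.filter_congr fun z _ => pow_eq_zero_iff (by omega)
      rw [h3, map_sub, map_sub, map_sub, map_sub, Car_X_pow_mul_rename hN] at h2
      have h4 : sumL F ((Fintype.piFinset (fun _ : Fin (n + 1) => spanF F y)).filter
          (fun z => z 0 = 0)) (Car F (n + 1) (p ^ r) u') = 0 := by
        have h5 := transfer_null (null_sub_Lam (K := K) hu)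
          (fun l => twGL p r (g (e.symm l))) (fun l hl j => by
            rw [twGL_inv, twGL_val, tw, Matrix.map_apply, hg _ (fun h => hl (by
              rw [← e.apply_symm_apply l, h]; exact (he0 0).mpr rfl)), ← he,
              e.apply_symm_apply]) hU 0
        rw [← Finset.sum_equiv e (s := univ.erase 0) (f := fun l => act (twGL p r (g l)).val
          (Car F (n + 1) (p ^ r) u - Lam F (n + 1) (n + 1) (Theta F (n + 1) (Fintype.card F) X
            (Car F (n + 1) (p ^ r) u)))) (fun l => by simp [he0]) (fun l _ => by simp)] at h5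
        simp only [map_sub, Finset.sum_sub_distrib] at h5
        rw [sumL_apply, hCu', sub_eq_zero.mp h5]
        refine Finset.sum_eq_zero fun z hz => ?_
        rw [map_sum]
        refine Finset.sum_eq_zero fun l _ => ?_
        rw [aeval_act, Lam_eq, map_mul, map_mul, aeval_mv_moore,
          aeval_moore_eq_zero (h := Pi.single 0 1) (by simp) (by
            simp [Pi.single_apply, (Finset.mem_filter.mp hz).2]), smul_zero, zero_mul, zero_mul]
      have h5 : sumL F ((Fintype.piFinset (fun _ : Fin (n + 1) => spanF F y)).filter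
          (fun z => z 0 = 0)) (Car F (n + 1) (p ^ r) (GamA F n (p ^ r - 1) V)) = 0 := by
        rw [GamA, Finsupp.lsum_apply, Finsupp.sum, map_sum, map_sum]
        refine Finset.sum_eq_zero fun b _ => ?_
        rw [gamA_apply, show p ^ r - 1 + (Fintype.card F - 1) * (b + 1) =
          (p ^ r - 1 + (Fintype.card F - 1) * (b + 1) - p ^ r) + p ^ r by
            rw [Nat.mul_succ]; omega, pow_add, mul_right_comm _ (X 0 ^ p ^ r), mul_right_comm _
            (X 0 ^ p ^ r), ← expand_X (p ^ r), Car_mul_expand hN, sumL_apply]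
        refine Finset.sum_eq_zero fun z hz => ?_
        rw [map_mul, aeval_X, (Finset.mem_filter.mp hz).2, mul_zero]
      rw [h4, h5, sub_zero, zero_sub, neg_eq_zero, sumL_apply,
        sum_split (spanF F y) (fun x => x = 0), Finset.sum_filter, Finset.sum_ite_eq',
        if_pos hU.zero_mem] at h2
      simpa only [aeval_cons_rename] using h2
    obtain ⟨v0, hv0, hv0'⟩ := exists_lift_IG p r (mem_IG_of_null hu0)
    obtain ⟨y, ⟨V', rfl⟩, z, hz, hyz⟩ := Submodule.mem_sup.mp
      (ker_Car_mem p r hs (v := u0 - v0) (by rw [map_sub, hv0', sub_self]))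
    have h2 : u' - GamA F n (p ^ r - 1) (V + V') ∈ IPa F n (p ^ r - 1) := by
      have h3 := Submodule.add_mem _ (Submodule.add_mem _ hV hz)
        (X_pow_mul_rename_mem _ (p ^ r - 1) hv0)
      rw [map_sub, mul_sub] at hyz
      refine (congrArg (· ∈ IPa F n (p ^ r - 1)) ?_).mp h3
      rw [map_add]
      linear_combination hyz
    have h3 : ∀ b, ∃ w, (V + V') b - moore F n n ^ p ^ r * w ∈ Ia F n (p ^ r - 1) := by
      intro b
      refine ih fun j hj => low_of_LamS (K := K) p r hs (V + V') (fun U hU hc W hW => ?_) b hj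
      have h4 := LamS_IPa p r hs.le hU W h2
      rw [map_sub, hu', LamS_transfer p r hs hU hc hW g hg, zero_sub, neg_eq_zero] at h4
      exact h4
    choose w hw using h3
    refine ⟨- ∑ b ∈ (V + V').support, X 0 ^ (p ^ r - 1 + (Fintype.card F - 1) * (b + 1) - p ^ r) *
      Yv F n (w b) * ∏ l : Fin n, X l.succ ^ (Fintype.card F - 1), ?_⟩
    have h4 := Submodule.sum_mem (IPa F n (p ^ r - 1)) (t := (V + V').support)
      fun b _ => gamA_mem_IPa _ b (hw b)
    have h5 := Submodule.sub_mem _ h1 (IPa_le_Ia _ (Submodule.add_mem _ h2 h4))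
    refine (congrArg (· ∈ Ia F (n + 1) (p ^ r - 1)) ?_).mp h5
    rw [GamA, Finsupp.lsum_apply, Finsupp.sum]
    simp only [map_sub, Finset.sum_sub_distrib, mul_neg, sub_neg_eq_add, Finset.mul_sum]
    have h6 : ∀ b, gamA F n (p ^ r - 1) b (moore F n n ^ p ^ r * w b) =
        moore F (n + 1) (n + 1) ^ p ^ r *
          (X 0 ^ (p ^ r - 1 + (Fintype.card F - 1) * (b + 1) - p ^ r) *
          Yv F n (w b) * ∏ l : Fin n, X l.succ ^ (Fintype.card F - 1)) := by
      intro b
      rw [gamA_apply, moore_succ, show p ^ r - 1 + (Fintype.card F - 1) * (b + 1) =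
          (p ^ r - 1 + (Fintype.card F - 1) * (b + 1) - p ^ r) + p ^ r by
            rw [Nat.mul_succ]; omega, pow_add, Nat.add_sub_cancel, map_mul, map_pow, mul_pow]
      ring
    simp only [h6]
    ring

end Pool.Agent.Work.MP_a1538a_al.Hedge


/-!
The residue functional along the `s`-th powers of the generic q-polynomial.
-/

set_option autoImplicit false

namespace Pool.Agent.Work.MP_a1538a_al.Hedge

open Finset MvPolynomial

section ThS

variable {A : Type*} [CommRing A] {n j : ℕ}

/-- One variable residue of `x^e dx / f(x)^s`. -/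
noncomputable def tauS (q s : ℕ) (c : Fin j → A) (e : ℕ) : A :=
  if e % s = s - 1 then tau q (fun l => c l ^ s) (e / s) else 0

variable (n) in
/-- The residue functional along the `s`-th powers of the `f(x_i)`. -/
noncomputable def ThS (q s : ℕ) (c : Fin j → A) : MvPolynomial (Fin n) A →ₗ[A] A :=
  (Theta A n q (fun l => c l ^ s)).comp (Car A n s)

lemma ThS_apply (q s : ℕ) (c : Fin j → A) (u : MvPolynomial (Fin n) A) :
    ThS n q s c u = Theta A n q (fun l => c l ^ s) (Car A n s u) := rfl

lemma ThS_monomial (q s : ℕ) (c : Fin j → A) (α : Fin n →₀ ℕ) (a : A) :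
    ThS n q s c (monomial α a) = a * ∏ i, tauS q s c (α i) := by
  rw [ThS_apply, Car_monomial]
  split_ifs with h
  · rw [Theta_monomial, smul_eq_mul]
    congr 1
    exact Finset.prod_congr rfl fun i _ => by rw [tauS, if_pos (h i), ediv_apply]
  · push Not at h
    obtain ⟨i, hi⟩ := h
    rw [map_zero, Finset.prod_eq_zero (mem_univ i) (by rw [tauS, if_neg hi]), mul_zero]

/-- The q-polynomial evaluated at a variable. -/
noncomputable def fx (q : ℕ) (c : Fin j → A) (i : Fin n) : MvPolynomial (Fin n) A :=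
  X i ^ (q ^ j) - ∑ l : Fin j, c l • X i ^ (q ^ (l : ℕ))

lemma fx_eq (q : ℕ) (c : Fin j → A) (i : Fin n) :
    fx q c i = Polynomial.aeval (X i) (fpol q c) := by
  simp [fx, fpol, smul_eq_C_mul]

variable (p : ℕ) [Fact p.Prime] [CharP A p] (r : ℕ)

lemma fx_pow (q : ℕ) (c : Fin j → A) (i : Fin n) :
    fx q c i ^ p ^ r = expand (p ^ r) (fx q (fun l => c l ^ p ^ r) i) := by
  simp only [fx, sub_pow_char_pow, sum_pow_char_pow, smul_pow, map_sub, map_sum, map_smul,
    map_pow, expand_X, ← pow_mul, mul_comm]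

lemma ThS_of_mem {q : ℕ} (hq : 1 < q) (c : Fin j → A) {u : MvPolynomial (Fin n) A}
    (hu : u ∈ Ideal.span (Set.range fun i => fx q c i ^ p ^ r)) : ThS n q (p ^ r) c u = 0 := by
  obtain ⟨v, rfl⟩ := Ideal.mem_span_range_iff_exists_fun.mp hu
  rw [map_sum]
  refine Finset.sum_eq_zero fun i _ => ?_
  rw [fx_pow, ThS_apply, Car_mul_expand (pow_pos (Fact.out : p.Prime).pos r)]
  exact Theta_fI hq _ (Ideal.mul_mem_left _ _ (Ideal.subset_span ⟨i, rfl⟩))

omit [Fact p.Prime] [CharP A p] in
lemma tauS_of_lt {q s : ℕ} (hs : 0 < s) (c : Fin j → A) {e : ℕ} (h : e + 1 < s * q ^ j) :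
    tauS q s c e = 0 := by
  rw [tauS]
  split_ifs with h1
  · apply tau_of_lt
    have h2 := Nat.mod_add_div e s
    have h3 : s * (e / s + 1) < s * q ^ j := by rw [Nat.mul_succ]; omega
    exact Nat.lt_of_mul_lt_mul_left h3
  · rfl

omit [Fact p.Prime] [CharP A p] in
lemma tauS_top {q s : ℕ} (hs : 0 < s) (c : Fin j → A) {e : ℕ} (h : e + 1 = s * q ^ j) :
    tauS q s c e = 1 := by
  obtain ⟨M, hM⟩ : ∃ M, q ^ j = M + 1 := ⟨q ^ j - 1, by
    rcases Nat.eq_zero_or_pos (q ^ j) with h0 | h0
    · rw [h0] at h; simp at h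
    · omega⟩
  have he : e = s - 1 + s * M := by rw [hM, Nat.mul_succ] at h; omega
  rw [tauS, he, Nat.add_mul_mod_self_left, Nat.mod_eq_of_lt (by omega), if_pos rfl,
    Nat.add_mul_div_left _ _ hs, Nat.div_eq_of_lt (by omega), zero_add]
  exact tau_top _ hM.symm

lemma tauS_fpol_pow [Nontrivial A] {q : ℕ} (hq : 1 < q) (c : Fin j → A) (k : ℕ) :
    ∑ e ∈ (fpol q c ^ (p ^ r - 1) * Polynomial.X ^ k).support,
      (fpol q c ^ (p ^ r - 1) * Polynomial.X ^ k).coeff e * tauS q (p ^ r) c e = tau q c k := by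
  have hN : 0 < p ^ r := pow_pos (Fact.out : p.Prime).pos r
  let T : Polynomial A →ₗ[A] A := (ThS 1 q (p ^ r) c).comp
    (Polynomial.aeval (X 0 : MvPolynomial (Fin 1) A)).toLinearMap
  have hT : ∀ P : Polynomial A, T P = ∑ e ∈ P.support, P.coeff e * tauS q (p ^ r) c e := by
    intro P
    have := prodFun (ThS 1 q (p ^ r) c) (fun _ => tauS q (p ^ r) c) (ThS_monomial q _ c)
      (fun _ => P)
    simpa [T] using this
  rw [← hT]
  have hm : (fpol q c ^ (p ^ r - 1)).Monic := (fpol_monic hq c).pow _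
  have hd : (fpol q c ^ (p ^ r - 1)).natDegree = (p ^ r - 1) * q ^ j := by
    rw [(fpol_monic hq c).natDegree_pow, fpol_natDegree hq]
  have hpos : 0 < q ^ j := by positivity
  have hmul : p ^ r * q ^ j = (p ^ r - 1) * q ^ j + q ^ j := by
    rw [← Nat.succ_mul, Nat.succ_eq_add_one, Nat.sub_add_cancel hN]
  induction k using Nat.strong_induction_on with
  | _ k ih =>
    by_cases h : q ^ j ≤ k
    · have h1 : T (fpol q c ^ (p ^ r - 1) * Polynomial.X ^ (k - q ^ j) * fpol q c) = 0 := by
        change ThS 1 q (p ^ r) c (Polynomial.aeval _ _) = 0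
        apply ThS_of_mem p r hq
        rw [mul_right_comm, ← pow_succ, Nat.sub_add_cancel hN, map_mul, map_pow, ← fx_eq]
        exact Ideal.mul_mem_right _ _ (Ideal.subset_span ⟨0, rfl⟩)
      have h2 : fpol q c ^ (p ^ r - 1) * Polynomial.X ^ (k - q ^ j) * fpol q c =
          fpol q c ^ (p ^ r - 1) * Polynomial.X ^ k - ∑ l : Fin j, c l •
            (fpol q c ^ (p ^ r - 1) * Polynomial.X ^ (k - q ^ j + q ^ (l : ℕ))) := by
        conv_lhs => rw [mul_assoc]; arg 2; rw [fpol]
        rw [mul_sub, ← pow_add, Nat.sub_add_cancel h, mul_sub, Finset.mul_sum, Finset.mul_sum]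
        congr 1
        refine Finset.sum_congr rfl fun l _ => ?_
        rw [Polynomial.smul_eq_C_mul, pow_add]; ring
      rw [h2, map_sub, sub_eq_zero, map_sum] at h1
      rw [h1, tau_of_le hq c h]
      refine Finset.sum_congr rfl fun l _ => ?_
      have : q ^ (l : ℕ) < q ^ j := Nat.pow_lt_pow_right hq l.2
      rw [map_smul, ih _ (by omega), smul_eq_mul]
    · have hm' : (fpol q c ^ (p ^ r - 1) * Polynomial.X ^ k).Monic :=
        hm.mul (Polynomial.monic_X_pow k)
      have hd' : (fpol q c ^ (p ^ r - 1) * Polynomial.X ^ k).natDegree =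
          (p ^ r - 1) * q ^ j + k := by
        rw [hm.natDegree_mul (Polynomial.monic_X_pow k), hd, Polynomial.natDegree_X_pow]
      rw [hT]
      by_cases h' : k + 1 = q ^ j
      · rw [tau_top _ h', Finset.sum_eq_single ((p ^ r - 1) * q ^ j + k),
          tauS_top hN c (by omega), ← hd', hm'.coeff_natDegree, mul_one]
        · intro e he hne
          have := Polynomial.le_natDegree_of_mem_supp e he
          rw [tauS_of_lt hN c (by omega), mul_zero]
        · intro h1
          rw [Polynomial.notMem_support_iff.mp h1, zero_mul]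
      · rw [tau_of_lt _ (by omega)]
        refine Finset.sum_eq_zero fun e he => ?_
        have := Polynomial.le_natDegree_of_mem_supp e he
        rw [tauS_of_lt hN c (by omega), mul_zero]

lemma ThS_prod_fx [Nontrivial A] {q : ℕ} (hq : 1 < q) (c : Fin j → A)
    (T : MvPolynomial (Fin n) A) :
    ThS n q (p ^ r) c ((∏ i, fx q c i ^ (p ^ r - 1)) * T) = Theta A n q c T := by
  induction T using MvPolynomial.induction_on' with
  | add a b ha hb => simp only [mul_add, map_add, ha, hb]
  | monomial α a =>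
    have h1 : (∏ i, fx q c i ^ (p ^ r - 1)) * monomial α a = a • ∏ i, Polynomial.aeval (X i)
        (fpol q c ^ (p ^ r - 1) * Polynomial.X ^ α i) := by
      rw [monomial_eq, Finsupp.prod_fintype _ _ (by simp), smul_eq_C_mul]
      simp only [map_mul, map_pow, Polynomial.aeval_X, ← fx_eq, Finset.prod_mul_distrib]
      ring
    rw [h1, map_smul, prodFun (ThS n q (p ^ r) c) (fun _ => tauS q (p ^ r) c)
      (ThS_monomial q _ c), Theta_monomial]
    simp only [tauS_fpol_pow p r hq]

end ThS

variable {F : Type*} [Field F] [Fintype F] {n : ℕ}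

variable (F n) in
/-- Difference of a Dickson invariant and the generic coefficient. -/
noncomputable def del (l : Fin n) : MvPolynomial (Fin n) (MvPolynomial (Fin n) F) :=
  map (algebraMap F (MvPolynomial (Fin n) F)) (Dk F n l) - C (X l)

variable (F n) in
/-- The functional on the free part. -/
noncomputable def PhiS (s : ℕ) : MvPolynomial (Fin n) F →ₗ[F] MvPolynomial (Fin n) F :=
  ((ThS n (Fintype.card F) s (X : Fin n → MvPolynomial (Fin n) F)).restrictScalars F).comp
    (((LinearMap.mulRight (MvPolynomial (Fin n) F)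
      (∏ l, del F n l ^ (s - 1))).restrictScalars F).comp
      (mapAlgHom (Algebra.ofId F (MvPolynomial (Fin n) F))).toLinearMap)

lemma PhiS_apply (s : ℕ) (u : MvPolynomial (Fin n) F) :
    PhiS F n s u = ThS n (Fintype.card F) s (X : Fin n → MvPolynomial (Fin n) F)
      (map (algebraMap F (MvPolynomial (Fin n) F)) u * ∏ l, del F n l ^ (s - 1)) := rfl

lemma ThS_map (s : ℕ) (w : MvPolynomial (Fin n) F) :
    ThS n (Fintype.card F) s (X : Fin n → MvPolynomial (Fin n) F)
      (map (algebraMap F (MvPolynomial (Fin n) F)) w) =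
    expand s (Theta F n (Fintype.card F) (X : Fin n → MvPolynomial (Fin n) F) (Car F n s w)) := by
  rw [ThS_apply, Car_map, Theta_map, map_Theta (one_lt_q F)]
  simp only [expand_X]

lemma fx_eq_sum (i : Fin n) : fx (Fintype.card F) (X : Fin n → MvPolynomial (Fin n) F) i =
    ∑ l : Fin n, X i ^ (Fintype.card F ^ (l : ℕ)) * del F n l := by
  have h := congrArg (map (algebraMap F (MvPolynomial (Fin n) F))) (X_pow_eq_Dk (F := F) i)
  simp only [map_pow, map_X, map_sum, map_mul] at h
  simp only [fx, del, h, mul_sub, Finset.sum_sub_distrib, smul_eq_C_mul, mul_comm]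

lemma moore_mul_del_mem (l : Fin n) :
    map (algebraMap F (MvPolynomial (Fin n) F)) (moore F n n) * del F n l ∈
      Ideal.span (Set.range fun i : Fin n =>
        fx (Fintype.card F) (X : Fin n → MvPolynomial (Fin n) F) i) := by
  have h := piT_moore_mul_sub (F := F) (X : Fin n → MvPolynomial (Fin n) F) l
  change _ ∈ fI n (Fintype.card F) (X : Fin n → MvPolynomial (Fin n) F)
  have h1 : Ideal.Quotient.mk (fI n (Fintype.card F) (X : Fin n → MvPolynomial (Fin n) F))
      (C (X l)) = (X l : MvPolynomial (Fin n) F) • 1 := by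
    rw [← Ideal.Quotient.mkₐ_eq_mk (MvPolynomial (Fin n) F), ← algebraMap_eq, AlgHom.commutes,
      Algebra.algebraMap_eq_smul_one]
  rw [← Ideal.Quotient.eq_zero_iff_mem, ← h, del, map_mul, map_sub, h1]
  rfl

lemma mul_ThS (s : ℕ) (a : MvPolynomial (Fin n) F)
    (w : MvPolynomial (Fin n) (MvPolynomial (Fin n) F)) :
    a * ThS n (Fintype.card F) s (X : Fin n → MvPolynomial (Fin n) F) w =
      ThS n (Fintype.card F) s (X : Fin n → MvPolynomial (Fin n) F) (C a * w) := by
  rw [← smul_eq_C_mul, map_smul, smul_eq_mul]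

variable (p : ℕ) [Fact p.Prime] [CharP F p] (r : ℕ)

lemma PhiS_eq_sum (u : MvPolynomial (Fin n) F) :
    PhiS F n (p ^ r) u = ∑ ρ ∈ Fintype.piFinset (fun _ : Fin n => range (p ^ r)),
      (∏ l, X l ^ (p ^ r - 1 - ρ l)) * expand (p ^ r) (Theta F n (Fintype.card F)
        (X : Fin n → MvPolynomial (Fin n) F) (Car F n (p ^ r) (u * ∏ l, Dk F n l ^ ρ l))) := by
  rw [PhiS_apply]
  simp only [del, sub_pow_char_pow_pred]
  rw [Finset.prod_univ_sum, Finset.mul_sum, map_sum]
  refine Finset.sum_congr rfl fun ρ _ => ?_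
  rw [← ThS_map, mul_ThS, Finset.prod_mul_distrib]
  refine congrArg (ThS n (Fintype.card F) (p ^ r) (X : Fin n → MvPolynomial (Fin n) F)) ?_
  simp only [map_mul, map_prod, map_pow]
  ring

lemma ThS_moore_del (l : Fin n) (T : MvPolynomial (Fin n) (MvPolynomial (Fin n) F)) :
    ThS n (Fintype.card F) (p ^ r) (X : Fin n → MvPolynomial (Fin n) F)
      (map (algebraMap F (MvPolynomial (Fin n) F)) (moore F n n) ^ p ^ r *
        del F n l ^ p ^ r * T) = 0 := by
  apply ThS_of_mem p r (one_lt_q F)
  rw [← mul_pow]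
  exact Ideal.mul_mem_right _ _ (pow_mem_span_pow p r _ (moore_mul_del_mem l))

lemma PhiS_mul_aeval (w P : MvPolynomial (Fin n) F) :
    PhiS F n (p ^ r) (moore F n n ^ p ^ r * w * aeval (Dk F n) P) =
      P * PhiS F n (p ^ r) (moore F n n ^ p ^ r * w) := by
  classical
  have hN : 0 < p ^ r := pow_pos (Fact.out : p.Prime).pos r
  induction P using MvPolynomial.induction_on generalizing w with
  | C a =>
    rw [aeval_C, mul_comm, ← Algebra.smul_def, map_smul, smul_eq_C_mul]
  | add a b ha hb => rw [map_add, mul_add, map_add, ha, hb, add_mul]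
  | mul_X P l hP =>
    have h1 : PhiS F n (p ^ r) (moore F n n ^ p ^ r * (w * Dk F n l)) =
        X l * PhiS F n (p ^ r) (moore F n n ^ p ^ r * w) := by
      have h2 := ThS_moore_del p r l (map (algebraMap F (MvPolynomial (Fin n) F)) w *
        ∏ k ∈ univ.erase l, del F n k ^ (p ^ r - 1))
      rw [PhiS_apply, PhiS_apply, mul_ThS, ← sub_eq_zero, ← map_sub, ← h2,
        ← Finset.mul_prod_erase univ _ (mem_univ l)]
      congr 1
      have h3 : del F n l ^ p ^ r = (map (algebraMap F (MvPolynomial (Fin n) F)) (Dk F n l) -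
          C (X l)) * del F n l ^ (p ^ r - 1) := by
        change _ = del F n l * _
        rw [← pow_succ', Nat.sub_add_cancel hN]
      rw [h3]
      simp only [map_mul, map_pow]
      ring
    rw [map_mul (aeval (Dk F n)), aeval_X, show moore F n n ^ p ^ r * w * (aeval (Dk F n) P * Dk F n l) =
      moore F n n ^ p ^ r * (w * Dk F n l) * aeval (Dk F n) P by ring, hP, h1, mul_assoc]

lemma PhiS_moore_pow (w : MvPolynomial (Fin n) F) :
    PhiS F n (p ^ r) (moore F n n ^ (p ^ r - 1) * (moore F n n ^ p ^ r * w)) =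
      Theta F n (Fintype.card F) (X : Fin n → MvPolynomial (Fin n) F)
        (moore F n n ^ p ^ r * w) := by
  have h1 := prod_pow_sub_det_mem p r (Matrix.of fun i l : Fin n =>
    (X i : MvPolynomial (Fin n) (MvPolynomial (Fin n) F)) ^ (Fintype.card F ^ (l : ℕ))) (del F n)
  have h2 := map_moore (map (algebraMap F (MvPolynomial (Fin n) F)) :
    MvPolynomial (Fin n) F →+* _)
  simp only [map_X] at h2
  simp only [Matrix.of_apply, ← fx_eq_sum, ← h2] at h1
  obtain ⟨v, hv⟩ := Ideal.mem_span_range_iff_exists_fun.mp h1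
  rw [← Theta_map, ← ThS_prod_fx p r (one_lt_q F), PhiS_apply, eq_comm, ← sub_eq_zero, ← map_sub]
  have h3 : (∏ i, fx (Fintype.card F) (X : Fin n → MvPolynomial (Fin n) F) i ^ (p ^ r - 1)) *
      map (algebraMap F (MvPolynomial (Fin n) F)) (moore F n n ^ p ^ r * w) -
      map (algebraMap F (MvPolynomial (Fin n) F))
        (moore F n n ^ (p ^ r - 1) * (moore F n n ^ p ^ r * w)) * ∏ l, del F n l ^ (p ^ r - 1) =
      ∑ l, map (algebraMap F (MvPolynomial (Fin n) F)) (moore F n n) ^ p ^ r *
        del F n l ^ p ^ r * (v l * map (algebraMap F (MvPolynomial (Fin n) F)) w) := by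
    have h4 : ∑ l, map (algebraMap F (MvPolynomial (Fin n) F)) (moore F n n) ^ p ^ r *
        del F n l ^ p ^ r * (v l * map (algebraMap F (MvPolynomial (Fin n) F)) w) =
        (∑ l, v l * del F n l ^ p ^ r) * (map (algebraMap F (MvPolynomial (Fin n) F))
          (moore F n n) ^ p ^ r * map (algebraMap F (MvPolynomial (Fin n) F)) w) := by
      rw [Finset.sum_mul]
      exact Finset.sum_congr rfl fun l _ => by ring
    rw [h4, hv]
    simp only [map_mul, map_pow]
    ring
  rw [h3, map_sum]
  exact Finset.sum_eq_zero fun l _ => ThS_moore_del p r l _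

theorem PhiS_moore (hs : p ^ r ≤ Fintype.card F) (w : MvPolynomial (Fin n) F) :
    PhiS F n (p ^ r) (moore F n n ^ p ^ r * w) =
      Theta F n (Fintype.card F) (X : Fin n → MvPolynomial (Fin n) F) (moore F n n * w) := by
  have hN : 0 < p ^ r := pow_pos (Fact.out : p.Prime).pos r
  have hq := one_lt_q F
  obtain ⟨κ, hκ, hκ'⟩ := exists_kappa (F := F) (n := n)
  apply mul_left_cancel₀ hκ
  have h1 := PhiS_moore_pow p r (moore F n n ^ (Fintype.card F - p ^ r) * w)
  rw [← PhiS_mul_aeval, ← Theta_moore_mul_aeval, hκ']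
  have e1 : moore F n n ^ p ^ r * w * moore F n n ^ (Fintype.card F - 1) =
      moore F n n ^ (p ^ r - 1) *
        (moore F n n ^ p ^ r * (moore F n n ^ (Fintype.card F - p ^ r) * w)) := by
    rw [show Fintype.card F - 1 = (p ^ r - 1) + (Fintype.card F - p ^ r) by omega, pow_add]
    ring
  have e2 : moore F n n * w * moore F n n ^ (Fintype.card F - 1) =
      moore F n n ^ p ^ r * (moore F n n ^ (Fintype.card F - p ^ r) * w) := by
    rw [← mul_assoc, ← pow_add, Nat.add_sub_cancel' hs, mul_right_comm, ← pow_succ',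
      Nat.sub_add_cancel hq.le]
  rw [e1, e2, h1]

lemma PhiS_Ia {u : MvPolynomial (Fin n) F} (hu : u ∈ Ia F n (p ^ r - 1)) :
    PhiS F n (p ^ r) u = 0 := by
  rw [PhiS_eq_sum]
  refine Finset.sum_eq_zero fun ρ _ => ?_
  have h1 : u * ∏ l, Dk F n l ^ ρ l ∈ Ia F n (p ^ r - 1) := by
    induction hu using Submodule.span_induction with
    | zero => simp
    | add x y _ _ hx hy => rw [add_mul]; exact Submodule.add_mem _ hx hy
    | smul c x _ hx => rw [smul_mul_assoc]; exact Submodule.smul_mem _ _ hx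
    | mem x hx =>
      obtain ⟨g, u, rfl⟩ := hx
      have h2 := act_sub_mem_Ia (p ^ r - 1) g (u * ∏ l, Dk F n l ^ ρ l)
      simp only [map_mul, map_prod, map_pow, act_Dk] at h2
      rwa [sub_mul, smul_mul_assoc]
  rw [Theta_IG _ (Car_mem_IG p r h1), map_zero, mul_zero]

lemma PhiS_JN {m : ℕ} {u : MvPolynomial (Fin n) F}
    (hu : u ∈ JN F n (p ^ r * Fintype.card F ^ m)) :
    PhiS F n (p ^ r) u ∈ (remI F n m).map (expand (p ^ r)) := by
  rw [PhiS_eq_sum]
  refine Ideal.sum_mem _ fun ρ _ => Ideal.mul_mem_left _ _ (Ideal.mem_map_of_mem _ ?_)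
  exact Theta_mem_remI n (Car_mem_JN (pow_pos (Fact.out : p.Prime).pos r)
    (Ideal.mul_mem_right _ _ hu))

end Pool.Agent.Work.MP_a1538a_al.Hedge


/-!
The twisted cofixed space of the truncated polynomial ring.
-/

set_option autoImplicit false

namespace Pool.Agent.Work.MP_a1538a_al.Hedge

open Finset MvPolynomial Module

section Scale

variable {R : Type*} [CommRing R] {σ : Type*}

lemma weight_scale (s : ℕ) (w : σ → ℕ) (α : σ →₀ ℕ) :
    Finsupp.weight (fun i => s * w i) α = s * Finsupp.weight w α := by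
  simp only [Finsupp.weight_apply, Finsupp.sum, smul_eq_mul, Finset.mul_sum]
  exact Finset.sum_congr rfl fun i _ => by ring

lemma isWH_scale (s : ℕ) {w : σ → ℕ} {u : MvPolynomial σ R} {d : ℕ}
    (hu : u.IsWeightedHomogeneous w d) :
    u.IsWeightedHomogeneous (fun i => s * w i) (s * d) := fun α hα => by
  rw [weight_scale, hu hα]

lemma isWH_expand (s : ℕ) {w : σ → ℕ} {u : MvPolynomial σ R} {d : ℕ}
    (hu : u.IsWeightedHomogeneous (fun i => s * w i) d) :
    (expand s u).IsWeightedHomogeneous w d :=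
  isWH_aeval (θ := fun i => (X i : MvPolynomial σ R) ^ s)
    (fun i => by simpa using (isWeightedHomogeneous_X R w i).pow s) hu

end Scale

lemma finrank_prod_sub {F V W : Type*} [Field F] [AddCommGroup V] [Module F V] [AddCommGroup W]
    [Module F W] (A : Submodule F V) (B : Submodule F W) [FiniteDimensional F A]
    [FiniteDimensional F B] : finrank F (A.prod B) = finrank F A + finrank F B := by
  let e : A.prod B ≃ₗ[F] A × B :=
    { toFun := fun x => (⟨x.1.1, x.2.1⟩, ⟨x.1.2, x.2.2⟩)
      map_add' := fun _ _ => rfl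
      map_smul' := fun _ _ => rfl
      invFun := fun x => ⟨(x.1, x.2), x.1.2, x.2.2⟩
      left_inv := fun _ => rfl
      right_inv := fun _ => rfl }
  rw [e.finrank_eq, Module.finrank_prod]

variable {F : Type*} [Field F] [Fintype F] {n : ℕ}

variable (F n) in
/-- Degree of the Moore determinant. -/
def dL : ℕ := ∑ i : Fin n, Fintype.card F ^ (i : ℕ)

lemma sum_wC_add_dL {m : ℕ} (h : n ≤ m) :
    ∑ i, wC F n m i + dL F n = n * Fintype.card F ^ m := by
  rw [dL, ← Finset.sum_add_distrib, Finset.sum_congr rfl (g := fun _ => Fintype.card F ^ m)]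
  · simp
  · intro i _
    have : Fintype.card F ^ (i : ℕ) ≤ Fintype.card F ^ m :=
      Nat.pow_le_pow_right Fintype.card_pos (by omega)
    unfold wC; omega

lemma isWH_moore : (moore F n n).IsWeightedHomogeneous (1 : Fin n → ℕ) (dL F n) := by
  rw [moore_eq, ← Matrix.det_transpose, Matrix.det_apply]
  refine IsWeightedHomogeneous.sum _ _ _ fun σ _ => ?_
  rw [Units.smul_def]
  refine (weightedHomogeneousSubmodule F (1 : Fin n → ℕ) _).toAddSubgroup.zsmul_mem ?_ _
  refine isWH_congr (IsWeightedHomogeneous.prod _ _ _ fun i _ =>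
    (isWeightedHomogeneous_X F (1 : Fin n → ℕ) i).pow _) ?_
  simp only [Pi.one_apply, smul_eq_mul, mul_one]
  exact Equiv.sum_comp σ (fun i => Fintype.card F ^ (i : ℕ))

lemma isWH_Dk (l : Fin n) : (Dk F n l).IsWeightedHomogeneous (1 : Fin n → ℕ) (wC F n n l) :=
  isWH_dick (one_lt_q F) isWH_ext0 n l

variable (F n) in
/-- Residue of the Cartier image. -/
noncomputable def Psi (s j : ℕ) : MvPolynomial (Fin n) F →ₗ[F] MvPolynomial (Fin j) F :=
  (Theta F n (Fintype.card F) (X : Fin j → MvPolynomial (Fin j) F)).comp (Car F n s)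

lemma Psi_apply (s j : ℕ) (u : MvPolynomial (Fin n) F) : Psi F n s j u =
    Theta F n (Fintype.card F) (X : Fin j → MvPolynomial (Fin j) F) (Car F n s u) := rfl

lemma Psi_mem_Csh {s : ℕ} (hs : 0 < s) (j : ℕ) {e : ℕ} {u : MvPolynomial (Fin n) F}
    (hu : u.IsWeightedHomogeneous (1 : Fin n → ℕ) e) :
    Psi F n s j u ∈ Csh F (fun l => s * wC F j j l) (n * (s * Fintype.card F ^ j - 1)) e := by
  induction hu using IsWeightedHomogeneous.induction_on with
  | zero => simp
  | add p r _ _ hp hr => rw [map_add]; exact Submodule.add_mem _ hp hr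
  | monomial α a hα =>
    rw [Psi_apply, Car_monomial]
    split_ifs with h
    · have h1 : e = n * (s - 1) + s * Finsupp.weight (1 : Fin n → ℕ) (ediv s α) := by
        rw [← hα, weight_one, weight_one, Finset.mul_sum,
          show n * (s - 1) = ∑ _i : Fin n, (s - 1) by simp, ← Finset.sum_add_distrib]
        refine Finset.sum_congr rfl fun i _ => ?_
        rw [ediv_apply, ← h i, Nat.mod_add_div]
      obtain ⟨Q, hQ⟩ : ∃ Q, Fintype.card F ^ j = Q + 1 :=
        ⟨_, (Nat.sub_add_cancel (Nat.one_le_pow _ _ Fintype.card_pos)).symm⟩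
      obtain ⟨t, rfl⟩ : ∃ t, s = t + 1 := ⟨s - 1, by omega⟩
      have h2 : n * ((t + 1) * Fintype.card F ^ j - 1) = n * t + (t + 1) * (n * Q) := by
        rw [hQ, show (t + 1) * (Q + 1) - 1 = t + (t + 1) * Q by
          rw [mul_add (t + 1), mul_one]; omega]
        ring
      rcases mem_Csh.mp (Theta_mem_Csh j
        (isWeightedHomogeneous_monomial (1 : Fin n → ℕ) (ediv (t + 1) α) a rfl)) with
        ⟨h3, h4⟩ | h3
      · rw [hQ, Nat.add_sub_cancel] at h3
        rw [hQ, Nat.add_sub_cancel] at h4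
        rw [Nat.add_sub_cancel] at h1
        have h5 := Nat.mul_le_mul_left (t + 1) h3
        refine mem_Csh.mpr (Or.inl ⟨by omega, isWH_congr (isWH_scale (t + 1) h4) ?_⟩)
        rw [Nat.mul_sub, h2]
        omega
      · exact mem_Csh.mpr (Or.inr h3)
    · simp

variable (F n) in
/-- The section of `Psi`. -/
noncomputable def LamP (s j : ℕ) (P : MvPolynomial (Fin j) F) : MvPolynomial (Fin n) F :=
  monomial (top n (s - 1)) 1 * expand s (Lam F n j P)

lemma Car_LamP {s : ℕ} (hs : 0 < s) (j : ℕ) (P : MvPolynomial (Fin j) F) :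
    Car F n s (LamP F n s j P) = Lam F n j P := Car_top_mul_expand hs _

lemma LamP_mem {s : ℕ} (hs : 0 < s) {j : ℕ} (h : j ≤ n) {e : ℕ} {P : MvPolynomial (Fin j) F}
    (hP : P ∈ Csh F (fun l => s * wC F j j l) (n * (s * Fintype.card F ^ j - 1)) e) :
    (LamP F n s j P).IsWeightedHomogeneous (1 : Fin n → ℕ) e := by
  rcases mem_Csh.mp hP with ⟨h1, h2⟩ | h0
  · have h3 := isWH_expand s (isWH_scale s (isWH_LU (F := F) h))
    have h4 : (aeval (fun l => expand s (dick (Fintype.card F)
        (ext0 (X : Fin n → MvPolynomial (Fin n) F)) j l)) P).IsWeightedHomogeneous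
        (1 : Fin n → ℕ) _ :=
      isWH_aeval (fun l => isWH_expand s (isWH_scale s (isWH_dick (one_lt_q F) isWH_ext0 j l))) h2
    rw [LamP, Lam, map_mul, comp_aeval_apply]
    refine isWH_congr ((isWH_monomial_top _).mul (h3.mul h4)) ?_
    obtain ⟨Q, hQ⟩ : ∃ Q, Fintype.card F ^ j = Q + 1 :=
      ⟨_, (Nat.sub_add_cancel (Nat.one_le_pow _ _ Fintype.card_pos)).symm⟩
    obtain ⟨t, rfl⟩ : ∃ t, s = t + 1 := ⟨s - 1, by omega⟩
    have h5 : n * ((t + 1) * Fintype.card F ^ j - 1) = n * t + (t + 1) * (n * Q) := by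
      rw [hQ, show (t + 1) * (Q + 1) - 1 = t + (t + 1) * Q by
        rw [mul_add (t + 1), mul_one]; omega]
      ring
    rw [h5] at h1 ⊢
    rw [hQ, Nat.add_sub_cancel, Nat.add_sub_cancel]
    omega
  · rw [h0, LamP, Lam, map_zero, mul_zero, map_zero, mul_zero]
    exact isWeightedHomogeneous_zero _ _ _

variable (F n) in
/-- The section of `PhiS`. -/
noncomputable def LamF (s : ℕ) (P : MvPolynomial (Fin n) F) : MvPolynomial (Fin n) F :=
  moore F n n ^ (s - 1) * Lam F n n P

variable (F n) in
/-- The degree shift of `PhiS`. -/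
def shF (s : ℕ) : ℕ := n * (Fintype.card F ^ n - 1) + (s - 1) * dL F n

lemma LamF_mem (s : ℕ) {e : ℕ} {P : MvPolynomial (Fin n) F}
    (hP : P ∈ Csh F (wC F n n) (shF F n s) e) :
    (LamF F n s P).IsWeightedHomogeneous (1 : Fin n → ℕ) e := by
  rcases mem_Csh.mp hP with ⟨h1, h2⟩ | h0
  · rw [shF] at h1 h2
    refine isWH_congr ((isWH_moore.pow (s - 1)).mul (Lam_mem le_rfl
      (e := e - (s - 1) * dL F n) (mem_Csh.mpr (Or.inl ⟨by omega, isWH_congr h2 (by omega)⟩)))) ?_
    rw [smul_eq_mul]; omega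
  · rw [h0, LamF, Lam, map_zero, mul_zero, mul_zero]
    exact isWeightedHomogeneous_zero _ _ _

lemma LamF_eq {s : ℕ} (hs : 0 < s) (P : MvPolynomial (Fin n) F) : LamF F n s P =
    moore F n n ^ s * ((∏ i : Fin n, X i ^ bexp (Fintype.card F) n i) * aeval (Dk F n) P) := by
  obtain ⟨t, rfl⟩ : ∃ t, s = t + 1 := ⟨s - 1, by omega⟩
  rw [LamF, Lam_eq, Nat.add_sub_cancel]; ring

variable (p : ℕ) [Fact p.Prime] [CharP F p] (r : ℕ)

lemma PhiS_mem_Csh {e : ℕ} {u : MvPolynomial (Fin n) F}
    (hu : u.IsWeightedHomogeneous (1 : Fin n → ℕ) e) :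
    PhiS F n (p ^ r) u ∈ Csh F (wC F n n) (shF F n (p ^ r)) e := by
  have hN : 0 < p ^ r := pow_pos (Fact.out : p.Prime).pos r
  rw [PhiS_eq_sum]
  refine Submodule.sum_mem _ fun ρ hρ => ?_
  have h1 : (u * ∏ l, Dk F n l ^ ρ l).IsWeightedHomogeneous (1 : Fin n → ℕ)
      (e + ∑ l, ρ l * wC F n n l) :=
    hu.mul (IsWeightedHomogeneous.prod _ _ _ fun l _ => (isWH_Dk l).pow _)
  rcases mem_Csh.mp (Psi_mem_Csh hN n h1) with ⟨h2, h3⟩ | h0
  · have h4 : (∏ l, (X l : MvPolynomial (Fin n) F) ^ (p ^ r - 1 - ρ l)).IsWeightedHomogeneous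
        (wC F n n) (∑ l, (p ^ r - 1 - ρ l) * wC F n n l) :=
      IsWeightedHomogeneous.prod _ _ _ fun l _ => (isWeightedHomogeneous_X F _ l).pow _
    have h5 : ∑ l, (p ^ r - 1 - ρ l) * wC F n n l + ∑ l, ρ l * wC F n n l =
        (p ^ r - 1) * ∑ l, wC F n n l := by
      rw [← Finset.sum_add_distrib, Finset.mul_sum]
      refine Finset.sum_congr rfl fun l _ => ?_
      have := Finset.mem_range.mp (Fintype.mem_piFinset.mp hρ l)
      rw [← add_mul]; congr 1; omega
    have h6 := sum_wC_add_dL (F := F) (le_refl n)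
    obtain ⟨Q, hQ⟩ : ∃ Q, Fintype.card F ^ n = Q + 1 :=
      ⟨_, (Nat.sub_add_cancel (Nat.one_le_pow _ _ Fintype.card_pos)).symm⟩
    obtain ⟨t, ht⟩ : ∃ t, p ^ r = t + 1 := ⟨p ^ r - 1, by omega⟩
    have h7 : n * (p ^ r * Fintype.card F ^ n - 1) =
        shF F n (p ^ r) + (p ^ r - 1) * ∑ l, wC F n n l := by
      rw [shF, add_assoc, ← mul_add, add_comm (dL F n), h6, ht, hQ, Nat.add_sub_cancel,
        Nat.add_sub_cancel, show (t + 1) * (Q + 1) - 1 = Q + t * (Q + 1) by
          rw [add_mul, one_mul]; omega]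
      ring
    refine mem_Csh.mpr (Or.inl ⟨by omega, isWH_congr (h4.mul (isWH_expand _ h3)) (by omega)⟩)
  · rw [Psi_apply] at h0
    rw [h0]; simp

lemma PhiS_LamF (hs : p ^ r ≤ Fintype.card F) (P : MvPolynomial (Fin n) F) :
    PhiS F n (p ^ r) (LamF F n (p ^ r) P) = P := by
  rw [LamF_eq (pow_pos (Fact.out : p.Prime).pos r), PhiS_moore p r hs, ← mul_assoc, ← Lam_eq,
    Theta_Lam le_rfl]

lemma Psi_LamF {j : ℕ} (hj : j < n) (P : MvPolynomial (Fin n) F) :
    Psi F n (p ^ r) j (LamF F n (p ^ r) P) = 0 := by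
  rw [LamF_eq (pow_pos (Fact.out : p.Prime).pos r), Psi_apply, Car_moore_pow_mul,
    Theta_moore_mul_of_lt hj]

lemma LamF_mem_JN {m : ℕ} {P : MvPolynomial (Fin n) F}
    (hP : P ∈ (remI F n m).map (expand (p ^ r))) :
    LamF F n (p ^ r) P ∈ JN F n (p ^ r * Fintype.card F ^ m) := by
  rw [remI, Ideal.map_span, ← Set.range_comp] at hP
  obtain ⟨v, rfl⟩ := Ideal.mem_span_range_iff_exists_fun.mp hP
  rw [LamF_eq (pow_pos (Fact.out : p.Prime).pos r), map_sum, Finset.mul_sum, Finset.mul_sum]
  refine Ideal.sum_mem _ fun l _ => ?_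
  have h2 : aeval (Dk F n) (rem (Fintype.card F) (X : Fin n → MvPolynomial (Fin n) F) m l) =
      rem (Fintype.card F) (Dk F n) m l := by
    have := map_rem (Fintype.card F)
      (aeval (Dk F n) : MvPolynomial (Fin n) F →ₐ[F] _).toRingHom X m l
    simpa using this
  have h3 := pow_mem_span_pow p r _ (moore_mul_rem_mem (F := F) m l)
  simp only [← pow_mul, mul_comm (Fintype.card F ^ m)] at h3
  rw [Function.comp_apply, expand_rem, map_mul, map_pow, h2,
    show ∀ a b c d : MvPolynomial (Fin n) F, a ^ p ^ r * (b * (c * d ^ p ^ r)) =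
      b * c * (a * d) ^ p ^ r from fun a b c d => by ring]
  exact Ideal.mul_mem_left _ _ h3

omit [CharP F p] in
lemma moore_pow_sub_LamF (w : MvPolynomial (Fin n) F) :
    moore F n n ^ p ^ r * w - LamF F n (p ^ r) (Theta F n (Fintype.card F)
      (X : Fin n → MvPolynomial (Fin n) F) (moore F n n * w)) ∈ Ia F n (p ^ r - 1) := by
  have hN : 0 < p ^ r := pow_pos (Fact.out : p.Prime).pos r
  have h1 := moore_pow_mul_mem_Ia (p ^ r - 1) (mem_IG_of_null (K := AlgebraicClosure F)
    (null_sub_Lam (w := moore F n n * w) fun j hj => Theta_moore_mul_of_lt hj _ _))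
  rwa [mul_sub, ← mul_assoc, ← pow_succ, Nat.sub_add_cancel hN] at h1

variable (F n) in
/-- All residue maps together, modulo the remainders. -/
noncomputable def ThC (s m : ℕ) : MvPolynomial (Fin n) F →ₗ[F]
    (∀ j : Fin n, MvPolynomial (Fin j) F ⧸ remI F j m) ×
      (MvPolynomial (Fin n) F ⧸ (remI F n m).map (expand s)) :=
  LinearMap.prod
    (LinearMap.pi fun j => (Ideal.Quotient.mkₐ F (remI F j m)).toLinearMap.comp (Psi F n s j))
    ((Ideal.Quotient.mkₐ F ((remI F n m).map (expand s))).toLinearMap.comp (PhiS F n s))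

theorem ThC_eq_zero_iff (hs : p ^ r < Fintype.card F) (m : ℕ) (u : MvPolynomial (Fin n) F) :
    ThC F n (p ^ r) m u = 0 ↔
      u ∈ (JN F n (p ^ r * Fintype.card F ^ m)).restrictScalars F ⊔ Ia F n (p ^ r - 1) := by
  have hN : 0 < p ^ r := pow_pos (Fact.out : p.Prime).pos r
  have h0 : ThC F n (p ^ r) m u = 0 ↔ (∀ j < n, Psi F n (p ^ r) j u ∈ remI F j m) ∧
      PhiS F n (p ^ r) u ∈ (remI F n m).map (expand (p ^ r)) := by
    simp only [ThC, LinearMap.prod_apply, Function.prod, Prod.mk_eq_zero, funext_iff,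
      LinearMap.pi_apply, LinearMap.comp_apply, AlgHom.toLinearMap_apply,
      Ideal.Quotient.mkₐ_eq_mk, Pi.zero_apply, Ideal.Quotient.eq_zero_iff_mem]
    exact and_congr_left' ⟨fun h j hj => h ⟨j, hj⟩, fun h j => h j j.2⟩
  rw [h0]
  constructor
  · rintro ⟨h, h'⟩
    have key : ∀ k ≤ n, ∃ v ∈ JN F n (p ^ r * Fintype.card F ^ m), ∀ j < k,
        Psi F n (p ^ r) j (u - v) = 0 := by
      intro k
      induction k with
      | zero => exact fun _ => ⟨0, Ideal.zero_mem _, fun j hj => absurd hj (by omega)⟩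
      | succ k ih =>
        intro hk
        obtain ⟨v, hv, hv'⟩ := ih (by omega)
        refine ⟨v + LamP F n (p ^ r) k (Psi F n (p ^ r) k (u - v)),
          Ideal.add_mem _ hv (Ideal.mul_mem_left _ _ (expand_mem_JN _ (Lam_mem_JI ?_))),
          fun j hj => ?_⟩
        · rw [map_sub]
          exact Ideal.sub_mem _ (h k (by omega)) (Theta_mem_remI k (Car_mem_JN hN hv))
        · rw [← sub_sub, map_sub, Psi_apply _ _ (LamP _ _ _ _ _), Car_LamP hN]
          by_cases hjk : j = k
          · subst hjk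
            rw [Theta_Lam (by omega), sub_self]
          · rw [hv' j (by omega), Theta_Lam_of_lt (by omega), sub_self]
    obtain ⟨v, hv, hv'⟩ := key n le_rfl
    obtain ⟨w, hw⟩ := mem_Ia_sup_of_low p r hs hv'
    have h1 := PhiS_Ia p r hw
    rw [map_sub, map_sub, PhiS_moore p r hs.le, sub_eq_zero] at h1
    have h2 := LamF_mem_JN p r (Ideal.sub_mem _ h' (PhiS_JN p r hv))
    rw [h1] at h2
    have := Submodule.add_mem_sup (S := (JN F n (p ^ r * Fintype.card F ^ m)).restrictScalars F)
      (Ideal.add_mem _ hv h2) (Submodule.add_mem _ hw (moore_pow_sub_LamF p r w))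
    simpa using this
  · intro h
    obtain ⟨v, hv, w, hw, rfl⟩ := Submodule.mem_sup.mp h
    refine ⟨fun j _ => ?_, ?_⟩
    · rw [map_add, Psi_apply _ _ w, Theta_IG _ (Car_mem_IG p r hw), add_zero]
      exact Theta_mem_remI j (Car_mem_JN hN hv)
    · rw [map_add, PhiS_Ia p r hw, add_zero]
      exact PhiS_JN p r hv

lemma map_ThC (hs : p ^ r ≤ Fintype.card F) (m e : ℕ) :
    (weightedHomogeneousSubmodule F (1 : Fin n → ℕ) e).map (ThC F n (p ^ r) m) =
      (Submodule.pi Set.univ fun j : Fin n =>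
        (Csh F (fun l => p ^ r * wC F j j l) (n * (p ^ r * Fintype.card F ^ (j : ℕ) - 1)) e).map
          (Ideal.Quotient.mkₐ F (remI F j m)).toLinearMap).prod
      ((Csh F (wC F n n) (shF F n (p ^ r)) e).map
        (Ideal.Quotient.mkₐ F ((remI F n m).map (expand (p ^ r)))).toLinearMap) := by
  have hN : 0 < p ^ r := pow_pos (Fact.out : p.Prime).pos r
  apply le_antisymm
  · rintro _ ⟨u, hu, rfl⟩
    exact ⟨fun j _ => ⟨_, Psi_mem_Csh hN j hu, rfl⟩, ⟨_, PhiS_mem_Csh p r hu, rfl⟩⟩
  · rintro ⟨y, y'⟩ ⟨hy, P', hP', hy'⟩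
    choose P hP hP1 using fun j => hy j trivial
    have key : ∀ k ≤ n, ∃ u : MvPolynomial (Fin n) F,
        u.IsWeightedHomogeneous (1 : Fin n → ℕ) e ∧ ∀ j : Fin n, (j : ℕ) < k →
        Psi F n (p ^ r) j u = P j := by
      intro k
      induction k with
      | zero => exact fun _ => ⟨0, isWeightedHomogeneous_zero _ _ _,
          fun j hj => absurd hj (by omega)⟩
      | succ k ih =>
        intro hk
        obtain ⟨u, hu, hu'⟩ := ih (by omega)
        refine ⟨u + LamP F n (p ^ r) k (P ⟨k, hk⟩ - Psi F n (p ^ r) k u),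
          hu.add (LamP_mem hN (by omega)
            (Submodule.sub_mem _ (hP ⟨k, hk⟩) (Psi_mem_Csh hN k hu))), fun j hj => ?_⟩
        rw [map_add, Psi_apply _ _ (LamP _ _ _ _ _), Car_LamP hN]
        by_cases hjk : (j : ℕ) = k
        · subst hjk
          rw [Theta_Lam (by omega)]
          simp
        · rw [hu' j (by omega), Theta_Lam_of_lt (by omega), add_zero]
    obtain ⟨u, hu, hu'⟩ := key n le_rfl
    refine ⟨u + LamF F n (p ^ r) (P' - PhiS F n (p ^ r) u), hu.add (LamF_mem _
      (Submodule.sub_mem _ hP' (PhiS_mem_Csh p r hu))), Prod.ext (funext fun j => ?_) ?_⟩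
    · change Ideal.Quotient.mk _ (Psi F n (p ^ r) j _) = y j
      rw [map_add, Psi_LamF p r j.2, add_zero, hu' j j.2]
      exact hP1 j
    · change Ideal.Quotient.mk _ (PhiS F n (p ^ r) _) = y'
      rw [map_add, PhiS_LamF p r hs, add_sub_cancel]
      exact hy'

theorem finrank_map_ThC (hs : p ^ r ≤ Fintype.card F) (m e : ℕ) :
    finrank F ((weightedHomogeneousSubmodule F (1 : Fin n → ℕ) e).map (ThC F n (p ^ r) m)) =
      ∑ j ∈ range n, (if n * (p ^ r * Fintype.card F ^ j - 1) ≤ e then
        hf (fun l => p ^ r * wC F j j l) (remI F j m)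
          (e - n * (p ^ r * Fintype.card F ^ j - 1)) else 0) +
      if shF F n (p ^ r) ≤ e then
        hf (wC F n n) ((remI F n m).map (expand (p ^ r))) (e - shF F n (p ^ r)) else 0 := by
  have hN : 0 < p ^ r := pow_pos (Fact.out : p.Prime).pos r
  have := fun j : Fin n => finite_Csh (F := F) (w := fun l => p ^ r * wC F j j l)
    (fun l => Nat.mul_ne_zero hN.ne' (wC_ne F (le_refl (j : ℕ)) l))
    (n * (p ^ r * Fintype.card F ^ (j : ℕ) - 1)) e
  have := finite_Csh (F := F) (wC_ne F (le_refl n)) (shF F n (p ^ r)) e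
  rw [map_ThC p r hs, finrank_prod_sub, finrank_pi_sub,
    finrank_map_Csh, ← Fin.sum_univ_eq_sum_range (fun j =>
    if n * (p ^ r * Fintype.card F ^ j - 1) ≤ e then hf (fun l => p ^ r * wC F j j l) (remI F j m)
      (e - n * (p ^ r * Fintype.card F ^ j - 1)) else 0)]
  congr 1
  exact Finset.sum_congr rfl fun j _ => finrank_map_Csh _ _ _ _

end Pool.Agent.Work.MP_a1538a_al.Hedge


/-!
Hilbert series of the invariants modulo an arbitrary Frobenius power.
-/

set_option autoImplicit false

namespace Pool.Agent.Work.MP_a1538a_al.Hedge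

open Finset MvPolynomial Module

section Palin

variable {j : ℕ}

/-- The product `∏ (1 - X^(a i))`. -/
noncomputable def pd (a : Fin j → ℕ) : Polynomial ℚ := ∏ i, (1 - Polynomial.X ^ a i)

lemma pd_reverse (a : Fin j → ℕ) : (pd a).reverse = (-1) ^ j * pd a := by
  rw [pd, reverse_prod]
  simp only [one_sub_X_pow_reverse]
  rw [Finset.prod_neg, Finset.card_univ, Fintype.card_fin]

lemma pd_ne {a : Fin j → ℕ} (h : ∀ i, a i ≠ 0) : pd a ≠ 0 :=
  Finset.prod_ne_zero_iff.mpr fun i _ => one_sub_X_pow_ne (h i)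

lemma pd_natDegree {a : Fin j → ℕ} (h : ∀ i, a i ≠ 0) : (pd a).natDegree = ∑ i, a i := by
  rw [pd, Polynomial.natDegree_prod _ _ fun i _ => one_sub_X_pow_ne (h i)]
  simp only [one_sub_X_pow_natDegree]

lemma expand_pd (s : ℕ) (a : Fin j → ℕ) :
    Polynomial.expand ℚ s (pd a) = pd fun i => s * a i := by
  simp only [pd, map_prod, map_sub, map_one, map_pow, Polynomial.expand_X, pow_mul]

lemma flip_coeff {a b : Fin j → ℕ} (ha : ∀ i, a i ≠ 0) (hb : ∀ i, b i ≠ 0) {H : Polynomial ℚ}
    (h1 : H * pd a = pd b) {σ t T : ℕ} (hT : T + ∑ i, a i = σ + t + ∑ i, b i) (d : ℕ) :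
    (if d ≤ T then (if σ ≤ T - d then H.coeff (T - d - σ) else 0) else 0) =
      PowerSeries.coeff d ((PowerSeries.X : PowerSeries ℚ) ^ t * ∏ i,
        ((1 - (PowerSeries.X : PowerSeries ℚ) ^ b i) *
          (1 - (PowerSeries.X : PowerSeries ℚ) ^ a i)⁻¹)) := by
  have hH0 : H ≠ 0 := by
    rintro rfl
    exact pd_ne hb (by rw [← h1, zero_mul])
  have h2 := congrArg Polynomial.natDegree h1
  rw [Polynomial.natDegree_mul hH0 (pd_ne ha), pd_natDegree ha, pd_natDegree hb] at h2
  have h3 : H.reverse = H := by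
    have h4 := congrArg Polynomial.reverse h1
    rw [Polynomial.reverse_mul_of_domain, pd_reverse, pd_reverse, ← h1] at h4
    apply mul_right_cancel₀ (b := (-1) ^ j * pd a)
      (mul_ne_zero (pow_ne_zero _ (by simp)) (pd_ne ha))
    rw [h4]; ring
  have h5 : ∀ c : Fin j → ℕ, (pd c : PowerSeries ℚ) =
      ∏ i, (1 - (PowerSeries.X : PowerSeries ℚ) ^ c i) := by
    intro c
    rw [pd, ← Polynomial.coeToPowerSeries.ringHom_apply, map_prod]
    simp
  have h6 : (H : PowerSeries ℚ) = ∏ i, ((1 - (PowerSeries.X : PowerSeries ℚ) ^ b i) *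
      (1 - (PowerSeries.X : PowerSeries ℚ) ^ a i)⁻¹) := by
    rw [Finset.prod_mul_distrib, ← h5, ← h1, Polynomial.coe_mul, h5, mul_assoc,
      ← Finset.prod_mul_distrib, Finset.prod_eq_one, mul_one]
    intro i _
    apply PowerSeries.mul_inv_cancel
    simp [ha i]
  rw [← h6, PowerSeries.coeff_X_pow_mul', Polynomial.coeff_coe]
  by_cases h7 : t ≤ d ∧ d - t ≤ H.natDegree
  · rw [if_pos (by omega), if_pos (by omega), if_pos h7.1]
    conv_rhs => rw [← h3, Polynomial.coeff_reverse, Polynomial.revAt_le h7.2]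
    congr 1; omega
  · have h8 : (if t ≤ d then H.coeff (d - t) else 0) = 0 := by
      split_ifs with h9
      · exact Polynomial.coeff_eq_zero_of_natDegree_lt (by omega)
      · rfl
    rw [h8]
    split_ifs with h9 h10
    · exact Polynomial.coeff_eq_zero_of_natDegree_lt (by omega)
    · rfl
    · rfl

end Palin

variable {F : Type*} [Field F] [Fintype F] {n : ℕ}

omit [Fintype F] in
lemma hf_scale {σ : Type*} {s : ℕ} (hs : 0 < s) (w : σ → ℕ) (I : Ideal (MvPolynomial σ F))
    (d : ℕ) : hf (fun i => s * w i) I d = if s ∣ d then hf w I (d / s) else 0 := by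
  split_ifs with h
  · obtain ⟨d, rfl⟩ := h
    have : weightedHomogeneousSubmodule F (fun i => s * w i) (s * d) =
        weightedHomogeneousSubmodule F w d := by
      refine le_antisymm (fun u hu α hα => ?_) fun u hu => isWH_scale s hu
      have := hu hα
      rw [weight_scale] at this
      exact Nat.eq_of_mul_eq_mul_left hs this
    rw [hf, this, Nat.mul_div_cancel_left _ hs, hf]
  · have : weightedHomogeneousSubmodule F (fun i => s * w i) d = ⊥ := by
      rw [eq_bot_iff]
      intro u hu
      rw [Submodule.mem_bot]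
      ext α
      by_contra hc
      have := hu hc
      rw [weight_scale] at this
      exact h ⟨_, this.symm⟩
    rw [hf, this]; simp

lemma exists_poly {j m : ℕ} (h : j ≤ m) : ∃ H : Polynomial ℚ,
    (∀ d, H.coeff d = hf (wC F j j) (remI F j m) d) ∧ H * pd (wC F j j) = pd (wC F j m) := by
  obtain ⟨N, hN⟩ := hf_eventually_zero F h
  obtain ⟨H, hH⟩ : ∃ H : Polynomial ℚ, (H : PowerSeries ℚ) = HS (wC F j j) (remI F j m) := by
    refine ⟨PowerSeries.trunc (N + 1) (HS (wC F j j) (remI F j m)), ?_⟩
    ext d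
    rw [Polynomial.coeff_coe, PowerSeries.coeff_trunc]
    split_ifs with hd
    · rfl
    · simp [HS, hN d (by omega)]
  refine ⟨H, fun d => by rw [← Polynomial.coeff_coe, hH, HS, PowerSeries.coeff_mk], ?_⟩
  apply Polynomial.coe_injective ℚ
  rw [Polynomial.coe_mul, hH]
  exact HS_mul_pden F h

lemma exists_poly_scale {s : ℕ} (hs : 0 < s) {j m : ℕ} (h : j ≤ m) : ∃ H : Polynomial ℚ,
    (∀ d, H.coeff d = hf (fun i => s * wC F j j i) (remI F j m) d) ∧
      H * pd (fun i => s * wC F j j i) = pd (fun i => s * wC F j m i) := by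
  obtain ⟨H, h1, h2⟩ := exists_poly (F := F) h
  refine ⟨Polynomial.expand ℚ s H, fun d => ?_, by rw [← expand_pd, ← map_mul, h2, expand_pd]⟩
  rw [Polynomial.coeff_expand hs, hf_scale hs, h1]
  split_ifs <;> simp

lemma exists_poly_map {s : ℕ} (hs : 0 < s) {j m : ℕ} (h : j ≤ m) : ∃ H : Polynomial ℚ,
    (∀ d, H.coeff d = hf (wC F j j) ((remI F j m).map (expand s)) d) ∧
      H * pd (wC F j j) = pd (fun i => s * wC F j m i) := by
  obtain ⟨H, h1, h2⟩ := exists_poly_scale (F := F) hs h
  have h3 := HS_map (F := F) (e := fun _ : Fin j => s) (wC_ne F (le_refl j)) (fun _ => hs.ne')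
    (fun i => by simpa using (isWeightedHomogeneous_X F (wC F j j) i).pow s)
    (spans_pow fun _ => s) (remI F j m)
  have h4 : HS (fun i => s * wC F j j i) (remI F j m) = H := by
    ext d; rw [Polynomial.coeff_coe, h1, HS, PowerSeries.coeff_mk]
  refine ⟨bgen (wC F j j) (fun _ => s) * H, fun d => ?_, ?_⟩
  · rw [← Polynomial.coeff_coe, Polynomial.coe_mul, ← h4, ← h3, HS, PowerSeries.coeff_mk]
    rfl
  · rw [mul_right_comm, pd, bgen_mul, mul_comm]
    exact h2

omit [Fintype F] in
lemma mem_JN_of_pairing {N d : ℕ} {u : MvPolynomial (Fin n) F}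
    (hu : u.IsWeightedHomogeneous (1 : Fin n → ℕ) d)
    (h : ∀ v : MvPolynomial (Fin n) F, v.IsWeightedHomogeneous (1 : Fin n → ℕ)
      (n * (N - 1) - d) → d ≤ n * (N - 1) → coeff (top n (N - 1)) (u * v) = 0) :
    u ∈ JN F n N := by
  rw [mem_JN_iff]
  intro α hα
  by_contra hc
  push Not at hc
  have hle : α ≤ top n (N - 1) := fun i => by
    rw [top_apply]; have := hc i; omega
  have h1 := hu (mem_support_iff.mp hα)
  have h2 : Finsupp.weight (1 : Fin n → ℕ) (top n (N - 1) - α) + d = n * (N - 1) := by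
    rw [← h1, ← map_add, tsub_add_cancel_of_le hle, weight_top]
  have h3 := h (monomial (top n (N - 1) - α) 1)
    (isWeightedHomogeneous_monomial _ _ _ (by omega)) (by omega)
  have h4 := coeff_mul_monomial α (top n (N - 1) - α) (1 : F) u
  rw [add_tsub_cancel_of_le hle, h3, mul_one] at h4
  exact mem_support_iff.mp hα h4.symm

variable (F n) in
/-- Homogeneous polynomials that are invariant modulo the `N`-th powers of the variables. -/
noncomputable def WN (N d : ℕ) : Submodule F (MvPolynomial (Fin n) F) :=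
  homogeneousSubmodule (Fin n) F d ⊓ ⨅ g : Matrix.GeneralLinearGroup (Fin n) F,
    LinearMap.ker ((Ideal.Quotient.mkₐ F (JN F n N)).toLinearMap ∘ₗ
      ((act g.val).toLinearMap - LinearMap.id))

omit [Fintype F] in
lemma mem_WN {N d : ℕ} {u : MvPolynomial (Fin n) F} :
    u ∈ WN F n N d ↔ u.IsWeightedHomogeneous (1 : Fin n → ℕ) d ∧
      ∀ g : Matrix.GeneralLinearGroup (Fin n) F, act g.val u - u ∈ JN F n N := by
  simp only [WN, Submodule.mem_inf, Submodule.mem_iInf, LinearMap.mem_ker, LinearMap.comp_apply,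
    AlgHom.toLinearMap_apply, Ideal.Quotient.mkₐ_eq_mk, Ideal.Quotient.eq_zero_iff_mem,
    LinearMap.sub_apply, LinearMap.id_apply]
  rfl

omit [Fintype F] in
lemma finrank_WN_of_lt {N d : ℕ} (h : n * (N - 1) < d) :
    finrank F ((WN F n N d).map (Ideal.Quotient.mkₐ F (JN F n N)).toLinearMap) = 0 := by
  have : (WN F n N d).map (Ideal.Quotient.mkₐ F (JN F n N)).toLinearMap = ⊥ := by
    rw [eq_bot_iff]
    rintro _ ⟨u, hu, rfl⟩
    exact Ideal.Quotient.eq_zero_iff_mem.mpr
      (mem_JN_of_pairing (mem_WN.mp hu).1 fun _ _ h' => absurd h' (by omega))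
  rw [this]; simp

omit [Fintype F] in
lemma finrank_WN_of_le {N a d : ℕ} (hN : 0 < N) (h : d ≤ n * (N - 1))
    (hdet : ∀ (g : Matrix.GeneralLinearGroup (Fin n) F) (W : MvPolynomial (Fin n) F),
      coeff (top n (N - 1)) (act g.val W) = g.val.det ^ a * coeff (top n (N - 1)) W)
    {V : Type*} [AddCommGroup V] [Module F V] (T : MvPolynomial (Fin n) F →ₗ[F] V)
    (hT : ∀ u, T u = 0 ↔ u ∈ (JN F n N).restrictScalars F ⊔ Ia F n a) :
    finrank F ((WN F n N d).map (Ideal.Quotient.mkₐ F (JN F n N)).toLinearMap) =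
      finrank F ((weightedHomogeneousSubmodule F (1 : Fin n → ℕ) (n * (N - 1) - d)).map T) := by
  set e := n * (N - 1) - d with he
  set Sd := weightedHomogeneousSubmodule F (1 : Fin n → ℕ) d with hSd
  set Se := weightedHomogeneousSubmodule F (1 : Fin n → ℕ) e with hSe
  have : FiniteDimensional F Sd := finite_WH (by simp) _
  have : FiniteDimensional F Se := finite_WH (by simp) _
  let B : Se →ₗ[F] Sd →ₗ[F] F :=
    ((LinearMap.mul F (MvPolynomial (Fin n) F)).compr₂
      (lcoeff F (top n (N - 1)))).compl₁₂ Se.subtype Sd.subtype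
  have hB : ∀ (v : Se) (u : Sd),
      B v u = coeff (top n (N - 1)) (u.1 * v.1) := fun v u => by
    simp [B, mul_comm]
  have hkey : ∀ (g : Matrix.GeneralLinearGroup (Fin n) F) (u v : MvPolynomial (Fin n) F),
      coeff (top n (N - 1)) (u * (act g.val v - g.val.det ^ a • v)) =
        - coeff (top n (N - 1)) ((act g.val u - u) * act g.val v) := by
    intro g u v
    rw [mul_sub, sub_mul, ← map_mul, coeff_sub, coeff_sub, hdet, mul_smul_comm, coeff_smul,
      smul_eq_mul, neg_sub]
  let K : Submodule F Se := LinearMap.ker (T.domRestrict Se)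
  have hK : ∀ v : Se, v ∈ K ↔ v.1 ∈ (JN F n N).restrictScalars F ⊔ Ia F n a := fun v => hT v.1
  have h1 : WN F n N d = ((WN F n N d).comap Sd.subtype).map Sd.subtype := by
    rw [Submodule.map_comap_subtype, eq_comm, inf_eq_right]
    exact fun u hu => (mem_WN.mp hu).1
  have h2 : ((WN F n N d).comap Sd.subtype).map B.flip = K.dualAnnihilator := by
    apply le_antisymm
    · rintro _ ⟨u, hu, rfl⟩
      rw [Submodule.mem_dualAnnihilator]
      intro v hv
      obtain ⟨x, hx, b, hb, hab⟩ := Submodule.mem_sup.mp ((hK v).mp hv)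
      rw [LinearMap.flip_apply, hB, ← hab, mul_add, coeff_add,
        coeff_top_of_mem_JN hN (Ideal.mul_mem_left _ _ hx), zero_add]
      clear hab
      induction hb using Submodule.span_induction with
      | zero => simp
      | add x y _ _ hx hy => rw [mul_add, coeff_add, hx, hy, add_zero]
      | smul a x _ hx => rw [mul_smul_comm, coeff_smul, hx, smul_zero]
      | mem x hx =>
        obtain ⟨g, w, rfl⟩ := hx
        rw [hkey, neg_eq_zero]
        exact coeff_top_of_mem_JN hN (Ideal.mul_mem_right _ _ ((mem_WN.mp hu).2 g))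
    · intro φ hφ
      have h3 : φ ∈ (LinearMap.ker B).dualAnnihilator := by
        refine Submodule.dualAnnihilator_anti (fun v hv => ?_) hφ
        rw [hK]
        refine Submodule.mem_sup_left (mem_JN_of_pairing v.2 fun u hu _ => ?_)
        have h4 : n * (N - 1) - e = d := by omega
        rw [h4] at hu
        have := hB v ⟨u, hu⟩
        rw [LinearMap.mem_ker.mp hv] at this
        rw [mul_comm]
        exact this.symm
      rw [LinearMap.dualAnnihilator_ker_eq_range_flip] at h3
      obtain ⟨u, rfl⟩ := h3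
      refine ⟨u, mem_WN.mpr ⟨u.2, fun g => ?_⟩, rfl⟩
      refine mem_JN_of_pairing ((isWH_act _ u.2).sub u.2) fun v hv _ => ?_
      rw [Submodule.mem_dualAnnihilator] at hφ
      have hv' := isWH_act (g⁻¹).val hv
      have h4 := hφ ⟨act g.val (act (g⁻¹).val v) - g.val.det ^ a • act (g⁻¹).val v,
        Se.sub_mem (isWH_act _ hv') (Se.smul_mem _ hv')⟩
        ((hK _).mpr (Submodule.mem_sup_right (act_sub_mem_Ia _ _ _)))
      rw [LinearMap.flip_apply, hB, hkey, neg_eq_zero, act_act] at h4
      simpa using h4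
  have h3 := Subspace.finrank_add_finrank_dualAnnihilator_eq K
  have h4 := LinearMap.finrank_range_add_finrank_ker (T.domRestrict Se)
  rw [LinearMap.range_domRestrict] at h4
  rw [h1, ← Submodule.map_comp, finrank_map_eq_of_ker _ B.flip, h2]
  · change _ + finrank F K = _ at h4
    rw [← h3, add_comm] at h4
    exact (Nat.add_left_cancel h4).symm
  · intro u _
    simp only [LinearMap.comp_apply, AlgHom.toLinearMap_apply, Ideal.Quotient.mkₐ_eq_mk,
      Ideal.Quotient.eq_zero_iff_mem, Submodule.subtype_apply]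
    constructor
    · intro hu
      ext v
      rw [LinearMap.flip_apply, hB]
      exact coeff_top_of_mem_JN hN (Ideal.mul_mem_right _ _ hu)
    · intro hu
      refine mem_JN_of_pairing u.2 fun v hv _ => ?_
      rw [← hB ⟨v, hv⟩ u, ← LinearMap.flip_apply, hu]
      rfl

lemma det_pow_mul_pow {s : ℕ} (hs : 0 < s) (m : ℕ) {x : F} (hx : x ≠ 0) :
    x ^ (s * Fintype.card F ^ m - 1) = x ^ (s - 1) := by
  have h1 : 0 < s * Fintype.card F ^ m := Nat.mul_pos hs (pow_pos Fintype.card_pos _)
  apply mul_right_cancel₀ hx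
  rw [← pow_succ, ← pow_succ, Nat.sub_add_cancel h1, Nat.sub_add_cancel hs, pow_mul,
    FiniteField.pow_card_pow]

theorem hilbert_series_all {s : ℕ} (hs : s ∣ Fintype.card F) (hs' : s < Fintype.card F) (m : ℕ) :
    PowerSeries.mk (fun d : ℕ =>
      ((finrank F ((WN F n (s * Fintype.card F ^ m) d).map
        (Ideal.Quotient.mkₐ F (JN F n (s * Fintype.card F ^ m))).toLinearMap) : ℕ) : ℚ)) =
    ∑ k ∈ Finset.range (min n (m + 1)),
      (PowerSeries.X : PowerSeries ℚ) ^
          (s * (n - k) * (Fintype.card F ^ m - Fintype.card F ^ k)) *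
        ∏ i ∈ Finset.range k,
          ((1 - (PowerSeries.X : PowerSeries ℚ) ^
              (s * (Fintype.card F ^ m - Fintype.card F ^ i))) *
            (1 - (PowerSeries.X : PowerSeries ℚ) ^
              (s * (Fintype.card F ^ k - Fintype.card F ^ i)))⁻¹) +
      ∏ i ∈ Finset.range n,
        ((1 - (PowerSeries.X : PowerSeries ℚ) ^ (s * (Fintype.card F ^ m - Fintype.card F ^ i))) *
          (1 - (PowerSeries.X : PowerSeries ℚ) ^ (Fintype.card F ^ n - Fintype.card F ^ i))⁻¹) := by
  obtain ⟨p, hp, f, hp', hq⟩ := FiniteField.card' F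
  have : Fact p.Prime := ⟨hp'⟩
  obtain ⟨r, -, rfl⟩ := (Nat.dvd_prime_pow hp').mp (hq ▸ hs)
  have hN : 0 < p ^ r := pow_pos hp'.pos r
  have hN' : 0 < p ^ r * Fintype.card F ^ m := Nat.mul_pos hN (pow_pos Fintype.card_pos _)
  have hdet : ∀ (g : Matrix.GeneralLinearGroup (Fin n) F) (W : MvPolynomial (Fin n) F),
      coeff (top n (p ^ r * Fintype.card F ^ m - 1)) (act g.val W) =
        g.val.det ^ (p ^ r - 1) * coeff (top n (p ^ r * Fintype.card F ^ m - 1)) W := by
    intro g W
    rw [← det_pow_mul_pow hN m g.det_ne_zero,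
      show p ^ r * Fintype.card F ^ m = p ^ (r + f * m) by rw [hq, pow_add, pow_mul]]
    exact coeff_top_act_det p _ _ _
  set T := n * (p ^ r * Fintype.card F ^ m - 1) with hT
  ext d
  have h1 : ((finrank F ((WN F n (p ^ r * Fintype.card F ^ m) d).map
      (Ideal.Quotient.mkₐ F (JN F n (p ^ r * Fintype.card F ^ m))).toLinearMap) : ℕ) : ℚ) =
      ∑ j ∈ range n, (if d ≤ T then (if n * (p ^ r * Fintype.card F ^ j - 1) ≤ T - d then
        (hf (fun l => p ^ r * wC F j j l) (remI F j m)
          (T - d - n * (p ^ r * Fintype.card F ^ j - 1)) : ℚ) else 0) else 0) +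
      if d ≤ T then (if shF F n (p ^ r) ≤ T - d then
        (hf (wC F n n) ((remI F n m).map (expand (p ^ r))) (T - d - shF F n (p ^ r)) : ℚ)
          else 0) else 0 := by
    by_cases h : d ≤ T
    · rw [finrank_WN_of_le hN' h hdet _ (ThC_eq_zero_iff p r hs' m), finrank_map_ThC p r hs'.le]
      simp only [if_pos h]
      push_cast
      rfl
    · rw [finrank_WN_of_lt (by omega)]
      simp [if_neg h]
  rw [PowerSeries.coeff_mk, h1, map_add, map_sum,
    ← Finset.sum_subset (Finset.range_mono (min_le_left n (m + 1)))]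
  · congr 1
    · refine Finset.sum_congr rfl fun k hk => ?_
      have hk' := Finset.mem_range.mp hk
      obtain ⟨H, h2, h3⟩ := exists_poly_scale (F := F) hN (by omega : k ≤ m)
      rw [← h2, flip_coeff (fun i => Nat.mul_ne_zero hN.ne' (wC_ne F le_rfl i))
        (fun i => Nat.mul_ne_zero hN.ne' (wC_ne F (by omega) i)) h3
        (t := p ^ r * (n - k) * (Fintype.card F ^ m - Fintype.card F ^ k)),
        ← Fin.prod_univ_eq_prod_range (fun i => (1 - (PowerSeries.X : PowerSeries ℚ) ^
              (p ^ r * (Fintype.card F ^ m - Fintype.card F ^ i))) *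
            (1 - (PowerSeries.X : PowerSeries ℚ) ^
              (p ^ r * (Fintype.card F ^ k - Fintype.card F ^ i)))⁻¹)]
      · rfl
      · have h4 := sum_wC_add_dL (F := F) (le_refl k)
        have h5 := sum_wC_add_dL (F := F) (by omega : k ≤ m)
        obtain ⟨δ, hδ⟩ := Nat.exists_eq_add_of_le (Nat.pow_le_pow_right
          (Fintype.card_pos (α := F)) (by omega : k ≤ m))
        obtain ⟨c, rfl⟩ := Nat.exists_eq_add_of_le (by omega : k ≤ n)
        obtain ⟨Q, hQ⟩ : ∃ Q, p ^ r * Fintype.card F ^ k = Q + 1 :=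
          ⟨_, (Nat.sub_add_cancel (Nat.mul_pos hN (pow_pos Fintype.card_pos _))).symm⟩
        have h6 : ∑ i, wC F k m i = ∑ i, wC F k k i + k * δ := by
          rw [hδ, mul_add] at h5; omega
        rw [← Finset.mul_sum, ← Finset.mul_sum, h6, hT, hδ, mul_add (p ^ r), hQ,
          Nat.add_sub_cancel, Nat.add_sub_cancel_left, Nat.add_sub_cancel_left,
          show Q + 1 + p ^ r * δ - 1 = Q + p ^ r * δ by omega]
        ring
    · by_cases hm : n ≤ m
      · obtain ⟨H, h2, h3⟩ := exists_poly_map (F := F) hN hm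
        rw [← h2, flip_coeff (wC_ne F le_rfl)
          (fun i => Nat.mul_ne_zero hN.ne' (wC_ne F hm i)) h3 (t := 0), pow_zero, one_mul,
          ← Fin.prod_univ_eq_prod_range (fun i => (1 - (PowerSeries.X : PowerSeries ℚ) ^
                (p ^ r * (Fintype.card F ^ m - Fintype.card F ^ i))) *
              (1 - (PowerSeries.X : PowerSeries ℚ) ^
                (Fintype.card F ^ n - Fintype.card F ^ i))⁻¹)]
        · rfl
        · have h4 := sum_wC_add_dL (F := F) (le_refl n)
          have h5 := congrArg (p ^ r * ·) (sum_wC_add_dL (F := F) hm)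
          have h6 : n * (p ^ r * Fintype.card F ^ m - 1) + n =
              p ^ r * (n * Fintype.card F ^ m) := by
            rw [← Nat.mul_succ, Nat.succ_eq_add_one, Nat.sub_add_cancel hN']; ring
          have h7 : n * (Fintype.card F ^ n - 1) + n = n * Fintype.card F ^ n := by
            rw [← Nat.mul_succ, Nat.succ_eq_add_one,
              Nat.sub_add_cancel (Nat.one_le_pow _ _ Fintype.card_pos)]
          have h8 : (p ^ r - 1) * dL F n + dL F n = p ^ r * dL F n := by
            rw [← Nat.succ_mul, Nat.succ_eq_add_one, Nat.sub_add_cancel hN]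
          simp only [mul_add] at h5
          rw [← Finset.mul_sum, shF]
          omega
      · rw [remI_eq_top F (by omega : m < n), Ideal.map_top, hf_top,
          Finset.prod_eq_zero (Finset.mem_range.mpr (by omega : m < n)) (by simp)]
        simp
  · intro k hk hk'
    rw [Finset.mem_range] at hk hk'
    rw [remI_eq_top F (by omega : m < k), hf_top]
    simp

end Pool.Agent.Work.MP_a1538a_al.Hedge
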